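import Mathlib
import Pool.Agent.Work.MP_10b086_an.Ford

/-! Bundle of small proof modules (one section per former module). -/

section

open MeasureTheory Topology Filter Set

namespace Pool.Agent.Work.MP_10b086_an

theorem pettis {X : Type*} [NormedAddCommGroup X] [CompleteSpace X]
    [MeasurableSpace X] [BorelSpace X] {S : Set X} (hS : MeasurableSet S)
    (hm : ¬ IsMeagre S) :
    ∃ ε : ℝ, 0 < ε ∧ ∀ v : X, ‖v‖ < ε → ∃ x, x ∈ S ∧ x + v ∈ S := by
  obtain ⟨U, hU, hSU⟩ := hS.residualEq_isOpen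
  have hUne : U.Nonempty := by
    by_contra hne
    rw [Set.not_nonempty_iff_eq_empty] at hne
    subst hne
    apply hm
    rw [IsMeagre]
    filter_upwards [hSU.mem_iff] with x hx
    simpa using hx
  obtain ⟨u, hu⟩ := hUne
  obtain ⟨ε, hε, hball⟩ := Metric.isOpen_iff.1 hU u hu
  refine ⟨ε, hε, fun v hv => ?_⟩
  have h1 : ∀ᶠ x in residual X, x ∈ S ↔ x ∈ U := hSU.mem_iff
  have h2 : ∀ᶠ x in residual X, x + v ∈ S ↔ x + v ∈ U := by
    have ht : Tendsto (fun x : X => x + v) (residual X) (residual X) :=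
      tendsto_residual_of_isOpenMap (continuous_id.add continuous_const)
        (Homeomorph.addRight v).isOpenMap
    exact ht.eventually h1
  have h3 : Dense {x : X | (x ∈ S ↔ x ∈ U) ∧ (x + v ∈ S ↔ x + v ∈ U)} :=
    dense_of_mem_residual (h1.and h2)
  have hopen : IsOpen (U ∩ (fun x : X => x + v) ⁻¹' U) :=
    hU.inter (hU.preimage (continuous_id.add continuous_const))
  have hne : (U ∩ (fun x : X => x + v) ⁻¹' U).Nonempty := by
    refine ⟨u, hu, ?_⟩
    apply hball
    simpa [Metric.mem_ball, dist_eq_norm] using hv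
  obtain ⟨x, hx1, hx2⟩ := h3.inter_open_nonempty _ hopen hne
  exact ⟨x, hx2.1.2 hx1.1, hx2.2.2 hx1.2⟩

theorem isClosed_of_analytic_cofinite {X : Type*} [NormedAddCommGroup X] [NormedSpace ℂ X]
    [CompleteSpace X] [SecondCountableTopology X] (W : Submodule ℂ X)
    (hW : MeasureTheory.AnalyticSet (W : Set X)) (hfin : FiniteDimensional ℂ (X ⧸ W)) :
    IsClosed (W : Set X) := by
  borelize X
  obtain ⟨F, hF⟩ := Submodule.exists_isCompl W
  have hFfin : FiniteDimensional ℂ F :=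
    LinearEquiv.finiteDimensional (Submodule.quotientEquivOfIsCompl W F hF)
  have hFc : CompleteSpace F := FiniteDimensional.complete ℂ F
  set φ : X →ₗ[ℂ] F := Submodule.projectionOnto F W hF.symm with hφ
  have hφW : ∀ x, φ x = 0 ↔ x ∈ W := fun x =>
    Submodule.projectionOnto_apply_eq_zero_iff hF.symm
  have hφF : ∀ f : F, φ f = f := fun f => Submodule.projectionOnto_apply_left hF.symm f
  have key : ∀ B : Set F, AnalyticSet B → AnalyticSet (φ ⁻¹' B) := by
    intro B hB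
    obtain ⟨Z1, i1, i1', g1, g1c, g1r⟩ := analyticSet_iff_exists_polishSpace_range.1 hW
    obtain ⟨Z2, i2, i2', g2, g2c, g2r⟩ := analyticSet_iff_exists_polishSpace_range.1 hB
    have hr : φ ⁻¹' B = range (fun z : Z1 × Z2 => g1 z.1 + (g2 z.2 : X)) := by
      ext x
      constructor
      · intro hx
        have hx2 : φ x ∈ B := hx
        rw [← g2r] at hx2
        obtain ⟨z2, hz2⟩ := hx2
        have hx1 : x - (φ x : X) ∈ (W : Set X) := by
          show x - (φ x : X) ∈ W
          rw [← hφW, map_sub, hφF, sub_self]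
        rw [← g1r] at hx1
        obtain ⟨z1, hz1⟩ := hx1
        refine ⟨(z1, z2), ?_⟩
        simp only [hz1, hz2]
        abel
      · rintro ⟨⟨z1, z2⟩, rfl⟩
        have h1 : g1 z1 ∈ W := by
          have : g1 z1 ∈ (W : Set X) := g1r ▸ mem_range_self z1
          exact this
        have h2 : g2 z2 ∈ B := g2r ▸ mem_range_self z2
        show φ (g1 z1 + (g2 z2 : X)) ∈ B
        rw [map_add, (hφW _).2 h1, hφF, zero_add]
        exact h2
    rw [hr]
    apply analyticSet_range_of_polishSpace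
    exact (g1c.comp continuous_fst).add
      (continuous_subtype_val.comp (g2c.comp continuous_snd))
  have hmeas : ∀ n : ℕ, MeasurableSet (φ ⁻¹' Metric.closedBall 0 n) := by
    intro n
    apply AnalyticSet.measurableSet_of_compl
    · exact key _ (Metric.isClosed_closedBall.analyticSet)
    · rw [← preimage_compl]
      apply key
      letI : MeasurableSpace F := borel F
      haveI : BorelSpace F := ⟨rfl⟩
      exact (Metric.isClosed_closedBall.isOpen_compl.measurableSet).analyticSet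
  have hex : ∃ n : ℕ, ¬ IsMeagre (φ ⁻¹' Metric.closedBall 0 n) := by
    by_contra hcon
    push Not at hcon
    have hU : IsMeagre (⋃ n : ℕ, φ ⁻¹' Metric.closedBall 0 n) := isMeagre_iUnion hcon
    have hU2 : (⋃ n : ℕ, φ ⁻¹' Metric.closedBall 0 (n : ℝ)) = univ := by
      rw [eq_univ_iff_forall]
      intro x
      obtain ⟨n, hn⟩ := exists_nat_ge ‖φ x‖
      rw [mem_iUnion]
      exact ⟨n, by simpa using hn⟩
    rw [hU2] at hU
    exact not_isMeagre_of_isOpen isOpen_univ ⟨0, mem_univ _⟩ hU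
  obtain ⟨n, hn⟩ := hex
  obtain ⟨ε, hε, hv⟩ := pettis (hmeas n) hn
  have hb : ∀ v : X, ‖v‖ < ε → ‖φ v‖ ≤ 2 * n := by
    intro v hvε
    obtain ⟨x, hx1, hx2⟩ := hv v hvε
    have h1 : ‖φ x‖ ≤ n := by simpa using hx1
    have h2 : ‖φ (x + v)‖ ≤ n := by simpa using hx2
    have h3 : φ v = φ (x + v) - φ x := by rw [map_add]; abel
    calc ‖φ v‖ = ‖φ (x + v) - φ x‖ := by rw [h3]
      _ ≤ ‖φ (x + v)‖ + ‖φ x‖ := norm_sub_le _ _
      _ ≤ 2 * n := by linarith
  have hcont : Continuous φ := by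
    obtain ⟨C, hC⟩ := LinearMap.bound_of_ball_bound hε (2 * n) φ (fun z hz => hb z (by simpa using hz))
    exact AddMonoidHomClass.continuous_of_bound φ C hC
  have : (W : Set X) = φ ⁻¹' {0} := by
    ext x
    simp only [SetLike.mem_coe, mem_preimage, mem_singleton_iff]
    exact (hφW x).symm
  rw [this]
  exact isClosed_singleton.preimage hcont

theorem analytic_span_mul (A : Type*) [NonUnitalNormedRing A] [NormedSpace ℂ A]
    [IsScalarTower ℂ A A]
    [SMulCommClass ℂ A A] [CompleteSpace A] [SecondCountableTopology A] (V W : Submodule ℂ A)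
    (hV : MeasureTheory.AnalyticSet (V : Set A)) (hW : MeasureTheory.AnalyticSet (W : Set A)) :
    MeasureTheory.AnalyticSet
      (Submodule.span ℂ {x | ∃ a ∈ V, ∃ b ∈ W, x = a * b} : Set A) := by
  obtain ⟨Z1, i1, i1', g1, g1c, g1r⟩ := analyticSet_iff_exists_polishSpace_range.1 hV
  obtain ⟨Z2, i2, i2', g2, g2c, g2r⟩ := analyticSet_iff_exists_polishSpace_range.1 hW
  have hg1 : ∀ z, g1 z ∈ V := fun z => by
    have : g1 z ∈ (V : Set A) := g1r ▸ mem_range_self z
    exact this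
  have hg2 : ∀ z, g2 z ∈ W := fun z => by
    have : g2 z ∈ (W : Set A) := g2r ▸ mem_range_self z
    exact this
  have hr : (Submodule.span ℂ {x | ∃ a ∈ V, ∃ b ∈ W, x = a * b} : Set A) =
      ⋃ n : ℕ, range (fun z : Fin n → Z1 × Z2 => ∑ i, g1 (z i).1 * g2 (z i).2) := by
    ext x
    rw [SetLike.mem_coe]
    constructor
    · intro hx
      induction hx using Submodule.span_induction with
      | mem x hx =>
        obtain ⟨a, ha, b, hb, rfl⟩ := hx
        have ha' : a ∈ (V : Set A) := ha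
        have hb' : b ∈ (W : Set A) := hb
        rw [← g1r] at ha'
        rw [← g2r] at hb'
        obtain ⟨z1, rfl⟩ := ha'
        obtain ⟨z2, rfl⟩ := hb'
        rw [mem_iUnion]
        exact ⟨1, fun _ => (z1, z2), by simp⟩
      | zero =>
        rw [mem_iUnion]
        exact ⟨0, fun i => i.elim0, by simp⟩
      | add x y _ _ hx hy =>
        rw [mem_iUnion] at hx hy ⊢
        obtain ⟨n, z, rfl⟩ := hx
        obtain ⟨m, w, rfl⟩ := hy
        refine ⟨n + m, Fin.append z w, ?_⟩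
        simp [Fin.sum_univ_add]
      | smul c x _ hx =>
        rw [mem_iUnion] at hx ⊢
        obtain ⟨n, z, rfl⟩ := hx
        have : ∀ i, ∃ w, g1 w = c • g1 (z i).1 := by
          intro i
          have h : c • g1 (z i).1 ∈ (V : Set A) := V.smul_mem c (hg1 _)
          rw [← g1r] at h
          exact h
        choose w hw using this
        refine ⟨n, fun i => (w i, (z i).2), ?_⟩
        simp only [hw, Finset.smul_sum, smul_mul_assoc]
    · intro hx
      rw [mem_iUnion] at hx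
      obtain ⟨n, z, rfl⟩ := hx
      apply Submodule.sum_mem
      intro i _
      apply Submodule.subset_span
      exact ⟨_, hg1 _, _, hg2 _, rfl⟩
  rw [hr]
  apply AnalyticSet.iUnion
  intro n
  apply analyticSet_range_of_polishSpace
  apply continuous_finsetSum
  intro i _
  exact (g1c.comp (continuous_fst.comp (continuous_apply i))).mul
    (g2c.comp (continuous_snd.comp (continuous_apply i)))

end Pool.Agent.Work.MP_10b086_an

end

section

/-!
# The separating space of an involution is topologically nil (Johnson, Ransford)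
-/

open Topology Filter Set
open scoped ComplexConjugate NNReal ENNReal

namespace Pool.Agent.Work.MP_10b086_an

/-- a three circles estimate -/
theorem three_circle {U : Type*} [NormedAddCommGroup U] [NormedSpace ℂ U] {q : ℂ → U}
    (hq : Differentiable ℂ q) {R A B : ℝ} (hR : 1 < R)
    (hA : ∀ z : ℂ, ‖z‖ = R → ‖q z‖ ≤ A) (hB : ∀ z : ℂ, ‖z‖ = R⁻¹ → ‖q z‖ ≤ B) :
    ‖q 1‖ ^ 2 ≤ A * B := by
  have hR0 : 0 < R := by linarith
  have hRi : 0 < R⁻¹ := inv_pos.2 hR0
  have hRi1 : R⁻¹ < 1 := inv_lt_one_of_one_lt₀ hR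
  obtain ⟨g, hg1, hg2⟩ := exists_dual_vector'' ℂ (q 1)
  let φ : ℂ → ℂ := fun z => g (q z) * g (q z⁻¹)
  let an : Set ℂ := {z : ℂ | R⁻¹ < ‖z‖ ∧ ‖z‖ < R}
  have hopen : IsOpen an :=
    (isOpen_lt continuous_const continuous_norm).inter (isOpen_lt continuous_norm continuous_const)
  have hclosed : IsClosed {z : ℂ | R⁻¹ ≤ ‖z‖ ∧ ‖z‖ ≤ R} :=
    (isClosed_le continuous_const continuous_norm).inter (isClosed_le continuous_norm continuous_const)
  have hcl : closure an ⊆ {z : ℂ | R⁻¹ ≤ ‖z‖ ∧ ‖z‖ ≤ R} :=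
    closure_minimal (fun z hz => ⟨hz.1.le, hz.2.le⟩) hclosed
  have hbdd : Bornology.IsBounded an := by
    refine (Metric.isBounded_closedBall (x := (0 : ℂ)) (r := R)).subset fun z hz => ?_
    rw [mem_closedBall_zero_iff]
    exact hz.2.le
  have hgA : ∀ z : ℂ, ‖z‖ = R → ‖g (q z)‖ ≤ A := fun z hz =>
    ((g.le_opNorm _).trans (mul_le_of_le_one_left (norm_nonneg _) hg1)).trans (hA z hz)
  have hgB : ∀ z : ℂ, ‖z‖ = R⁻¹ → ‖g (q z)‖ ≤ B := fun z hz =>
    ((g.le_opNorm _).trans (mul_le_of_le_one_left (norm_nonneg _) hg1)).trans (hB z hz)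
  have hA0 : 0 ≤ A := (norm_nonneg _).trans (hA (R : ℂ) (by simp [abs_of_pos hR0]))
  have hB0 : 0 ≤ B := (norm_nonneg _).trans (hB ((R : ℂ)⁻¹) (by simp [abs_of_pos hR0]))
  have hdiff : DiffContOnCl ℂ φ an := by
    apply DifferentiableOn.diffContOnCl
    intro z hz
    have hz0 : z ≠ 0 := by
      rintro rfl
      have := (hcl hz).1
      rw [norm_zero] at this
      linarith
    apply DifferentiableAt.differentiableWithinAt
    refine DifferentiableAt.mul ?_ ?_
    · exact g.differentiable.differentiableAt.comp z (hq z)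
    · have h1 : DifferentiableAt ℂ (fun z : ℂ => q z⁻¹) z :=
        (hq z⁻¹).comp z (differentiableAt_inv hz0)
      exact g.differentiable.differentiableAt.comp z h1
  have hfr : ∀ z ∈ frontier an, ‖φ z‖ ≤ A * B := by
    intro z hz
    have h1 := hcl (frontier_subset_closure hz)
    have h2 : z ∉ an := by
      rw [hopen.frontier_eq] at hz
      exact hz.2
    have h3 : ‖z‖ = R⁻¹ ∨ ‖z‖ = R := by
      by_contra hcon
      push Not at hcon
      exact h2 ⟨lt_of_le_of_ne h1.1 (Ne.symm hcon.1), lt_of_le_of_ne h1.2 hcon.2⟩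
    change ‖g (q z) * g (q z⁻¹)‖ ≤ A * B
    rw [norm_mul]
    rcases h3 with h3 | h3
    · rw [mul_comm]
      exact mul_le_mul (hgA _ (by rw [norm_inv, h3, inv_inv])) (hgB _ h3) (norm_nonneg _) hA0
    · exact mul_le_mul (hgA _ h3) (hgB _ (by rw [norm_inv, h3])) (norm_nonneg _) hA0
  have h1mem : (1 : ℂ) ∈ closure an := subset_closure ⟨by simpa using hRi1, by simpa using hR⟩
  have hmax := Complex.norm_le_of_forall_mem_frontier_norm_le hbdd hdiff hfr h1mem
  change ‖g (q 1) * g (q (1 : ℂ)⁻¹)‖ ≤ A * B at hmax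
  rw [inv_one, hg2, norm_mul] at hmax
  simpa [sq] using hmax

section
variable {U : Type*} [NormedRing U] [NormedAlgebra ℂ U] [CompleteSpace U] {s : U → U}

/-- uniform Gelfand formula on compact sets -/
theorem uniform_pow {p : ℂ → U} (hp : Continuous p) {K : Set ℂ} (hK : IsCompact K) {M : ℝ}
    (h : ∀ z ∈ K, spectralRadius ℂ (p z) < ENNReal.ofReal M) :
    ∃ m : ℕ, m ≠ 0 ∧ ∀ z ∈ K, ‖p z ^ m‖ ≤ M ^ m := by
  refine hK.induction_on (p := fun K => ∃ m : ℕ, m ≠ 0 ∧ ∀ z ∈ K, ‖p z ^ m‖ ≤ M ^ m) ?_ ?_ ?_ ?_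
  · exact ⟨1, one_ne_zero, fun z hz => absurd hz (notMem_empty z)⟩
  · rintro s t hst ⟨m, hm, h1⟩
    exact ⟨m, hm, fun z hz => h1 z (hst hz)⟩
  · rintro s t ⟨m, hm, h1⟩ ⟨n, hn, h2⟩
    refine ⟨m * n, mul_ne_zero hm hn, ?_⟩
    rintro z (hz | hz)
    · rw [pow_mul, pow_mul]
      exact (norm_pow_le' _ (Nat.pos_of_ne_zero hn)).trans
        (pow_le_pow_left₀ (norm_nonneg _) (h1 z hz) n)
    · rw [mul_comm, pow_mul, pow_mul]
      exact (norm_pow_le' _ (Nat.pos_of_ne_zero hm)).trans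
        (pow_le_pow_left₀ (norm_nonneg _) (h2 z hz) m)
  · intro z hz
    obtain ⟨M', hM'1, hM'2⟩ : ∃ M' : ℝ, spectralRadius ℂ (p z) < ENNReal.ofReal M' ∧ M' < M := by
      obtain ⟨c, hc1, hc2⟩ := ENNReal.lt_iff_exists_nnreal_btwn.1 (h z hz)
      refine ⟨c, by rwa [ENNReal.ofReal_coe_nnreal], ?_⟩
      rw [← ENNReal.ofReal_coe_nnreal] at hc2
      exact (ENNReal.ofReal_lt_ofReal_iff_of_nonneg c.2).1 hc2
    have hM'0 : 0 ≤ M' := by
      by_contra hcon
      rw [ENNReal.ofReal_of_nonpos (not_le.1 hcon).le] at hM'1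
      exact absurd hM'1 not_lt_zero
    obtain ⟨m, hm⟩ := ((eventually_pow_le hM'0 hM'1).and (eventually_gt_atTop 0)).exists
    have hlt : ‖p z ^ m‖ < M ^ m := hm.1.trans_lt (pow_lt_pow_left₀ hM'2 hM'0 hm.2.ne')
    have hcont : Continuous fun z => ‖p z ^ m‖ := (hp.pow m).norm
    refine ⟨{w | ‖p w ^ m‖ < M ^ m}, ?_, m, hm.2.ne', fun w hw => le_of_lt hw⟩
    exact mem_nhdsWithin_of_mem_nhds ((isOpen_lt hcont continuous_const).mem_nhds hlt)

theorem johnson [NormOneClass U] (hs : IsInv s) {y : U} {z : ℕ → U}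
    (hz : Tendsto z atTop (𝓝 0)) (hsz : Tendsto (fun n => s (z n)) atTop (𝓝 y)) :
    spectralRadius ℂ y = 0 := by
  have key : ∀ κ : ℝ, 0 < κ → spectralRadius ℂ y ≤ ENNReal.ofReal κ := by
    intro κ hκ
    set M : ℝ := ‖s y‖ + 1 with hM
    have hM0 : 0 < M := by positivity
    obtain ⟨R, hR1, hR2⟩ : ∃ R : ℝ, 1 < R ∧ M * (‖y‖ + 1) / κ ^ 2 < R :=
      ⟨max 1 (M * (‖y‖ + 1) / κ ^ 2) + 1, by
        have := le_max_left 1 (M * (‖y‖ + 1) / κ ^ 2); linarith, by
        have := le_max_right 1 (M * (‖y‖ + 1) / κ ^ 2); linarith⟩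
    have hR0 : 0 < R := by linarith
    -- choose `n`
    have e1 : ∀ᶠ n in atTop, (R + 1) * ‖z n‖ < 1 := by
      have : Tendsto (fun n => (R + 1) * ‖z n‖) atTop (𝓝 ((R + 1) * ‖(0 : U)‖)) :=
        (hz.norm).const_mul _
      rw [norm_zero, mul_zero] at this
      exact this.eventually_lt_const one_pos
    have e2 : ∀ᶠ n in atTop, ‖y - s (z n)‖ + R⁻¹ * ‖s (z n)‖ < R⁻¹ * (‖y‖ + 1) := by
      have : Tendsto (fun n => ‖y - s (z n)‖ + R⁻¹ * ‖s (z n)‖) atTop
          (𝓝 (‖y - y‖ + R⁻¹ * ‖y‖)) :=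
        ((tendsto_const_nhds.sub hsz).norm).add ((hsz.norm).const_mul _)
      rw [sub_self, norm_zero, zero_add] at this
      refine this.eventually_lt_const ?_
      have : 0 < R⁻¹ := inv_pos.2 hR0
      nlinarith
    obtain ⟨n, hn1, hn2⟩ := (e1.and e2).exists
    let p : ℂ → U := fun l => l • s (z n) + (y - s (z n))
    have hp : Differentiable ℂ p := (differentiable_id.smul_const _).add_const _
    have hp1 : p 1 = y := by simp [p]
    have hbig : ∀ l ∈ Metric.sphere (0 : ℂ) R, spectralRadius ℂ (p l) < ENNReal.ofReal M := by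
      intro l hl
      rw [mem_sphere_zero_iff_norm] at hl
      rw [← hs.spectralRadius_eq]
      refine (spectrum.spectralRadius_le_nnnorm _).trans_lt ?_
      rw [← ENNReal.ofReal_coe_nnreal, coe_nnnorm]
      refine (ENNReal.ofReal_lt_ofReal_iff hM0).2 ?_
      have h1 : s (p l) = conj l • z n + (s y - z n) := by
        change s (l • s (z n) + (y - s (z n))) = _
        rw [hs.add, hs.smul, hs.invol, hs.sub, hs.invol]
      rw [h1]
      calc ‖conj l • z n + (s y - z n)‖ ≤ ‖conj l • z n‖ + ‖s y - z n‖ := norm_add_le _ _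
        _ ≤ ‖conj l • z n‖ + (‖s y‖ + ‖z n‖) := by gcongr; exact norm_sub_le _ _
        _ = (R + 1) * ‖z n‖ + ‖s y‖ := by
            rw [norm_smul, RCLike.norm_conj, hl]; ring
        _ < M := by rw [hM]; linarith
    obtain ⟨m, hm0, hm⟩ := uniform_pow hp.continuous (isCompact_sphere (0 : ℂ) R) hbig
    have h3 : ‖(fun l => p l ^ m) 1‖ ^ 2 ≤ M ^ m * (R⁻¹ * (‖y‖ + 1)) ^ m := by
      refine three_circle (hp.pow m) hR1 (fun l hl => hm l (by simpa using hl)) fun l hl => ?_
      have h4 : ‖p l‖ ≤ R⁻¹ * (‖y‖ + 1) := by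
        calc ‖l • s (z n) + (y - s (z n))‖ ≤ ‖l • s (z n)‖ + ‖y - s (z n)‖ := norm_add_le _ _
          _ = ‖y - s (z n)‖ + R⁻¹ * ‖s (z n)‖ := by rw [norm_smul, hl]; ring
          _ ≤ _ := hn2.le
      exact (norm_pow_le' _ (Nat.pos_of_ne_zero hm0)).trans (pow_le_pow_left₀ (norm_nonneg _) h4 m)
    simp only [hp1] at h3
    have h5 : M * (R⁻¹ * (‖y‖ + 1)) ≤ κ ^ 2 := by
      rw [div_lt_iff₀ (by positivity)] at hR2
      have : M * (R⁻¹ * (‖y‖ + 1)) = M * (‖y‖ + 1) / R := by field_simp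
      rw [this, div_le_iff₀ hR0]
      nlinarith
    have h6 : ‖y ^ m‖ ≤ κ ^ m := by
      refine abs_le_of_sq_le_sq' ?_ (by positivity) |>.2
      calc ‖y ^ m‖ ^ 2 ≤ M ^ m * (R⁻¹ * (‖y‖ + 1)) ^ m := h3
        _ = (M * (R⁻¹ * (‖y‖ + 1))) ^ m := (mul_pow _ _ _).symm
        _ ≤ (κ ^ 2) ^ m := pow_le_pow_left₀ (by positivity) h5 m
        _ = (κ ^ m) ^ 2 := by ring
    exact spectralRadius_le_of_pow hm0 h6 hκ.le
  refine le_antisymm ?_ (zero_le)
  refine ENNReal.le_of_forall_pos_le_add fun ε hε _ => ?_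
  rw [zero_add]
  simpa using key ε hε

end

end Pool.Agent.Work.MP_10b086_an

end
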