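import Pool.Agent.Work.MP_10b086_an.Wild.Stmts
import Pool.Agent.Work.MP_10b086_an.H5.StmtsD

/-! Bundle of small proof modules (one section per former module). -/

section

/-!
# Item C3: diagonal elements of `BB b ⊤` have finite rank
-/

open Cardinal Submodule Finset Filter Topology
open scoped ComplexConjugate

namespace Pool.Agent.Work.MP_10b086_an.Wild

namespace C3

/-- all rows lie in a finite dimensional space -/
theorem rows {π ρ : UU →ₗ[ℂ] ZZ} {b : UU →ₗ[ℂ] UU →ₗ[ℂ] ZZ} (hc : Conc π ρ b) (z : ZZ)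
    (hz : z ∈ BB b ⊤) : ∃ W : Submodule ℂ (ℕ → ℂ), FiniteDimensional ℂ W ∧
      ∀ n : ℕ, (fun k => z (n, k)) ∈ W := by
  refine Submodule.span_induction ?_ ?_ ?_ ?_ hz
  · rintro z ⟨x, -, y, -, rfl⟩
    refine ⟨span ℂ {fun k => (dl k : ℂ) * y k}, inferInstance, fun n => ?_⟩
    rw [Submodule.mem_span_singleton]
    refine ⟨(dl n : ℂ) * x n, ?_⟩
    funext k
    rw [hc.b_apply]
    simp only [Pi.smul_apply, smul_eq_mul]
    ring
  · exact ⟨⊥, inferInstance, fun n => by
      have : (fun k => (0 : ZZ) (n, k)) = 0 := by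
        funext k
        rfl
      rw [this]
      exact Submodule.zero_mem _⟩
  · rintro z w - - ⟨W1, hW1, h1⟩ ⟨W2, hW2, h2⟩
    refine ⟨W1 ⊔ W2, inferInstance, fun n => ?_⟩
    exact Submodule.add_mem_sup (h1 n) (h2 n)
  · rintro a z - ⟨W, hW, h⟩
    exact ⟨W, hW, fun n => W.smul_mem a (h n)⟩

end C3

theorem claimC3 : ClaimC3 := by
  intro π ρ b hc z hz hdiag
  obtain ⟨W, hW, hr⟩ := C3.rows hc z hz
  have hmem : ∀ n : {n : ℕ | z (n, n) ≠ 0}, (Pi.single (n : ℕ) (1 : ℂ) : ℕ → ℂ) ∈ W := by
    rintro ⟨n, hn⟩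
    have h1 := W.smul_mem (z (n, n))⁻¹ (hr n)
    convert h1 using 1
    funext k
    simp only [Pi.smul_apply, smul_eq_mul]
    by_cases hk : k = n
    · subst hk
      rw [Pi.single_eq_same, inv_mul_cancel₀ hn]
    · rw [Pi.single_eq_of_ne hk, hdiag n k (Ne.symm hk), mul_zero]
  have hli : LinearIndependent ℂ
      (fun n : {n : ℕ | z (n, n) ≠ 0} => (⟨_, hmem n⟩ : W)) := by
    apply LinearIndependent.of_comp W.subtype
    have h2 : LinearIndependent ℂ (fun n : ℕ => (Pi.single n (1 : ℂ) : ℕ → ℂ)) :=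
      Pi.linearIndependent_single_one ℕ ℂ
    exact h2.comp (fun n : {n : ℕ | z (n, n) ≠ 0} => (n : ℕ)) Subtype.val_injective
  have : Finite {n : ℕ | z (n, n) ≠ 0} := hli.finite_of_isNoetherian
  exact Set.toFinite _

end Pool.Agent.Work.MP_10b086_an.Wild

end

section

/-!
# Item C5: many independent directions
-/

open Cardinal Submodule Finset Filter Topology
open scoped ComplexConjugate

namespace Pool.Agent.Work.MP_10b086_an.Wild

namespace C5

theorem off_diag {ι : Type} (y : ι → ZZ) (hy : ∀ t, ∀ n k : ℕ, n ≠ k → y t (n, k) = 0)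
    (a : ι →₀ ℂ) (n k : ℕ) (h : n ≠ k) : (Finsupp.linearCombination ℂ y a) (n, k) = 0 := by
  rw [Finsupp.linearCombination_apply, Finsupp.sum]
  have : ∀ (s : Finset ι), (∑ t ∈ s, a t • y t : ZZ) (n, k) = 0 := by
    intro s
    classical
    induction s using Finset.induction_on with
    | empty => simp
    | insert t s ht ih =>
      rw [Finset.sum_insert ht]
      have : (a t • y t + ∑ t ∈ s, a t • y t : ZZ) (n, k) =
          a t * y t (n, k) + (∑ t ∈ s, a t • y t : ZZ) (n, k) := rfl
      rw [this, ih, hy t n k h, mul_zero, add_zero]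
  exact this _

/-- a quotient of large rank by a small subspace has infinite rank -/
theorem exists_seq {E : Type} [AddCommGroup E] [Module ℂ E] (B : Submodule ℂ E) (C : Set E)
    (hC : #C < 𝔠) (hB : 𝔠 ≤ Module.rank ℂ (E ⧸ B)) : ∃ s : ℕ → E,
    LinearIndependent ℂ fun n => (span ℂ C ⊔ B).mkQ (s n) := by
  set N : Submodule ℂ (E ⧸ B) := (span ℂ C).map B.mkQ with hN
  have hN1 : Module.rank ℂ N < 𝔠 := by
    have h1 : N = span ℂ (B.mkQ '' C) := by
      rw [hN, Submodule.map_span]
    rw [h1]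
    refine lt_of_le_of_lt (rank_span_le _) ?_
    exact lt_of_le_of_lt Cardinal.mk_image_le hC
  have h2 := rank_quotient_add_rank N
  have h3 : ℵ₀ ≤ Module.rank ℂ ((E ⧸ B) ⧸ N) := by
    by_contra hcon
    push Not at hcon
    have h4 : Module.rank ℂ ((E ⧸ B) ⧸ N) + Module.rank ℂ N < 𝔠 :=
      Cardinal.add_lt_of_lt Cardinal.aleph0_le_continuum
        (hcon.trans_le Cardinal.aleph0_le_continuum) hN1
    rw [h2] at h4
    exact absurd h4 (not_lt.mpr hB)
  obtain ⟨S, hS, hli⟩ := le_rank_iff_exists_linearIndependent.mp h3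
  have hden : Nonempty (ℕ ≃ S) := by
    rw [← Cardinal.eq, hS, Cardinal.mk_nat]
  obtain ⟨e⟩ := hden
  have hli2 : LinearIndependent ℂ (fun n : ℕ => ((e n : S) : (E ⧸ B) ⧸ N)) :=
    hli.comp e e.injective
  have hsur : ∀ v : (E ⧸ B) ⧸ N, ∃ z : E, N.mkQ (B.mkQ z) = v := by
    intro v
    obtain ⟨w, rfl⟩ := N.mkQ_surjective v
    obtain ⟨z, rfl⟩ := B.mkQ_surjective w
    exact ⟨z, rfl⟩
  choose f hf using hsur
  refine ⟨fun n => f (e n), ?_⟩
  have hle : span ℂ C ⊔ B ≤ LinearMap.ker (N.mkQ ∘ₗ B.mkQ) := by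
    refine sup_le ?_ ?_
    · intro x hx
      rw [LinearMap.mem_ker, LinearMap.comp_apply, Submodule.mkQ_apply, Submodule.mkQ_apply,
        Submodule.Quotient.mk_eq_zero]
      exact ⟨x, hx, rfl⟩
    · intro x hx
      rw [LinearMap.mem_ker, LinearMap.comp_apply]
      have : B.mkQ x = 0 := by
        rw [Submodule.mkQ_apply, Submodule.Quotient.mk_eq_zero]
        exact hx
      rw [this, map_zero]
  apply LinearIndependent.of_comp ((span ℂ C ⊔ B).liftQ _ hle)
  have hfun : (((span ℂ C ⊔ B).liftQ _ hle) ∘ fun n => (span ℂ C ⊔ B).mkQ (f (e n))) =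
      fun n : ℕ => ((e n : S) : (E ⧸ B) ⧸ N) := by
    funext n
    exact hf (e n)
  rw [hfun]
  exact hli2

end C5

theorem claimC5 (h3 : ClaimC3) (h4 : ClaimC4) : ClaimC5 := by
  intro π ρ b hc C hC
  obtain ⟨y, hy, hy2⟩ := h4
  apply C5.exists_seq (BB b ⊤) C hC
  have hli : LinearIndependent ℂ (fun t => (BB b ⊤).mkQ (y t)) := by
    rw [linearIndependent_iff]
    intro a ha
    apply hy2
    apply h3 π ρ b hc _ _ (fun n k hnk => C5.off_diag y hy a n k hnk)
    have h5 : Finsupp.linearCombination ℂ (fun t => (BB b ⊤).mkQ (y t)) a =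
        (BB b ⊤).mkQ (Finsupp.linearCombination ℂ y a) := by
      rw [Finsupp.linearCombination_apply, Finsupp.linearCombination_apply, map_finsuppSum]
      simp only [map_smul]
    rw [h5, Submodule.mkQ_apply, Submodule.Quotient.mk_eq_zero] at ha
    exact ha
  have h6 := hli.cardinal_le_rank
  rw [Cardinal.mk_Ioo_real (by norm_num)] at h6
  exact h6

end Pool.Agent.Work.MP_10b086_an.Wild

end

section

open Cardinal Submodule Finset Filter Topology
open scoped ComplexConjugate

namespace Pool.Agent.Work.MP_10b086_an.Wild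

theorem claimC7 : ClaimC7 := by
  unfold ClaimC7
  have h : Function.Injective (fun (u : UU) (n : ℕ) => (u n : ℂ)) := by
    intro u w huw
    exact lp.ext huw
  refine (Cardinal.mk_le_of_injective h).trans ?_
  rw [← Cardinal.power_def, Cardinal.mk_complex, Cardinal.mk_nat, Cardinal.continuum_power_aleph0]

end Pool.Agent.Work.MP_10b086_an.Wild

end

section

open Cardinal Submodule Finset Filter Topology
open scoped ComplexConjugate

namespace Pool.Agent.Work.MP_10b086_an.Wild

theorem c8_gen (I : Type) [Countable I] [DecidableEq I] :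
    TopologicalSpace.SeparableSpace (lp (fun _ : I => ℂ) 1) := by
  rw [← TopologicalSpace.isSeparable_univ_iff]
  set S : Set (lp (fun _ : I => ℂ) 1) := Set.range fun i : I => lp.single 1 i (1 : ℂ) with hS
  have hc : S.Countable := Set.countable_range _
  have h1 : TopologicalSpace.IsSeparable (closure (span ℂ S : Set (lp (fun _ : I => ℂ) 1))) :=
    (hc.isSeparable.span (R := ℂ)).closure
  refine h1.mono fun f _ => ?_
  have hf := lp.hasSum_single (p := 1) (E := fun _ : I => ℂ) ENNReal.one_ne_top f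
  refine mem_closure_of_tendsto hf (Eventually.of_forall fun s => ?_)
  refine Submodule.sum_mem _ fun i _ => ?_
  have : (lp.single 1 i (f i) : lp (fun _ : I => ℂ) 1) = (f i) • lp.single 1 i (1 : ℂ) := by
    rw [← lp.single_smul]
    simp
  rw [this]
  exact Submodule.smul_mem _ _ (Submodule.subset_span ⟨i, rfl⟩)

theorem claimC8 : ClaimC8 := ⟨c8_gen ℕ, c8_gen (ℕ × ℕ)⟩

end Pool.Agent.Work.MP_10b086_an.Wild

end

section

/-!
# Item C9: the frame
-/

open Cardinal Submodule Finset Filter Topology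
open scoped ComplexConjugate

namespace Pool.Agent.Work.MP_10b086_an.Wild

theorem claimC9 (h1 : ClaimC1) (h2 : ClaimC2) (h5 : ClaimC5) (h6 : ClaimC6) (h7 : ClaimC7) :
    ClaimC9 := by
  obtain ⟨π, ρ, b, hc⟩ := h1
  exact ⟨{
    π := π
    ρ := ρ
    b := b
    π_le := hc.π_le
    b_le := hc.b_le
    free := h2 π ρ b hc
    ind := h5 π ρ b hc
    sys := h6 π ρ b hc
    card := h7 }⟩

end Pool.Agent.Work.MP_10b086_an.Wild

end

section

/-!
# D1: orthogonalisation
-/

open Cardinal Submodule Finset Filter Topology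
open scoped ComplexConjugate

namespace Pool.Agent.Work.MP_10b086_an.Wild

section

variable {E : Type} [AddCommGroup E] [Module ℂ E] {H : E → E → ℂ}

private lemma d1_zero (hs : ∀ (c : ℂ) g k, H (c • g) k = c * H g k) (k : E) : H 0 k = 0 := by
  have := hs 0 0 k
  simpa using this

private lemma d1_span (ha : ∀ g g' k, H (g + g') k = H g k + H g' k)
    (hs : ∀ (c : ℂ) g k, H (c • g) k = c * H g k) (hc : ∀ g k, H k g = conj (H g k))
    {S : Set E} {x : E} (h : ∀ f ∈ S, H x f = 0) : ∀ y ∈ span ℂ S, H x y = 0 := by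
  intro y hy
  rw [hc y x]
  have h1 : H y x = 0 := by
    induction hy using Submodule.span_induction with
    | mem z hz =>
      rw [hc x z, h z hz, map_zero]
    | zero => exact d1_zero hs x
    | add z z' _ _ h1 h2 => rw [ha, h1, h2, add_zero]
    | smul c z _ h1 => rw [hs, h1, mul_zero]
  rw [h1, map_zero]

private lemma d1_sub (ha : ∀ g g' k, H (g + g') k = H g k + H g' k)
    (hs : ∀ (c : ℂ) g k, H (c • g) k = c * H g k) (g g' k : E) :
    H (g - g') k = H g k - H g' k := by
  have h1 := ha g ((-1 : ℂ) • g') k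
  rw [hs] at h1
  rw [sub_eq_add_neg, ← neg_one_smul ℂ g', h1]
  ring

private lemma d1_addr (ha : ∀ g g' k, H (g + g') k = H g k + H g' k)
    (hc : ∀ g k, H k g = conj (H g k)) (g k k' : E) : H g (k + k') = H g k + H g k' := by
  rw [hc (k + k') g, ha, map_add, ← hc, ← hc]

private lemma d1_self (hc : ∀ g k, H k g = conj (H g k))
    (hp : ∀ g, g ≠ 0 → 0 < (H g g).re) {g : E} (hg : g ≠ 0) : H g g ≠ 0 := by
  intro h
  have := hp g hg
  rw [h] at this
  simp at this

private lemma d1_proj (ha : ∀ g g' k, H (g + g') k = H g k + H g' k)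
    (hs : ∀ (c : ℂ) g k, H (c • g) k = c * H g k) (hc : ∀ g k, H k g = conj (H g k))
    (hp : ∀ g, g ≠ 0 → 0 < (H g g).re) (S : Finset E) :
    ∀ e : E, ∃ w ∈ span ℂ (S : Set E), ∀ f ∈ S, H (e - w) f = 0 := by
  classical
  induction S using Finset.induction_on with
  | empty =>
    intro e
    exact ⟨0, zero_mem _, by simp⟩
  | insert f₀ S _ ih =>
    intro e
    obtain ⟨w, hw, hwS⟩ := ih e
    obtain ⟨w₀, hw₀, hw₀S⟩ := ih f₀
    have hmono : span ℂ (S : Set E) ≤ span ℂ ((insert f₀ S : Finset E) : Set E) := by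
      apply span_mono
      rw [Finset.coe_insert]
      exact Set.subset_insert _ _
    by_cases hf : f₀ - w₀ = 0
    · refine ⟨w, hmono hw, ?_⟩
      intro f hfm
      rcases Finset.mem_insert.1 hfm with rfl | hfm
      · rw [sub_eq_zero] at hf
        rw [hf]
        exact d1_span ha hs hc hwS _ hw₀
      · exact hwS f hfm
    · set c : ℂ := H (e - w) (f₀ - w₀) / H (f₀ - w₀) (f₀ - w₀) with hcdef
      have hne := d1_self hc hp hf
      refine ⟨w + c • (f₀ - w₀), ?_, ?_⟩
      · refine add_mem (hmono hw) (Submodule.smul_mem _ _ (sub_mem ?_ (hmono hw₀)))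
        exact subset_span (by simp)
      · have hS : ∀ f ∈ S, H (e - (w + c • (f₀ - w₀))) f = 0 := by
          intro f hfm
          rw [← sub_sub, d1_sub ha hs, hwS f hfm, hs, hw₀S f hfm]
          simp
        intro f hfm
        rcases Finset.mem_insert.1 hfm with rfl | hfm
        · have h1 : H (e - (w + c • (f - w₀))) f =
            H (e - (w + c • (f - w₀))) (f - w₀) + H (e - (w + c • (f - w₀))) w₀ := by
            rw [← d1_addr ha hc, sub_add_cancel]
          rw [h1, d1_span ha hs hc hS _ hw₀, add_zero, ← sub_sub, d1_sub ha hs, hs, hcdef,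
            div_mul_cancel₀ _ hne, sub_self]
        · exact hS f hfm

end

theorem claimD1 : ClaimD1 := by
  intro E _ _ H ha hs hc hp S e he
  obtain ⟨w, hw, hwS⟩ := d1_proj ha hs hc hp S e
  have hd : e - w ≠ 0 := by
    intro h
    rw [sub_eq_zero] at h
    exact he (h ▸ hw)
  have hne := d1_self hc hp hd
  refine ⟨(H (e - w) (e - w))⁻¹ • (e - w), ?_, ?_⟩
  · have h1 : H (e - w) e = H (e - w) (e - w) + H (e - w) w := by
      rw [← d1_addr ha hc, sub_add_cancel]
    rw [hs, h1, d1_span ha hs hc hwS _ hw, add_zero, inv_mul_cancel₀ hne]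
  · intro f hf
    rw [hs, hwS f hf, mul_zero]

end Pool.Agent.Work.MP_10b086_an.Wild

end

section

/-!
# Extension of the form
-/

open Cardinal Submodule Finset Filter Topology
open scoped ComplexConjugate

namespace Pool.Agent.Work.MP_10b086_an.Wild

/-- the recursion for the values of the functional at the new vectors -/
noncomputable def tau (m : ℕ → ℕ) (c : ℕ → ℕ → ℂ) (d : ℕ → ℕ → ℕ → ℂ) : ℕ → ℂ
  | k => ∑ i ∈ range (m k), (c k i + ∑ n : Fin k, tau m c d n.1 * d k i n.1)
  termination_by k => k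
  decreasing_by exact n.2

theorem tau_eq (m : ℕ → ℕ) (c : ℕ → ℕ → ℂ) (d : ℕ → ℕ → ℕ → ℂ) (k : ℕ) :
    tau m c d k = ∑ i ∈ range (m k), (c k i + ∑ n ∈ range k, tau m c d n * d k i n) := by
  rw [tau]
  refine sum_congr rfl fun i _ => ?_
  rw [Finset.sum_range fun n => tau m c d n * d k i n]

/-- the standard inner product of finitely supported sequences -/
noncomputable def ip (a a' : ℕ →₀ ℂ) : ℂ := a.sum fun n c => c * conj (a' n)

theorem ip_eq (a a' : ℕ →₀ ℂ) {s : Finset ℕ} (hs : a.support ⊆ s) :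
    ip a a' = ∑ n ∈ s, a n * conj (a' n) := by
  rw [ip, Finsupp.sum]
  refine Finset.sum_subset hs fun n _ hn => ?_
  rw [Finsupp.notMem_support_iff.1 hn, zero_mul]

theorem ip_add (a b c : ℕ →₀ ℂ) : ip (a + b) c = ip a c + ip b c := by
  rw [ip, Finsupp.sum_add_index']
  · rfl
  · intro n; simp
  · intro n x y; rw [add_mul]

theorem ip_smul (c : ℂ) (a b : ℕ →₀ ℂ) : ip (c • a) b = c * ip a b := by
  rw [ip, Finsupp.sum_smul_index' (by intro n; simp), ip, Finsupp.mul_sum]
  simp only [smul_eq_mul, mul_assoc]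

theorem ip_symm (a b : ℕ →₀ ℂ) : ip b a = conj (ip a b) := by
  rw [ip_eq b a (subset_union_right (s₁ := a.support)), ip_eq a b subset_union_left, map_sum]
  refine sum_congr rfl fun n _ => ?_
  rw [map_mul, Complex.conj_conj, mul_comm]

theorem ip_zero_left (a : ℕ →₀ ℂ) : ip 0 a = 0 := by simp [ip]

theorem ip_zero_right (a : ℕ →₀ ℂ) : ip a 0 = 0 := by simp [ip]

theorem ip_self (a : ℕ →₀ ℂ) : (ip a a).re = ∑ n ∈ a.support, ‖a n‖ ^ 2 := by
  rw [ip, Finsupp.sum, Complex.re_sum]
  refine sum_congr rfl fun n _ => ?_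
  rw [Complex.mul_conj, Complex.ofReal_re, Complex.normSq_eq_norm_sq]

theorem ip_self_nonneg (a : ℕ →₀ ℂ) : 0 ≤ (ip a a).re := by
  rw [ip_self]; exact sum_nonneg fun n _ => by positivity

theorem ip_self_pos {a : ℕ →₀ ℂ} (ha : a ≠ 0) : 0 < (ip a a).re := by
  rw [ip_self]
  obtain ⟨n, hn⟩ := Finsupp.support_nonempty_iff.2 ha
  refine sum_pos' (fun n _ => by positivity) ⟨n, hn, ?_⟩
  have : a n ≠ 0 := Finsupp.mem_support_iff.1 hn
  positivity

section

variable {E : Type} [AddCommGroup E] [Module ℂ E] {α : E → ℂ} {h : E → E → ℂ}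

theorem Good.h_add_right (hg : Good α h) (g k k' : E) : h g (k + k') = h g k + h g k' := by
  rw [hg.h_symm (k + k') g, hg.h_add, map_add, ← hg.h_symm, ← hg.h_symm]

theorem Good.h_smul_right (hg : Good α h) (c : ℂ) (g k : E) : h g (c • k) = conj c * h g k := by
  rw [hg.h_symm (c • k) g, hg.h_smul, map_mul, ← hg.h_symm]

theorem Good.h_im (hg : Good α h) (g : E) : (h g g).im = 0 := by
  have := hg.h_symm g g
  have h2 := congrArg Complex.im this
  rw [Complex.conj_im] at h2
  linarith

theorem Good.α_zero (hg : Good α h) : α 0 = 0 := by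
  have := hg.α_smul 0 0
  simpa using this

theorem Good.h_zero (hg : Good α h) (g : E) : h 0 g = 0 := by
  have := hg.h_smul 0 0 g
  simpa using this

theorem Good.h_nonneg (hg : Good α h) (g : E) : ‖α g‖ ^ 2 ≤ (h g g).re := by
  by_cases h0 : g = 0
  · subst h0; rw [hg.α_zero, hg.h_zero]; simp
  · exact (hg.h_pos g h0).le

/-- the form on `ℂ × E` -/
noncomputable def Hf (α : E → ℂ) (h : E → E → ℂ) (x y : ℂ × E) : ℂ :=
  x.1 * conj y.1 + conj y.1 * α x.2 + x.1 * conj (α y.2) + h x.2 y.2

theorem Hf_add (hg : Good α h) (x x' y : ℂ × E) :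
    Hf α h (x + x') y = Hf α h x y + Hf α h x' y := by
  simp only [Hf, Prod.fst_add, Prod.snd_add, hg.α_add, hg.h_add]; ring

theorem Hf_smul (hg : Good α h) (c : ℂ) (x y : ℂ × E) :
    Hf α h (c • x) y = c * Hf α h x y := by
  simp only [Hf, Prod.smul_fst, Prod.smul_snd, hg.α_smul, hg.h_smul, smul_eq_mul]; ring

theorem Hf_symm (hg : Good α h) (x y : ℂ × E) : Hf α h y x = conj (Hf α h x y) := by
  simp only [Hf, map_add, map_mul, Complex.conj_conj]
  rw [hg.h_symm x.2 y.2]; ring

theorem Hf_add_right (hg : Good α h) (x y y' : ℂ × E) :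
    Hf α h x (y + y') = Hf α h x y + Hf α h x y' := by
  rw [Hf_symm hg (y + y') x, Hf_add hg, map_add, ← Hf_symm hg, ← Hf_symm hg]

theorem Hf_smul_right (hg : Good α h) (c : ℂ) (x y : ℂ × E) :
    Hf α h x (c • y) = conj c * Hf α h x y := by
  rw [Hf_symm hg (c • y) x, Hf_smul hg, map_mul, ← Hf_symm hg]

omit [AddCommGroup E] [Module ℂ E] in
theorem Hf_self (x : ℂ × E) :
    (Hf α h x x).re = ‖x.1 + α x.2‖ ^ 2 + ((h x.2 x.2).re - ‖α x.2‖ ^ 2) := by
  rw [← Complex.normSq_eq_norm_sq, ← Complex.normSq_eq_norm_sq, Complex.normSq_apply,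
    Complex.normSq_apply]
  simp only [Hf, Complex.add_re, Complex.mul_re, Complex.conj_re, Complex.conj_im, Complex.add_im]
  ring

theorem Hf_pos (hg : Good α h) (x : ℂ × E) (hx : x ≠ 0) : 0 < (Hf α h x x).re := by
  rw [Hf_self]
  by_cases h0 : x.2 = 0
  · have h1 : x.1 ≠ 0 := fun h1 => hx (Prod.ext h1 h0)
    rw [h0, hg.α_zero, hg.h_zero]
    have : 0 < ‖x.1‖ := norm_pos_iff.2 h1
    simp only [add_zero, Complex.zero_re, norm_zero]
    positivity
  · have := hg.h_pos _ h0
    have h2 : 0 ≤ ‖x.1 + α x.2‖ ^ 2 := by positivity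
    linarith

theorem Hf_e (hg : Good α h) (x : ℂ × E) : Hf α h x (1, 0) = x.1 + α x.2 := by
  have : h x.2 0 = 0 := by rw [hg.h_symm 0, hg.h_zero, map_zero]
  simp [Hf, hg.α_zero, this]

/-- the form as a sesquilinear map -/
noncomputable def Hs (hg : Good α h) : ℂ × E →ₗ[ℂ] ℂ × E →ₛₗ[starRingEnd ℂ] ℂ :=
  LinearMap.mk₂'ₛₗ (RingHom.id ℂ) (starRingEnd ℂ) (Hf α h) (Hf_add hg)
    (fun c x y => by rw [Hf_smul hg]; rfl) (Hf_add_right hg)
    (fun c x y => by rw [Hf_smul_right hg]; rfl)

theorem Hs_apply (hg : Good α h) (x y : ℂ × E) : Hs hg x y = Hf α h x y := rfl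

end

theorem sum_support_eq (a : ℕ →₀ ℂ) (k : ℕ) (f : ℕ → ℂ) (h0 : ∀ n, a n = 0 → f n = 0)
    (h1 : ∀ n, k ≤ n → f n = 0) : ∑ n ∈ a.support, f n = ∑ n ∈ range k, f n := by
  classical
  rw [Finset.sum_subset (subset_union_left (s₂ := range k)) (fun n _ hn =>
      h0 n (Finsupp.notMem_support_iff.1 hn)),
    ← Finset.sum_subset (subset_union_right (s₁ := a.support)) (fun n _ hn =>
      h1 n (by simpa using hn))]

theorem claimD2 (h1 : ClaimD1) : ClaimD2 := by
  intro E _ _ α h hg m g g' a a'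
  classical
  -- orthogonal vectors
  have horth : ∀ (f : ℕ → ℕ → E) (n : ℕ), ∃ η : ℂ × E, Hf α h η (1, 0) = 1 ∧
      ∀ k ≤ n, ∀ i ∈ range (m k), Hf α h η (0, f k i) = 0 := by
    intro f n
    set S : Finset (ℂ × E) := (range (n + 1)).biUnion fun k =>
      (range (m k)).image fun i => ((0, f k i) : ℂ × E) with hS
    have hS1 : ∀ x ∈ S, x.1 = 0 := by
      intro x hx
      rw [hS, mem_biUnion] at hx
      obtain ⟨k, _, hx⟩ := hx
      obtain ⟨i, _, rfl⟩ := mem_image.1 hx
      rfl
    have he : ((1, 0) : ℂ × E) ∉ span ℂ (S : Set (ℂ × E)) := by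
      intro hmem
      have h2 : span ℂ (S : Set (ℂ × E)) ≤ LinearMap.ker (LinearMap.fst ℂ ℂ E) := by
        rw [span_le]
        intro x hx
        exact hS1 x hx
      have h3 := h2 hmem
      simp at h3
    obtain ⟨η, hη1, hη0⟩ := h1 (ℂ × E) (Hf α h) (Hf_add hg) (Hf_smul hg) (Hf_symm hg)
      (Hf_pos hg) S (1, 0) he
    refine ⟨η, hη1, fun k hk i hi => hη0 _ ?_⟩
    rw [hS, mem_biUnion]
    exact ⟨k, mem_range.2 (by omega), mem_image.2 ⟨i, hi, rfl⟩⟩
  choose η hη1 hη0 using horth g'
  choose η' hη'1 hη'0 using horth g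
  set τ := tau m (fun k i => h (g k i) (g' k i)) (fun k i n =>
    conj (a' k i n) * Hf α h (0, g k i) (η' n) + a k i n * Hf α h (η n) (0, g' k i)) with hτ
  -- the two maps
  let X : Type := E × (ℕ →₀ ℂ) × (ℕ →₀ ℂ)
  let p : (ℕ →₀ ℂ) →ₗ[ℂ] ℂ × E := lc fun n => τ n • η n
  let p' : (ℕ →₀ ℂ) →ₗ[ℂ] ℂ × E := lc fun n => conj (τ n) • η' n
  let w1 : X →ₗ[ℂ] ℂ × E := (LinearMap.inr ℂ ℂ E).coprod (p.coprod p')
  let w2 : X →ₗ[ℂ] ℂ × E := (0 : E →ₗ[ℂ] ℂ × E).coprod (p.coprod (-p'))
  have hw1 : ∀ g a b, w1 (g, a, b) = (0, g) + (p a + p' b) := fun g a b => rfl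
  have hw2 : ∀ g a b, w2 (g, a, b) = p a - p' b := by
    intro g a b
    change (0 : ℂ × E) + (p a + -p' b) = _
    abel
  let α'' : X → ℂ := fun x => Hs hg (w1 x) (1, 0)
  let h'' : X → X → ℂ := fun x y => Hs hg (w1 x) (w1 y) + Hs hg (w2 x) (w2 y) +
    (ip x.2.1 y.2.1 + ip x.2.2 y.2.2)
  have hp1 : ∀ a, Hs hg (p a) (1, 0) = a.sum fun n c => c * τ n := by
    intro a
    change Hs hg (Finsupp.linearCombination ℂ (fun n => τ n • η n) a) (1, 0) = _
    rw [Finsupp.linearCombination_apply, map_finsuppSum, LinearMap.finsupp_sum_apply]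
    refine Finsupp.sum_congr fun n _ => ?_
    rw [map_smul, map_smul, LinearMap.smul_apply, LinearMap.smul_apply, Hs_apply, hη1]
    simp
  have hp'1 : ∀ a, Hs hg (p' a) (1, 0) = a.sum fun n c => c * conj (τ n) := by
    intro a
    change Hs hg (Finsupp.linearCombination ℂ (fun n => conj (τ n) • η' n) a) (1, 0) = _
    rw [Finsupp.linearCombination_apply, map_finsuppSum, LinearMap.finsupp_sum_apply]
    refine Finsupp.sum_congr fun n _ => ?_
    rw [map_smul, map_smul, LinearMap.smul_apply, LinearMap.smul_apply, Hs_apply, hη'1]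
    simp
  have hα'' : ∀ g a b, α'' (g, a, b) = α g + (a.sum (fun n c => c * τ n) +
      b.sum (fun n c => c * conj (τ n))) := by
    intro g a b
    change Hs hg (w1 (g, a, b)) (1, 0) = _
    rw [hw1, map_add, map_add, LinearMap.add_apply, LinearMap.add_apply, hp1, hp'1, Hs_apply,
      Hf_e hg]
    simp
  have hgood : Good α'' h'' :=
    { α_add := fun x y => by
        change Hs hg (w1 (x + y)) (1, 0) = _
        rw [map_add, map_add, LinearMap.add_apply]
      α_smul := fun c x => by
        change Hs hg (w1 (c • x)) (1, 0) = _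
        rw [map_smul, map_smul, LinearMap.smul_apply, smul_eq_mul]
      h_add := fun x y z => by
        change Hs hg (w1 (x + y)) (w1 z) + Hs hg (w2 (x + y)) (w2 z) +
          (ip (x.2.1 + y.2.1) z.2.1 + ip (x.2.2 + y.2.2) z.2.2) = _
        rw [map_add, map_add, LinearMap.add_apply, map_add, map_add, LinearMap.add_apply, ip_add,
          ip_add]
        simp only [h'']
        ring
      h_smul := fun c x y => by
        change Hs hg (w1 (c • x)) (w1 y) + Hs hg (w2 (c • x)) (w2 y) +
          (ip (c • x.2.1) y.2.1 + ip (c • x.2.2) y.2.2) = _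
        rw [map_smul, map_smul, LinearMap.smul_apply, map_smul, map_smul, LinearMap.smul_apply,
          ip_smul, ip_smul]
        simp only [h'', smul_eq_mul]
        ring
      h_symm := fun x y => by
        simp only [h'', map_add]
        rw [Hs_apply, Hs_apply, Hs_apply, Hs_apply, Hf_symm hg (w1 x), Hf_symm hg (w2 x),
          ip_symm x.2.1, ip_symm x.2.2]
      h_pos := by
        rintro ⟨g, a, b⟩ hx
        have e1 : α'' (g, a, b) = (w1 (g, a, b)).1 + α (w1 (g, a, b)).2 := by
          change Hs hg (w1 (g, a, b)) (1, 0) = _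
          rw [Hs_apply, Hf_e hg]
        have e2 : (h'' (g, a, b) (g, a, b)).re = (Hf α h (w1 (g, a, b)) (w1 (g, a, b))).re +
            (Hf α h (w2 (g, a, b)) (w2 (g, a, b))).re + ((ip a a).re + (ip b b).re) := rfl
        rw [e2, Hf_self, Hf_self, e1]
        have k1 := hg.h_nonneg (w1 (g, a, b)).2
        have k2 := hg.h_nonneg (w2 (g, a, b)).2
        have k3 := ip_self_nonneg a
        have k4 := ip_self_nonneg b
        have k5 : 0 ≤ ‖(w2 (g, a, b)).1 + α (w2 (g, a, b)).2‖ ^ 2 := by positivity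
        by_cases ha : a = 0
        · by_cases hb : b = 0
          · subst ha hb
            have hg0 : g ≠ 0 := by
              rintro rfl
              exact hx rfl
            have e3 : (w1 (g, 0, 0)).2 = g := by rw [hw1, map_zero, map_zero]; simp
            have k6 := hg.h_pos g hg0
            rw [e3] at k1 ⊢
            linarith
          · have := ip_self_pos hb
            linarith
        · have := ip_self_pos ha
          linarith }
  refine ⟨α'', h'', hgood, ?_, ?_, ?_, ?_⟩
  · intro g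
    rw [hα'']; simp
  · intro a
    rw [hα'', hα'', hg.α_zero]
    simp only [Finsupp.sum_zero_index, add_zero, zero_add]
    have e1 : (cj a).sum (fun n c => c * conj (τ n)) = a.sum fun n c => conj c * conj (τ n) := by
      rw [cj, Finsupp.sum_mapRange_index]
      intro n; rw [zero_mul]
    rw [e1, Finsupp.sum, Finsupp.sum, map_sum]
    refine sum_congr rfl fun n _ => ?_
    rw [map_mul]
  · intro g k
    change Hs hg (w1 (g, 0, 0)) (w1 (k, 0, 0)) + Hs hg (w2 (g, 0, 0)) (w2 (k, 0, 0)) +
      (ip 0 0 + ip 0 0) = _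
    have e1 : ∀ g, w1 (g, 0, 0) = (0, g) := by intro g; rw [hw1, map_zero, map_zero]; simp
    have e2 : ∀ g, w2 (g, 0, 0) = 0 := by intro g; rw [hw2, map_zero, map_zero]; simp
    rw [e1, e1, e2, e2, map_zero, ip_zero_left, Hs_apply]
    simp [Hf]
  · intro k
    rw [hα'', hg.α_zero, Finsupp.sum_single_index (by simp)]
    simp only [Finsupp.sum_zero_index, add_zero, zero_add, one_mul]
    rw [hτ, tau_eq, ← hτ]
    refine sum_congr rfl fun i hi => ?_
    change _ = Hs hg (w1 (g k i, a k i, 0)) (w1 (g' k i, 0, a' k i)) +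
      Hs hg (w2 (g k i, a k i, 0)) (w2 (g' k i, 0, a' k i)) +
      (ip (a k i) 0 + ip 0 (a' k i))
    rw [hw1, hw1, hw2, hw2, ip_zero_left, ip_zero_right]
    simp only [map_zero, add_zero, zero_add, sub_zero, zero_sub]
    rw [(Hs hg).map_add (0, g k i) (p (a k i)), LinearMap.add_apply, map_add, map_add, map_neg]
    have e1 : Hs hg (p (a k i)) (0, g' k i) =
        ∑ n ∈ range k, a k i n * τ n * Hf α h (η n) (0, g' k i) := by
      change Hs hg (Finsupp.linearCombination ℂ (fun n => τ n • η n) (a k i)) _ = _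
      rw [Finsupp.linearCombination_apply, map_finsuppSum, LinearMap.finsupp_sum_apply,
        Finsupp.sum]
      have e3 : ∀ n, (Hs hg (a k i n • τ n • η n)) (0, g' k i) =
          a k i n * τ n * Hf α h (η n) (0, g' k i) := by
        intro n
        rw [map_smul, map_smul, LinearMap.smul_apply, LinearMap.smul_apply, Hs_apply, smul_eq_mul,
          smul_eq_mul, mul_assoc]
      simp only [e3]
      exact sum_support_eq _ k _ (fun n hn => by rw [hn]; simp)
        (fun n hn => by rw [hη0 n k hn i hi]; simp)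
    have e2 : Hs hg (0, g k i) (p' (a' k i)) =
        ∑ n ∈ range k, conj (a' k i n) * τ n * Hf α h (0, g k i) (η' n) := by
      change Hs hg _ (Finsupp.linearCombination ℂ (fun n => conj (τ n) • η' n) (a' k i)) = _
      rw [Finsupp.linearCombination_apply, map_finsuppSum, Finsupp.sum]
      have e3 : ∀ n, (Hs hg (0, g k i)) (a' k i n • conj (τ n) • η' n) =
          conj (a' k i n) * τ n * Hf α h (0, g k i) (η' n) := by
        intro n
        rw [map_smulₛₗ, map_smulₛₗ, Hs_apply, smul_eq_mul,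
          smul_eq_mul, Complex.conj_conj, mul_assoc]
      simp only [e3]
      exact sum_support_eq _ k _ (fun n hn => by rw [hn]; simp)
        (fun n hn => by rw [Hf_symm hg (η' n), hη'0 n k hn i hi]; simp)
    rw [e1, e2]
    have e4 : Hs hg (0, g k i) (0, g' k i) = h (g k i) (g' k i) := by
      rw [Hs_apply]; simp [Hf]
    rw [e4]
    have e5 : ∑ n ∈ range k, τ n * (conj (a' k i n) * Hf α h (0, g k i) (η' n) +
        a k i n * Hf α h (η n) (0, g' k i)) =
        (∑ n ∈ range k, conj (a' k i n) * τ n * Hf α h (0, g k i) (η' n)) +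
        ∑ n ∈ range k, a k i n * τ n * Hf α h (η n) (0, g' k i) := by
      rw [← Finset.sum_add_distrib]
      exact sum_congr rfl fun n _ => by ring
    rw [e5]
    ring

end Pool.Agent.Work.MP_10b086_an.Wild

end

section

/-!
# L1: elements of `BB b G` as finite sums
-/

open Cardinal Submodule Finset Filter Topology
open scoped ComplexConjugate

namespace Pool.Agent.Work.MP_10b086_an.Wild

theorem claimL1 : ClaimL1 := by
  intro U Z _ _ _ _ b G z
  constructor
  · intro hz
    refine Submodule.span_induction (p := fun z _ => ∃ (n : ℕ) (x y : ℕ → U), (∀ i, x i ∈ G) ∧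
      (∀ i, y i ∈ G) ∧ z = ∑ i ∈ range n, b (x i) (y i)) ?_ ?_ ?_ ?_ hz
    · rintro z ⟨x, hx, y, hy, rfl⟩
      exact ⟨1, fun _ => x, fun _ => y, fun _ => hx, fun _ => hy, by simp⟩
    · exact ⟨0, fun _ => 0, fun _ => 0, fun _ => G.zero_mem, fun _ => G.zero_mem, by simp⟩
    · rintro z z' _ _ ⟨n, x, y, hx, hy, rfl⟩ ⟨n', x', y', hx', hy', rfl⟩
      refine ⟨n + n', fun i => if i < n then x i else x' (i - n),
        fun i => if i < n then y i else y' (i - n), ?_, ?_, ?_⟩
      · intro i
        dsimp only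
        split_ifs
        · exact hx i
        · exact hx' _
      · intro i
        dsimp only
        split_ifs
        · exact hy i
        · exact hy' _
      · rw [Finset.sum_range_add]
        congr 1
        · refine Finset.sum_congr rfl fun i hi => ?_
          have hi' := Finset.mem_range.1 hi
          simp only [if_pos hi']
        · refine Finset.sum_congr rfl fun i _ => ?_
          have hi' : ¬ n + i < n := by omega
          simp only [if_neg hi', Nat.add_sub_cancel_left]
    · rintro c z _ ⟨n, x, y, hx, hy, rfl⟩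
      refine ⟨n, fun i => c • x i, y, fun i => G.smul_mem c (hx i), hy, ?_⟩
      rw [Finset.smul_sum]
      refine Finset.sum_congr rfl fun i _ => ?_
      rw [map_smul, LinearMap.smul_apply]
  · rintro ⟨n, x, y, hx, hy, rfl⟩
    exact Submodule.sum_mem _ fun i _ => subset_span ⟨x i, hx i, y i, hy i, rfl⟩

end Pool.Agent.Work.MP_10b086_an.Wild

end

section

/-!
# L2: balanced maps vanish on relations
-/

open Cardinal Submodule Finset Filter Topology
open scoped ComplexConjugate

namespace Pool.Agent.Work.MP_10b086_an.Wild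

theorem claimL2 : ClaimL2 := by
  intro U Z _ _ _ _ F X W _ _ _ Φ hΦ β h1 h2 h3 n x y hsum
  classical
  have hl : ∀ (y : X) {κ : Type} (s : Finset κ) (f : κ → X),
      β (∑ j ∈ s, f j) y = ∑ j ∈ s, β (f j) y := fun y κ s f =>
    map_sum (AddMonoidHom.mk' (fun x => β x y) fun a b => h1 a b y) f s
  have hr : ∀ (x : X) {κ : Type} (s : Finset κ) (f : κ → X),
      β x (∑ j ∈ s, f j) = ∑ j ∈ s, β x (f j) := fun x κ s f =>
    map_sum (AddMonoidHom.mk' (fun y => β x y) fun a b => h2 x a b) f s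
  have h0 : ∀ x, β x 0 = 0 := fun x =>
    map_zero (AddMonoidHom.mk' (fun y => β x y) fun a b => h2 x a b)
  set S : Submodule ℂ X := span ℂ (x '' (Finset.range n : Set ℕ)) with hS
  have : FiniteDimensional ℂ S :=
    FiniteDimensional.span_of_finite ℂ ((Finset.finite_toSet _).image _)
  let e := Module.finBasis ℂ S
  have hmem : ∀ i ∈ Finset.range n, x i ∈ S := fun i hi =>
    subset_span ⟨i, Finset.mem_coe.2 hi, rfl⟩
  let c : ℕ → Fin (Module.finrank ℂ S) → ℂ := fun i j =>
    if hi : x i ∈ S then e.repr ⟨x i, hi⟩ j else 0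
  have hx : ∀ i ∈ Finset.range n, x i = ∑ j, c i j • (e j : X) := by
    intro i hi
    have h := congrArg Subtype.val (e.sum_repr ⟨x i, hmem i hi⟩)
    simp only [c, dif_pos (hmem i hi)]
    simpa only [Submodule.coe_sum, Submodule.coe_smul] using h.symm
  have hli : LinearIndependent ℂ fun j => Φ (e j : X) := by
    have h := (e.linearIndependent.map' S.subtype (Submodule.ker_subtype S)).map' Φ
      (LinearMap.ker_eq_bot.2 hΦ)
    exact h
  have key : ∑ j, F.b (Φ (e j : X)) (Φ (∑ i ∈ Finset.range n, c i j • y i)) = 0 := by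
    rw [← hsum]
    calc ∑ j, F.b (Φ (e j : X)) (Φ (∑ i ∈ Finset.range n, c i j • y i))
        = ∑ j, ∑ i ∈ Finset.range n, c i j • F.b (Φ (e j : X)) (Φ (y i)) := by
          refine Finset.sum_congr rfl fun j _ => ?_
          rw [map_sum, map_sum]
          refine Finset.sum_congr rfl fun i _ => ?_
          rw [map_smul, map_smul]
      _ = ∑ i ∈ Finset.range n, ∑ j, c i j • F.b (Φ (e j : X)) (Φ (y i)) := Finset.sum_comm
      _ = ∑ i ∈ Finset.range n, F.b (Φ (x i)) (Φ (y i)) := by
          refine Finset.sum_congr rfl fun i hi => ?_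
          conv_rhs => rw [hx i hi]
          rw [map_sum, map_sum, LinearMap.sum_apply]
          refine Finset.sum_congr rfl fun j _ => ?_
          rw [map_smul, map_smul, LinearMap.smul_apply]
  have hy0 : ∀ j, ∑ i ∈ Finset.range n, c i j • y i = 0 := by
    intro j
    have h := F.free _ _ _ hli key j
    exact hΦ (by rw [h, map_zero])
  calc ∑ i ∈ Finset.range n, β (x i) (y i)
      = ∑ i ∈ Finset.range n, ∑ j, β (e j : X) (c i j • y i) := by
        refine Finset.sum_congr rfl fun i hi => ?_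
        conv_lhs => rw [hx i hi]
        rw [hl]
        exact Finset.sum_congr rfl fun j _ => h3 _ _ _
    _ = ∑ j, ∑ i ∈ Finset.range n, β (e j : X) (c i j • y i) := Finset.sum_comm
    _ = ∑ j, β (e j : X) (∑ i ∈ Finset.range n, c i j • y i) := by
        refine Finset.sum_congr rfl fun j _ => ?_
        rw [hr]
    _ = 0 := by
        refine Finset.sum_eq_zero fun j _ => ?_
        rw [hy0 j, h0]

end Pool.Agent.Work.MP_10b086_an.Wild

end

section

/-!
# L3: relative bases
-/

open Cardinal Submodule Finset Filter Topology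
open scoped ComplexConjugate

namespace Pool.Agent.Work.MP_10b086_an.Wild

theorem claimL3 : ClaimL3 := by
  intro E _ _ X Y S hS hX
  obtain ⟨X', hX'⟩ : ∃ X' : Submodule ℂ (E ⧸ Y), X' = X.map Y.mkQ := ⟨_, rfl⟩
  let B := Module.Basis.ofVectorSpace ℂ X'
  have hle : X' ≤ span ℂ (Y.mkQ '' S) := by
    rw [hX', ← Submodule.map_span]
    refine (Submodule.map_mono hX).trans ?_
    rw [Submodule.map_sup, Submodule.mkQ_map_self, bot_sup_eq]
  have hcount : Countable (Module.Basis.ofVectorSpaceIndex ℂ X') := by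
    rw [← Cardinal.mk_le_aleph0_iff]
    have h1 : #(Module.Basis.ofVectorSpaceIndex ℂ X') = Module.rank ℂ X' := B.mk_eq_rank''
    rw [h1]
    refine (Submodule.rank_mono hle).trans ?_
    refine (rank_span_le _).trans ?_
    rw [Cardinal.mk_le_aleph0_iff]
    exact (hS.image _).to_subtype
  have hex : ∀ i, ∃ x ∈ X, Y.mkQ x = (B i : E ⧸ Y) := by
    intro i
    have h0 : ∀ z ∈ X', ∃ x ∈ X, Y.mkQ x = z := fun z hz => Submodule.mem_map.mp (hX' ▸ hz)
    exact h0 _ (B i).2
  choose v hv hvB using hex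
  refine ⟨Module.Basis.ofVectorSpaceIndex ℂ X', hcount, v, hv, ?_, ?_⟩
  · have h1 : LinearIndependent ℂ (X'.subtype ∘ B) :=
      B.linearIndependent.map' X'.subtype (Submodule.ker_subtype X')
    have h2 : (fun i => Y.mkQ (v i)) = X'.subtype ∘ B := by
      funext i
      exact hvB i
    rw [h2]
    exact h1
  · have h3 : X' ≤ (span ℂ (Set.range v)).map Y.mkQ := by
      rw [Submodule.map_span, ← Set.range_comp]
      have h4 : span ℂ (Set.range (X'.subtype ∘ B)) = X' := by
        rw [Set.range_comp, ← Submodule.map_span, B.span_eq, Submodule.map_top,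
          Submodule.range_subtype]
      have h6 : (X'.subtype ∘ B) = (Y.mkQ ∘ v) := by
        funext i
        exact (hvB i).symm
      rw [← h6]
      exact h4.ge
    have h5 : X ≤ ((span ℂ (Set.range v)).map Y.mkQ).comap Y.mkQ := by
      rw [← Submodule.map_le_iff_le_comap, ← hX']
      exact h3
    rwa [Submodule.comap_map_mkQ] at h5

end Pool.Agent.Work.MP_10b086_an.Wild

end

section

/-!
# L4: countable closed hulls
-/

open Cardinal Submodule Finset Filter Topology
open scoped ComplexConjugate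

namespace Pool.Agent.Work.MP_10b086_an.Wild

theorem BB_mono' {U Z : Type} [NormedAddCommGroup U] [NormedSpace ℂ U]
    [NormedAddCommGroup Z] [NormedSpace ℂ Z] (b : U →ₗ[ℂ] U →ₗ[ℂ] Z) {G H : Submodule ℂ U}
    (h : G ≤ H) : BB b G ≤ BB b H := by
  unfold BB
  apply Submodule.span_mono
  rintro z ⟨x, hx, y, hy, rfl⟩
  exact ⟨x, h hx, y, h hy, rfl⟩

/-- one step of the hull -/
theorem hull_step (h1 : ClaimL1) (h3 : ClaimL3) {U Z : Type} [NormedAddCommGroup U]
    [NormedSpace ℂ U] [NormedAddCommGroup Z] [NormedSpace ℂ Z] (F : Frame U Z)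
    (G : Submodule ℂ U) (hG : F.Closed G) (S : Set U) (hS : S.Countable) :
    ∃ S' : Set U, S'.Countable ∧ S ⊆ S' ∧ ∀ x ∈ G ⊔ span ℂ S, F.π x ∈ BB F.b ⊤ →
      F.π x ∈ BB F.b (G ⊔ span ℂ S') := by
  obtain ⟨I, hI, v, hvX, -, hspan⟩ := h3 U ((G ⊔ span ℂ S) ⊓ (BB F.b ⊤).comap F.π) G S hS
    inf_le_left
  have hex : ∀ i, ∃ (n : ℕ) (x y : ℕ → U), F.π (v i) = ∑ j ∈ range n, F.b (x j) (y j) := by
    intro i
    have h5 : F.π (v i) ∈ BB F.b ⊤ := (hvX i).2
    rw [h1] at h5
    obtain ⟨n, x, y, -, -, h6⟩ := h5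
    exact ⟨n, x, y, h6⟩
  choose n x y hxy using hex
  set S' : Set U := S ∪ ((⋃ i, Set.range (x i)) ∪ ⋃ i, Set.range (y i)) with hS'
  have hxS : ∀ i j, x i j ∈ G ⊔ span ℂ S' := by
    intro i j
    apply Submodule.mem_sup_right
    apply Submodule.subset_span
    exact Or.inr (Or.inl (Set.mem_iUnion.mpr ⟨i, j, rfl⟩))
  have hyS : ∀ i j, y i j ∈ G ⊔ span ℂ S' := by
    intro i j
    apply Submodule.mem_sup_right
    apply Submodule.subset_span
    exact Or.inr (Or.inr (Set.mem_iUnion.mpr ⟨i, j, rfl⟩))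
  refine ⟨S', ?_, Set.subset_union_left, ?_⟩
  · refine hS.union (Set.Countable.union ?_ ?_)
    · exact Set.countable_iUnion fun i => Set.countable_range _
    · exact Set.countable_iUnion fun i => Set.countable_range _
  · intro z hz hπ
    have hzX : z ∈ (G ⊔ span ℂ S) ⊓ (BB F.b ⊤).comap F.π := ⟨hz, hπ⟩
    obtain ⟨g, hg, w, hw, rfl⟩ := Submodule.mem_sup.mp (hspan hzX)
    have hwle : span ℂ (Set.range v) ≤ (G ⊔ span ℂ S) ⊓ (BB F.b ⊤).comap F.π := by
      rw [Submodule.span_le]
      rintro _ ⟨i, rfl⟩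
      exact hvX i
    have hwX := hwle hw
    have hgX : g ∈ (G ⊔ span ℂ S) ⊓ (BB F.b ⊤).comap F.π := by
      have := Submodule.sub_mem _ hzX hwX
      rwa [add_sub_cancel_right] at this
    have hπg : F.π g ∈ BB F.b ⊤ := hgX.2
    have k1 : F.π g ∈ BB F.b (G ⊔ span ℂ S') := BB_mono' F.b le_sup_left (hG g hg hπg)
    have k2 : F.π w ∈ BB F.b (G ⊔ span ℂ S') := by
      have k3 : span ℂ (Set.range v) ≤ (BB F.b (G ⊔ span ℂ S')).comap F.π := by
        rw [Submodule.span_le]
        rintro _ ⟨i, rfl⟩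
        show F.π (v i) ∈ BB F.b (G ⊔ span ℂ S')
        rw [hxy i]
        apply Submodule.sum_mem
        intro j _
        exact Submodule.subset_span ⟨x i j, hxS i j, y i j, hyS i j, rfl⟩
      exact k3 hw
    rw [map_add]
    exact Submodule.add_mem _ k1 k2

theorem claimL4 (h1 : ClaimL1) (h3 : ClaimL3) : ClaimL4 := by
  intro U Z _ _ _ _ F G hG C hC
  have step := fun (S : {S : Set U // S.Countable}) => hull_step h1 h3 F G hG S.1 S.2
  choose nx hnx1 hnx2 hnx3 using step
  let s : ℕ → {S : Set U // S.Countable} := fun n => Nat.rec ⟨C, hC⟩ (fun _ S => ⟨nx S, hnx1 S⟩) n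
  have hs : ∀ n, (s (n + 1)).1 = nx (s n) := fun n => rfl
  have hmono : Monotone fun n => (s n).1 := by
    apply monotone_nat_of_le_succ
    intro n
    rw [hs]
    exact hnx2 (s n)
  refine ⟨⋃ n, (s n).1, Set.countable_iUnion fun n => (s n).2,
    Set.subset_iUnion (fun n => (s n).1) 0, ?_⟩
  intro g hg hπ
  obtain ⟨g0, hg0, w, hw, rfl⟩ := Submodule.mem_sup.mp hg
  rw [Submodule.span_iUnion] at hw
  have hdir : Directed (· ≤ ·) fun n => span ℂ (s n).1 := by
    apply Monotone.directed_le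
    intro a b hab
    exact Submodule.span_mono (hmono hab)
  obtain ⟨n, hn⟩ := (Submodule.mem_iSup_of_directed _ hdir).mp hw
  have h5 : g0 + w ∈ G ⊔ span ℂ (s n).1 := Submodule.add_mem_sup hg0 hn
  have h6 := hnx3 (s n) _ h5 hπ
  refine BB_mono' F.b ?_ h6
  apply sup_le_sup_left
  apply Submodule.span_mono
  rw [← hs]
  exact Set.subset_iUnion (fun n => (s n).1) (n + 1)

end Pool.Agent.Work.MP_10b086_an.Wild

end

section

/-!
# L5: the closed extension of `G` containing `u`
-/

open Cardinal Submodule Finset Filter Topology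
open scoped ComplexConjugate

namespace Pool.Agent.Work.MP_10b086_an.Wild

section LinAlg

variable {E : Type} [AddCommGroup E] [Module ℂ E]

/-- combining two relatively independent families -/
theorem relInd_sum {G P' : Submodule ℂ E} (hGP : G ≤ P') {I1 I2 : Type} {v1 : I1 → E}
    {v2 : I2 → E} (hv1 : ∀ i, v1 i ∈ P')
    (h1 : LinearIndependent ℂ fun i => G.mkQ (v1 i))
    (h2 : LinearIndependent ℂ fun i => P'.mkQ (v2 i)) :
    LinearIndependent ℂ fun i => G.mkQ (Sum.elim v1 v2 i) := by
  have hm : (fun i => P'.mkQ (v2 i)) = (Submodule.factor hGP) ∘ fun i => G.mkQ (v2 i) := by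
    funext i
    exact (Submodule.factor_mk hGP (v2 i)).symm
  rw [linearIndependent_sum]
  refine ⟨h1, ?_, ?_⟩
  · rw [hm] at h2
    exact h2.of_comp
  · rw [Submodule.disjoint_def]
    intro z hz1 hz2
    have hz2' : z ∈ span ℂ (Set.range fun i => G.mkQ (v2 i)) := hz2
    obtain ⟨a, ha⟩ := (Finsupp.mem_span_range_iff_exists_finsupp).mp hz2'
    have hz1' : z ∈ span ℂ (Set.range fun i => G.mkQ (v1 i)) := hz1
    have hker : span ℂ (Set.range fun i => G.mkQ (v1 i)) ≤ LinearMap.ker (Submodule.factor hGP) := by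
      rw [Submodule.span_le]
      rintro _ ⟨i, rfl⟩
      show Submodule.factor hGP (G.mkQ (v1 i)) = 0
      rw [Submodule.factor_mk]
      exact (Submodule.Quotient.mk_eq_zero P').mpr (hv1 i)
    have h0 : Submodule.factor hGP z = 0 := hker hz1'
    rw [linearIndependent_iff] at h2
    have h5 : Finsupp.linearCombination ℂ (fun i => P'.mkQ (v2 i)) a = 0 := by
      rw [hm, ← h0, ← ha, Finsupp.linearCombination_apply, map_finsuppSum]
      apply Finsupp.sum_congr
      intro i _
      rw [map_smul]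
      rfl
    have h6 := h2 a h5
    rw [← ha, h6, Finsupp.sum_zero_index]

end LinAlg

theorem claimL5 (h1 : ClaimL1) (h3 : ClaimL3) (h4 : ClaimL4) : ClaimL5 := by
  intro U Z _ _ _ _ F G hG κ hκ hsize u
  obtain ⟨S0, hS0, hGS0⟩ := hsize
  -- independent vectors
  obtain ⟨s, hs⟩ := F.ind (F.π '' S0) (lt_of_le_of_lt (Cardinal.mk_image_le.trans hS0) hκ)
  obtain ⟨t, ht⟩ := F.sys s (fun _ => 0) (fun _ => 0) (fun _ _ => 0) (fun _ _ => 0)
    (fun _ _ => 0) (fun _ _ => 0)
  have hts : ∀ k, F.π (t k) = s k := by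
    intro k
    have := (ht k).1
    rw [Finset.range_zero, Finset.sum_empty, add_zero] at this
    exact this
  have hGle : G ≤ (span ℂ (F.π '' S0) ⊔ BB F.b ⊤).comap F.π := by
    rw [hGS0, Submodule.span_le]
    intro x hx
    exact Submodule.mem_sup_left (Submodule.subset_span ⟨x, hx, rfl⟩)
  have htind : LinearIndependent ℂ fun n => G.mkQ (t n) := by
    have e : (fun n => (span ℂ (F.π '' S0) ⊔ BB F.b ⊤).mkQ (s n)) =
        (Submodule.mapQ G _ F.π hGle) ∘ fun n => G.mkQ (t n) := by
      funext n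
      rw [Function.comp_apply, ← hts n]
      rfl
    rw [e] at hs
    exact hs.of_comp
  -- the closed hull
  obtain ⟨S, hS, hCS, hcl⟩ := h4 U Z F G hG ({u} ∪ Set.range t)
    ((Set.countable_singleton u).union (Set.countable_range t))
  set G' : Submodule ℂ U := G ⊔ span ℂ S with hG'
  have huG' : u ∈ G' := Submodule.mem_sup_right (Submodule.subset_span (hCS (Or.inl rfl)))
  have htG' : ∀ n, t n ∈ G' := fun n =>
    Submodule.mem_sup_right (Submodule.subset_span (hCS (Or.inr ⟨n, rfl⟩)))
  set P' : Submodule ℂ U := G' ⊓ (BB F.b ⊤).comap F.π with hP'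
  obtain ⟨I1, hI1, v1, hv1, hv1i, hv1s⟩ := h3 U P' G S hS inf_le_left
  obtain ⟨I2, hI2, v2, hv2, hv2i, hv2s⟩ := h3 U G' (G ⊔ P') S hS
    (sup_le_sup_right le_sup_left _)
  have hPG' : P' ≤ G' := inf_le_left
  have hGG' : G ≤ G' := le_sup_left
  have hwind := relInd_sum (le_sup_left : G ≤ G ⊔ P')
    (fun i => (le_sup_right : P' ≤ G ⊔ P') (hv1 i)) hv1i hv2i
  have hwG' : ∀ i, Sum.elim v1 v2 i ∈ G' := by
    rintro (i | i)
    · exact hPG' (hv1 i)
    · exact hv2 i
  have hspan : G ⊔ span ℂ (Set.range (Sum.elim v1 v2)) = G' := by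
    apply le_antisymm
    · apply sup_le hGG'
      rw [Submodule.span_le]
      rintro _ ⟨i, rfl⟩
      exact hwG' i
    · refine hv2s.trans ?_
      have k1 : span ℂ (Set.range v1) ≤ span ℂ (Set.range (Sum.elim v1 v2)) := by
        apply Submodule.span_mono
        rw [Set.Sum.elim_range]
        exact Set.subset_union_left
      have k2 : span ℂ (Set.range v2) ≤ span ℂ (Set.range (Sum.elim v1 v2)) := by
        apply Submodule.span_mono
        rw [Set.Sum.elim_range]
        exact Set.subset_union_right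
      apply sup_le (sup_le le_sup_left ?_) (k2.trans le_sup_right)
      exact hv1s.trans (sup_le_sup_left k1 _)
  have hinf : Infinite (I1 ⊕ I2) := by
    by_contra hfin
    rw [not_infinite_iff_finite] at hfin
    have hle : Set.range (fun n => G.mkQ (t n)) ≤
        span ℂ (Set.range fun i => G.mkQ (Sum.elim v1 v2 i)) := by
      rintro _ ⟨n, rfl⟩
      have h5 : t n ∈ G ⊔ span ℂ (Set.range (Sum.elim v1 v2)) := hspan ▸ htG' n
      obtain ⟨g, hg, y, hy, hgy⟩ := Submodule.mem_sup.mp h5
      have h6 : G.mkQ (t n) = G.mkQ y := by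
        rw [← hgy, map_add]
        have : G.mkQ g = 0 := (Submodule.Quotient.mk_eq_zero G).mpr hg
        rw [this, zero_add]
      show G.mkQ (t n) ∈ _
      rw [h6]
      have h7 : (span ℂ (Set.range (Sum.elim v1 v2))).map G.mkQ =
          span ℂ (Set.range fun i => G.mkQ (Sum.elim v1 v2 i)) := by
        rw [Submodule.map_span, ← Set.range_comp]
        rfl
      rw [SetLike.mem_coe, ← h7]
      exact Submodule.mem_map_of_mem hy
    have hfin2 : Finite (Set.range fun i => G.mkQ (Sum.elim v1 v2 i)) := Set.finite_range _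
    have : Finite ℕ := htind.finite_of_le_span_finite _ _ hle
    exact not_finite ℕ
  obtain ⟨e⟩ := nonempty_equiv_of_countable (α := ℕ) (β := I1 ⊕ I2)
  set x : ℕ → U := fun k => Sum.elim v1 v2 (e k) with hx
  have hrange : Set.range x = Set.range (Sum.elim v1 v2) := by
    rw [hx]
    exact e.surjective.range_comp (Sum.elim v1 v2)
  have hGx : G ⊔ span ℂ (Set.range x) = G' := by rw [hrange, hspan]
  set K : Set ℕ := {k | ∃ i, e k = Sum.inl i} with hK
  have hxK : ∀ k ∈ K, x k ∈ P' := by
    rintro k ⟨i, hi⟩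
    rw [hx]
    simp only [hi, Sum.elim_inl]
    exact hv1 i
  have hex : ∀ k, ∃ (m : ℕ) (v w : ℕ → U), (∀ i, v i ∈ G') ∧ (∀ i, w i ∈ G') ∧
      (k ∈ K → F.π (x k) = ∑ i ∈ range m, F.b (v i) (w i)) ∧ (k ∉ K → m = 0) := by
    intro k
    by_cases hk : k ∈ K
    · have h5 := hxK k hk
      have h6 : F.π (x k) ∈ BB F.b G' := hcl (x k) h5.1 h5.2
      rw [h1] at h6
      obtain ⟨n, y, z, hy, hz, h7⟩ := h6
      exact ⟨n, y, z, hy, hz, fun _ => h7, fun h => absurd hk h⟩
    · exact ⟨0, fun _ => 0, fun _ => 0, fun _ => zero_mem _, fun _ => zero_mem _,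
        fun h => absurd h hk, fun _ => rfl⟩
  choose m v w hv hw hm1 hm2 using hex
  refine ⟨x, K, m, v, w, ?_, ?_, ?_, ?_, hm1, hm2, ?_⟩
  · exact hwind.comp e e.injective
  · rw [hGx]
    exact huG'
  · intro k i
    rw [hGx]
    exact hv k i
  · intro k i
    rw [hGx]
    exact hw k i
  · intro g hg a hπ k hk
    classical
    have hz : g + lc x a ∈ P' := by
      refine ⟨?_, hπ⟩
      rw [← hGx]
      apply Submodule.add_mem_sup hg
      rw [Finsupp.mem_span_range_iff_exists_finsupp]
      exact ⟨a, rfl⟩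
    have hsplit : lc x a = lc x (a.filter (· ∈ K)) + lc x (a.filter (· ∉ K)) := by
      rw [← map_add, Finsupp.filter_add_filter_not]
    have hp1 : lc x (a.filter (· ∈ K)) ∈ P' := by
      rw [Finsupp.linearCombination_apply]
      apply Submodule.sum_mem
      intro j hj
      apply Submodule.smul_mem
      apply hxK
      by_contra hjK
      rw [Finsupp.mem_support_iff] at hj
      exact hj (Finsupp.filter_apply_neg _ _ hjK)
    have hp2 : lc x (a.filter (· ∉ K)) ∈ G ⊔ P' := by
      have e1 : lc x (a.filter (· ∉ K)) =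
          (g + lc x a) - g - lc x (a.filter (· ∈ K)) := by
        rw [hsplit]
        abel
      rw [e1]
      apply Submodule.sub_mem
      · apply Submodule.sub_mem
        · exact Submodule.mem_sup_right hz
        · exact Submodule.mem_sup_left hg
      · exact Submodule.mem_sup_right hp1
    have hind : LinearIndepOn ℂ (fun k => (G ⊔ P').mkQ (x k)) {k | k ∉ K} := by
      have hφ : ∀ k : {k | k ∉ K}, ∃ j, e k = Sum.inr j := by
        rintro ⟨k, hk⟩
        rcases hc : e k with i | j
        · exact absurd ⟨i, hc⟩ hk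
        · exact ⟨j, rfl⟩
      choose φ hφ2 using hφ
      have hφi : Function.Injective φ := by
        intro p q hpq
        apply Subtype.ext
        apply e.injective
        rw [hφ2 p, hφ2 q, hpq]
      have h8 := hv2i.comp φ hφi
      have h9 : (fun k : {k | k ∉ K} => (G ⊔ P').mkQ (x k)) =
          (fun i => (G ⊔ P').mkQ (v2 i)) ∘ φ := by
        funext p
        rw [Function.comp_apply, hx]
        simp only [hφ2 p, Sum.elim_inr]
      show LinearIndependent ℂ (fun k : {k | k ∉ K} => (G ⊔ P').mkQ (x k))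
      rw [h9]
      exact h8
    rw [linearIndepOn_iff] at hind
    have h10 := hind (a.filter (· ∉ K)) (by
      rw [Finsupp.mem_supported]
      intro j hj
      by_contra hjK
      rw [Finset.mem_coe, Finsupp.mem_support_iff] at hj
      exact hj (Finsupp.filter_apply_neg _ _ hjK)) (by
      have e2 : Finsupp.linearCombination ℂ (fun k => (G ⊔ P').mkQ (x k)) (a.filter (· ∉ K)) =
          (G ⊔ P').mkQ (lc x (a.filter (· ∉ K))) := by
        rw [Finsupp.linearCombination_apply, lc, Finsupp.linearCombination_apply, map_finsuppSum]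
        apply Finsupp.sum_congr
        intro i _
        rw [map_smul]
      rw [e2]
      exact (Submodule.Quotient.mk_eq_zero _).mpr hp2)
    have h11 := DFunLike.congr_fun h10 k
    rwa [Finsupp.filter_apply_pos (fun x => x ∉ K) a hk, Finsupp.zero_apply] at h11

end Pool.Agent.Work.MP_10b086_an.Wild

end

section

/-!
# P1: partial solutions from an abstract space `X`
-/

open Cardinal Submodule Finset Filter Topology
open scoped ComplexConjugate

namespace Pool.Agent.Work.MP_10b086_an.Wild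

namespace P1

/-- Concatenation of two families. -/
def cat {X : Type} (n : ℕ) (x x' : ℕ → X) (i : ℕ) : X := if i < n then x i else x' (i - n)

theorem sum_cat {X W : Type} [AddCommMonoid W] (f : X → X → W) (n m : ℕ) (x y x' y' : ℕ → X) :
    ∑ i ∈ range (n + m), f (cat n x x' i) (cat n y y' i) =
      ∑ i ∈ range n, f (x i) (y i) + ∑ i ∈ range m, f (x' i) (y' i) := by
  rw [Finset.sum_range_add]
  congr 1
  · apply Finset.sum_congr rfl
    intro i hi
    rw [Finset.mem_range] at hi
    simp only [cat, if_pos hi]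
  · apply Finset.sum_congr rfl
    intro i _
    have h : ¬ n + i < n := by omega
    simp only [cat, if_neg h, Nat.add_sub_cancel_left]

theorem same (h2 : ClaimL2) {U Z : Type} [NormedAddCommGroup U] [NormedSpace ℂ U]
    [NormedAddCommGroup Z] [NormedSpace ℂ Z] (F : Frame U Z) {X W : Type} [AddCommGroup X]
    [Module ℂ X] [AddCommGroup W] (Φ : X →ₗ[ℂ] U) (hΦ : Function.Injective Φ) (β : X → X → W)
    (h3 : ∀ x x' y, β (x + x') y = β x y + β x' y) (h4 : ∀ x y y', β x (y + y') = β x y + β x y')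
    (h5 : ∀ (c : ℂ) x y, β (c • x) y = β x (c • y)) (n m : ℕ) (x y x' y' : ℕ → X)
    (h : ∑ i ∈ range n, F.b (Φ (x i)) (Φ (y i)) = ∑ i ∈ range m, F.b (Φ (x' i)) (Φ (y' i))) :
    ∑ i ∈ range n, β (x i) (y i) = ∑ i ∈ range m, β (x' i) (y' i) := by
  have hneg : ∀ x y, β (-x) y = - β x y := by
    intro x y
    have h0 : β 0 y = 0 := by
      have h6 := h3 0 0 y
      rw [add_zero] at h6
      exact left_eq_add.mp h6
    have h7 := h3 x (-x) y
    rw [add_neg_cancel, h0] at h7
    exact (neg_eq_of_add_eq_zero_right h7.symm).symm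
  have h8 := h2 U Z F X W Φ hΦ β h3 h4 h5 (n + m) (cat n x (fun i => - x' i)) (cat n y y') (by
    rw [sum_cat (fun a b => F.b (Φ a) (Φ b))]
    simp only [map_neg, LinearMap.neg_apply, Finset.sum_neg_distrib]
    rw [h, add_neg_cancel])
  rw [sum_cat] at h8
  simp only [hneg, Finset.sum_neg_distrib] at h8
  exact eq_of_sub_eq_zero (by rw [sub_eq_add_neg]; exact h8)

end P1

open P1 in
theorem claimP1 (h2 : ClaimL2) (h1 : ClaimL1) : ClaimP1 := by
  classical
  intro U Z _ _ _ _ F X _ _ Φ hΦ T α h hTa hTs hTT hG hαT S hS hSr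
  have hT0 : T 0 = 0 := by
    have h3 := hTa 0 0
    rw [add_zero] at h3
    exact left_eq_add.mp h3
  have hα0 : α 0 = 0 := by
    have h3 := hG.α_add 0 0
    rw [add_zero] at h3
    exact left_eq_add.mp h3
  have hh_add : ∀ x y y', h x (y + y') = h x y + h x y' := by
    intro x y y'
    rw [hG.h_symm (y + y') x, hG.h_add, map_add, ← hG.h_symm, ← hG.h_symm]
  have hh_smul : ∀ (c : ℂ) x y, h x (c • y) = conj c * h x y := by
    intro c x y
    rw [hG.h_symm (c • y) x, hG.h_smul, map_mul, ← hG.h_symm]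
  have hR : ∀ g ∈ span ℂ S, ∃ (n : ℕ) (x y : ℕ → X),
      F.π (Φ g) = ∑ i ∈ range n, F.b (Φ (x i)) (Φ (y i)) ∧
      F.π (Φ (T g)) = ∑ i ∈ range n, F.b (Φ (T (y i))) (Φ (T (x i))) ∧
      α g = ∑ i ∈ range n, h (x i) (T (y i)) := by
    intro g hg
    induction hg using Submodule.span_induction with
    | mem g hg => exact hSr g hg
    | zero =>
      refine ⟨0, fun _ => 0, fun _ => 0, ?_, ?_, ?_⟩
      · simp
      · simp [hT0]
      · simp [hα0]
    | add g g' _ _ ih ih' =>
      obtain ⟨n, x, y, e1, e2, e3⟩ := ih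
      obtain ⟨n', x', y', e1', e2', e3'⟩ := ih'
      refine ⟨n + n', cat n x x', cat n y y', ?_, ?_, ?_⟩
      · rw [sum_cat (fun a b => F.b (Φ a) (Φ b)), map_add, map_add, e1, e1']
      · rw [sum_cat (fun a b => F.b (Φ (T b)) (Φ (T a))), hTa, map_add, map_add, e2, e2']
      · rw [sum_cat (fun a b => h a (T b)), hG.α_add, e3, e3']
    | smul c g _ ih =>
      obtain ⟨n, x, y, e1, e2, e3⟩ := ih
      refine ⟨n, fun i => c • x i, y, ?_, ?_, ?_⟩
      · rw [map_smul, map_smul, e1, Finset.smul_sum]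
        apply Finset.sum_congr rfl
        intro i _
        rw [map_smul, map_smul, LinearMap.smul_apply]
      · rw [hTs, map_smul, map_smul, e2, Finset.smul_sum]
        apply Finset.sum_congr rfl
        intro i _
        rw [hTs, map_smul, map_smul]
      · rw [hG.α_smul, e3, Finset.mul_sum]
        apply Finset.sum_congr rfl
        intro i _
        rw [hG.h_smul]
  have hinv : ∀ x, Function.invFun Φ (Φ x) = x := Function.leftInverse_invFun hΦ
  have hspan : ∀ (g : X) (n : ℕ) (x y : ℕ → U), F.π (Φ g) = ∑ i ∈ range n, F.b (x i) (y i) →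
      g ∈ span ℂ S := by
    intro g n x y hg
    apply hS
    rw [h1]
    exact ⟨n, x, y, fun _ => trivial, fun _ => trivial, hg⟩
  refine ⟨{
    G := LinearMap.range Φ
    T := fun u => Φ (T (Function.invFun Φ u))
    α := fun u => α (Function.invFun Φ u)
    h := fun u w => h (Function.invFun Φ u) (Function.invFun Φ w)
    T_mem := ?_
    T_add := ?_
    T_smul := ?_
    T_T := ?_
    α_add := ?_
    α_smul := ?_
    α_T := ?_
    h_add := ?_
    h_smul := ?_
    h_symm := ?_
    h_pos := ?_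
    closed := ?_
    star := ?_
    beta := ?_ }, rfl, ?_, ?_, ?_⟩
  · intro g _
    exact LinearMap.mem_range_self Φ _
  · rintro _ ⟨x, rfl⟩ _ ⟨y, rfl⟩
    rw [← map_add, hinv, hinv, hinv, hTa, map_add]
  · rintro c _ ⟨x, rfl⟩
    rw [← map_smul, hinv, hinv, hTs, map_smul]
  · rintro _ ⟨x, rfl⟩
    rw [hinv, hinv, hTT]
  · rintro _ ⟨x, rfl⟩ _ ⟨y, rfl⟩
    rw [← map_add, hinv, hinv, hinv, hG.α_add]
  · rintro c _ ⟨x, rfl⟩
    rw [← map_smul, hinv, hinv, hG.α_smul]
  · rintro _ ⟨x, rfl⟩
    rw [hinv, hinv, hαT]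
  · rintro _ ⟨x, rfl⟩ _ ⟨y, rfl⟩ _ ⟨z, rfl⟩
    rw [← map_add, hinv, hinv, hinv, hinv, hG.h_add]
  · rintro c _ ⟨x, rfl⟩ _ ⟨y, rfl⟩
    rw [← map_smul, hinv, hinv, hinv, hG.h_smul]
  · rintro _ ⟨x, rfl⟩ _ ⟨y, rfl⟩
    rw [hinv, hinv, hG.h_symm]
  · rintro _ ⟨x, rfl⟩ hx
    rw [hinv]
    apply hG.h_pos
    rintro rfl
    exact hx (map_zero Φ)
  · rintro _ ⟨g, rfl⟩ hg
    obtain ⟨n, x, y, e1, _, _⟩ := hR g (hS g hg)
    rw [h1]
    exact ⟨n, fun i => Φ (x i), fun i => Φ (y i), fun i => LinearMap.mem_range_self Φ _,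
      fun i => LinearMap.mem_range_self Φ _, e1⟩
  · rintro _ ⟨g, rfl⟩ n x y hx hy hg
    obtain ⟨m, x', y', e1, e2, _⟩ := hR g (hspan g n x y hg)
    choose xx hxx using hx
    choose yy hyy using hy
    obtain rfl : (fun i => Φ (xx i)) = x := funext hxx
    obtain rfl : (fun i => Φ (yy i)) = y := funext hyy
    simp only [hinv]
    rw [e2]
    refine (same h2 F Φ hΦ (fun a b => F.b (Φ (T b)) (Φ (T a))) ?_ ?_ ?_ n m xx yy x' y' ?_).symm
    · intro a a' b
      rw [hTa, map_add, map_add]
    · intro a b b'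
      rw [hTa, map_add, map_add, LinearMap.add_apply]
    · intro c a b
      rw [hTs, hTs, map_smul, map_smul, map_smul, map_smul, LinearMap.smul_apply]
    · rw [← hg, e1]
  · rintro _ ⟨g, rfl⟩ n x y hx hy hg
    obtain ⟨m, x', y', e1, _, e3⟩ := hR g (hspan g n x y hg)
    choose xx hxx using hx
    choose yy hyy using hy
    obtain rfl : (fun i => Φ (xx i)) = x := funext hxx
    obtain rfl : (fun i => Φ (yy i)) = y := funext hyy
    simp only [hinv]
    rw [e3]
    refine (same h2 F Φ hΦ (fun a b => h a (T b)) ?_ ?_ ?_ n m xx yy x' y' ?_).symm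
    · intro a a' b
      rw [hG.h_add]
    · intro a b b'
      rw [hTa, hh_add]
    · intro c a b
      rw [hTs, hG.h_smul, hh_smul, Complex.conj_conj]
    · rw [← hg, e1]
  · intro x
    simp only [hinv]
  · intro x
    simp only [hinv]
  · intro x y
    simp only [hinv]

end Pool.Agent.Work.MP_10b086_an.Wild

end

section

/-!
# P2: the start

The partial solution on the span of countably many vectors `g j` such that `π (g j)` is
independent modulo the span of the values of `b`.
-/

open Cardinal Submodule Finset Filter Topology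
open scoped ComplexConjugate

namespace Pool.Agent.Work.MP_10b086_an.Wild

/-- the sum of the coordinates -/
private noncomputable def sA : (ℕ →₀ ℂ) →ₗ[ℂ] ℂ := Finsupp.linearCombination ℂ fun _ => (1 : ℂ)

/-- the standard form, as a linear map in the first variable -/
private noncomputable def sB (a' : ℕ →₀ ℂ) : (ℕ →₀ ℂ) →ₗ[ℂ] ℂ :=
  Finsupp.linearCombination ℂ fun j => conj (a' j)

private theorem sA_eq (a : ℕ →₀ ℂ) (S : Finset ℕ) (h : a.support ⊆ S) :
    sA a = ∑ j ∈ S, a j := by
  unfold sA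
  rw [Finsupp.linearCombination_apply, Finsupp.sum_of_support_subset _ h _ (by simp)]
  simp

private theorem sB_eq (a a' : ℕ →₀ ℂ) (S : Finset ℕ) (h : a.support ⊆ S) :
    sB a' a = ∑ j ∈ S, a j * conj (a' j) := by
  unfold sB
  rw [Finsupp.linearCombination_apply, Finsupp.sum_of_support_subset _ h _ (by simp)]
  simp

private theorem cj_apply (a : ℕ →₀ ℂ) (j : ℕ) : cj a j = conj (a j) := by
  simp [cj]

private theorem cj_add (a a' : ℕ →₀ ℂ) : cj (a + a') = cj a + cj a' := by
  ext j; simp [cj_apply]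

private theorem cj_smul (c : ℂ) (a : ℕ →₀ ℂ) : cj (c • a) = conj c • cj a := by
  ext j; simp [cj_apply]

private theorem cj_cj (a : ℕ →₀ ℂ) : cj (cj a) = a := by
  ext j; simp [cj_apply]

private theorem cj_support (a : ℕ →₀ ℂ) : (cj a).support ⊆ a.support := by
  intro j hj
  rw [Finsupp.mem_support_iff, cj_apply] at hj
  rw [Finsupp.mem_support_iff]
  intro h
  exact hj (by rw [h, map_zero])

private theorem sA_cj (a : ℕ →₀ ℂ) : sA (cj a) = conj (sA a) := by
  rw [sA_eq a a.support subset_rfl, sA_eq (cj a) a.support (cj_support a), map_sum]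
  exact Finset.sum_congr rfl fun j _ => cj_apply a j

/-- the form of the start -/
private noncomputable def sH (a a' : ℕ →₀ ℂ) : ℂ := sA a * conj (sA a') + sB a' a

private theorem sH_good : Good (fun a => sA a) sH where
  α_add g k := map_add _ _ _
  α_smul c g := by simp
  h_add g g' k := by
    unfold sH
    rw [map_add, map_add]
    ring
  h_smul c g k := by
    unfold sH
    rw [map_smul, map_smul, smul_eq_mul, smul_eq_mul]
    ring
  h_symm g k := by
    unfold sH
    rw [sB_eq g k (g.support ∪ k.support) Finset.subset_union_left,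
      sB_eq k g (g.support ∪ k.support) Finset.subset_union_right, map_add, map_mul, map_sum,
      Complex.conj_conj]
    congr 1
    · ring
    · refine Finset.sum_congr rfl fun j _ => ?_
      rw [map_mul, Complex.conj_conj]
      ring
  h_pos g hg := by
    have hsum : 0 < ∑ j ∈ g.support, ‖g j‖ ^ 2 := by
      obtain ⟨j, hj⟩ : g.support.Nonempty := by
        rw [Finset.nonempty_iff_ne_empty]
        exact fun h => hg (Finsupp.support_eq_empty.1 h)
      have : 0 < ‖g j‖ ^ 2 := by
        have := Finsupp.mem_support_iff.1 hj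
        positivity
      exact lt_of_lt_of_le this
        (Finset.single_le_sum (f := fun j => ‖g j‖ ^ 2) (fun i _ => by positivity) hj)
    have e : sH g g = ((‖sA g‖ ^ 2 + ∑ j ∈ g.support, ‖g j‖ ^ 2 : ℝ) : ℂ) := by
      unfold sH
      rw [sB_eq g g g.support subset_rfl]
      push_cast
      rw [Complex.mul_conj']
      congr 1
      exact Finset.sum_congr rfl fun j _ => Complex.mul_conj' _
    rw [e, Complex.ofReal_re]
    linarith

theorem claimP2 (h1 : ClaimP1) : ClaimP2 := by
  intro U Z _ _ _ _ F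
  obtain ⟨s, hs⟩ := F.ind ∅ (by rw [Cardinal.mk_eq_zero]; exact Cardinal.continuum_pos)
  -- the scaled sequence
  have hcpos : ∀ j : ℕ, (0 : ℝ) < ((j : ℝ) + 1) * (‖s j‖ + 1) := fun j => by positivity
  set c : ℕ → ℂ := fun j => ((((j : ℝ) + 1) * (‖s j‖ + 1) : ℝ) : ℂ)⁻¹ with hc
  have hc0 : ∀ j, c j ≠ 0 := fun j => by
    rw [hc]
    exact inv_ne_zero (Complex.ofReal_ne_zero.2 (hcpos j).ne')
  obtain ⟨g, hg⟩ := F.sys (fun j => c j • s j) (fun _ => 0) (fun _ => 0) (fun _ _ => 0)
    (fun _ _ => 0) (fun _ _ => 0) (fun _ _ => 0)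
  have hπ : ∀ j, F.π (g j) = c j • s j := fun j => by
    have := (hg j).1
    simpa using this
  -- independence
  have hBU : BB F.b ⊤ = span ℂ (∅ : Set Z) ⊔ BB F.b ⊤ := by simp
  have hz : LinearIndependent ℂ fun n => (BB F.b ⊤).mkQ (F.π (g n)) := by
    rw [← hBU] at hs
    have := hs.units_smul fun n => Units.mk0 (c n) (hc0 n)
    have e : (fun n => (BB F.b ⊤).mkQ (F.π (g n))) =
        (fun n => Units.mk0 (c n) (hc0 n)) • fun n => (BB F.b ⊤).mkQ (s n) := by
      funext n
      rw [hπ, map_smul]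
      rfl
    rw [e]
    exact this
  have key : ∀ a : ℕ →₀ ℂ, F.π (lc g a) ∈ BB F.b ⊤ → a = 0 := by
    intro a ha
    have h2 : (BB F.b ⊤).mkQ (F.π (lc g a)) = 0 := by
      rw [Submodule.mkQ_apply, Submodule.Quotient.mk_eq_zero]
      exact ha
    have h3 : Finsupp.linearCombination ℂ (fun n => (BB F.b ⊤).mkQ (F.π (g n))) a = 0 := by
      rw [← h2]
      have : (BB F.b ⊤).mkQ (F.π (lc g a)) = ((BB F.b ⊤).mkQ.comp F.π) (lc g a) := rfl
      rw [this, Finsupp.apply_linearCombination]
      rfl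
    exact (linearIndependent_iff.1 hz) a h3
  have hinj : Function.Injective (lc g) := by
    rw [injective_iff_map_eq_zero]
    intro a ha
    refine key a ?_
    rw [ha, map_zero]
    exact Submodule.zero_mem _
  obtain ⟨Q, hQG, hQT, hQα, hQh⟩ := h1 U Z F (ℕ →₀ ℂ) (lc g) hinj cj (fun a => sA a) sH cj_add
    cj_smul cj_cj sH_good sA_cj ∅ (fun a ha => by rw [key a ha]; exact Submodule.zero_mem _)
    (fun a ha => absurd ha (Set.notMem_empty a))
  refine ⟨Q, ?_, g, ?_, ?_, ?_⟩
  · refine ⟨Set.range g, Cardinal.mk_range_le.trans (by simp), ?_⟩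
    rw [hQG, Finsupp.range_linearCombination]
  · intro j
    rw [hQG, Finsupp.range_linearCombination]
    exact Submodule.subset_span ⟨j, rfl⟩
  · intro j
    have := hQα (Finsupp.single j 1)
    rw [Finsupp.linearCombination_single, one_smul] at this
    rw [this, sA, Finsupp.linearCombination_single]
    simp
  · have hb : ∀ j, ‖F.π (g j)‖ ≤ 1 / ((j : ℝ) + 1) := by
      intro j
      rw [hπ, norm_smul]
      have e : ‖c j‖ = (((j : ℝ) + 1) * (‖s j‖ + 1))⁻¹ := by
        rw [hc]
        simp only [norm_inv, Complex.norm_real, Real.norm_eq_abs]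
        rw [abs_of_pos (hcpos j)]
      rw [e, mul_inv, one_div, mul_assoc]
      have h2 : (‖s j‖ + 1)⁻¹ * ‖s j‖ ≤ 1 := by
        rw [inv_mul_le_iff₀ (by positivity)]
        linarith
      have h3 : 0 ≤ ((j : ℝ) + 1)⁻¹ := by positivity
      calc ((j : ℝ) + 1)⁻¹ * ((‖s j‖ + 1)⁻¹ * ‖s j‖) ≤ ((j : ℝ) + 1)⁻¹ * 1 :=
            mul_le_mul_of_nonneg_left h2 h3
        _ = ((j : ℝ) + 1)⁻¹ := mul_one _
    exact squeeze_zero_norm hb tendsto_one_div_add_atTop_nhds_zero_nat

end Pool.Agent.Work.MP_10b086_an.Wild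

end

section

set_option autoImplicit false

/-! Item P5: the transfinite argument (helper18). -/

open Cardinal Submodule Finset Filter Topology
open scoped ComplexConjugate

namespace Pool.Agent.Work.MP_10b086_an.Wild

namespace P5

variable {Ω : Type} [LinearOrder Ω] [WellFoundedLT Ω]

/-- a proper lower set is the set of the elements below the least element outside -/
theorem exists_min (J : Set Ω) (hJ : IsLowerSet J) (h : J ≠ Set.univ) :
    ∃ w : Ω, J = Set.Iio w := by
  have hne : (Jᶜ : Set Ω).Nonempty := by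
    rw [Set.nonempty_compl]
    exact h
  obtain ⟨w, hw, hmin⟩ := WellFounded.has_min (wellFounded_lt (α := Ω)) Jᶜ hne
  refine ⟨w, Set.Subset.antisymm ?_ ?_⟩
  · intro x hx
    by_contra h1
    exact hw (hJ (not_lt.1 h1) hx)
  · intro x hx
    by_contra h1
    exact hmin x h1 hx

variable {X : Type} (ext : X → X → Prop) (size : X → Cardinal.{0} → Prop) (has : X → Ω → Prop)
  (x₀ : X)

/-- the partial objects -/
structure Obj where
  /-- the lower set -/
  J : Set Ω
  /-- the object -/
  x : X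
  low : IsLowerSet J
  hs : ∀ w ∈ J, has x w
  sz : size x (max ℵ₀ #J)
  ex : ext x₀ x

/-- the order on the partial objects -/
def rel (a b : Obj ext size has x₀) : Prop := a = b ∨ (a.J ⊂ b.J ∧ ext a.x b.x)

end P5

open P5 in
theorem claimP5 : ClaimP5 := by
  classical
  intro Ω _ _ hΩ X ext hrefl htrans size hsize has hhas x₀ hx₀ hstep hchain
  have hz : ∃ m : Obj ext size has x₀, ∀ a, rel ext size has x₀ m a → rel ext size has x₀ a m := by
    apply exists_maximal_of_chains_bounded
    · intro c hc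
      rcases c.eq_empty_or_nonempty with hemp | hne
      · refine ⟨⟨∅, x₀, isLowerSet_empty, fun w hw => absurd hw (Set.notMem_empty w),
          hsize x₀ ℵ₀ _ (le_max_left _ _) hx₀, hrefl x₀⟩, fun a ha => ?_⟩
        rw [hemp] at ha
        exact absurd ha (Set.notMem_empty a)
      by_cases hmax : ∃ a ∈ c, ∀ b ∈ c, rel ext size has x₀ b a
      · obtain ⟨a, -, ha⟩ := hmax
        exact ⟨a, ha⟩
      push Not at hmax
      have hcmp : ∀ a ∈ c, ∀ b ∈ c, a ≠ b → (a.J ⊂ b.J ∧ ext a.x b.x) ∨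
          (b.J ⊂ a.J ∧ ext b.x a.x) := by
        intro a ha b hb hab
        rcases hc ha hb hab with h | h
        · rcases h with h | h
          · exact absurd h hab
          · exact Or.inl h
        · rcases h with h | h
          · exact absurd h.symm hab
          · exact Or.inr h
      have hup : ∀ a ∈ c, ∃ b ∈ c, a.J ⊂ b.J := by
        intro a ha
        obtain ⟨b, hb, hab⟩ := hmax a ha
        have hne' : a ≠ b := by
          rintro rfl
          exact hab (Or.inl rfl)
        rcases hcmp a ha b hb hne' with h | h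
        · exact ⟨b, hb, h.1⟩
        · exact absurd (Or.inr h) hab
      have hmin : ∀ a : c, ∃ w : Ω, a.1.J = Set.Iio w := by
        intro a
        apply exists_min _ a.1.low
        intro h
        obtain ⟨b, -, hb⟩ := hup a.1 a.2
        rw [h] at hb
        exact hb.2 (Set.subset_univ _)
      choose w hw using hmin
      have hne2 : Nonempty c := hne.to_subtype
      obtain ⟨y, hy1, hy2⟩ := hchain c (fun a => a.1.x) (by
        intro a b
        by_cases hab : a.1 = b.1
        · left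
          rw [hab]
          exact hrefl _
        · rcases hcmp a.1 a.2 b.1 b.2 hab with h | h
          · exact Or.inl h.2
          · exact Or.inr h.2)
      have hy3 := hy2 (fun a => max ℵ₀ #a.1.J) (fun a => a.1.sz)
      set J : Set Ω := ⋃ a : c, a.1.J with hJ
      have hsub : ∀ a : c, a.1.J ⊆ J := fun a => Set.subset_iUnion (fun a : c => a.1.J) a
      have hwJ : ∀ a : c, w a ∈ J := by
        intro a
        obtain ⟨b, hb, hab⟩ := hup a.1 a.2
        apply hsub ⟨b, hb⟩
        by_contra h1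
        apply hab.2
        intro z hz
        rw [hw a]
        by_contra h2
        exact h1 (b.low (not_lt.1 h2) hz)
      have hinj : Function.Injective fun a : c => (⟨w a, hwJ a⟩ : J) := by
        intro a b hab
        have h1 : w a = w b := congrArg Subtype.val hab
        have h2 : a.1.J = b.1.J := by rw [hw a, hw b, h1]
        by_contra h3
        have h4 : a.1 ≠ b.1 := fun h => h3 (Subtype.ext h)
        rcases hcmp a.1 a.2 b.1 b.2 h4 with h | h
        · exact h.1.ne h2
        · exact h.1.ne h2.symm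
      have hcard : #c ≤ #J := Cardinal.mk_le_of_injective hinj
      have hinf : ℵ₀ ≤ max ℵ₀ #J := le_max_left _ _
      have hsum : Cardinal.sum (fun a : c => max ℵ₀ #a.1.J) ≤ max ℵ₀ #J := by
        calc Cardinal.sum (fun a : c => max ℵ₀ #a.1.J) ≤ Cardinal.sum (fun _ : c => max ℵ₀ #J) :=
              Cardinal.sum_le_sum _ _ fun a => max_le_max le_rfl (Cardinal.mk_le_mk_of_subset (hsub a))
          _ = #c * max ℵ₀ #J := Cardinal.sum_const' _ _
          _ ≤ max ℵ₀ #J * max ℵ₀ #J := mul_le_mul_left (hcard.trans (le_max_right _ _)) _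
          _ = max ℵ₀ #J := Cardinal.mul_eq_self hinf
      obtain ⟨a₀⟩ := hne2
      refine ⟨⟨J, y, isLowerSet_iUnion fun a => a.1.low, ?_, hsize y _ _ hsum hy3,
        htrans _ _ _ a₀.1.ex (hy1 a₀)⟩, ?_⟩
      · intro z hz
        obtain ⟨a, ha⟩ := Set.mem_iUnion.1 hz
        exact hhas _ _ _ (hy1 a) (a.1.hs z ha)
      · intro a ha
        refine Or.inr ⟨⟨hsub ⟨a, ha⟩, fun h => ?_⟩, hy1 ⟨a, ha⟩⟩
        have h1 := h (hwJ ⟨a, ha⟩)
        rw [hw ⟨a, ha⟩] at h1
        exact lt_irrefl _ h1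
    · intro a b d hab hbd
      rcases hab with rfl | hab
      · exact hbd
      · rcases hbd with rfl | hbd
        · exact Or.inr hab
        · exact Or.inr ⟨hab.1.trans hbd.1, htrans _ _ _ hab.2 hbd.2⟩
  obtain ⟨m, hm⟩ := hz
  by_cases htop : m.J = Set.univ
  · refine ⟨m.x, m.ex, fun w => m.hs w ?_⟩
    rw [htop]
    exact Set.mem_univ w
  · exfalso
    obtain ⟨w, hw⟩ := exists_min m.J m.low htop
    have hlt : max ℵ₀ #m.J < 𝔠 := by
      rw [max_lt_iff]
      refine ⟨Cardinal.aleph0_lt_continuum, ?_⟩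
      rw [hw]
      exact hΩ w
    obtain ⟨y, hy1, hy2, hy3⟩ := hstep m.x (max ℵ₀ #m.J) w hlt m.sz
    have hsub : m.J ⊂ Set.Iic w := by
      rw [hw]
      refine ⟨Set.Iio_subset_Iic_self, fun h => ?_⟩
      exact lt_irrefl w (h (Set.mem_Iic.2 le_rfl))
    have hadd : max ℵ₀ #m.J + ℵ₀ ≤ max ℵ₀ #(Set.Iic w) := by
      rw [Cardinal.add_eq_left (le_max_left _ _) (le_max_left _ _)]
      exact max_le_max le_rfl (Cardinal.mk_le_mk_of_subset hsub.1)
    let b : Obj ext size has x₀ := ⟨Set.Iic w, y, isLowerSet_Iic w, fun z hz => by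
      rcases lt_or_eq_of_le (Set.mem_Iic.1 hz) with h | h
      · refine hhas _ _ _ hy1 (m.hs z ?_)
        rw [hw]
        exact h
      · rw [h]
        exact hy2, hsize y _ _ hadd hy3, htrans _ _ _ m.ex hy1⟩
    rcases hm b (Or.inr ⟨hsub, hy1⟩) with h | h
    · have h1 : b.J = m.J := by rw [h]
      exact hsub.ne h1.symm
    · exact hsub.2 h.1.1

end Pool.Agent.Work.MP_10b086_an.Wild

end

section

/-!
# The assembly
-/

open Topology Filter Set
open scoped ENNReal ComplexConjugate

set_option autoImplicit false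

namespace Pool.Agent.H5

theorem assembly (hH4 : S_H4) (hD3 : S_D3) (hD6 : S_D6) (hD7 : S_D7) (hD5 : S_D5) (hH5 : S_H5)
    (hX1 : S_X1) (hE5 : S_E5) (hG3 : S_G3) : Final := by
  obtain ⟨v0, h1, h2, hroot⟩ := hH4
  obtain ⟨e, he, hel, hec⟩ := hD6 Lam v0 h1 h2
  obtain ⟨σ, σadd, σmul, σsmul, σinv, σnorm, σqt, σchi⟩ := hD7 Lam v0 h1 h2
  obtain ⟨iso, att, qtle, one, chile⟩ := hD3 _ _ (tw v0 h1 h2)
  have : NormOneClass (tw v0 h1 h2).B := ⟨one ⟨e, he⟩⟩
  have σzero : σ 0 = 0 := by
    have := σsmul 0 0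
    simpa using this
  obtain ⟨s, hsZ, hs_surj, hsBl, hslow⟩ := hH5 v0 h1 h2
    {u | (∀ i, σ (u i) = u i) ∧ ‖u‖ ≤ 1 / 2} (by
      refine ⟨fun i => ?_, ?_⟩
      · exact σzero
      · rw [norm_zero]; norm_num)
  have hz : ∀ j : Vr Lam, ¬ isRt j → (tw v0 h1 h2).chi e he ((tw v0 h1 h2).qt (L1.X j)) = 0 := by
    intro j hj
    rw [Twr.chi_qt]
    show evl e.1 (L1.X j) = 0
    rw [evl_X]
    exact hel j hj
  let M : MD Lam (tw v0 h1 h2).B :=
    { ε := (tw v0 h1 h2).chi e he
      ε_le := chile e he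
      z := fun n => (tw v0 h1 h2).qt (L1.X (Vr.base n))
      z_le := fun n => (qtle _).trans (L1.norm_X _).le
      z_ε := fun n => hz _ (fun h => h)
      y := fun a => (tw v0 h1 h2).qt (L1.X (Vr.lett a))
      y_iso := fun a t => iso (Vr.lett a) (fun h => h) t
      y_ε := fun a => hz _ (fun h => h)
      Bl := fun a => (tw v0 h1 h2).Bl (lvl (Vr.lett a))
      Bl_mono := by
        rintro a b hab t ⟨p, hp, rfl⟩
        refine ⟨p, fun μ hμ i hi => (hp μ hμ i hi).trans_le ?_, rfl⟩
        exact WithBot.coe_le_coe.mpr (WithTop.coe_le_coe.mpr hab)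
      s := s
      s_le := fun a => (hsZ a).2
      s_Bl := hsBl
      s_low := hslow }
  obtain ⟨hRN0, hRN1⟩ := hX1 Lam v0 h1 h2 hroot e he hel M rfl (fun _ => rfl) (fun _ => rfl)
    (fun _ => rfl)
  obtain ⟨D, hD1, hD2⟩ := hE5 Lam _ M hRN0 hRN1
  have hsw : ∀ j : Vr Lam, ¬ isRt j → swp j = j := by
    rintro (n | a | ⟨a, b⟩) hj
    · rfl
    · rfl
    · exact absurd trivial hj
  have hsgX : ∀ j : Vr Lam, ¬ isRt j → sg (L1.X j) = L1.X j := by
    classical
    intro j hj
    refine L1.ext_cf (fun μ => ?_)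
    rw [sg_cf]
    have hX : ∀ ν : Vr Lam →₀ ℕ, (L1.X j : L1 (Vr Lam)).cf ν = if ν = Finsupp.single j 1 then 1 else 0 := by
      intro ν
      show MvPowerSeries.coeff ν (MvPowerSeries.monomial (Finsupp.single j 1) (1 : ℂ)) = _
      rw [MvPowerSeries.coeff_monomial]
    rw [hX, hX]
    have hiff : Finsupp.equivMapDomain swp μ = Finsupp.single j 1 ↔ μ = Finsupp.single j 1 := by
      constructor
      · intro h
        have h' := congrArg (Finsupp.equivMapDomain (swp (Λ := Lam)).symm) h
        rw [← Finsupp.equivMapDomain_trans, Equiv.self_trans_symm, Finsupp.equivMapDomain_refl,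
          Finsupp.equivMapDomain_single] at h'
        rw [h']
        congr 1
        exact (Equiv.symm_apply_eq _).mpr (hsw j hj).symm
      · intro h
        rw [h, Finsupp.equivMapDomain_single, hsw j hj]
    by_cases h : μ = Finsupp.single j 1
    · rw [if_pos (hiff.mpr h), if_pos h, map_one]
    · rw [if_neg (fun h' => h (hiff.mp h')), if_neg h, map_zero]
  refine hG3 Lam _ M σ σadd σmul σsmul σinv σnorm (σchi e he hec) ?_ ?_ ?_ ?_ ?_ D hD1 hD2
  · intro n
    show σ ((tw v0 h1 h2).qt (L1.X (Vr.base n))) = _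
    rw [σqt, hsgX (Vr.base n) (fun h => h)]
  · intro a
    show σ ((tw v0 h1 h2).qt (L1.X (Vr.lett a))) = _
    rw [σqt, hsgX (Vr.lett a) (fun h => h)]
  · intro a i
    exact (hsZ a).1 i
  · intro u hu1 hu2
    exact hs_surj u ⟨hu1, hu2⟩
  · intro t ht
    exact hD5 _ _ _ hroot e he t ht

end Pool.Agent.H5

end
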