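import Mathlib
import Pool.Agent.Work.MP_10b086_an.Wild.Stmts
import Pool.Agent.Work.MP_10b086_an.H5.StmtsD

/-! Bundle of small proof modules (one section per former module). -/

section

/-!
# The extension step
-/

open Cardinal Submodule Finset Filter Topology
open scoped ComplexConjugate

namespace Pool.Agent.Work.MP_10b086_an.Wild

theorem cj_add (a b : ℕ →₀ ℂ) : cj (a + b) = cj a + cj b := by
  ext n; simp [cj]

theorem cj_smul (c : ℂ) (a : ℕ →₀ ℂ) : cj (c • a) = conj c • cj a := by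
  ext n; simp [cj]

theorem cj_cj (a : ℕ →₀ ℂ) : cj (cj a) = a := by
  ext n; simp [cj]

theorem cj_zero : cj 0 = 0 := by
  ext n; simp [cj]

theorem cj_single (k : ℕ) : cj (Finsupp.single k 1) = Finsupp.single k 1 := by
  ext n
  by_cases h : k = n
  · subst h; simp [cj]
  · simp [cj, h]

section

variable {U : Type} [AddCommGroup U] [Module ℂ U]

theorem lc_single (x : ℕ → U) (k : ℕ) : lc x (Finsupp.single k 1) = x k := by
  simp [lc]

theorem mem_sup_range {G : Submodule ℂ U} {x : ℕ → U} {u : U} :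
    u ∈ G ⊔ span ℂ (Set.range x) ↔ ∃ g ∈ G, ∃ a : ℕ →₀ ℂ, u = g + lc x a := by
  rw [Submodule.mem_sup]
  constructor
  · rintro ⟨g, hg, y, hy, rfl⟩
    rw [← Finsupp.range_linearCombination] at hy
    obtain ⟨a, rfl⟩ := hy
    exact ⟨g, hg, a, rfl⟩
  · rintro ⟨g, hg, a, rfl⟩
    refine ⟨g, hg, lc x a, ?_, rfl⟩
    rw [← Finsupp.range_linearCombination]
    exact ⟨a, rfl⟩

/-- a combination of a family independent modulo `W` that lies in `W` is trivial -/
theorem eq_zero_of_lc_mem {W : Submodule ℂ U} {s : ℕ → U}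
    (hs : LinearIndependent ℂ fun n => W.mkQ (s n)) {a : ℕ →₀ ℂ} (h : lc s a ∈ W) : a = 0 := by
  rw [linearIndependent_iff] at hs
  apply hs
  have h1 : Finsupp.linearCombination ℂ (fun n => W.mkQ (s n)) a = W.mkQ (lc s a) := by
    rw [lc, Finsupp.apply_linearCombination]; rfl
  rw [h1]
  simpa using h

end

section

variable {U Z : Type} [NormedAddCommGroup U] [NormedSpace ℂ U] [NormedAddCommGroup Z]
  [NormedSpace ℂ Z]

theorem b_mem_BB (b : U →ₗ[ℂ] U →ₗ[ℂ] Z) {G : Submodule ℂ U} {x y : U} (hx : x ∈ G)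
    (hy : y ∈ G) : b x y ∈ BB b G := subset_span ⟨x, hx, y, hy, rfl⟩

end

theorem claimP3 (h5 : ClaimL5) (hL1 : ClaimL1) (hD : ClaimD2) (h1 : ClaimP1) : ClaimP3 := by
  intro U Z _ _ _ _ F P κ hκ hS u
  obtain ⟨x, K, m, v, w, hlin, hu, hv, hw, hK, hKm, hlast⟩ := h5 U Z F P.G P.closed κ hκ hS u
  obtain ⟨S0, hS0c, hS0⟩ := hS
  classical
  set BU := BB F.b ⊤ with hBU
  -- the new directions
  set S' : Set U := S0 ∪ Set.range x with hS'
  have hG' : P.G ⊔ span ℂ (Set.range x) = span ℂ S' := by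
    rw [hS', span_union, ← hS0]
  have hal : ℵ₀ < 𝔠 := aleph0_lt_continuum
  have hκ' : κ + ℵ₀ < 𝔠 := add_lt_of_lt aleph0_lt_continuum.le hκ hal
  have hS'c : #S' ≤ κ + ℵ₀ := by
    refine (mk_union_le _ _).trans (add_le_add hS0c ?_)
    exact mk_range_le.trans (by simp)
  set C : Set Z := F.π '' S' ∪ F.ρ '' S' with hC
  have hCc : #C < 𝔠 := by
    refine (mk_union_le _ _).trans_lt (add_lt_of_lt aleph0_lt_continuum.le ?_ ?_)
    · exact mk_image_le.trans_lt (hS'c.trans_lt hκ')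
    · exact mk_image_le.trans_lt (hS'c.trans_lt hκ')
  obtain ⟨s, hs⟩ := F.ind C hCc
  set W := span ℂ C ⊔ BU with hW
  have hπW : ∀ y ∈ P.G ⊔ span ℂ (Set.range x), F.π y ∈ W := by
    intro y hy
    rw [hG'] at hy
    refine mem_sup_left ?_
    have : F.π y ∈ (span ℂ S').map F.π := mem_map_of_mem hy
    rw [map_span] at this
    exact span_mono Set.subset_union_left this
  have hρW : ∀ y ∈ P.G ⊔ span ℂ (Set.range x), F.ρ y ∈ W := by
    intro y hy
    rw [hG'] at hy
    refine mem_sup_left ?_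
    have : F.ρ y ∈ (span ℂ S').map F.ρ := mem_map_of_mem hy
    rw [map_span] at this
    exact span_mono Set.subset_union_right this
  -- decompositions
  have hv' : ∀ k i, ∃ g : P.G, ∃ a : ℕ →₀ ℂ, v k i = g + lc x a := by
    intro k i
    obtain ⟨g, hg, a, ha⟩ := mem_sup_range.1 (hv k i)
    exact ⟨⟨g, hg⟩, a, ha⟩
  have hw' : ∀ k i, ∃ g : P.G, ∃ a : ℕ →₀ ℂ, w k i = g + lc x a := by
    intro k i
    obtain ⟨g, hg, a, ha⟩ := mem_sup_range.1 (hw k i)
    exact ⟨⟨g, hg⟩, a, ha⟩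
  choose gv av hgv using hv'
  choose gw aw hgw using hw'
  -- the images of the new vectors
  obtain ⟨Y, hY⟩ := F.sys (fun k => if k ∈ K then 0 else s k) s m (fun k i => P.T (gv k i))
    (fun k i => P.T (gw k i)) (fun k i => cj (av k i)) (fun k i => cj (aw k i))
  -- the abstract space
  let X : Type := P.G × (ℕ →₀ ℂ) × (ℕ →₀ ℂ)
  let Φ : X →ₗ[ℂ] U :=
    P.G.subtype.coprod ((lc x).coprod (lc Y))
  have hΦ : ∀ (g : P.G) (a b : ℕ →₀ ℂ), Φ (g, a, b) = g + (lc x a + lc Y b) := by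
    intro g a b; rfl
  have hρY : ∀ b : ℕ →₀ ℂ, F.ρ (lc Y b) = lc s b := by
    intro b
    rw [lc, Finsupp.apply_linearCombination]
    congr 1
    have : F.ρ ∘ Y = s := by
      funext k; exact (hY k).2
    rw [this]
  have hinj : Function.Injective Φ := by
    rw [← LinearMap.ker_eq_bot, LinearMap.ker_eq_bot']
    rintro ⟨g, a, b⟩ h0
    rw [hΦ] at h0
    have h2 : lc Y b = -((g : U) + lc x a) := by
      rw [eq_neg_iff_add_eq_zero, ← h0]; abel
    have h3 : b = 0 := by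
      apply eq_zero_of_lc_mem hs
      rw [← hρY, h2, map_neg]
      exact neg_mem (hρW _ (mem_sup_range.2 ⟨g, g.2, a, rfl⟩))
    subst h3
    have h4 : a = 0 := by
      apply eq_zero_of_lc_mem hlin
      have : lc x a = -(g : U) := by
        rw [eq_neg_iff_add_eq_zero, ← h0]; simp [add_comm]
      rw [this]
      exact neg_mem g.2
    subst h4
    have h5 : g = 0 := by
      ext
      simpa using h0
    subst h5
    rfl
  -- the form
  have hgood0 : Good (fun g : P.G => P.α g) (fun g k : P.G => P.h g k) :=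
    { α_add := fun g k => P.α_add g g.2 k k.2
      α_smul := fun c g => P.α_smul c g g.2
      h_add := fun g g' k => P.h_add g g.2 g' g'.2 k k.2
      h_smul := fun c g k => P.h_smul c g g.2 k k.2
      h_symm := fun g k => P.h_symm g g.2 k k.2
      h_pos := fun g hg => P.h_pos g g.2 (fun h => hg (Subtype.ext h)) }
  let TG : P.G → P.G := fun g => ⟨P.T g, P.T_mem g g.2⟩
  obtain ⟨α'', h'', hgood, hαg, hαc, hhg, hαk⟩ := hD P.G _ _ hgood0 m gv
    (fun k i => TG (gw k i)) av (fun k i => cj (aw k i))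
  let T'' : X → X := fun y => (TG y.1, cj y.2.2, cj y.2.1)
  have hTG_add : ∀ g k, TG (g + k) = TG g + TG k := fun g k =>
    Subtype.ext (P.T_add g g.2 k k.2)
  have hTG_smul : ∀ (c : ℂ) g, TG (c • g) = conj c • TG g := fun c g =>
    Subtype.ext (P.T_smul c g g.2)
  have hTG_TG : ∀ g, TG (TG g) = g := fun g => Subtype.ext (P.T_T g g.2)
  have hT_add : ∀ y z : X, T'' (y + z) = T'' y + T'' z := by
    rintro ⟨g, a, b⟩ ⟨g', a', b'⟩
    change (TG (g + g'), cj (b + b'), cj (a + a')) = _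
    rw [hTG_add, cj_add, cj_add]
    rfl
  have hT_smul : ∀ (c : ℂ) (y : X), T'' (c • y) = conj c • T'' y := by
    rintro c ⟨g, a, b⟩
    change (TG (c • g), cj (c • b), cj (c • a)) = _
    rw [hTG_smul, cj_smul, cj_smul]
    rfl
  have hT_T : ∀ y : X, T'' (T'' y) = y := by
    rintro ⟨g, a, b⟩
    simp only [T'', hTG_TG, cj_cj]
  have hαT : ∀ y : X, α'' (T'' y) = conj (α'' y) := by
    have hsplit : ∀ (g : P.G) (a b : ℕ →₀ ℂ), α'' (g, a, b) =
        P.α g + (α'' (0, a, 0) + α'' (0, 0, b)) := by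
      intro g a b
      have e1 : ((g, a, b) : X) = (g, 0, 0) + ((0, a, 0) + (0, 0, b)) := by
        simp
      rw [e1, hgood.α_add, hgood.α_add, hαg]
    rintro ⟨g, a, b⟩
    change α'' (TG g, cj b, cj a) = _
    rw [hsplit (TG g) (cj b) (cj a), hsplit g a b, hαc]
    have e2 : α'' (0, cj b, 0) = conj (α'' (0, 0, b)) := by
      have := hαc (cj b)
      rw [cj_cj] at this
      rw [this, Complex.conj_conj]
    rw [e2]
    have e3 : P.α (TG g) = conj (P.α g) := P.α_T g g.2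
    rw [e3, map_add, map_add]
    ring
  -- the spanning set
  let S : Set X := {y | (∃ g : P.G, F.π g ∈ BU ∧ y = (g, 0, 0)) ∨
    (∃ k ∈ K, y = (0, Finsupp.single k 1, 0)) ∨ (∃ k ∈ K, y = (0, 0, Finsupp.single k 1))}
  have hlcx : ∀ a : ℕ →₀ ℂ, (∀ k ∉ K, a k = 0) → F.π (lc x a) ∈ BU := by
    intro a ha
    rw [lc, Finsupp.linearCombination_apply, Finsupp.sum, map_sum]
    refine sum_mem fun k hk => ?_
    rw [map_smul]
    refine smul_mem _ _ ?_
    have hkK : k ∈ K := by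
      by_contra h
      exact (Finsupp.mem_support_iff.1 hk) (ha k h)
    rw [hK k hkK]
    exact sum_mem fun i _ => b_mem_BB F.b mem_top mem_top
  have hspan : ∀ y : X, F.π (Φ y) ∈ BB F.b ⊤ → y ∈ span ℂ S := by
    rintro ⟨g, a, b⟩ hy
    rw [hΦ, map_add, map_add] at hy
    -- the coordinates of `b` outside of `K` vanish
    have hπY : ∀ b : ℕ →₀ ℂ, F.π (lc Y b) - lc s (b.filter (· ∉ K)) ∈ BU := by
      intro b
      have e1 : lc s (b.filter (· ∉ K)) = lc (fun k => if k ∈ K then 0 else s k) b := by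
        rw [lc, lc, Finsupp.linearCombination_apply, Finsupp.linearCombination_apply,
          Finsupp.sum_filter_index, Finsupp.support_filter, Finset.sum_filter, Finsupp.sum]
        refine sum_congr rfl fun k _ => ?_
        by_cases hk : k ∈ K <;> simp [hk]
      rw [e1, lc, Finsupp.apply_linearCombination, lc, Finsupp.linearCombination_apply,
        Finsupp.linearCombination_apply, Finsupp.sum, Finsupp.sum, ← sum_sub_distrib]
      refine sum_mem fun k _ => ?_
      rw [← smul_sub]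
      refine smul_mem _ _ ?_
      simp only [Function.comp_apply]
      rw [(hY k).1, add_sub_cancel_left]
      exact sum_mem fun i _ => b_mem_BB F.b mem_top mem_top
    have hb : ∀ k ∉ K, b k = 0 := by
      have h2 : lc s (b.filter (· ∉ K)) ∈ W := by
        have e1 : lc s (b.filter (· ∉ K)) = -(F.π (lc Y b) - lc s (b.filter (· ∉ K))) +
            (F.π g + (F.π (lc x a) + F.π (lc Y b))) - F.π ((g : U) + lc x a) := by
          rw [map_add]; abel
        rw [e1]
        refine sub_mem (add_mem (neg_mem (mem_sup_right (hπY b))) (mem_sup_right hy)) ?_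
        exact hπW _ (mem_sup_range.2 ⟨g, g.2, a, rfl⟩)
      have h3 := eq_zero_of_lc_mem hs h2
      intro k hk
      have h4 := DFunLike.congr_fun h3 k
      rwa [Finsupp.filter_apply, if_pos hk] at h4
    have hbY : F.π (lc Y b) ∈ BU := by
      have h2 := hπY b
      have h3 : b.filter (· ∉ K) = 0 := by
        ext k
        by_cases hk : k ∈ K
        · simp [hk]
        · simp [hk, hb k hk]
      rwa [h3, map_zero, sub_zero] at h2
    have hga : F.π ((g : U) + lc x a) ∈ BU := by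
      have e1 : F.π ((g : U) + lc x a) = (F.π g + (F.π (lc x a) + F.π (lc Y b))) -
          F.π (lc Y b) := by rw [map_add]; abel
      rw [e1]
      exact sub_mem hy hbY
    have ha : ∀ k ∉ K, a k = 0 := hlast g g.2 a hga
    have hax := hlcx a ha
    have hg : F.π g ∈ BU := by
      have e1 : F.π (g : U) = F.π ((g : U) + lc x a) - F.π (lc x a) := by rw [map_add]; abel
      rw [e1]
      exact sub_mem hga hax
    have e2 : ((g, a, b) : X) = (g, 0, 0) + (∑ k ∈ a.support, a k • (0, Finsupp.single k 1, 0) +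
        ∑ k ∈ b.support, b k • (0, 0, Finsupp.single k 1)) := by
      refine Prod.ext ?_ (Prod.ext ?_ ?_)
      · simp [Prod.fst_sum]
      · simp only [Prod.snd_add, Prod.fst_add, Prod.snd_sum, Prod.fst_sum, Prod.smul_mk,
          smul_zero, sum_const_zero, zero_add, add_zero, Finsupp.smul_single, smul_eq_mul, mul_one]
        exact (Finsupp.sum_single a).symm
      · simp only [Prod.snd_add, Prod.snd_sum, Prod.smul_mk,
          smul_zero, sum_const_zero, zero_add, Finsupp.smul_single, smul_eq_mul, mul_one]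
        exact (Finsupp.sum_single b).symm
    rw [e2]
    refine add_mem (subset_span (Or.inl ⟨g, hg, rfl⟩)) (add_mem ?_ ?_)
    · refine sum_mem fun k hk => smul_mem _ _ (subset_span (Or.inr (Or.inl ⟨k, ?_, rfl⟩)))
      by_contra h
      exact (Finsupp.mem_support_iff.1 hk) (ha k h)
    · refine sum_mem fun k hk => smul_mem _ _ (subset_span (Or.inr (Or.inr ⟨k, ?_, rfl⟩)))
      by_contra h
      exact (Finsupp.mem_support_iff.1 hk) (hb k h)
  -- representations
  have hΦv : ∀ k i, Φ (gv k i, av k i, 0) = v k i := by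
    intro k i; rw [hΦ, map_zero, add_zero, hgv]
  have hΦw : ∀ k i, Φ (gw k i, aw k i, 0) = w k i := by
    intro k i; rw [hΦ, map_zero, add_zero, hgw]
  have hΦTv : ∀ k i, Φ (T'' (gv k i, av k i, 0)) = P.T (gv k i) + lc Y (cj (av k i)) := by
    intro k i
    change Φ (TG (gv k i), cj 0, cj (av k i)) = _
    rw [hΦ, cj_zero, map_zero, zero_add]
  have hΦTw : ∀ k i, Φ (T'' (gw k i, aw k i, 0)) = P.T (gw k i) + lc Y (cj (aw k i)) := by
    intro k i
    change Φ (TG (gw k i), cj 0, cj (aw k i)) = _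
    rw [hΦ, cj_zero, map_zero, zero_add]
  have hΦx : ∀ k, Φ (0, Finsupp.single k 1, 0) = x k := by
    intro k; rw [hΦ, lc_single, map_zero]; simp
  have hΦY : ∀ k, Φ (0, 0, Finsupp.single k 1) = Y k := by
    intro k; rw [hΦ, lc_single, map_zero]; simp
  have hTx : ∀ k, T'' (0, Finsupp.single k 1, 0) = (0, 0, Finsupp.single k 1) := by
    intro k
    have e0 : TG 0 = 0 := by
      have := hTG_smul 0 0
      simpa using this
    change (TG 0, cj 0, cj (Finsupp.single k 1)) = _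
    rw [e0, cj_zero, cj_single]
  have hTY : ∀ k, T'' (0, 0, Finsupp.single k 1) = (0, Finsupp.single k 1, 0) := by
    intro k; rw [← hTx, hT_T]
  have hπYK : ∀ k ∈ K, F.π (Y k) = ∑ i ∈ range (m k),
      F.b (Φ (T'' (gw k i, aw k i, 0))) (Φ (T'' (gv k i, av k i, 0))) := by
    intro k hk
    rw [(hY k).1, if_pos hk, zero_add]
    exact sum_congr rfl fun i _ => by rw [hΦTv, hΦTw]
  have hrep : ∀ g ∈ S, ∃ (n : ℕ) (x y : ℕ → X),
      F.π (Φ g) = ∑ i ∈ range n, F.b (Φ (x i)) (Φ (y i)) ∧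
      F.π (Φ (T'' g)) = ∑ i ∈ range n, F.b (Φ (T'' (y i))) (Φ (T'' (x i))) ∧
      α'' g = ∑ i ∈ range n, h'' (x i) (T'' (y i)) := by
    rintro _ (⟨g, hg, rfl⟩ | ⟨k, hk, rfl⟩ | ⟨k, hk, rfl⟩)
    · have hc := P.closed g g.2 hg
      obtain ⟨n, x', y', hx', hy', he⟩ := (hL1 U Z F.b P.G _).1 hc
      have hs' := P.star g g.2 n x' y' hx' hy' he
      have hb' := P.beta g g.2 n x' y' hx' hy' he
      have hΦ0 : ∀ g : P.G, Φ (g, 0, 0) = g := by
        intro g; rw [hΦ, map_zero, map_zero]; simp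
      have hT0 : ∀ g : P.G, T'' (g, 0, 0) = (TG g, 0, 0) := by
        intro g
        change (TG g, cj 0, cj 0) = _
        rw [cj_zero]
      refine ⟨n, fun i => (⟨x' i, hx' i⟩, 0, 0), fun i => (⟨y' i, hy' i⟩, 0, 0), ?_, ?_, ?_⟩
      · rw [hΦ0, he]
        exact sum_congr rfl fun i _ => by rw [hΦ0, hΦ0]
      · rw [hT0, hΦ0]
        change F.π (P.T g) = _
        rw [hs']
        refine sum_congr rfl fun i _ => ?_
        rw [hT0, hT0, hΦ0, hΦ0]
      · rw [hαg, hb']
        refine sum_congr rfl fun i _ => ?_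
        rw [hT0, hhg]
    · refine ⟨m k, fun i => (gv k i, av k i, 0), fun i => (gw k i, aw k i, 0), ?_, ?_, ?_⟩
      · rw [hΦx, hK k hk]
        exact sum_congr rfl fun i _ => by rw [hΦv, hΦw]
      · rw [hTx, hΦY, hπYK k hk]
      · rw [hαk]
        refine sum_congr rfl fun i _ => ?_
        change _ = h'' _ (TG (gw k i), cj 0, cj (aw k i))
        rw [cj_zero]
    · refine ⟨m k, fun i => T'' (gw k i, aw k i, 0), fun i => T'' (gv k i, av k i, 0), ?_, ?_, ?_⟩
      · rw [hΦY, hπYK k hk]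
      · rw [hTY, hΦx, hK k hk]
        exact sum_congr rfl fun i _ => by rw [hT_T, hT_T, hΦv, hΦw]
      · have e1 : α'' (0, 0, Finsupp.single k 1) = conj (α'' (0, Finsupp.single k 1, 0)) := by
          rw [← hαT, hTx]
        rw [e1, hαk, map_sum]
        refine sum_congr rfl fun i _ => ?_
        rw [hT_T, ← hgood.h_symm]
        congr 1
        change _ = (TG (gw k i), cj 0, cj (aw k i))
        rw [cj_zero]
  obtain ⟨Q, hQG, hQT, hQα, hQh⟩ := h1 U Z F X Φ hinj T'' α'' h'' hT_add hT_smul hT_T hgood hαT S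
    hspan hrep
  have hΦ0 : ∀ g : P.G, Φ (g, 0, 0) = g := by
    intro g; rw [hΦ, map_zero, map_zero]; simp
  have hT0 : ∀ g : P.G, T'' (g, 0, 0) = (TG g, 0, 0) := by
    intro g
    change (TG g, cj 0, cj 0) = _
    rw [cj_zero]
  refine ⟨Q, ⟨?_, ?_, ?_, ?_⟩, ?_, ?_⟩
  · intro g hg
    rw [hQG]
    exact ⟨(⟨g, hg⟩, 0, 0), hΦ0 _⟩
  · intro g hg
    have h2 := hQT (⟨g, hg⟩, 0, 0)
    rw [hT0, hΦ0, hΦ0] at h2
    exact h2
  · intro g hg
    have h2 := hQα (⟨g, hg⟩, 0, 0)
    rw [hΦ0, hαg] at h2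
    exact h2
  · intro g hg k hk
    have h2 := hQh (⟨g, hg⟩, 0, 0) (⟨k, hk⟩, 0, 0)
    rw [hΦ0, hΦ0, hhg] at h2
    exact h2
  · rw [hQG]
    obtain ⟨g, hg, a, ha⟩ := mem_sup_range.1 hu
    refine ⟨(⟨g, hg⟩, a, 0), ?_⟩
    rw [hΦ, map_zero, add_zero, ha]
  · refine ⟨S' ∪ Set.range Y, ?_, ?_⟩
    · refine (mk_union_le _ _).trans ?_
      refine (add_le_add hS'c (mk_range_le.trans (by simp : #ℕ ≤ ℵ₀))).trans ?_
      rw [add_assoc, aleph0_add_aleph0]
    · rw [hQG, span_union, ← hG']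
      ext y
      constructor
      · rintro ⟨⟨g, a, b⟩, rfl⟩
        rw [hΦ, ← add_assoc]
        refine add_mem (mem_sup_left (mem_sup_range.2 ⟨g, g.2, a, rfl⟩)) (mem_sup_right ?_)
        rw [← Finsupp.range_linearCombination]
        exact ⟨b, rfl⟩
      · intro hy
        obtain ⟨y1, hy1, b, rfl⟩ := mem_sup_range.1 hy
        obtain ⟨g, hg, a, rfl⟩ := mem_sup_range.1 hy1
        exact ⟨(⟨g, hg⟩, a, b), by rw [hΦ, add_assoc]⟩

end Pool.Agent.Work.MP_10b086_an.Wild

end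

section

/-!
# Unions of chains of partial solutions
-/

open Cardinal Submodule Finset Filter Topology
open scoped ComplexConjugate

namespace Pool.Agent.Work.MP_10b086_an.Wild

namespace ItemP4

variable {U Z : Type} [NormedAddCommGroup U] [NormedSpace ℂ U] [NormedAddCommGroup Z]
  [NormedSpace ℂ Z] {F : Frame U Z} {ι : Type} (P : ι → Part F)

/-- the union of the domains -/
def GG : Submodule ℂ U := ⨆ i, (P i).G

open Classical in
/-- the common involution -/
noncomputable def TT (u : U) : U := if h : ∃ i, u ∈ (P i).G then (P h.choose).T u else 0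

open Classical in
/-- the common functional -/
noncomputable def AA (u : U) : ℂ := if h : ∃ i, u ∈ (P i).G then (P h.choose).α u else 0

open Classical in
/-- the common form -/
noncomputable def HH (u v : U) : ℂ :=
  if h : ∃ i, u ∈ (P i).G ∧ v ∈ (P i).G then (P h.choose).h u v else 0

variable {P} (hP : ∀ i j, (P i).Ext (P j) ∨ (P j).Ext (P i))

include hP

lemma TT_eq {i : ι} {u : U} (hu : u ∈ (P i).G) : TT P u = (P i).T u := by
  have h : ∃ i, u ∈ (P i).G := ⟨i, hu⟩
  unfold TT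
  rw [dif_pos h]
  rcases hP i h.choose with h1 | h1
  · exact h1.2.1 u hu
  · exact (h1.2.1 u h.choose_spec).symm

lemma AA_eq {i : ι} {u : U} (hu : u ∈ (P i).G) : AA P u = (P i).α u := by
  have h : ∃ i, u ∈ (P i).G := ⟨i, hu⟩
  unfold AA
  rw [dif_pos h]
  rcases hP i h.choose with h1 | h1
  · exact h1.2.2.1 u hu
  · exact (h1.2.2.1 u h.choose_spec).symm

lemma HH_eq {i : ι} {u v : U} (hu : u ∈ (P i).G) (hv : v ∈ (P i).G) :
    HH P u v = (P i).h u v := by
  have h : ∃ i, u ∈ (P i).G ∧ v ∈ (P i).G := ⟨i, hu, hv⟩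
  unfold HH
  rw [dif_pos h]
  rcases hP i h.choose with h1 | h1
  · exact h1.2.2.2 u hu v hv
  · exact (h1.2.2.2 u h.choose_spec.1 v h.choose_spec.2).symm

lemma directed : Directed (· ≤ ·) fun i => (P i).G := by
  intro i j
  rcases hP i j with h | h
  · exact ⟨j, h.1, le_rfl⟩
  · exact ⟨i, le_rfl, h.1⟩

variable [Nonempty ι]

lemma mem_GG {u : U} : u ∈ GG P ↔ ∃ i, u ∈ (P i).G :=
  Submodule.mem_iSup_of_directed _ (directed hP)

lemma mem_two {u v : U} (hu : u ∈ GG P) (hv : v ∈ GG P) :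
    ∃ i, u ∈ (P i).G ∧ v ∈ (P i).G := by
  obtain ⟨i, hi⟩ := (mem_GG hP).1 hu
  obtain ⟨j, hj⟩ := (mem_GG hP).1 hv
  obtain ⟨k, h1, h2⟩ := directed hP i j
  exact ⟨k, h1 hi, h2 hj⟩

lemma mem_three {u v w : U} (hu : u ∈ GG P) (hv : v ∈ GG P) (hw : w ∈ GG P) :
    ∃ i, u ∈ (P i).G ∧ v ∈ (P i).G ∧ w ∈ (P i).G := by
  obtain ⟨i, hi, hi'⟩ := mem_two hP hu hv
  obtain ⟨j, hj⟩ := (mem_GG hP).1 hw
  obtain ⟨k, h1, h2⟩ := directed hP i j
  exact ⟨k, h1 hi, h1 hi', h2 hj⟩

lemma mem_seq {g : U} (hg : g ∈ GG P) (x y : ℕ → U) (hx : ∀ i, x i ∈ GG P)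
    (hy : ∀ i, y i ∈ GG P) (n : ℕ) :
    ∃ j, g ∈ (P j).G ∧ ∀ i, i < n → x i ∈ (P j).G ∧ y i ∈ (P j).G := by
  induction n with
  | zero =>
    obtain ⟨j, hj⟩ := (mem_GG hP).1 hg
    exact ⟨j, hj, fun i hi => absurd hi (Nat.not_lt_zero i)⟩
  | succ n ih =>
    obtain ⟨j, hj, hj'⟩ := ih
    obtain ⟨k, hk, hk'⟩ := mem_two hP (hx n) (hy n)
    obtain ⟨l, h1, h2⟩ := directed hP j k
    refine ⟨l, h1 hj, fun i hi => ?_⟩
    rcases Nat.lt_succ_iff_lt_or_eq.1 hi with h3 | h3
    · exact ⟨h1 (hj' i h3).1, h1 (hj' i h3).2⟩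
    · subst h3
      exact ⟨h2 hk, h2 hk'⟩

/-- the data of a relation inside one member of the chain -/
lemma rel {g : U} (hg : g ∈ GG P) (n : ℕ) (x y : ℕ → U) (hx : ∀ i, x i ∈ GG P)
    (hy : ∀ i, y i ∈ GG P) (h : F.π g = ∑ i ∈ range n, F.b (x i) (y i)) :
    ∃ j, g ∈ (P j).G ∧ (∀ i, i < n → x i ∈ (P j).G ∧ y i ∈ (P j).G) ∧
      F.π ((P j).T g) = ∑ i ∈ range n, F.b ((P j).T (y i)) ((P j).T (x i)) ∧
      (P j).α g = ∑ i ∈ range n, (P j).h (x i) ((P j).T (y i)) := by
  obtain ⟨j, hj, hj'⟩ := mem_seq hP hg x y hx hy n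
  refine ⟨j, hj, hj', ?_⟩
  set x' : ℕ → U := fun i => if i < n then x i else 0 with hx'
  set y' : ℕ → U := fun i => if i < n then y i else 0 with hy'
  have e1 : ∀ i ∈ range n, x' i = x i := by
    intro i hi
    rw [hx']
    simp only
    rw [if_pos (Finset.mem_range.1 hi)]
  have e2 : ∀ i ∈ range n, y' i = y i := by
    intro i hi
    rw [hy']
    simp only
    rw [if_pos (Finset.mem_range.1 hi)]
  have m1 : ∀ i, x' i ∈ (P j).G := by
    intro i
    rw [hx']
    simp only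
    split_ifs with h1
    · exact (hj' i h1).1
    · exact zero_mem _
  have m2 : ∀ i, y' i ∈ (P j).G := by
    intro i
    rw [hy']
    simp only
    split_ifs with h1
    · exact (hj' i h1).2
    · exact zero_mem _
  have h' : F.π g = ∑ i ∈ range n, F.b (x' i) (y' i) := by
    rw [h]
    apply Finset.sum_congr rfl
    intro i hi
    rw [e1 i hi, e2 i hi]
  refine ⟨?_, ?_⟩
  · rw [(P j).star g hj n x' y' m1 m2 h']
    apply Finset.sum_congr rfl
    intro i hi
    rw [e1 i hi, e2 i hi]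
  · rw [(P j).beta g hj n x' y' m1 m2 h']
    apply Finset.sum_congr rfl
    intro i hi
    rw [e1 i hi, e2 i hi]

omit hP [Nonempty ι] in
lemma BB_mono (b : U →ₗ[ℂ] U →ₗ[ℂ] Z) {G G' : Submodule ℂ U} (h : G ≤ G') :
    BB b G ≤ BB b G' := by
  apply Submodule.span_mono
  rintro z ⟨x, hx, y, hy, rfl⟩
  exact ⟨x, h hx, y, h hy, rfl⟩

omit hP [Nonempty ι] in
lemma le_GG (i : ι) : (P i).G ≤ GG P := le_iSup (fun i => (P i).G) i

/-- the union of the chain -/
noncomputable def union : Part F where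
  G := GG P
  T := TT P
  α := AA P
  h := HH P
  T_mem := by
    intro g hg
    obtain ⟨i, hi⟩ := (mem_GG hP).1 hg
    rw [TT_eq hP hi]
    exact le_GG i ((P i).T_mem g hi)
  T_add := by
    intro g hg k hk
    obtain ⟨i, h1, h2⟩ := mem_two hP hg hk
    rw [TT_eq hP h1, TT_eq hP h2, TT_eq hP (add_mem h1 h2)]
    exact (P i).T_add g h1 k h2
  T_smul := by
    intro c g hg
    obtain ⟨i, hi⟩ := (mem_GG hP).1 hg
    rw [TT_eq hP hi, TT_eq hP (Submodule.smul_mem _ c hi)]
    exact (P i).T_smul c g hi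
  T_T := by
    intro g hg
    obtain ⟨i, hi⟩ := (mem_GG hP).1 hg
    rw [TT_eq hP hi, TT_eq hP ((P i).T_mem g hi)]
    exact (P i).T_T g hi
  α_add := by
    intro g hg k hk
    obtain ⟨i, h1, h2⟩ := mem_two hP hg hk
    rw [AA_eq hP h1, AA_eq hP h2, AA_eq hP (add_mem h1 h2)]
    exact (P i).α_add g h1 k h2
  α_smul := by
    intro c g hg
    obtain ⟨i, hi⟩ := (mem_GG hP).1 hg
    rw [AA_eq hP hi, AA_eq hP (Submodule.smul_mem _ c hi)]
    exact (P i).α_smul c g hi
  α_T := by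
    intro g hg
    obtain ⟨i, hi⟩ := (mem_GG hP).1 hg
    rw [TT_eq hP hi, AA_eq hP hi, AA_eq hP ((P i).T_mem g hi)]
    exact (P i).α_T g hi
  h_add := by
    intro g hg g' hg' k hk
    obtain ⟨i, h1, h2, h3⟩ := mem_three hP hg hg' hk
    rw [HH_eq hP (add_mem h1 h2) h3, HH_eq hP h1 h3, HH_eq hP h2 h3]
    exact (P i).h_add g h1 g' h2 k h3
  h_smul := by
    intro c g hg k hk
    obtain ⟨i, h1, h2⟩ := mem_two hP hg hk
    rw [HH_eq hP (Submodule.smul_mem _ c h1) h2, HH_eq hP h1 h2]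
    exact (P i).h_smul c g h1 k h2
  h_symm := by
    intro g hg k hk
    obtain ⟨i, h1, h2⟩ := mem_two hP hg hk
    rw [HH_eq hP h2 h1, HH_eq hP h1 h2]
    exact (P i).h_symm g h1 k h2
  h_pos := by
    intro g hg h0
    obtain ⟨i, hi⟩ := (mem_GG hP).1 hg
    rw [AA_eq hP hi, HH_eq hP hi hi]
    exact (P i).h_pos g hi h0
  closed := by
    intro g hg h
    obtain ⟨i, hi⟩ := (mem_GG hP).1 hg
    exact BB_mono F.b (le_GG i) ((P i).closed g hi h)
  star := by
    intro g hg n x y hx hy h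
    obtain ⟨j, h1, h2, h3, _⟩ := rel hP hg n x y hx hy h
    rw [TT_eq hP h1, h3]
    apply Finset.sum_congr rfl
    intro i hi
    rw [TT_eq hP (h2 i (Finset.mem_range.1 hi)).1, TT_eq hP (h2 i (Finset.mem_range.1 hi)).2]
  beta := by
    intro g hg n x y hx hy h
    obtain ⟨j, h1, h2, _, h4⟩ := rel hP hg n x y hx hy h
    rw [AA_eq hP h1, h4]
    apply Finset.sum_congr rfl
    intro i hi
    have h5 := h2 i (Finset.mem_range.1 hi)
    rw [TT_eq hP h5.2, HH_eq hP h5.1 ((P j).T_mem _ h5.2)]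

end ItemP4

theorem claimP4 : ClaimP4 := by
  intro U Z _ _ _ _ F ι _ P hP
  refine ⟨ItemP4.union hP, ?_, ?_⟩
  · intro i
    exact ⟨ItemP4.le_GG i, fun g hg => ItemP4.TT_eq hP hg, fun g hg => ItemP4.AA_eq hP hg,
      fun g hg k hk => ItemP4.HH_eq hP hg hk⟩
  · intro κ hκ
    choose S hS hS' using hκ
    refine ⟨⋃ i, S i, ?_, ?_⟩
    · exact (Cardinal.mk_iUnion_le_sum_mk).trans (Cardinal.sum_le_sum _ _ hS)
    · change ItemP4.GG P = _
      unfold ItemP4.GG
      rw [Submodule.span_iUnion]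
      exact iSup_congr hS'

end Pool.Agent.Work.MP_10b086_an.Wild

end

section

/-!
P6: the total solution.
-/

open Cardinal Submodule Finset Filter Topology
open scoped ComplexConjugate

namespace Pool.Agent.Work.MP_10b086_an.Wild

theorem ext_refl {U Z : Type} [NormedAddCommGroup U] [NormedSpace ℂ U] [NormedAddCommGroup Z]
    [NormedSpace ℂ Z] {F : Frame U Z} (P : Part F) : P.Ext P :=
  ⟨le_rfl, fun _ _ => rfl, fun _ _ => rfl, fun _ _ _ _ => rfl⟩

theorem ext_trans {U Z : Type} [NormedAddCommGroup U] [NormedSpace ℂ U] [NormedAddCommGroup Z]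
    [NormedSpace ℂ Z] {F : Frame U Z} (P Q R : Part F) (h : P.Ext Q) (h' : Q.Ext R) : P.Ext R := by
  obtain ⟨a, b, c, d⟩ := h
  obtain ⟨a', b', c', d'⟩ := h'
  refine ⟨a.trans a', fun g hg => ?_, fun g hg => ?_, fun g hg k hk => ?_⟩
  · rw [b' g (a hg), b g hg]
  · rw [c' g (a hg), c g hg]
  · rw [d' g (a hg) k (a hk), d g hg k hk]

theorem claimP6 (h2 : ClaimP2) (h3 : ClaimP3) (h4 : ClaimP4) (h5 : ClaimP5) : ClaimP6 := by
  intro U Z _ _ _ _ F
  obtain ⟨P0, hs0, g, hg, hα, ht⟩ := h2 U Z F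
  obtain ⟨e⟩ : Nonempty ((#U).ord.ToType ≃ U) := by
    rw [← Cardinal.eq, Cardinal.mk_ord_toType]
  have hΩ : ∀ w : (#U).ord.ToType, #(Set.Iio w) < 𝔠 := fun w =>
    (Cardinal.mk_Iio_toType_ord_lt w).trans_le F.card
  obtain ⟨Q, hQ, hall⟩ := h5 (#U).ord.ToType hΩ (Part F) Part.Ext ext_refl ext_trans
    (fun P κ => Size P.G κ)
    (fun P κ μ hκ hS => by
      obtain ⟨S, hS1, hS2⟩ := hS
      exact ⟨S, hS1.trans hκ, hS2⟩)
    (fun P w => e w ∈ P.G) (fun P Q w h hw => h.1 hw) P0 hs0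
    (fun P κ w hκ hS => h3 U Z F P κ hκ hS (e w))
    (fun ι _ f hf => h4 U Z F ι f hf)
  refine ⟨Q, ?_, g, fun j => ?_, ht⟩
  · rw [eq_top_iff]
    intro u _
    have := hall (e.symm u)
    simpa using this
  · rw [hQ.2.2.1 (g j) (hg j), hα j]

end Pool.Agent.Work.MP_10b086_an.Wild

end

section

/-!
# Item D0: multiplication by a variable is isometric
-/

set_option autoImplicit false

namespace Pool.Agent.H5

theorem D0_cf {V : Type} (j : V) (f : L1 V) (μ : V →₀ ℕ) :
    (L1.X j * f).cf (μ + Finsupp.single j 1) = f.cf μ := by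
  classical
  have h : MvPowerSeries.coeff (Finsupp.single j 1 + μ) (L1.X j * f).ps = f.cf μ := by
    rw [L1.ps_mul, L1.X, L1.ps_mon, MvPowerSeries.coeff_add_monomial_mul, one_mul]
    rfl
  rw [add_comm] at h
  exact h

theorem D0_cf_zero {V : Type} (j : V) (f : L1 V) (μ : V →₀ ℕ)
    (hμ : ¬ Finsupp.single j 1 ≤ μ) : (L1.X j * f).cf μ = 0 := by
  classical
  have h : MvPowerSeries.coeff μ (L1.X j * f).ps = 0 := by
    rw [L1.ps_mul, L1.X, L1.ps_mon, MvPowerSeries.coeff_monomial_mul, if_neg hμ]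
  exact h

theorem prf_D0 : S_D0 := by
  classical
  intro V j f
  rw [L1.norm_def, L1.norm_def]
  have hinj : Function.Injective fun μ : V →₀ ℕ => μ + Finsupp.single j 1 :=
    fun a b h => add_right_cancel h
  rw [← hinj.tsum_eq]
  · exact tsum_congr fun μ => by rw [D0_cf]
  · intro μ hμ
    have hle : Finsupp.single j 1 ≤ μ := by
      by_contra hn
      apply hμ
      change ‖(L1.X j * f).cf μ‖ = 0
      rw [D0_cf_zero j f μ hn, norm_zero]
    exact ⟨μ - Finsupp.single j 1, tsub_add_cancel_of_le hle⟩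

end Pool.Agent.H5

end

section

/-!
# Item D1: normal forms of monomials
-/

open Topology Filter Set
open scoped ENNReal

set_option autoImplicit false

namespace Pool.Agent.H5

noncomputable section

variable {Ω V : Type} [LinearOrder Ω]

/-- the reduction relation on exponents -/
def D1_R (T : Twr Ω V) (μ' μ : V →₀ ℕ) : Prop :=
  ∃ (j : V) (θ ν : V →₀ ℕ), μ = θ + Finsupp.single j 2 ∧ μ' = θ + ν ∧
    ∀ i ∈ ν.support, T.lev i < T.lev j

theorem D1_wf [WellFoundedLT Ω] (T : Twr Ω V) : WellFounded (D1_R T) := by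
  classical
  have h1 : WellFounded (fun i j : V => T.lev i < T.lev j) :=
    InvImage.wf T.lev (wellFounded_lt (α := Ω))
  have h2 := h1.cutExpand.transGen
  have h3 := InvImage.wf (fun μ : V →₀ ℕ => Finsupp.toMultiset μ) h2
  refine Subrelation.wf ?_ h3
  rintro μ' μ ⟨j, θ, ν, rfl, rfl, hν⟩
  change Relation.TransGen _ (Finsupp.toMultiset (θ + ν))
    (Finsupp.toMultiset (θ + Finsupp.single j 2))
  have e1 : Finsupp.toMultiset (θ + ν) = Finsupp.toMultiset θ + Finsupp.toMultiset ν :=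
    map_add _ _ _
  have e2 : Finsupp.toMultiset (θ + Finsupp.single j 2) =
      Finsupp.toMultiset θ + ({j} + {j}) := by
    rw [map_add, Finsupp.toMultiset_single, two_nsmul]
  rw [e1, e2]
  refine Relation.TransGen.trans (b := Finsupp.toMultiset θ + {j}) ?_ ?_
  · apply Relation.TransGen.single
    rw [Relation.cutExpand_add_left]
    apply Relation.cutExpand_singleton
    intro i hi
    apply hν
    rw [Finsupp.mem_toMultiset] at hi
    exact hi
  · apply Relation.TransGen.single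
    rw [Relation.cutExpand_add_left]
    refine ⟨0, j, fun a ha => absurd ha (Multiset.notMem_zero a), ?_⟩
    rw [add_zero]

theorem D1_le {μ : V →₀ ℕ} {j : V} (h : 2 ≤ μ j) : Finsupp.single j 2 ≤ μ := by
  rw [Finsupp.single_le_iff]
  exact h

theorem D1_sub {μ : V →₀ ℕ} {j : V} (h : 2 ≤ μ j) :
    μ = (μ - Finsupp.single j 2) + Finsupp.single j 2 :=
  (tsub_add_cancel_of_le (D1_le h)).symm

theorem D1_rel (T : Twr Ω V) {θ ν : V →₀ ℕ} {j : V} (hj : T.rt j) (hν : (T.v j).cf ν ≠ 0) :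
    D1_R T (θ + ν) (θ + Finsupp.single j 2) :=
  ⟨j, θ, ν, rfl, rfl, fun i hi => T.low_v j hj ν hν i hi⟩

open Classical in
/-- one step of the recursion -/
def D1_step (T : Twr Ω V) (μ : V →₀ ℕ) (rec : ∀ μ', D1_R T μ' μ → L1 V) : L1 V :=
  if h : ∃ j, T.rt j ∧ 2 ≤ μ j then
    ∑' ν, (T.v h.choose).cf ν • (if hν : (T.v h.choose).cf ν ≠ 0 then
      rec ((μ - Finsupp.single h.choose 2) + ν) (by
        have h1 := D1_rel T (θ := μ - Finsupp.single h.choose 2) h.choose_spec.1 hν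
        rwa [← D1_sub h.choose_spec.2] at h1) else 0)
  else L1.mon μ 1

/-- the normal form of a monomial -/
def D1_nf [WellFoundedLT Ω] (T : Twr Ω V) : (V →₀ ℕ) → L1 V :=
  (D1_wf T).fix (fun μ rec => D1_step T μ rec)

theorem D1_nf_eq [WellFoundedLT Ω] (T : Twr Ω V) (μ : V →₀ ℕ) :
    D1_nf T μ = D1_step T μ (fun μ' _ => D1_nf T μ') :=
  (D1_wf T).fix_eq _ μ

theorem D1_nf_normal [WellFoundedLT Ω] (T : Twr Ω V) (μ : V →₀ ℕ)
    (h : ¬ ∃ j, T.rt j ∧ 2 ≤ μ j) : D1_nf T μ = L1.mon μ 1 := by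
  rw [D1_nf_eq, D1_step, dif_neg h]

theorem D1_nf_red [WellFoundedLT Ω] (T : Twr Ω V) (μ : V →₀ ℕ)
    (h : ∃ j, T.rt j ∧ 2 ≤ μ j) : ∃ j θ, T.rt j ∧ μ = θ + Finsupp.single j 2 ∧
      D1_nf T μ = ∑' ν, (T.v j).cf ν • D1_nf T (θ + ν) := by
  refine ⟨h.choose, μ - Finsupp.single h.choose 2, h.choose_spec.1, D1_sub h.choose_spec.2, ?_⟩
  rw [D1_nf_eq, D1_step, dif_pos h]
  refine tsum_congr fun ν => ?_
  by_cases hν : (T.v h.choose).cf ν ≠ 0
  · rw [dif_pos hν]
  · rw [dif_neg hν]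
    push Not at hν
    rw [hν, zero_smul, zero_smul]

theorem D1_sumnorm (T : Twr Ω V) (j : V) {A : Type} [NormedAddCommGroup A] [NormedSpace ℂ A]
    (g : (V →₀ ℕ) → A) (hg : ∀ ν, (T.v j).cf ν ≠ 0 → ‖g ν‖ ≤ 1) :
    (Summable fun ν => ‖(T.v j).cf ν • g ν‖) ∧ ∑' ν, ‖(T.v j).cf ν • g ν‖ ≤ 1 := by
  have h1 : ∀ ν, ‖(T.v j).cf ν • g ν‖ ≤ ‖(T.v j).cf ν‖ := by
    intro ν
    rw [norm_smul]
    by_cases hν : (T.v j).cf ν = 0
    · rw [hν]; simp
    · exact mul_le_of_le_one_right (norm_nonneg _) (hg ν hν)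
  have h2 : Summable fun ν => ‖(T.v j).cf ν • g ν‖ :=
    Summable.of_nonneg_of_le (fun _ => norm_nonneg _) h1 (T.v j).summable
  refine ⟨h2, (Summable.tsum_le_tsum h1 h2 (T.v j).summable).trans ?_⟩
  rw [← L1.norm_def]
  exact T.norm_v j

theorem D1_norm [WellFoundedLT Ω] (T : Twr Ω V) (μ : V →₀ ℕ) : ‖D1_nf T μ‖ ≤ 1 := by
  induction μ using (D1_wf T).induction with
  | _ μ ih =>
    by_cases h : ∃ j, T.rt j ∧ 2 ≤ μ j
    · obtain ⟨j, θ, hj, hμ, he⟩ := D1_nf_red T μ h
      rw [he]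
      obtain ⟨h1, h2⟩ := D1_sumnorm T j (fun ν => D1_nf T (θ + ν)) (by
        intro ν hν
        apply ih
        rw [hμ]
        exact D1_rel T hj hν)
      exact (norm_tsum_le_tsum_norm h1).trans h2
    · rw [D1_nf_normal T μ h, L1.norm_mon, norm_one]

theorem D1_summ [WellFoundedLT Ω] (T : Twr Ω V) (j : V) (θ : V →₀ ℕ) :
    Summable fun ν => ‖(T.v j).cf ν • D1_nf T (θ + ν)‖ :=
  (D1_sumnorm T j (fun ν => D1_nf T (θ + ν)) (fun ν _ => D1_norm T (θ + ν))).1

theorem D1_conf [WellFoundedLT Ω] (T : Twr Ω V) (μ : V →₀ ℕ) :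
    ∀ i, T.rt i → ∀ θ' : V →₀ ℕ, μ = θ' + Finsupp.single i 2 →
      D1_nf T μ = ∑' ν, (T.v i).cf ν • D1_nf T (θ' + ν) := by
  classical
  induction μ using (D1_wf T).induction with
  | _ μ ih =>
    intro i hi θ' hθ'
    have hex : ∃ j, T.rt j ∧ 2 ≤ μ j := ⟨i, hi, by rw [hθ']; simp⟩
    obtain ⟨j, θ, hj, hμ, he⟩ := D1_nf_red T μ hex
    by_cases hij : i = j
    · subst hij
      have : θ' = θ := by
        rw [hθ'] at hμ
        exact add_right_cancel hμ
      rw [he, this]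
    · have hle : Finsupp.single j 2 ≤ θ' := by
        rw [Finsupp.single_le_iff]
        have h1 := DFunLike.congr_fun (hθ'.symm.trans hμ) j
        simp only [Finsupp.add_apply, Finsupp.single_eq_same] at h1
        rw [Finsupp.single_eq_of_ne (Ne.symm hij)] at h1
        omega
      set θ'' := θ' - Finsupp.single j 2 with hθ''
      have e1 : θ' = θ'' + Finsupp.single j 2 := (tsub_add_cancel_of_le hle).symm
      have e2 : θ = θ'' + Finsupp.single i 2 := by
        have h1 : θ + Finsupp.single j 2 = θ'' + Finsupp.single i 2 + Finsupp.single j 2 := by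
          rw [← hμ, hθ', e1]
          abel
        exact add_right_cancel h1
      have hL : D1_nf T μ = ∑' ν, ∑' ν', (T.v j).cf ν •
          ((T.v i).cf ν' • D1_nf T (θ'' + ν + ν')) := by
        rw [he]
        refine tsum_congr fun ν => ?_
        by_cases hν : (T.v j).cf ν = 0
        · rw [hν]
          simp
        · have h3 : D1_R T (θ + ν) μ := by
            rw [hμ]
            exact D1_rel T hj hν
          have h4 := ih (θ + ν) h3 i hi (θ'' + ν) (by rw [e2]; abel)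
          rw [h4]
          rw [Summable.tsum_const_smul]
          exact (D1_summ T i (θ'' + ν)).of_norm
      have hR : ∑' ν', (T.v i).cf ν' • D1_nf T (θ' + ν') =
          ∑' ν', ∑' ν, (T.v j).cf ν • ((T.v i).cf ν' • D1_nf T (θ'' + ν + ν')) := by
        refine tsum_congr fun ν' => ?_
        by_cases hν : (T.v i).cf ν' = 0
        · rw [hν]
          simp
        · have h3 : D1_R T (θ' + ν') μ := by
            rw [hθ']
            exact D1_rel T hi hν
          have h4 := ih (θ' + ν') h3 j hj (θ'' + ν') (by rw [e1]; abel)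
          rw [h4, ← Summable.tsum_const_smul]
          · refine tsum_congr fun ν => ?_
            rw [smul_comm]
            congr 3
            abel
          · exact (D1_summ T j (θ'' + ν')).of_norm
      rw [hL, hR]
      symm
      apply Summable.tsum_comm
      have h5 : Summable fun x : (V →₀ ℕ) × (V →₀ ℕ) => ‖(T.v j).cf x.1‖ * ‖(T.v i).cf x.2‖ :=
        Summable.mul_of_nonneg (f := fun μ => ‖(T.v j).cf μ‖) (g := fun μ => ‖(T.v i).cf μ‖)
          (T.v j).summable (T.v i).summable (fun μ => norm_nonneg _) (fun μ => norm_nonneg _)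
      apply Summable.of_norm
      refine Summable.of_nonneg_of_le (fun _ => norm_nonneg _) ?_ h5
      rintro ⟨ν, ν'⟩
      simp only [Function.uncurry]
      rw [norm_smul, norm_smul, ← mul_assoc]
      exact mul_le_of_le_one_right (mul_nonneg (norm_nonneg _) (norm_nonneg _)) (D1_norm T _)

theorem D1_letter [WellFoundedLT Ω] (T : Twr Ω V) (j : V) (hj : ¬ T.rt j) (μ : V →₀ ℕ) :
    D1_nf T (μ + Finsupp.single j 1) = L1.X j * D1_nf T μ := by
  classical
  induction μ using (D1_wf T).induction with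
  | _ μ ih =>
    by_cases h : ∃ i, T.rt i ∧ 2 ≤ μ i
    · obtain ⟨i, θ, hi, hμ, he⟩ := D1_nf_red T μ h
      have h1 := D1_conf T (μ + Finsupp.single j 1) i hi (θ + Finsupp.single j 1) (by
        rw [hμ]; abel)
      rw [h1, he, ← Summable.tsum_mul_left _ (D1_summ T i θ).of_norm]
      refine tsum_congr fun ν => ?_
      by_cases hν : (T.v i).cf ν = 0
      · rw [hν]
        simp
      · have h2 := ih (θ + ν) (by rw [hμ]; exact D1_rel T hi hν)
        rw [mul_smul_comm, ← h2]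
        congr 2
        abel
    · rw [D1_nf_normal T μ h, D1_nf_normal T (μ + Finsupp.single j 1), L1.X, L1.mon_mul, mul_one,
        add_comm]
      rintro ⟨i, hi, h2⟩
      apply h
      refine ⟨i, hi, ?_⟩
      have hij : i ≠ j := by
        rintro rfl
        exact hj hi
      rw [Finsupp.add_apply, Finsupp.single_eq_of_ne hij, add_zero] at h2
      exact h2

theorem D1_hasSum (f : L1 V) : HasSum (fun ν => f.cf ν • L1.mon ν 1) f := by
  classical
  have h := lp.hasSum_single (E := fun _ : V →₀ ℕ => ℂ) (p := 1) (by norm_num)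
    (show lp (fun _ : V →₀ ℕ => ℂ) 1 from f)
  have h2 : (fun ν => f.cf ν • L1.mon ν 1) =
      fun i => (lp.single (E := fun _ : V →₀ ℕ => ℂ) 1 i (f.cf i) :
        lp (fun _ : V →₀ ℕ => ℂ) 1) := by
    funext ν
    refine L1.ext_cf fun μ => ?_
    rw [L1.cf_smul]
    have h3 : (L1.mon ν 1 : L1 V).cf μ = if μ = ν then 1 else 0 := by
      show MvPowerSeries.coeff μ (MvPowerSeries.monomial ν 1 : MvPowerSeries V ℂ) = _
      rw [MvPowerSeries.coeff_monomial]
    rw [h3]
    show _ = (lp.single (E := fun _ : V →₀ ℕ => ℂ) 1 ν (f.cf ν) :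
      lp (fun _ : V →₀ ℕ => ℂ) 1) μ
    rw [lp.single_apply]
    by_cases hμ : μ = ν
    · subst hμ
      simp
    · rw [if_neg hμ, mul_zero]
      simp [hμ]
  rw [h2]
  exact h

theorem D1_J [WellFoundedLT Ω] (T : Twr Ω V) (μ : V →₀ ℕ) : L1.mon μ 1 - D1_nf T μ ∈ T.J := by
  induction μ using (D1_wf T).induction with
  | _ μ ih =>
    by_cases h : ∃ i, T.rt i ∧ 2 ≤ μ i
    · obtain ⟨j, θ, hj, hμ, he⟩ := D1_nf_red T μ h
      have h1 : L1.mon μ 1 = L1.mon θ 1 * L1.X j ^ 2 := by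
        rw [L1.X, pow_two, L1.mon_mul, L1.mon_mul, hμ, mul_one, mul_one,
          ← Finsupp.single_add]
      have h2 : HasSum (fun ν => (T.v j).cf ν • (L1.mon (θ + ν) 1 - D1_nf T (θ + ν)))
          (L1.mon θ 1 * T.v j - D1_nf T μ) := by
        rw [he]
        have h3 := (D1_hasSum (T.v j)).mul_left (L1.mon θ 1)
        have h4 := (D1_summ T j θ).of_norm.hasSum
        have h5 := h3.sub h4
        have h6 : (fun ν => (T.v j).cf ν • (L1.mon (θ + ν) 1 - D1_nf T (θ + ν))) =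
            fun ν => L1.mon θ 1 * (T.v j).cf ν • L1.mon ν 1 -
              (T.v j).cf ν • D1_nf T (θ + ν) := by
          funext ν
          rw [smul_sub, mul_smul_comm, L1.mon_mul, mul_one]
        rw [h6]
        exact h5
      have h6 : L1.mon θ 1 * T.v j - D1_nf T μ ∈ T.J := by
        have hcl : IsClosed (T.J : Set (L1 V)) := inferInstance
        have := hcl.mem_of_tendsto h2 (Filter.Eventually.of_forall fun s => ?_)
        · exact this
        · apply Ideal.sum_mem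
          intro ν _
          by_cases hν : (T.v j).cf ν = 0
          · rw [hν, zero_smul]
            exact T.J.zero_mem
          · have h7 := ih (θ + ν) (by rw [hμ]; exact D1_rel T hj hν)
            rw [← algebraMap_smul (L1 V) ((T.v j).cf ν), smul_eq_mul]
            exact T.J.mul_mem_left _ h7
      have h8 : L1.mon θ 1 * (L1.X j ^ 2 - T.v j) ∈ T.J := by
        apply T.J.mul_mem_left
        have : (Ideal.span {f | ∃ j, T.rt j ∧ f = L1.X j ^ 2 - T.v j} : Ideal (L1 V)) ≤ T.J := by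
          unfold Twr.J
          intro x hx
          have h9 : x ∈ closure ((Ideal.span {f | ∃ j, T.rt j ∧ f = L1.X j ^ 2 - T.v j} :
            Ideal (L1 V)) : Set (L1 V)) := subset_closure hx
          rw [← Ideal.coe_closure] at h9
          exact h9
        exact this (Ideal.subset_span ⟨j, hj, rfl⟩)
      have h10 : L1.mon μ 1 - D1_nf T μ =
          L1.mon θ 1 * (L1.X j ^ 2 - T.v j) + (L1.mon θ 1 * T.v j - D1_nf T μ) := by
        rw [h1]
        ring
      rw [h10]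
      exact T.J.add_mem h8 h6
    · rw [D1_nf_normal T μ h, sub_self]
      exact T.J.zero_mem

theorem prf_D1 : S_D1 := by
  intro Ω V _ _ T
  refine ⟨D1_nf T, D1_norm T, ?_, fun j hj μ => D1_letter T j hj μ, D1_J T⟩
  intro j hj μ
  exact D1_conf T _ j hj μ rfl

end

end Pool.Agent.H5

end

section

/-!
# MP_10b086_an, H5, item D2 (helper70): the normal form operator
-/

open Topology Filter Set
open scoped ENNReal ComplexConjugate

set_option autoImplicit false

namespace Pool.Agent.H5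

theorem D2_cf_mon {V : Type} (μ ν : V →₀ ℕ) (c : ℂ) (h : ν ≠ μ) : (L1.mon μ c).cf ν = 0 := by
  classical
  show MvPowerSeries.coeff ν (MvPowerSeries.monomial μ c : MvPowerSeries V ℂ) = 0
  rw [MvPowerSeries.coeff_monomial, if_neg h]

theorem D2_cf_mon_same {V : Type} (μ : V →₀ ℕ) (c : ℂ) : (L1.mon μ c).cf μ = c := by
  classical
  show MvPowerSeries.coeff μ (MvPowerSeries.monomial μ c : MvPowerSeries V ℂ) = c
  rw [MvPowerSeries.coeff_monomial_same]

/-- a power series is the sum of its monomials -/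
theorem D2_hasSum {V : Type} (f : L1 V) : HasSum (fun μ => f.cf μ • L1.mon μ 1) f := by
  classical
  have hn : Summable fun μ => ‖f.cf μ • (L1.mon μ 1 : L1 V)‖ := by
    refine f.summable.congr fun μ => ?_
    rw [norm_smul, L1.norm_mon, norm_one, mul_one]
  have hs : Summable fun μ => f.cf μ • (L1.mon μ 1 : L1 V) := hn.of_norm
  have hsum := hs.hasSum
  have he : (∑' μ, f.cf μ • (L1.mon μ 1 : L1 V)) = f := by
    refine L1.ext_cf fun ν => ?_
    -- the coefficient is a continuous linear functional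
    let φ : L1 V →ₗ[ℂ] ℂ :=
      { toFun := fun g => g.cf ν
        map_add' := fun _ _ => rfl
        map_smul' := fun _ _ => rfl }
    let Φ : L1 V →L[ℂ] ℂ := φ.mkContinuous 1 (fun g => by
      rw [one_mul]; exact L1.norm_cf_le g ν)
    have h1 : HasSum (fun μ => Φ (f.cf μ • (L1.mon μ 1 : L1 V)))
        (Φ (∑' μ, f.cf μ • (L1.mon μ 1 : L1 V))) := Φ.hasSum hsum
    have h2 : HasSum (fun μ => Φ (f.cf μ • (L1.mon μ 1 : L1 V))) (f.cf ν) := by
      have h3 : ∀ μ, μ ≠ ν → Φ (f.cf μ • (L1.mon μ 1 : L1 V)) = 0 := by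
        intro μ hμ
        show (f.cf μ • (L1.mon μ 1 : L1 V)).cf ν = 0
        rw [L1.cf_smul, D2_cf_mon μ ν 1 (Ne.symm hμ), mul_zero]
      have h4 := hasSum_single ν h3
      have h5 : Φ (f.cf ν • (L1.mon ν 1 : L1 V)) = f.cf ν := by
        show (f.cf ν • (L1.mon ν 1 : L1 V)).cf ν = f.cf ν
        rw [L1.cf_smul, D2_cf_mon_same, mul_one]
      rwa [h5] at h4
    exact h1.unique h2
  rwa [he] at hsum

theorem D2_ext {V : Type} (φ ψ : L1 V →L[ℂ] L1 V)
    (h : ∀ μ, φ (L1.mon μ 1) = ψ (L1.mon μ 1)) (f : L1 V) : φ f = ψ f := by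
  have h1 := φ.hasSum (D2_hasSum f)
  have h2 := ψ.hasSum (D2_hasSum f)
  have h3 : (fun μ => φ (f.cf μ • (L1.mon μ 1 : L1 V))) =
      fun μ => ψ (f.cf μ • (L1.mon μ 1 : L1 V)) := by
    funext μ
    rw [map_smul, map_smul, h μ]
  rw [h3] at h1
  exact h1.unique h2

theorem D2_summable {V : Type} (nf : (V →₀ ℕ) → L1 V) (h : ∀ μ, ‖nf μ‖ ≤ 1) (f : L1 V) :
    Summable fun μ => ‖f.cf μ • nf μ‖ := by
  refine Summable.of_nonneg_of_le (fun _ => norm_nonneg _) (fun μ => ?_) f.summable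
  rw [norm_smul]
  exact mul_le_of_le_one_right (norm_nonneg _) (h μ)

theorem D2_norm {V : Type} (nf : (V →₀ ℕ) → L1 V) (h : ∀ μ, ‖nf μ‖ ≤ 1) (f : L1 V) :
    ‖∑' μ, f.cf μ • nf μ‖ ≤ ‖f‖ := by
  rw [L1.norm_def f]
  refine (norm_tsum_le_tsum_norm (D2_summable nf h f)).trans ?_
  refine Summable.tsum_le_tsum (fun μ => ?_) (D2_summable nf h f) f.summable
  rw [norm_smul]
  exact mul_le_of_le_one_right (norm_nonneg _) (h μ)

/-- the operator with values `nf μ` on the monomials -/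
noncomputable def D2_NF {V : Type} (nf : (V →₀ ℕ) → L1 V) (h : ∀ μ, ‖nf μ‖ ≤ 1) :
    L1 V →L[ℂ] L1 V :=
  LinearMap.mkContinuous
    { toFun := fun f => ∑' μ, f.cf μ • nf μ
      map_add' := fun f g => by
        rw [← Summable.tsum_add (D2_summable nf h f).of_norm (D2_summable nf h g).of_norm]
        exact tsum_congr fun μ => by rw [L1.cf_add, add_smul]
      map_smul' := fun c f => by
        rw [RingHom.id_apply, ← Summable.tsum_const_smul c (D2_summable nf h f).of_norm]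
        exact tsum_congr fun μ => by rw [L1.cf_smul, mul_smul] } 1
    (fun f => by rw [one_mul]; exact D2_norm nf h f)

theorem D2_NF_apply {V : Type} (nf : (V →₀ ℕ) → L1 V) (h : ∀ μ, ‖nf μ‖ ≤ 1) (f : L1 V) :
    D2_NF nf h f = ∑' μ, f.cf μ • nf μ := rfl

theorem D2_NF_mon {V : Type} (nf : (V →₀ ℕ) → L1 V) (h : ∀ μ, ‖nf μ‖ ≤ 1) (μ : V →₀ ℕ) :
    D2_NF nf h (L1.mon μ 1) = nf μ := by
  rw [D2_NF_apply, tsum_eq_single μ]
  · rw [D2_cf_mon_same, one_smul]
  · intro ν hν
    rw [D2_cf_mon μ ν 1 hν, zero_smul]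

theorem D2_X_sq {V : Type} (j : V) : (L1.X j : L1 V) ^ 2 = L1.mon (Finsupp.single j 2) 1 := by
  rw [pow_two, L1.X, L1.mon_mul, mul_one, ← Finsupp.single_add]

theorem prf_D2 (h1 : S_D1) : S_D2 := by
  intro Ω V _ _ T
  obtain ⟨nf, hn, hr, hl, hJ⟩ := h1 Ω V T
  refine ⟨D2_NF nf hn, ?_, ?_, ?_, ?_⟩
  · intro f
    exact D2_norm nf hn f
  · intro f
    have ha := D2_hasSum f
    have hb := (D2_NF nf hn).hasSum (D2_hasSum f)
    have hc := ha.sub hb
    have hcl : IsClosed (T.J : Set (L1 V)) := inferInstance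
    refine hcl.mem_of_tendsto hc (Filter.Eventually.of_forall fun s => ?_)
    refine Submodule.sum_mem _ fun μ _ => ?_
    rw [map_smul, D2_NF_mon, ← smul_sub, Algebra.smul_def]
    exact Ideal.mul_mem_left _ _ (hJ μ)
  · -- vanishing on the ideal
    have hgen : ∀ j, T.rt j → ∀ g : L1 V, D2_NF nf hn (g * (L1.X j ^ 2 - T.v j)) = 0 := by
      intro j hj g
      have h2 := D2_ext ((D2_NF nf hn).comp
        ((ContinuousLinearMap.mul ℂ (L1 V)).flip (L1.X j ^ 2 - T.v j))) 0 ?_ g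
      · exact h2
      · intro μ
        show D2_NF nf hn (L1.mon μ 1 * (L1.X j ^ 2 - T.v j)) = 0
        rw [mul_sub, map_sub, D2_X_sq, L1.mon_mul, mul_one, D2_NF_mon, hr j hj μ, sub_eq_zero]
        have h3 := ((D2_NF nf hn).comp (ContinuousLinearMap.mul ℂ (L1 V) (L1.mon μ 1))).hasSum
          (D2_hasSum (T.v j))
        have h4 : (fun ν => ((D2_NF nf hn).comp (ContinuousLinearMap.mul ℂ (L1 V) (L1.mon μ 1)))
            ((T.v j).cf ν • (L1.mon ν 1 : L1 V))) = fun ν => (T.v j).cf ν • nf (μ + ν) := by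
          funext ν
          rw [map_smul]
          show (T.v j).cf ν • D2_NF nf hn (L1.mon μ 1 * L1.mon ν 1) = _
          rw [L1.mon_mul, mul_one, D2_NF_mon]
        rw [h4] at h3
        exact h3.tsum_eq
    have hspan : ∀ f ∈ Ideal.span {f | ∃ j, T.rt j ∧ f = L1.X j ^ 2 - T.v j},
        ∀ g : L1 V, D2_NF nf hn (g * f) = 0 := by
      intro f hf
      induction hf using Submodule.span_induction with
      | mem x hx =>
        obtain ⟨j, hj, rfl⟩ := hx
        exact hgen j hj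
      | zero => intro g; rw [mul_zero, map_zero]
      | add x y _ _ hx hy => intro g; rw [mul_add, map_add, hx g, hy g, add_zero]
      | smul a x _ hx => intro g; rw [smul_eq_mul, ← mul_assoc]; exact hx (g * a)
    intro f hf
    have hcl : IsClosed {f : L1 V | D2_NF nf hn f = 0} :=
      isClosed_eq (D2_NF nf hn).continuous continuous_const
    have hsub : closure ((Ideal.span {f | ∃ j, T.rt j ∧ f = L1.X j ^ 2 - T.v j} : Ideal (L1 V)) :
        Set (L1 V)) ⊆ {f : L1 V | D2_NF nf hn f = 0} := by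
      refine closure_minimal ?_ hcl
      intro x hx
      have := hspan x hx 1
      rwa [one_mul] at this
    apply hsub
    have h5 : f ∈ ((Ideal.span {f | ∃ j, T.rt j ∧ f = L1.X j ^ 2 - T.v j}).closure :
        Set (L1 V)) := hf
    rwa [Ideal.coe_closure] at h5
  · intro j hj f
    have h2 := D2_ext ((D2_NF nf hn).comp (ContinuousLinearMap.mul ℂ (L1 V) (L1.X j)))
      ((ContinuousLinearMap.mul ℂ (L1 V) (L1.X j)).comp (D2_NF nf hn)) ?_ f
    · exact h2
    · intro μ
      show D2_NF nf hn (L1.X j * L1.mon μ 1) = L1.X j * D2_NF nf hn (L1.mon μ 1)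
      rw [D2_NF_mon, ← hl j hj μ, L1.X, L1.mon_mul, mul_one, D2_NF_mon, add_comm]

end Pool.Agent.H5

end

section

/-!
# D3: letters are isometric in the algebra of the tower, norms are attained
-/

open Topology Filter Set

set_option autoImplicit false

namespace Pool.Agent.H5

section

variable {V Ω : Type} [LinearOrder Ω]

theorem D3_norm_qt_le (T : Twr Ω V) (f : L1 V) : ‖T.qt f‖ ≤ ‖f‖ :=
  Ideal.Quotient.norm_mk_le T.J f

theorem D3_qt_eq (T : Twr Ω V) (f g : L1 V) : T.qt f = T.qt g ↔ f - g ∈ T.J :=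
  Ideal.Quotient.eq

theorem D3_surj (T : Twr Ω V) (t : T.B) : ∃ f, T.qt f = t := Ideal.Quotient.mk_surjective t

theorem D3_norm_eq (T : Twr Ω V) (NF : L1 V →L[ℂ] L1 V) (h1 : ∀ f, ‖NF f‖ ≤ ‖f‖)
    (h2 : ∀ f, f - NF f ∈ T.J) (h3 : ∀ f ∈ T.J, NF f = 0) (f : L1 V) :
    ‖T.qt f‖ = ‖NF f‖ := by
  apply le_antisymm
  · have h4 : T.qt f = T.qt (NF f) := (D3_qt_eq T _ _).2 (h2 f)
    rw [h4]
    exact D3_norm_qt_le T _
  · refine le_of_forall_pos_le_add fun ε hε => ?_
    obtain ⟨r, hr, hrn⟩ := Ideal.Quotient.norm_mk_lt (I := T.J) (T.qt f) hε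
    have h4 : T.qt r = T.qt f := hr
    have h5 : NF (r - f) = 0 := h3 _ ((D3_qt_eq T _ _).1 h4)
    rw [map_sub, sub_eq_zero] at h5
    rw [← h5]
    exact (h1 r).trans hrn.le

theorem D3_chi (T : Twr Ω V) (x : Dk V) (hx : x ∈ T.pts) (p : L1 V) :
    ‖T.chi x hx (T.qt p)‖ ≤ ‖p‖ := by
  rw [Twr.chi_qt]
  exact norm_evl_le x.2 p

end

theorem prf_D3 (h0 : S_D0) (h2 : S_D2) : S_D3 := by
  intro Ω V _ _ T
  obtain ⟨NF, n1, n2, n3, n4⟩ := h2 Ω V T
  have hn := D3_norm_eq T NF n1 n2 n3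
  have hatt : ∀ t : T.B, ∃ p, T.qt p = t ∧ ‖p‖ = ‖t‖ := by
    intro t
    obtain ⟨f, rfl⟩ := D3_surj T t
    refine ⟨NF f, ?_, (hn f).symm⟩
    exact ((D3_qt_eq T _ _).2 (n2 f)).symm
  have hchi : ∀ x hx t, ‖T.chi x hx t‖ ≤ ‖t‖ := by
    intro x hx t
    obtain ⟨p, rfl, hp⟩ := hatt t
    rw [← hp]
    exact D3_chi T x hx p
  refine ⟨?_, hatt, D3_norm_qt_le T, ?_, hchi⟩
  · intro j hj t
    obtain ⟨f, rfl⟩ := D3_surj T t
    rw [← map_mul, hn, hn, n4 j hj, h0]
  · rintro ⟨x, hx⟩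
    apply le_antisymm
    · have h5 := D3_norm_qt_le T (1 : L1 V)
      have h6 : ‖(1 : L1 V)‖ = 1 := norm_one
      rw [map_one, h6] at h5
      exact h5
    · have h5 := hchi x hx 1
      have h6 : ‖(1 : ℂ)‖ = 1 := norm_one
      rw [map_one, h6] at h5
      exact h5

end Pool.Agent.H5

end

section

/-!
# D4: the retraction
-/

open Topology Filter Set
open scoped ENNReal

set_option autoImplicit false
set_option linter.unusedSectionVars false

namespace Pool.Agent.H5

section hom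

variable {V A : Type} [NormedCommRing A] [NormedAlgebra ℂ A] [CompleteSpace A] [NormOneClass A]

/-- evaluation depends only on the low variables -/
theorem D4_low {Ω : Type} [LinearOrder Ω] (lev : V → Ω) (g : Ω) (f : L1 V) (hf : Low lev g f)
    (a b : V → A) (h : ∀ i, lev i < g → a i = b i) : evl a f = evl b f := by
  unfold evl
  refine tsum_congr fun μ => ?_
  by_cases h0 : f.cf μ = 0
  · rw [h0, zero_smul, zero_smul]
  · congr 1
    unfold monVal
    exact Finsupp.prod_congr fun i hi => by rw [h i (hf μ h0 i hi)]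

theorem D4_monX (μ : V →₀ ℕ) : monVal (L1.X : V → L1 V) μ = L1.mon μ 1 := by
  classical
  induction μ using Finsupp.induction_linear with
  | zero => rw [monVal_zero]; rfl
  | add μ ν h1 h2 => rw [monVal_add, h1, h2, L1.mon_mul, one_mul]
  | single j n =>
    rw [monVal_single]
    induction n with
    | zero => rw [pow_zero, Finsupp.single_zero]; rfl
    | succ n ih => rw [pow_succ, ih, L1.X, L1.mon_mul, one_mul, ← Finsupp.single_add]

theorem D4_cf_mon (μ ν : V →₀ ℕ) (h : μ ≠ ν) : (L1.mon μ 1 : L1 V).cf ν = 0 := by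
  classical
  show MvPowerSeries.coeff ν (MvPowerSeries.monomial μ 1 : MvPowerSeries V ℂ) = 0
  rw [MvPowerSeries.coeff_monomial, if_neg (Ne.symm h)]

theorem D4_cf_mon_self (μ : V →₀ ℕ) : (L1.mon μ 1 : L1 V).cf μ = 1 := by
  classical
  show MvPowerSeries.coeff μ (MvPowerSeries.monomial μ 1 : MvPowerSeries V ℂ) = 1
  rw [MvPowerSeries.coeff_monomial_same]

/-- the coefficient functional -/
noncomputable def D4_cfL (ν : V →₀ ℕ) : L1 V →L[ℂ] ℂ :=
  LinearMap.mkContinuous
    { toFun := fun f => f.cf ν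
      map_add' := fun f g => L1.cf_add f g ν
      map_smul' := fun c f => L1.cf_smul c f ν } 1
    (fun f => by
      rw [one_mul]
      exact L1.norm_cf_le f ν)

theorem D4_cfL_apply (ν : V →₀ ℕ) (f : L1 V) : D4_cfL ν f = f.cf ν := rfl

theorem D4_self (f : L1 V) : evl (L1.X : V → L1 V) f = f := by
  classical
  refine L1.ext_cf (fun ν => ?_)
  have hs : Summable fun μ => f.cf μ • monVal (L1.X : V → L1 V) μ :=
    (summable_lift (fun j => (L1.norm_X j).le) f).of_norm
  have h1 := (D4_cfL ν).map_tsum hs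
  rw [D4_cfL_apply] at h1
  unfold evl
  rw [h1, tsum_eq_single ν]
  · rw [D4_cfL_apply, L1.cf_smul, D4_monX, D4_cf_mon_self, mul_one]
  · intro μ hμ
    rw [D4_cfL_apply, L1.cf_smul, D4_monX, D4_cf_mon μ ν hμ, mul_zero]

theorem D4_cont (φ : L1 V →ₐ[ℂ] A) (hφ : ∀ f, ‖φ f‖ ≤ ‖f‖) : Continuous φ :=
  AddMonoidHomClass.continuous_of_bound φ 1 (fun f => by rw [one_mul]; exact hφ f)

theorem D4_hom (φ : L1 V →ₐ[ℂ] A) (hφ : ∀ f, ‖φ f‖ ≤ ‖f‖) (f : L1 V) :
    φ f = evl (fun i => φ (L1.X i)) f := by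
  classical
  have hs : HasSum (fun μ => f.cf μ • monVal (L1.X : V → L1 V) μ) f := by
    have h := (summable_lift (fun j => (L1.norm_X j).le) f).of_norm.hasSum
    have h2 : ∑' μ, f.cf μ • monVal (L1.X : V → L1 V) μ = f := D4_self f
    rw [h2] at h
    exact h
  have h1 := hs.map φ (D4_cont φ hφ)
  have h2 : (φ ∘ fun μ => f.cf μ • monVal (L1.X : V → L1 V) μ) =
      fun μ => f.cf μ • monVal (fun i => φ (L1.X i)) μ := by
    funext μ
    show φ (f.cf μ • monVal (L1.X : V → L1 V) μ) = _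
    rw [map_smul]
    congr 1
    unfold monVal
    rw [map_finsuppProd]
    exact Finsupp.prod_congr fun i _ => map_pow φ _ _
  rw [h2] at h1
  exact h1.tsum_eq.symm

end hom

section tower

variable {V Ω : Type} [LinearOrder Ω] [WellFoundedLT Ω]

open Classical in
/-- the images of the variables -/
theorem D4_a (T : Twr Ω V) (hT : T.RootClosed) (e x : Dk V) (g : Ω) : ∃ a : V → L1 V,
    (∀ j, ‖a j‖ ≤ 1) ∧ (∀ j, T.lev j < g → a j = L1.X j) ∧
    (∀ j, ¬ T.rt j → g ≤ T.lev j → a j = algebraMap ℂ (L1 V) (x.1 j)) ∧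
    ∀ j, T.rt j → g ≤ T.lev j → ∃ c, T.rt c ∧ T.v c = evl a (T.v j) ∧
      ((e.1 c = x.1 j ∧ a j = L1.X c) ∨ (e.1 c ≠ x.1 j ∧ a j = -L1.X c)) := by
  have hwf : WellFounded (fun i j : V => T.lev i < T.lev j) := InvImage.wf T.lev wellFounded_lt
  let F : ∀ j : V, (∀ i, T.lev i < T.lev j → L1 V) → L1 V := fun j y =>
    if T.lev j < g then L1.X j else if T.rt j then
      (if h : ∃ c, T.rt c ∧
          T.v c = evl (fun i => if h : T.lev i < T.lev j then y i h else 0) (T.v j) then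
        (if e.1 h.choose = x.1 j then L1.X h.choose else -L1.X h.choose) else 0)
      else algebraMap ℂ (L1 V) (x.1 j)
  obtain ⟨a, ha⟩ : ∃ a : V → L1 V, ∀ j, a j = F j (fun i _ => a i) :=
    ⟨hwf.fix F, fun j => hwf.fix_eq F j⟩
  have h2 : ∀ j, T.lev j < g → a j = L1.X j := by
    intro j hj
    rw [ha]
    show (if T.lev j < g then _ else _) = _
    rw [if_pos hj]
  have h3 : ∀ j, ¬ T.rt j → g ≤ T.lev j → a j = algebraMap ℂ (L1 V) (x.1 j) := by
    intro j hj hg
    rw [ha]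
    show (if T.lev j < g then _ else _) = _
    rw [if_neg (not_lt.mpr hg), if_neg hj]
  have h4 : ∀ j, T.rt j → g ≤ T.lev j → a j = (if h : ∃ c, T.rt c ∧
          T.v c = evl (fun i => if T.lev i < T.lev j then a i else 0) (T.v j) then
        (if e.1 h.choose = x.1 j then L1.X h.choose else -L1.X h.choose) else 0) := by
    intro j hj hg
    rw [ha j]
    show (if T.lev j < g then _ else _) = _
    rw [if_neg (not_lt.mpr hg), if_pos hj]
    rfl
  have h1 : ∀ j, ‖a j‖ ≤ 1 := by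
    intro j
    by_cases hg : T.lev j < g
    · rw [h2 j hg, L1.norm_X]
    · by_cases hj : T.rt j
      · rw [h4 j hj (not_lt.mp hg)]
        split_ifs
        · rw [L1.norm_X]
        · rw [norm_neg, L1.norm_X]
        · rw [norm_zero]; exact zero_le_one
      · rw [h3 j hj (not_lt.mp hg), norm_algebraMap']
        exact x.2 j
  refine ⟨a, h1, h2, h3, fun j hj hg => ?_⟩
  have hp : evl (fun i => if T.lev i < T.lev j then a i else 0) (T.v j) = evl a (T.v j) :=
    D4_low T.lev (T.lev j) (T.v j) (T.low_v j hj) _ _ (fun i hi => by rw [if_pos hi])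
  have hex : ∃ c, T.rt c ∧
      T.v c = evl (fun i => if T.lev i < T.lev j then a i else 0) (T.v j) := by
    refine hT _ ?_
    rw [hp]
    exact (norm_evl_le h1 _).trans (T.norm_v j)
  have h5 := h4 j hj hg
  rw [dif_pos hex] at h5
  refine ⟨hex.choose, hex.choose_spec.1, hex.choose_spec.2.trans hp, ?_⟩
  by_cases hc : e.1 hex.choose = x.1 j
  · left
    rw [if_pos hc] at h5
    exact ⟨hc, h5⟩
  · right
    rw [if_neg hc] at h5
    exact ⟨hc, h5⟩

theorem D4_gen_mem (T : Twr Ω V) (j : V) (hj : T.rt j) : L1.X j ^ 2 - T.v j ∈ T.J := by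
  have h : L1.X j ^ 2 - T.v j ∈
      (Ideal.span {f | ∃ j, T.rt j ∧ f = L1.X j ^ 2 - T.v j} : Ideal (L1 V)) :=
    Ideal.subset_span ⟨j, hj, rfl⟩
  have h2 : L1.X j ^ 2 - T.v j ∈ ((Ideal.span {f | ∃ j, T.rt j ∧ f = L1.X j ^ 2 - T.v j} :
      Ideal (L1 V)).closure : Set (L1 V)) := by
    rw [Ideal.coe_closure]
    exact subset_closure h
  exact h2

theorem D4_J (T : Twr Ω V) (φ : L1 V →ₐ[ℂ] L1 V) (hφ : ∀ f, ‖φ f‖ ≤ ‖f‖)
    (h : ∀ j, T.rt j → φ (L1.X j ^ 2 - T.v j) ∈ T.J) : ∀ f ∈ T.J, φ f ∈ T.J := by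
  intro f hf
  have h1 : (T.J : Set (L1 V)) ⊆ closure ((Ideal.span {f | ∃ j, T.rt j ∧
      f = L1.X j ^ 2 - T.v j} : Ideal (L1 V)) : Set (L1 V)) := by
    rw [Twr.J, Ideal.coe_closure]
  have h2 : ∀ f ∈ (Ideal.span {f | ∃ j, T.rt j ∧ f = L1.X j ^ 2 - T.v j} : Ideal (L1 V)),
      φ f ∈ T.J := by
    intro f hf
    have h3 : (Ideal.span {f | ∃ j, T.rt j ∧ f = L1.X j ^ 2 - T.v j} : Ideal (L1 V)) ≤
        Ideal.comap φ T.J := by
      rw [Ideal.span_le]
      rintro _ ⟨j, hj, rfl⟩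
      exact h j hj
    exact h3 hf
  have hcl : IsClosed (T.J : Set (L1 V)) := inferInstance
  have h4 : closure ((Ideal.span {f | ∃ j, T.rt j ∧ f = L1.X j ^ 2 - T.v j} : Ideal (L1 V)) :
      Set (L1 V)) ⊆ φ ⁻¹' (T.J : Set (L1 V)) :=
    closure_minimal h2 (hcl.preimage (D4_cont φ hφ))
  exact h4 (h1 hf)

end tower

theorem prf_D4 (h3 : S_D3) : S_D4 := by
  intro Ω V _ _ T hT e x he hx g hY
  obtain ⟨-, hatt, hqt, -, -⟩ := h3 Ω V T
  obtain ⟨a, ha1, ha2, ha3, ha4⟩ := D4_a T hT e x g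
  have hφ : ∀ f, ‖lift a ha1 f‖ ≤ ‖f‖ := fun f => norm_evl_le ha1 f
  have hfix : ∀ p, Low T.lev g p → lift a ha1 p = p := by
    intro p hp
    rw [lift_apply, D4_low T.lev g p hp a L1.X (fun i hi => ha2 i hi), D4_self]
  have hJ : ∀ f ∈ T.J, lift a ha1 f ∈ T.J := by
    refine D4_J T _ hφ (fun j hj => ?_)
    rw [map_sub, map_pow, lift_apply, lift_apply, evl_X]
    by_cases hg : T.lev j < g
    · rw [ha2 j hg, D4_low T.lev (T.lev j) (T.v j) (T.low_v j hj) a L1.X
        (fun i hi => ha2 i (hi.trans hg)), D4_self]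
      exact D4_gen_mem T j hj
    · obtain ⟨c, hc, hvc, h⟩ := ha4 j hj (not_lt.mp hg)
      have h5 : a j ^ 2 = L1.X c ^ 2 := by
        rcases h with ⟨-, h⟩ | ⟨-, h⟩
        · rw [h]
        · rw [h, neg_sq]
      rw [h5, ← hvc]
      exact D4_gen_mem T c hc
  have hev : ∀ j, evl e.1 (a j) = x.1 j := by
    have hwf : WellFounded (fun i j : V => T.lev i < T.lev j) := InvImage.wf T.lev wellFounded_lt
    intro j
    induction j using hwf.induction with
    | _ j ih =>
      by_cases hg : T.lev j < g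
      · rw [ha2 j hg, evl_X]
        exact (hY j hg).symm
      · by_cases hj : T.rt j
        · obtain ⟨c, hc, hvc, h⟩ := ha4 j hj (not_lt.mp hg)
          have h6 : evl e.1 (evl a (T.v j)) = evl x.1 (T.v j) := by
            have h7 := D4_hom ((lift e.1 e.2).comp (lift a ha1))
              (fun f => (norm_evl_le e.2 _).trans (hφ f)) (T.v j)
            have h8 : evl e.1 (evl a (T.v j)) =
                evl (fun i => ((lift e.1 e.2).comp (lift a ha1)) (L1.X i)) (T.v j) := h7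
            rw [h8]
            refine D4_low T.lev (T.lev j) (T.v j) (T.low_v j hj) _ _ (fun i hi => ?_)
            show evl e.1 (evl a (L1.X i)) = x.1 i
            rw [evl_X]
            exact ih i hi
          have h9 : e.1 c ^ 2 = x.1 j ^ 2 := by
            rw [he c hc, ev_apply, hvc, h6, hx j hj, ev_apply]
          rcases h with ⟨h10, h11⟩ | ⟨h10, h11⟩
          · rw [h11, evl_X, h10]
          · rw [h11]
            have h12 : e.1 c = -x.1 j := by
              rcases sq_eq_sq_iff_eq_or_eq_neg.mp h9 with h | h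
              · exact absurd h h10
              · exact h
            have h13 : evl e.1 (-L1.X c) = -e.1 c := by
              have h14 : lift e.1 e.2 (-L1.X c) = -lift e.1 e.2 (L1.X c) := map_neg _ _
              rw [lift_apply, lift_apply, evl_X] at h14
              exact h14
            rw [h13, h12, neg_neg]
        · rw [ha3 j hj (not_lt.mp hg)]
          exact (lift e.1 e.2).commutes (x.1 j)
  have hev2 : ∀ p, evl e.1 (evl a p) = evl x.1 p := by
    intro p
    have h7 : evl e.1 (evl a p) =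
        evl (fun i => ((lift e.1 e.2).comp (lift a ha1)) (L1.X i)) p :=
      D4_hom ((lift e.1 e.2).comp (lift a ha1)) (fun f => (norm_evl_le e.2 _).trans (hφ f)) p
    rw [h7]
    congr 1
    funext i
    show evl e.1 (evl a (L1.X i)) = x.1 i
    rw [evl_X]
    exact hev i
  let ρ : T.B →ₐ[ℂ] T.B := Ideal.Quotient.liftₐ T.J (T.qt.comp (lift a ha1))
    (fun f hf => Ideal.Quotient.eq_zero_iff_mem.mpr (hJ f hf))
  have hρ : ∀ p, ρ (T.qt p) = T.qt (evl a p) := fun p => rfl
  refine ⟨ρ, fun t => ?_, ?_, fun j hj hg => ?_, fun t => ?_⟩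
  · obtain ⟨p, rfl, hp⟩ := hatt t
    rw [hρ, ← hp]
    exact (hqt _).trans (hφ p)
  · rintro t ⟨p, hp, rfl⟩
    rw [hρ]
    exact congrArg _ (hfix p hp)
  · rw [hρ, evl_X, ha3 j hj hg]
    exact T.qt.commutes _
  · obtain ⟨p, rfl, -⟩ := hatt t
    rw [hρ, T.chi_qt, T.chi_qt, ev_apply, ev_apply]
    exact hev2 p

end Pool.Agent.H5

end

section

/-!
# Item D5: square roots in the kernel of a character
-/

open Topology Filter Set
open scoped ENNReal ComplexConjugate

set_option autoImplicit false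

namespace Pool.Agent.H5

theorem prf_D5 (_h3 : S_D3) : S_D5 := by
  intro Ω V _ _ T hT e he t ht
  obtain ⟨p, rfl⟩ : ∃ p, T.qt p = t := Ideal.Quotient.mk_surjective t
  have hc : 0 < ‖p‖ + 1 := by positivity
  obtain ⟨j, hj, hv⟩ := hT (((1 / (‖p‖ + 1) : ℝ) : ℂ) • p) (by
    rw [norm_smul, Complex.norm_real, Real.norm_of_nonneg (by positivity), one_div,
      inv_mul_le_iff₀ hc]
    linarith)
  have hmem : L1.X j ^ 2 - T.v j ∈ T.J := by
    have h1 : L1.X j ^ 2 - T.v j ∈
        (Ideal.span {f | ∃ j, T.rt j ∧ f = L1.X j ^ 2 - T.v j} : Ideal (L1 V)) :=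
      Ideal.subset_span ⟨j, hj, rfl⟩
    have h2 : L1.X j ^ 2 - T.v j ∈ (T.J : Set (L1 V)) := by
      rw [Twr.J, Ideal.coe_closure]
      exact subset_closure h1
    exact h2
  have hq : T.qt (L1.X j) ^ 2 = ((1 / (‖p‖ + 1) : ℝ) : ℂ) • T.qt p := by
    have h1 : T.qt (L1.X j ^ 2 - T.v j) = 0 := Ideal.Quotient.eq_zero_iff_mem.2 hmem
    rw [map_sub, map_pow, sub_eq_zero, hv, map_smul] at h1
    exact h1
  have hu : (((Real.sqrt (‖p‖ + 1) : ℝ) : ℂ) • T.qt (L1.X j)) *
      (((Real.sqrt (‖p‖ + 1) : ℝ) : ℂ) • T.qt (L1.X j)) = T.qt p := by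
    rw [smul_mul_smul_comm, ← pow_two (T.qt (L1.X j)), hq, smul_smul, ← Complex.ofReal_mul,
      Real.mul_self_sqrt hc.le, ← Complex.ofReal_mul, mul_one_div_cancel hc.ne',
      Complex.ofReal_one, one_smul]
  refine ⟨((Real.sqrt (‖p‖ + 1) : ℝ) : ℂ) • T.qt (L1.X j), ?_, hu⟩
  have h5 : T.chi e he (((Real.sqrt (‖p‖ + 1) : ℝ) : ℂ) • T.qt (L1.X j)) *
      T.chi e he (((Real.sqrt (‖p‖ + 1) : ℝ) : ℂ) • T.qt (L1.X j)) = 0 := by
    rw [← map_mul, hu, ht]
  exact mul_self_eq_zero.1 h5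

end Pool.Agent.H5

end

section

/-!
# D6: the symmetric base point
-/

open Topology Filter Set
open scoped ENNReal ComplexConjugate

set_option autoImplicit false
set_option linter.unusedSectionVars false

namespace Pool.Agent.H5

noncomputable section

/-- a square root -/
def D6_sq (z : ℂ) : ℂ := z ^ (((2 : ℕ) : ℂ)⁻¹)

theorem D6_sq_sq (z : ℂ) : D6_sq z ^ 2 = z := Complex.cpow_nat_inv_pow z two_ne_zero

theorem D6_norm_sq {z : ℂ} (h : ‖z‖ ≤ 1) : ‖D6_sq z‖ ≤ 1 := by
  have h1 : ‖D6_sq z‖ ^ 2 = ‖z‖ := by rw [← norm_pow, D6_sq_sq]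
  by_contra h2
  push Not at h2
  nlinarith [norm_nonneg (D6_sq z)]

section

variable {Λ : Type} [LinearOrder Λ] [WellFoundedLT Λ]

theorem D6_wf : WellFounded (InvImage (· < ·) (lvl : Vr Λ → WithBot (WithTop Λ))) :=
  InvImage.wf _ wellFounded_lt

/-- the recursion -/
def D6_F (v0 : Λ → L1 (Vr Λ)) : (j : Vr Λ) → ((i : Vr Λ) → lvl i < lvl j → ℂ) → ℂ
  | Vr.base _, _ => 0
  | Vr.lett _, _ => 0
  | Vr.root a false, r =>
      D6_sq (evl (fun i => if h : lvl i < lvl (Vr.root a false) then r i h else 0) (v0 a))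
  | Vr.root a true, r =>
      conj (D6_sq (evl (fun i => if h : lvl i < lvl (Vr.root a true) then r i h else 0) (v0 a)))

/-- the base point -/
def D6_e (v0 : Λ → L1 (Vr Λ)) : Vr Λ → ℂ := D6_wf.fix (D6_F v0)

theorem D6_e_eq (v0 : Λ → L1 (Vr Λ)) (j : Vr Λ) :
    D6_e v0 j = D6_F v0 j (fun i _ => D6_e v0 i) := D6_wf.fix_eq _ j

/-- the cut-off family -/
def D6_cut (v0 : Λ → L1 (Vr Λ)) (a : Λ) : Vr Λ → ℂ :=
  fun i => if lvl i < lvl (Vr.lett a) then D6_e v0 i else 0

theorem D6_base (v0 : Λ → L1 (Vr Λ)) (n : ℕ) : D6_e v0 (Vr.base n) = 0 := D6_e_eq v0 _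
theorem D6_lett (v0 : Λ → L1 (Vr Λ)) (a : Λ) : D6_e v0 (Vr.lett a) = 0 := D6_e_eq v0 _
theorem D6_rf (v0 : Λ → L1 (Vr Λ)) (a : Λ) :
    D6_e v0 (Vr.root a false) = D6_sq (evl (D6_cut v0 a) (v0 a)) := by
  rw [D6_e_eq]; rfl
theorem D6_rt (v0 : Λ → L1 (Vr Λ)) (a : Λ) :
    D6_e v0 (Vr.root a true) = conj (D6_sq (evl (D6_cut v0 a) (v0 a))) := by
  rw [D6_e_eq]; rfl

theorem D6_conj (v0 : Λ → L1 (Vr Λ)) (j : Vr Λ) :
    D6_e v0 (swp j) = conj (D6_e v0 j) := by
  rcases j with n | a | ⟨a, b⟩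
  · show D6_e v0 (Vr.base n) = _
    rw [D6_base, map_zero]
  · show D6_e v0 (Vr.lett a) = _
    rw [D6_lett, map_zero]
  · cases b
    · show D6_e v0 (Vr.root a true) = _
      rw [D6_rt, D6_rf]
    · show D6_e v0 (Vr.root a false) = _
      rw [D6_rt, D6_rf, Complex.conj_conj]

theorem D6_norm (v0 : Λ → L1 (Vr Λ)) (h1 : ∀ a, ‖v0 a‖ ≤ 1) (j : Vr Λ) :
    ‖D6_e v0 j‖ ≤ 1 := by
  refine D6_wf.induction (C := fun j => ‖D6_e v0 j‖ ≤ 1) j (fun j ih => ?_)
  have key : ∀ a : Λ, lvl j = lvl (Vr.lett a) → ‖D6_sq (evl (D6_cut v0 a) (v0 a))‖ ≤ 1 := by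
    intro a ha
    refine D6_norm_sq ((norm_evl_le (fun i => ?_) _).trans (h1 a))
    unfold D6_cut
    split_ifs with h
    · exact ih i (by show lvl i < lvl j; rw [ha]; exact h)
    · rw [norm_zero]; exact zero_le_one
  rcases j with n | a | ⟨a, b⟩
  · rw [D6_base, norm_zero]; exact zero_le_one
  · rw [D6_lett, norm_zero]; exact zero_le_one
  · cases b
    · rw [D6_rf]; exact key a rfl
    · rw [D6_rt, RCLike.norm_conj]; exact key a rfl

theorem D6_evl_cut (v0 : Λ → L1 (Vr Λ)) (a : Λ) (h2 : Low lvl (lvl (Vr.lett a)) (v0 a)) :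
    evl (D6_cut v0 a) (v0 a) = evl (D6_e v0) (v0 a) := by
  unfold evl
  refine tsum_congr (fun μ => ?_)
  by_cases h : (v0 a).cf μ = 0
  · rw [h, zero_smul, zero_smul]
  · congr 1
    unfold monVal
    refine Finsupp.prod_congr (fun i hi => ?_)
    rw [D6_cut, if_pos (h2 μ h i hi)]

end

theorem D6_monVal {Λ : Type} (e : Vr Λ → ℂ) (he : ∀ j, e (swp j) = conj (e j)) (μ : Vr Λ →₀ ℕ) :
    monVal e (Finsupp.equivMapDomain swp μ) = conj (monVal e μ) := by
  unfold monVal
  rw [Finsupp.prod_equivMapDomain, Finsupp.prod, Finsupp.prod, map_prod]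
  exact Finset.prod_congr rfl fun i _ => by rw [he, map_pow]

theorem D6_evl_sg {Λ : Type} (e : Vr Λ → ℂ) (he : ∀ j, e (swp j) = conj (e j))
    (f : L1 (Vr Λ)) : evl e (sg f) = conj (evl e f) := by
  unfold evl
  rw [Complex.conj_tsum, ← Equiv.tsum_eq (Finsupp.equivCongrLeft (M := ℕ) (swp (Λ := Λ)))
    (fun μ => conj (f.cf μ • monVal e μ))]
  refine tsum_congr (fun μ => ?_)
  have h : Finsupp.equivCongrLeft (M := ℕ) (swp (Λ := Λ)) μ = Finsupp.equivMapDomain swp μ := rfl
  rw [h, sg_cf, smul_eq_mul, smul_eq_mul, map_mul, D6_monVal e he, Complex.conj_conj]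

theorem prf_D6 : S_D6 := by
  intro Λ _ _ v0 h1 h2
  refine ⟨⟨D6_e v0, D6_norm v0 h1⟩, ?_, ?_, D6_conj v0⟩
  · rintro (n | a | ⟨a, b⟩) hj
    · exact absurd hj (fun h => h)
    · exact absurd hj (fun h => h)
    · cases b
      · show D6_e v0 (Vr.root a false) ^ 2 = evl (D6_e v0) (v0 a)
        rw [D6_rf, D6_sq_sq, D6_evl_cut v0 a (h2 a)]
      · show D6_e v0 (Vr.root a true) ^ 2 = evl (D6_e v0) (sg (v0 a))
        rw [D6_rt, ← map_pow, D6_sq_sq, D6_evl_cut v0 a (h2 a), D6_evl_sg _ (D6_conj v0)]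
  · rintro (n | a | ⟨a, b⟩) hj
    · exact D6_base v0 n
    · exact D6_lett v0 a
    · exact absurd trivial hj

end

end Pool.Agent.H5

end

section

/-!
# D7: the involution of the algebra
-/

open Topology Filter Set
open scoped ENNReal ComplexConjugate

set_option autoImplicit false
set_option linter.unusedSectionVars false

namespace Pool.Agent.H5

noncomputable section

section

variable {Λ : Type}

theorem D7_E_E (μ : Vr Λ →₀ ℕ) :
    Finsupp.equivMapDomain swp (Finsupp.equivMapDomain swp μ) = μ := by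
  ext j
  rw [Finsupp.equivMapDomain_apply, Finsupp.equivMapDomain_apply]
  congr 1
  exact swpFun_swpFun j

theorem D7_E_add (μ ν : Vr Λ →₀ ℕ) :
    Finsupp.equivMapDomain swp (μ + ν) =
      Finsupp.equivMapDomain swp μ + Finsupp.equivMapDomain swp ν := by
  ext j
  rw [Finsupp.add_apply, Finsupp.equivMapDomain_apply, Finsupp.equivMapDomain_apply,
    Finsupp.equivMapDomain_apply, Finsupp.add_apply]

theorem D7_add (f g : L1 (Vr Λ)) : sg (f + g) = sg f + sg g := by
  refine L1.ext_cf (fun μ => ?_)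
  rw [L1.cf_add, sg_cf, sg_cf, sg_cf, L1.cf_add, map_add]

theorem D7_zero : sg (0 : L1 (Vr Λ)) = 0 := by
  refine L1.ext_cf (fun μ => ?_)
  rw [sg_cf, L1.cf_zero, L1.cf_zero, map_zero]

theorem D7_smul (c : ℂ) (f : L1 (Vr Λ)) : sg (c • f) = conj c • sg f := by
  refine L1.ext_cf (fun μ => ?_)
  rw [L1.cf_smul, sg_cf, sg_cf, L1.cf_smul, map_mul]

theorem D7_sg_sg (f : L1 (Vr Λ)) : sg (sg f) = f := by
  refine L1.ext_cf (fun μ => ?_)
  rw [sg_cf, sg_cf, Complex.conj_conj, D7_E_E]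

theorem D7_mon (μ : Vr Λ →₀ ℕ) (c : ℂ) :
    sg (L1.mon μ c) = L1.mon (Finsupp.equivMapDomain swp μ) (conj c) := by
  classical
  refine L1.ext_cf (fun ν => ?_)
  rw [sg_cf]
  have h1 : ∀ (α β : Vr Λ →₀ ℕ) (d : ℂ), (L1.mon α d).cf β = if β = α then d else 0 := by
    intro α β d
    show MvPowerSeries.coeff β (MvPowerSeries.monomial α d : MvPowerSeries (Vr Λ) ℂ) = _
    rw [MvPowerSeries.coeff_monomial]
  rw [h1, h1]
  by_cases h : ν = Finsupp.equivMapDomain swp μ
  · rw [if_pos h, if_pos (by rw [h, D7_E_E])]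
  · rw [if_neg h, if_neg, map_zero]
    intro h2
    apply h
    rw [← h2, D7_E_E]

theorem D7_one : sg (1 : L1 (Vr Λ)) = 1 := by
  show sg (L1.mon 0 1) = L1.mon 0 1
  rw [D7_mon, map_one]
  congr 1

theorem D7_X (j : Vr Λ) : sg (L1.X j) = L1.X (swp j) := by
  rw [L1.X, L1.X, D7_mon, Finsupp.equivMapDomain_single, map_one]

theorem D7_mul (f g : L1 (Vr Λ)) : sg (f * g) = sg f * sg g := by
  classical
  refine L1.ext_cf (fun μ => ?_)
  rw [L1.cf_mul, sg_cf, L1.cf_mul, map_sum]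
  refine Finset.sum_nbij' (i := fun p => (Finsupp.equivMapDomain swp p.1,
      Finsupp.equivMapDomain swp p.2)) (j := fun p => (Finsupp.equivMapDomain swp p.1,
      Finsupp.equivMapDomain swp p.2)) ?_ ?_ ?_ ?_ ?_
  · intro p hp
    rw [Finset.HasAntidiagonal.mem_antidiagonal] at hp ⊢
    show Finsupp.equivMapDomain swp p.1 + Finsupp.equivMapDomain swp p.2 = μ
    rw [← D7_E_add, hp, D7_E_E]
  · intro p hp
    rw [Finset.HasAntidiagonal.mem_antidiagonal] at hp ⊢
    show Finsupp.equivMapDomain swp p.1 + Finsupp.equivMapDomain swp p.2 = _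
    rw [← D7_E_add, hp]
  · intro p _
    exact Prod.ext (D7_E_E _) (D7_E_E _)
  · intro p _
    exact Prod.ext (D7_E_E _) (D7_E_E _)
  · intro p _
    rw [sg_cf, sg_cf, map_mul, D7_E_E, D7_E_E]

/-- the conjugation as a ring homomorphism -/
def D7_hom : L1 (Vr Λ) →+* L1 (Vr Λ) where
  toFun := sg
  map_one' := D7_one
  map_mul' := D7_mul
  map_zero' := D7_zero
  map_add' := D7_add

theorem D7_monVal (e : Vr Λ → ℂ) (he : ∀ j, e (swp j) = conj (e j)) (μ : Vr Λ →₀ ℕ) :
    monVal e (Finsupp.equivMapDomain swp μ) = conj (monVal e μ) := by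
  unfold monVal
  rw [Finsupp.prod_equivMapDomain, Finsupp.prod, Finsupp.prod, map_prod]
  exact Finset.prod_congr rfl fun i _ => by rw [he, map_pow]

theorem D7_evl_sg (e : Vr Λ → ℂ) (he : ∀ j, e (swp j) = conj (e j))
    (f : L1 (Vr Λ)) : evl e (sg f) = conj (evl e f) := by
  unfold evl
  rw [Complex.conj_tsum, ← Equiv.tsum_eq (Finsupp.equivCongrLeft (M := ℕ) (swp (Λ := Λ)))
    (fun μ => conj (f.cf μ • monVal e μ))]
  refine tsum_congr (fun μ => ?_)
  have h : Finsupp.equivCongrLeft (M := ℕ) (swp (Λ := Λ)) μ = Finsupp.equivMapDomain swp μ := rfl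
  rw [h, sg_cf, smul_eq_mul, smul_eq_mul, map_mul, D7_monVal e he, Complex.conj_conj]

variable [LinearOrder Λ]

theorem D7_cont : Continuous (D7_hom : L1 (Vr Λ) →+* L1 (Vr Λ)) := by
  refine AddMonoidHomClass.continuous_of_bound (D7_hom : L1 (Vr Λ) →+* L1 (Vr Λ)) 1 (fun f => ?_)
  rw [one_mul]
  exact (norm_sg f).le

theorem D7_v (v0 : Λ → L1 (Vr Λ)) (h1 : ∀ a, ‖v0 a‖ ≤ 1)
    (h2 : ∀ a, Low lvl (lvl (Vr.lett a)) (v0 a)) (j : Vr Λ) (hj : isRt j) :
    isRt (swp j) ∧ sg ((tw v0 h1 h2).v j) = (tw v0 h1 h2).v (swp j) := by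
  rcases j with n | a | ⟨a, b⟩
  · exact absurd hj (fun h => h)
  · exact absurd hj (fun h => h)
  · cases b
    · exact ⟨trivial, rfl⟩
    · refine ⟨trivial, ?_⟩
      show sg (sg (v0 a)) = v0 a
      exact D7_sg_sg _

theorem D7_J (v0 : Λ → L1 (Vr Λ)) (h1 : ∀ a, ‖v0 a‖ ≤ 1)
    (h2 : ∀ a, Low lvl (lvl (Vr.lett a)) (v0 a)) :
    (tw v0 h1 h2).J ≤ (tw v0 h1 h2).J.comap D7_hom := by
  have hspan : (Ideal.span {f | ∃ j, (tw v0 h1 h2).rt j ∧ f = L1.X j ^ 2 - (tw v0 h1 h2).v j} :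
      Ideal (L1 (Vr Λ))) ≤ (Ideal.span {f | ∃ j, (tw v0 h1 h2).rt j ∧
        f = L1.X j ^ 2 - (tw v0 h1 h2).v j} : Ideal (L1 (Vr Λ))).comap D7_hom := by
    rw [Ideal.span_le]
    rintro _ ⟨j, hj, rfl⟩
    show (D7_hom : L1 (Vr Λ) →+* L1 (Vr Λ)) (L1.X j ^ 2 - (tw v0 h1 h2).v j) ∈
      (Ideal.span {f | ∃ j, (tw v0 h1 h2).rt j ∧
        f = L1.X j ^ 2 - (tw v0 h1 h2).v j} : Ideal (L1 (Vr Λ)))
    rw [map_sub, map_pow]
    refine Ideal.subset_span ⟨swp j, (D7_v v0 h1 h2 j hj).1, ?_⟩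
    show sg (L1.X j) ^ 2 - sg ((tw v0 h1 h2).v j) = _
    rw [D7_X, (D7_v v0 h1 h2 j hj).2]
  intro f hf
  show (D7_hom : L1 (Vr Λ) →+* L1 (Vr Λ)) f ∈ (tw v0 h1 h2).J
  have hf' : f ∈ closure ((Ideal.span {f | ∃ j, (tw v0 h1 h2).rt j ∧
      f = L1.X j ^ 2 - (tw v0 h1 h2).v j} : Ideal (L1 (Vr Λ))) : Set (L1 (Vr Λ))) := by
    have h3 : f ∈ ((tw v0 h1 h2).J : Set (L1 (Vr Λ))) := hf
    rwa [Twr.J, Ideal.coe_closure] at h3
  have h4 : D7_hom f ∈ closure ((Ideal.span {f | ∃ j, (tw v0 h1 h2).rt j ∧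
      f = L1.X j ^ 2 - (tw v0 h1 h2).v j} : Ideal (L1 (Vr Λ))) : Set (L1 (Vr Λ))) :=
    map_mem_closure D7_cont hf' (fun g hg => hspan hg)
  have h5 : D7_hom f ∈ ((tw v0 h1 h2).J : Set (L1 (Vr Λ))) := by
    rw [Twr.J, Ideal.coe_closure]
    exact h4
  exact h5

end

theorem prf_D7 (h3 : S_D3) : S_D7 := by
  intro Λ _ _ v0 h1 h2
  obtain ⟨_, hatt, hle, _, _⟩ := h3 _ _ (tw v0 h1 h2)
  have hqt : ∀ p, Ideal.quotientMap (tw v0 h1 h2).J D7_hom (D7_J v0 h1 h2)
      ((tw v0 h1 h2).qt p) = (tw v0 h1 h2).qt (sg p) := fun p => rfl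
  have hinv : ∀ t, Ideal.quotientMap (tw v0 h1 h2).J D7_hom (D7_J v0 h1 h2)
      (Ideal.quotientMap (tw v0 h1 h2).J D7_hom (D7_J v0 h1 h2) t) = t := by
    intro t
    obtain ⟨p, rfl, -⟩ := hatt t
    rw [hqt, hqt, D7_sg_sg]
  have hn : ∀ t, ‖Ideal.quotientMap (tw v0 h1 h2).J D7_hom (D7_J v0 h1 h2) t‖ ≤ ‖t‖ := by
    intro t
    obtain ⟨p, rfl, hp⟩ := hatt t
    rw [hqt, ← hp, ← norm_sg p]
    exact hle _
  refine ⟨Ideal.quotientMap (tw v0 h1 h2).J D7_hom (D7_J v0 h1 h2), map_add _, map_mul _, ?_,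
    hinv, ?_, hqt, ?_⟩
  · intro c t
    obtain ⟨p, rfl, -⟩ := hatt t
    rw [← map_smul, hqt, hqt, D7_smul, map_smul]
  · intro t
    refine le_antisymm (hn t) ?_
    have h4 := hn (Ideal.quotientMap (tw v0 h1 h2).J D7_hom (D7_J v0 h1 h2) t)
    rwa [hinv] at h4
  · intro e he hsym t
    obtain ⟨p, rfl, -⟩ := hatt t
    rw [hqt, Twr.chi_qt, Twr.chi_qt, ev_apply, ev_apply]
    exact D7_evl_sg _ hsym p

end

end Pool.Agent.H5

end

section

open Topology Filter Set
open scoped ENNReal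

set_option autoImplicit false
set_option linter.unusedSectionVars false

namespace Pool.Agent.H5

noncomputable section

theorem E0_summable {ι B : Type} [NormedAddCommGroup B] (t : lp (fun _ : ι => B) 1) :
    Summable fun a => ‖t a‖ := by
  have := t.2.summable (by norm_num)
  simpa using this

theorem E0_norm {ι B : Type} [NormedAddCommGroup B] (t : lp (fun _ : ι => B) 1) :
    ‖t‖ = ∑' a, ‖t a‖ := by
  have := lp.norm_eq_tsum_rpow (p := 1) (by norm_num) t
  simpa using this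

section

variable {Λ B : Type} [LinearOrder Λ] [NormedCommRing B] [NormOneClass B]
  [NormedAlgebra ℂ B] (M : MD Λ B)

/-- the relation vectors -/
def E0_r (a : Λ) : Fm Λ B := M.y a • (gen a : Fm Λ B) - M.s a

theorem E0_smul_gen (a : Λ) (b : B) :
    b • (gen a : Fm Λ B) = lp.single (E := fun _ : ℕ ⊕ Λ => B) 1 (Sum.inr a) b := by
  unfold gen
  rw [← lp.single_smul, smul_eq_mul, mul_one]

theorem E0_norm_y (a : Λ) : ‖M.y a‖ = 1 := by
  have := M.y_iso a 1
  rwa [mul_one, norm_one] at this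

theorem E0_norm_r (a : Λ) : ‖E0_r M a‖ ≤ 2 := by
  unfold E0_r
  rw [E0_smul_gen]
  have h1 : ‖lp.single (E := fun _ : ℕ ⊕ Λ => B) 1 (Sum.inr a) (M.y a)‖ = ‖M.y a‖ :=
    lp.norm_single (by norm_num) _ _
  have h2 := norm_sub_le (lp.single (E := fun _ : ℕ ⊕ Λ => B) 1 (Sum.inr a) (M.y a)) (M.s a)
  rw [h1, E0_norm_y] at h2
  have h3 := M.s_le a
  linarith

theorem E0_norm_smul_le (b : B) (u : Fm Λ B) : ‖b • u‖ ≤ ‖b‖ * ‖u‖ := by
  rw [E0_norm, E0_norm, ← tsum_mul_left]
  refine Summable.tsum_le_tsum (fun i => ?_) (E0_summable (b • u)) ((E0_summable u).mul_left _)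
  have : (b • u : Fm Λ B) i = b * u i := by
    rw [lp.coeFn_smul, Pi.smul_apply, smul_eq_mul]
  rw [this]
  exact norm_mul_le _ _

theorem E0_G_summable [CompleteSpace B] (t : lp (fun _ : Λ => B) 1) :
    Summable fun a => t a • E0_r M a := by
  refine Summable.of_norm_bounded (g := fun a => ‖t a‖ * 2) ((E0_summable t).mul_right 2) fun a => ?_
  exact (E0_norm_smul_le _ _).trans (mul_le_mul_of_nonneg_left (E0_norm_r M a) (norm_nonneg _))

/-- the map `G` -/
def E0_G [CompleteSpace B] : lp (fun _ : Λ => B) 1 →ₗ[B] Fm Λ B where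
  toFun t := ∑' a, t a • E0_r M a
  map_add' t t' := by
    rw [← (E0_G_summable M t).tsum_add (E0_G_summable M t')]
    refine tsum_congr fun a => ?_
    rw [lp.coeFn_add, Pi.add_apply, add_smul]
  map_smul' b t := by
    rw [RingHom.id_apply]
    have hc : Continuous fun u : Fm Λ B => b • u := by
      refine AddMonoidHomClass.continuous_of_bound
        (DistribSMul.toAddMonoidHom (Fm Λ B) b) ‖b‖ (fun u => ?_)
      exact E0_norm_smul_le b u
    have := (E0_G_summable M t).hasSum.map (DistribSMul.toAddMonoidHom (Fm Λ B) b) hc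
    have h2 : HasSum (fun a => b • (t a • E0_r M a)) (b • ∑' a, t a • E0_r M a) := this
    rw [← h2.tsum_eq]
    refine tsum_congr fun a => ?_
    rw [lp.coeFn_smul, Pi.smul_apply, smul_eq_mul, mul_smul]

theorem E0_G_apply [CompleteSpace B] (t : lp (fun _ : Λ => B) 1) :
    E0_G M t = ∑' a, t a • E0_r M a := rfl

/-- the isometric part -/
def E0_iso (t : lp (fun _ : Λ => B) 1) : Fm Λ B :=
  ⟨fun i => Sum.elim (fun _ => 0) (fun a => t a * M.y a) i, by
    show Memℓp _ 1
    rw [memℓp_gen_iff (by norm_num)]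
    simp only [ENNReal.toReal_one, Real.rpow_one]
    have h2 := (Function.Injective.summable_iff (Sum.inr_injective (α := ℕ) (β := Λ))
      (f := fun i : ℕ ⊕ Λ => ‖Sum.elim (fun _ => (0 : B)) (fun a => t a * M.y a) i‖) (by
        intro i hi
        rcases i with n | a
        · simp
        · exact absurd ⟨a, rfl⟩ hi)).mp (by
          have := E0_summable t
          refine this.congr fun a => ?_
          simp only [Function.comp_def, Sum.elim_inr]
          rw [mul_comm, M.y_iso])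
    exact h2⟩

theorem E0_norm_iso (t : lp (fun _ : Λ => B) 1) : ‖E0_iso M t‖ = ‖t‖ := by
  rw [E0_norm, E0_norm]
  rw [← (Sum.inr_injective (α := ℕ) (β := Λ)).tsum_eq (f := fun i => ‖(E0_iso M t) i‖)]
  · refine tsum_congr fun a => ?_
    show ‖t a * M.y a‖ = ‖t a‖
    rw [mul_comm, M.y_iso]
  · intro i hi
    rcases i with n | a
    · exfalso
      apply hi
      show ‖(0 : B)‖ = 0
      exact norm_zero
    · exact ⟨a, rfl⟩

theorem E0_iso_hasSum (t : lp (fun _ : Λ => B) 1) :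
    HasSum (fun a => t a • (M.y a • (gen a : Fm Λ B))) (E0_iso M t) := by
  have hs := lp.hasSum_single (E := fun _ : ℕ ⊕ Λ => B) (p := 1) (by norm_num) (E0_iso M t)
  have h2 := (Function.Injective.hasSum_iff (Sum.inr_injective (α := ℕ) (β := Λ))
    (f := fun i : ℕ ⊕ Λ => lp.single (E := fun _ : ℕ ⊕ Λ => B) 1 i ((E0_iso M t) i)) (by
      intro i hi
      rcases i with n | a
      · show lp.single (E := fun _ : ℕ ⊕ Λ => B) 1 (Sum.inl n) (0 : B) = 0
        exact lp.single_zero _ _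
      · exact absurd ⟨a, rfl⟩ hi)).mpr hs
  have h3 : (fun a => t a • (M.y a • (gen a : Fm Λ B))) =
      (fun i : ℕ ⊕ Λ => lp.single (E := fun _ : ℕ ⊕ Λ => B) 1 i ((E0_iso M t) i)) ∘ Sum.inr := by
    funext a
    rw [smul_smul, E0_smul_gen]
    rfl
  rw [h3]
  exact h2

theorem E0_s_summable [CompleteSpace B] (t : lp (fun _ : Λ => B) 1) :
    Summable fun a => ‖t a • M.s a‖ := by
  refine Summable.of_nonneg_of_le (fun _ => norm_nonneg _) (fun a => ?_)
    ((E0_summable t).mul_right (1 / 2))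
  exact (E0_norm_smul_le _ _).trans (mul_le_mul_of_nonneg_left (M.s_le a) (norm_nonneg _))

theorem E0_lower [CompleteSpace B] (t : lp (fun _ : Λ => B) 1) :
    ‖t‖ ≤ 2 * ‖E0_G M t‖ := by
  have h1 : E0_G M t = E0_iso M t - ∑' a, t a • M.s a := by
    rw [E0_G_apply, ← (E0_iso_hasSum M t).tsum_eq,
      ← (E0_iso_hasSum M t).summable.tsum_sub (E0_s_summable M t).of_norm]
    refine tsum_congr fun a => ?_
    rw [← smul_sub]
    rfl
  have h2 : ‖∑' a, t a • M.s a‖ ≤ ‖t‖ * (1 / 2) := by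
    refine (norm_tsum_le_tsum_norm (E0_s_summable M t)).trans ?_
    rw [E0_norm t, ← tsum_mul_right]
    refine Summable.tsum_le_tsum (fun a => ?_) (E0_s_summable M t) ((E0_summable t).mul_right _)
    exact (E0_norm_smul_le _ _).trans (mul_le_mul_of_nonneg_left (M.s_le a) (norm_nonneg _))
  have h3 := norm_sub_norm_le (E0_iso M t) (∑' a, t a • M.s a)
  rw [← h1, E0_norm_iso] at h3
  linarith

theorem E0_upper [CompleteSpace B] (t : lp (fun _ : Λ => B) 1) :
    ‖E0_G M t‖ ≤ 2 * ‖t‖ := by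
  have hs : Summable fun a => ‖t a • E0_r M a‖ := by
    refine Summable.of_nonneg_of_le (fun _ => norm_nonneg _) (fun a => ?_)
      ((E0_summable t).mul_right 2)
    exact (E0_norm_smul_le _ _).trans (mul_le_mul_of_nonneg_left (E0_norm_r M a) (norm_nonneg _))
  rw [E0_G_apply]
  refine (norm_tsum_le_tsum_norm hs).trans ?_
  rw [E0_norm t, mul_comm, ← tsum_mul_right]
  refine Summable.tsum_le_tsum (fun a => ?_) hs ((E0_summable t).mul_right _)
  exact (E0_norm_smul_le _ _).trans (mul_le_mul_of_nonneg_left (E0_norm_r M a) (norm_nonneg _))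

theorem E0_closedEmb [CompleteSpace B] : IsClosedEmbedding (E0_G M) := by
  have hlip : LipschitzWith 2 (E0_G M) := by
    refine LipschitzWith.of_dist_le_mul fun t t' => ?_
    rw [dist_eq_norm, dist_eq_norm, ← map_sub]
    exact E0_upper M (t - t')
  have hanti : AntilipschitzWith 2 (E0_G M) := by
    refine AntilipschitzWith.of_le_mul_dist fun t t' => ?_
    rw [dist_eq_norm, dist_eq_norm, ← map_sub]
    exact E0_lower M (t - t')
  exact hanti.isClosedEmbedding hlip.uniformContinuous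

/-- the closed submodule of families supported in `D` -/
def E0_S (B : Type) [NormedCommRing B] (D : Set Λ) : Submodule B (lp (fun _ : Λ => B) 1) where
  carrier := {t | ∀ a ∉ D, t a = 0}
  add_mem' := by
    intro t t' h h' a ha
    rw [lp.coeFn_add, Pi.add_apply, h a ha, h' a ha, add_zero]
  zero_mem' := by
    intro a _
    rfl
  smul_mem' := by
    intro b t h a ha
    rw [lp.coeFn_smul, Pi.smul_apply, h a ha, smul_zero]

theorem E0_S_closed (D : Set Λ) : IsClosed ((E0_S B D : Submodule B _) : Set (lp (fun _ : Λ => B) 1)) := by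
  have : ((E0_S B D : Submodule B _) : Set (lp (fun _ : Λ => B) 1)) =
      ⋂ a ∈ Dᶜ, {t : lp (fun _ : Λ => B) 1 | t a = 0} := by
    ext t
    simp [E0_S]
  rw [this]
  refine isClosed_biInter fun a _ => ?_
  have hc : Continuous fun t : lp (fun _ : Λ => B) 1 => t a := by
    refine LipschitzWith.continuous (K := 1) (LipschitzWith.of_dist_le_mul fun t t' => ?_)
    rw [dist_eq_norm, dist_eq_norm, NNReal.coe_one, one_mul]
    have := lp.norm_apply_le_norm (E := fun _ : Λ => B) (p := 1) (by norm_num) (t - t') a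
    rwa [lp.coeFn_sub, Pi.sub_apply] at this
  exact isClosed_eq hc continuous_const

theorem E0_r_mem [CompleteSpace B] (a : Λ) :
    E0_G M (lp.single (E := fun _ : Λ => B) 1 a (1 : B)) = E0_r M a := by
  rw [E0_G_apply, tsum_eq_single a]
  · rw [lp.single_apply_self, one_smul]
  · intro b hb
    rw [lp.single_apply_ne _ _ _ hb, zero_smul]

end

theorem prf_E0 : S_E0 := by
  intro Λ B _ _ _ _ _ M D u
  constructor
  · intro hu
    have hclosed : IsClosed (((E0_S B D).map (E0_G M) : Submodule B (Fm Λ B)) :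
        Set (Fm Λ B)) := by
      rw [Submodule.map_coe]
      exact (E0_closedEmb M).isClosedMap _ (E0_S_closed D)
    have hle : Submodule.span B {u | ∃ a ∈ D, u = M.y a • (gen a : Fm Λ B) - M.s a} ≤
        (E0_S B D).map (E0_G M) := by
      rw [Submodule.span_le]
      rintro _ ⟨a, ha, rfl⟩
      refine ⟨lp.single (E := fun _ : Λ => B) 1 a (1 : B), ?_, E0_r_mem M a⟩
      intro b hb
      have hba : b ≠ a := by
        rintro rfl
        exact hb ha
      exact lp.single_apply_ne _ _ _ hba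
    have hu' : u ∈ ((E0_S B D).map (E0_G M) : Submodule B (Fm Λ B)) := by
      have h1 : (M.K D : Set (Fm Λ B)) ⊆ ((E0_S B D).map (E0_G M) : Submodule B (Fm Λ B)) := by
        unfold MD.K
        rw [Submodule.topologicalClosure_coe]
        exact closure_minimal hle hclosed
      exact h1 hu
    obtain ⟨t, ht, rfl⟩ := hu'
    exact ⟨t, ht, (E0_G_summable M t).hasSum⟩
  · rintro ⟨t, ht, hsum⟩
    unfold MD.K
    rw [← SetLike.mem_coe, Submodule.topologicalClosure_coe]
    refine mem_closure_of_tendsto hsum (Eventually.of_forall fun s => ?_)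
    refine Submodule.sum_mem _ fun a _ => ?_
    by_cases ha : a ∈ D
    · exact Submodule.smul_mem _ _ (Submodule.subset_span ⟨a, ha, rfl⟩)
    · rw [ht a ha, zero_smul]
      exact Submodule.zero_mem _

end

end Pool.Agent.H5

end

section

open Topology Filter Set
open scoped ENNReal ComplexConjugate

set_option autoImplicit false

namespace Pool.Agent.H5

private theorem E1_sum {Λ B : Type} [LinearOrder Λ] [NormedCommRing B] [NormedAlgebra ℂ B]
    (M : MD Λ B) (u : Fm Λ B) (hu : u ∈ M.RF) :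
    ∃ (N : ℕ) (r : Fin N → B) (w : Fin N → Fm Λ B), (∀ k, M.ε (r k) = 0) ∧
      u = ∑ k, r k • w k := by
  refine Submodule.smul_induction_on (p := fun u => ∃ (N : ℕ) (r : Fin N → B)
    (w : Fin N → Fm Λ B), (∀ k, M.ε (r k) = 0) ∧ u = ∑ k, r k • w k) hu ?_ ?_
  · intro r hr w _
    exact ⟨1, fun _ => r, fun _ => w, fun _ => hr, by simp⟩
  · rintro x y ⟨N1, r1, w1, h1, rfl⟩ ⟨N2, r2, w2, h2, rfl⟩
    refine ⟨N1 + N2, Fin.append r1 r2, Fin.append w1 w2, ?_, ?_⟩
    · intro k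
      refine Fin.addCases (fun i => ?_) (fun i => ?_) k
      · rw [Fin.append_left]; exact h1 i
      · rw [Fin.append_right]; exact h2 i
    · rw [Fin.sum_univ_add]
      simp only [Fin.append_left, Fin.append_right]

private theorem E1_coe_sum {Λ B : Type} [NormedCommRing B] {N : ℕ}
    (r : Fin N → B) (w : Fin N → Fm Λ B) (i : ℕ ⊕ Λ) :
    (∑ k, r k • w k : Fm Λ B) i = ∑ k, r k * (w k) i := by
  rw [lp.coeFn_sum, Finset.sum_apply]
  rfl

theorem prf_E1 : S_E1 := by
  intro Λ B _ _ _ _ _ M hRN h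
  have h1 : M.m ∈ M.RF := by
    have hK : M.K ∅ = ⊥ := by
      have : {u : Fm Λ B | ∃ a ∈ (∅ : Set Λ), u = M.y a • gen a - M.s a} = ∅ := by
        ext u; simp
      rw [MD.K, this, Submodule.span_empty]
      ext u
      rw [← SetLike.mem_coe, Submodule.topologicalClosure_coe, Submodule.bot_coe, closure_singleton]
      simp
    rwa [MD.RFK, hK, sup_bot_eq] at h
  obtain ⟨N, r, w, hr, hm⟩ := E1_sum M M.m h1
  obtain ⟨χ, hχ, n, hn⟩ := hRN N r hr
  apply hn
  have h2 : (M.m : Fm Λ B) (Sum.inl n) = ((1 / 2 : ℂ) ^ n) • M.z n := rfl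
  rw [hm, E1_coe_sum] at h2
  have h3 := congrArg χ h2
  rw [map_sum, map_smul] at h3
  have h4 : ∑ k, χ (r k * (w k) (Sum.inl n)) = 0 := by
    refine Finset.sum_eq_zero (fun k _ => ?_)
    rw [map_mul, hχ, zero_mul]
  rw [h4, smul_eq_mul] at h3
  have h5 : ((1 / 2 : ℂ) ^ n) ≠ 0 := pow_ne_zero _ (by norm_num)
  rcases mul_eq_zero.1 h3.symm with h6 | h6
  · exact absurd h6 h5
  · exact h6

end Pool.Agent.H5

end

section

/-!
# E2: the successor step
-/

open Topology Filter Set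
open scoped ENNReal ComplexConjugate

set_option autoImplicit false

namespace Pool.Agent.H5

theorem E2_smul {Λ B : Type} [NormedCommRing B] [NormedAlgebra ℂ B] (c : ℂ) (w : Fm Λ B) :
    (algebraMap ℂ B c) • w = c • w := by
  apply lp.ext
  funext i
  show (algebraMap ℂ B c) * w i = c • w i
  rw [Algebra.smul_def]

theorem prf_E2 (h0 : S_E0) : S_E2 := by
  intro Λ B _ _ _ _ _ M D a h hm
  classical
  unfold MD.RFK at hm
  obtain ⟨u1, hu1, u2, hu2, hsum⟩ := Submodule.mem_sup.1 hm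
  obtain ⟨t, ht, hts⟩ := (h0 Λ B M (insert a D) u2).1 hu2
  let w : Λ → Fm Λ B := fun b => M.y b • (gen b : Fm Λ B) - M.s b
  have hts' : HasSum (fun b => t b • w b) u2 := hts
  let t' : lp (fun _ : Λ => B) 1 := t - lp.single (E := fun _ : Λ => B) 1 a (t a)
  have ht'a : t' a = 0 := by
    show (t - lp.single (E := fun _ : Λ => B) 1 a (t a)) a = 0
    rw [lp.coeFn_sub, Pi.sub_apply]
    simp
  have ht'b : ∀ b, b ≠ a → t' b = t b := by
    intro b hb
    show (t - lp.single (E := fun _ : Λ => B) 1 a (t a)) b = t b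
    rw [lp.coeFn_sub, Pi.sub_apply]
    simp [hb]
  have h3 : HasSum (fun b => t' b • w b) (u2 - t a • w a) := by
    have h4 : HasSum (fun b => if b = a then t a • w a else (0 : Fm Λ B)) (t a • w a) :=
      hasSum_ite_eq a (t a • w a)
    have h5 := hts'.sub h4
    have h6 : (fun b => t' b • w b) =
        fun b => t b • w b - (if b = a then t a • w a else (0 : Fm Λ B)) := by
      funext b
      by_cases hb : b = a
      · subst hb
        rw [if_pos rfl, ht'a, zero_smul, sub_self]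
      · rw [if_neg hb, ht'b b hb, sub_zero]
    rw [h6]
    exact h5
  have h7 : u2 - t a • w a ∈ M.K D := by
    refine (h0 Λ B M D _).2 ⟨t', ?_, h3⟩
    intro b hb
    by_cases hba : b = a
    · rw [hba]
      exact ht'a
    · rw [ht'b b hba]
      refine ht b fun hb2 => ?_
      rcases hb2 with hb2 | hb2
      · exact hba hb2
      · exact hb hb2
  have hRF : ∀ r : B, M.ε r = 0 → ∀ v : Fm Λ B, r • v ∈ M.RF := fun r hr v =>
    Submodule.smul_mem_smul (show r ∈ RingHom.ker M.ε from hr) Submodule.mem_top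
  refine h (-(M.ε (t a))) ?_
  have h8 : M.m - (-(M.ε (t a))) • M.s a =
      (u1 + M.y a • (t a • (gen a : Fm Λ B)) - (t a - algebraMap ℂ B (M.ε (t a))) • M.s a) +
        (u2 - t a • w a) := by
    rw [← hsum]
    show u1 + u2 - (-(M.ε (t a))) • M.s a = _
    rw [sub_smul, E2_smul]
    show _ = (u1 + M.y a • (t a • (gen a : Fm Λ B)) - (t a • M.s a - M.ε (t a) • M.s a)) +
        (u2 - t a • (M.y a • (gen a : Fm Λ B) - M.s a))
    rw [smul_sub, smul_comm (t a) (M.y a), neg_smul]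
    abel
  rw [h8]
  refine Submodule.add_mem_sup ?_ h7
  refine sub_mem (add_mem hu1 (hRF _ (M.y_ε a) _)) (hRF _ ?_ _)
  rw [map_sub]
  simp

end Pool.Agent.H5

end

section

open Topology Filter Set
open scoped ENNReal ComplexConjugate

set_option autoImplicit false
set_option linter.unusedSectionVars false

namespace Pool.Agent.H5

section
variable {Λ B : Type} [LinearOrder Λ] [NormedCommRing B] [NormOneClass B]
  [NormedAlgebra ℂ B] [CompleteSpace B]

omit [NormOneClass B] [NormedAlgebra ℂ B] [CompleteSpace B] [LinearOrder Λ] in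
theorem E3_norm (u : Fm Λ B) : ‖u‖ = ∑' i, ‖u i‖ := by
  have := lp.norm_eq_tsum_rpow (p := 1) (by norm_num) u
  simp only [ENNReal.toReal_one, Real.rpow_one, div_one] at this
  exact this

omit [NormOneClass B] [NormedAlgebra ℂ B] [CompleteSpace B] [LinearOrder Λ] in
theorem E3_sum (u : Fm Λ B) : Summable fun i => ‖u i‖ := by
  have := (lp.memℓp u).summable (by norm_num)
  simp only [ENNReal.toReal_one, Real.rpow_one] at this
  exact this

/-- the semilinear operator defined by a bounded family -/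
noncomputable def E3_op (ρ : B →ₐ[ℂ] B) (T : ℕ ⊕ Λ → Fm Λ B) (u : Fm Λ B) : Fm Λ B :=
  ∑' i, ρ (u i) • T i

omit [NormOneClass B] [LinearOrder Λ] in
theorem E3_summable (ρ : B →ₐ[ℂ] B) (hρ : ∀ t, ‖ρ t‖ ≤ ‖t‖) (T : ℕ ⊕ Λ → Fm Λ B) (C : ℝ)
    (hT : ∀ i, ‖T i‖ ≤ C) (u : Fm Λ B) : Summable fun i => ρ (u i) • T i := by
  refine Summable.of_norm_bounded (g := fun i => ‖u i‖ * C) ((E3_sum u).mul_right C) ?_
  intro i
  refine (norm_smul_le _ _).trans ?_
  exact mul_le_mul (hρ _) (hT i) (norm_nonneg _) (norm_nonneg _)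

omit [NormOneClass B] [LinearOrder Λ] in
theorem E3_op_bound (ρ : B →ₐ[ℂ] B) (hρ : ∀ t, ‖ρ t‖ ≤ ‖t‖) (T : ℕ ⊕ Λ → Fm Λ B) (C : ℝ)
    (hT : ∀ i, ‖T i‖ ≤ C) (u : Fm Λ B) : ‖E3_op ρ T u‖ ≤ C * ‖u‖ := by
  have h := tsum_of_norm_bounded (f := fun i => ρ (u i) • T i) (g := fun i => ‖u i‖ * C)
    ((E3_sum u).mul_right C).hasSum (by
      intro i
      refine (norm_smul_le _ _).trans ?_
      exact mul_le_mul (hρ _) (hT i) (norm_nonneg _) (norm_nonneg _))
  rw [tsum_mul_right, ← E3_norm, mul_comm] at h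
  exact h

omit [NormOneClass B] [LinearOrder Λ] in
theorem E3_op_add (ρ : B →ₐ[ℂ] B) (hρ : ∀ t, ‖ρ t‖ ≤ ‖t‖) (T : ℕ ⊕ Λ → Fm Λ B) (C : ℝ)
    (hT : ∀ i, ‖T i‖ ≤ C) (u v : Fm Λ B) : E3_op ρ T (u + v) = E3_op ρ T u + E3_op ρ T v := by
  unfold E3_op
  rw [← Summable.tsum_add (E3_summable ρ hρ T C hT u) (E3_summable ρ hρ T C hT v)]
  refine tsum_congr fun i => ?_
  rw [lp.coeFn_add, Pi.add_apply, map_add, add_smul]

omit [NormOneClass B] [LinearOrder Λ] in
theorem E3_op_smul (ρ : B →ₐ[ℂ] B) (hρ : ∀ t, ‖ρ t‖ ≤ ‖t‖) (T : ℕ ⊕ Λ → Fm Λ B) (C : ℝ)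
    (hT : ∀ i, ‖T i‖ ≤ C) (b : B) (u : Fm Λ B) : E3_op ρ T (b • u) = ρ b • E3_op ρ T u := by
  unfold E3_op
  rw [← Summable.tsum_const_smul (ρ b) (E3_summable ρ hρ T C hT u)]
  refine tsum_congr fun i => ?_
  rw [lp.coeFn_smul, Pi.smul_apply, smul_eq_mul, map_mul, mul_smul]

omit [NormOneClass B] [CompleteSpace B] in
theorem E3_smul_single (b c : B) (i : ℕ ⊕ Λ) :
    b • (lp.single (E := fun _ : ℕ ⊕ Λ => B) 1 i c : Fm Λ B)
      = lp.single (E := fun _ : ℕ ⊕ Λ => B) 1 i (b * c) := by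
  rw [← lp.single_smul, smul_eq_mul]

omit [NormOneClass B] in
/-- vectors fixed by the operator -/
theorem E3_op_fix (ρ : B →ₐ[ℂ] B) (T : ℕ ⊕ Λ → Fm Λ B) (u : Fm Λ B)
    (h : ∀ i, ρ (u i) • T i = lp.single (E := fun _ : ℕ ⊕ Λ => B) 1 i (u i)) :
    E3_op ρ T u = u := by
  unfold E3_op
  rw [tsum_congr h]
  exact (lp.hasSum_single (by norm_num) u).tsum_eq

omit [NormOneClass B] [CompleteSpace B] in
theorem E3_op_single (ρ : B →ₐ[ℂ] B) (T : ℕ ⊕ Λ → Fm Λ B) (i : ℕ ⊕ Λ) :
    E3_op ρ T (lp.single (E := fun _ : ℕ ⊕ Λ => B) 1 i (1 : B)) = T i := by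
  unfold E3_op
  rw [tsum_eq_single i]
  · rw [lp.single_apply_self, map_one, one_smul]
  · intro j hj
    rw [lp.single_apply_ne _ _ _ hj, map_zero, zero_smul]

/-- the images of the generators below `b` -/
noncomputable def E3_Tb (b : Λ) (IH : (c : Λ) → c < b → Fm Λ B) : ℕ ⊕ Λ → Fm Λ B
  | Sum.inl n => gw n
  | Sum.inr c => if h : c < b then IH c h else 0

variable [WellFoundedLT Λ]

open Classical in
/-- the images of the generators -/
noncomputable def E3_th (M : MD Λ B) (g : Λ) (ρ : B →ₐ[ℂ] B) (x : Λ → ℂ) (A : Set Λ) :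
    Λ → Fm Λ B :=
  WellFounded.fix (wellFounded_lt : WellFounded (fun a b : Λ => a < b)) (fun b IH =>
    if b < g then gen b else if b ∈ A then
      algebraMap ℂ B (x b)⁻¹ • E3_op ρ (E3_Tb b IH) (M.s b) else 0)

open Classical in
omit [NormOneClass B] [CompleteSpace B] in
theorem E3_th_eq (M : MD Λ B) (g : Λ) (ρ : B →ₐ[ℂ] B) (x : Λ → ℂ) (A : Set Λ) (b : Λ) :
    E3_th M g ρ x A b = if b < g then gen b else if b ∈ A then
      algebraMap ℂ B (x b)⁻¹ • E3_op ρ (E3_Tb b (fun c _ => E3_th M g ρ x A c)) (M.s b) else 0 := by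
  unfold E3_th
  rw [WellFounded.fix_eq]

omit [CompleteSpace B] [NormedAlgebra ℂ B] [WellFoundedLT Λ] in
theorem E3_norm_gen (a : Λ) : ‖(gen a : Fm Λ B)‖ = 1 := by
  unfold gen
  rw [lp.norm_single (by norm_num), norm_one]

omit [CompleteSpace B] [NormedAlgebra ℂ B] [WellFoundedLT Λ] in
theorem E3_norm_gw (n : ℕ) : ‖(gw n : Fm Λ B)‖ = 1 := by
  unfold gw
  rw [lp.norm_single (by norm_num), norm_one]

end

theorem prf_E3 : S_E3 := by
  classical
  intro Λ B _ _ _ _ _ _ M g ρ x A hρ hBl hz hy hyg hx hAg hA0 hfin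
  -- the exceptional letters
  set E : Finset Λ := hfin.toFinset with hE
  have hEmem : ∀ a, a ∈ E ↔ a ∈ A ∧ ‖x a‖ < 1 := fun a => by
    rw [hE, Set.Finite.mem_toFinset]; rfl
  set K : ℝ := 1 + ∑ a ∈ E, ‖x a‖⁻¹ with hK
  have hK1 : 1 ≤ K := by
    rw [hK]
    have : 0 ≤ ∑ a ∈ E, ‖x a‖⁻¹ := Finset.sum_nonneg fun a _ => by positivity
    linarith
  have hKE : ∀ a ∈ E, ‖x a‖⁻¹ ≤ K := by
    intro a ha
    have : ‖x a‖⁻¹ ≤ ∑ a ∈ E, ‖x a‖⁻¹ :=
      Finset.single_le_sum (f := fun a => ‖x a‖⁻¹) (fun a _ => by positivity) ha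
    linarith
  set th := E3_th M g ρ x A with hth
  have hth_eq : ∀ b, th b = if b < g then gen b else if b ∈ A then
      algebraMap ℂ B (x b)⁻¹ • E3_op ρ (E3_Tb b (fun c _ => th c)) (M.s b) else 0 := by
    intro b
    exact E3_th_eq M g ρ x A b
  have hbound : ∀ b, ‖th b‖ ≤ K ^ (E.filter (fun a => a ≤ b)).card := by
    intro b
    induction b using WellFoundedLT.induction with
    | _ b ih =>
      rw [hth_eq b]
      split_ifs with h1 h2
      · rw [E3_norm_gen]; exact one_le_pow₀ hK1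
      · have hT : ∀ i, ‖E3_Tb (B := B) b (fun c _ => th c) i‖
            ≤ K ^ (E.filter (fun a => a < b)).card := by
          rintro (n | c)
          · show ‖(gw n : Fm Λ B)‖ ≤ _
            rw [E3_norm_gw]; exact one_le_pow₀ hK1
          · show ‖(if h : c < b then th c else 0 : Fm Λ B)‖ ≤ _
            split_ifs with hc
            · refine (ih c hc).trans (pow_le_pow_right₀ hK1 (Finset.card_le_card ?_))
              intro a ha
              rw [Finset.mem_filter] at ha ⊢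
              exact ⟨ha.1, lt_of_le_of_lt ha.2 hc⟩
            · rw [norm_zero]; positivity
        have h3 := E3_op_bound ρ hρ _ _ hT (M.s b)
        have h4 : ‖E3_op ρ (E3_Tb b (fun c _ => th c)) (M.s b)‖
            ≤ K ^ (E.filter (fun a => a < b)).card := by
          refine h3.trans ?_
          have h5 := M.s_le b
          have h6 : (0:ℝ) ≤ K ^ (E.filter (fun a => a < b)).card := by positivity
          have h7 : ‖M.s b‖ ≤ 1 := h5.trans (by norm_num)
          calc K ^ (E.filter (fun a => a < b)).card * ‖M.s b‖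
              ≤ K ^ (E.filter (fun a => a < b)).card * 1 := mul_le_mul_of_nonneg_left h7 h6
            _ = _ := mul_one _
        refine (norm_smul_le _ _).trans ?_
        rw [norm_algebraMap', norm_inv]
        by_cases hxb : ‖x b‖ < 1
        · have hbE : b ∈ E := (hEmem b).mpr ⟨h2, hxb⟩
          have hcard : (E.filter (fun a => a ≤ b)).card = (E.filter (fun a => a < b)).card + 1 := by
            have : E.filter (fun a => a ≤ b) = insert b (E.filter (fun a => a < b)) := by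
              ext a
              rw [Finset.mem_insert, Finset.mem_filter, Finset.mem_filter]
              constructor
              · rintro ⟨ha, hab⟩
                rcases hab.eq_or_lt with h | h
                · left; exact h
                · right; exact ⟨ha, h⟩
              · rintro (h | ⟨ha, hab⟩)
                · rw [h]; exact ⟨hbE, le_refl _⟩
                · exact ⟨ha, hab.le⟩
            rw [this, Finset.card_insert_of_notMem]
            intro hmem
            rw [Finset.mem_filter] at hmem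
            exact lt_irrefl _ hmem.2
          rw [hcard, pow_succ, mul_comm]
          exact mul_le_mul h4 (hKE b hbE) (by positivity) (by positivity)
        · have hx1 : ‖x b‖ = 1 := le_antisymm (hx b) (not_lt.mp hxb)
          rw [hx1, inv_one, one_mul]
          refine h4.trans (pow_le_pow_right₀ hK1 (Finset.card_le_card ?_))
          intro a ha
          rw [Finset.mem_filter] at ha ⊢
          exact ⟨ha.1, ha.2.le⟩
      · rw [norm_zero]; positivity
  set T : ℕ ⊕ Λ → Fm Λ B := fun i => Sum.elim (fun n => gw n) th i with hT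
  set C : ℝ := K ^ E.card with hC
  have hTC : ∀ i, ‖T i‖ ≤ C := by
    rintro (n | c)
    · show ‖(gw n : Fm Λ B)‖ ≤ _
      rw [E3_norm_gw]; exact one_le_pow₀ hK1
    · show ‖th c‖ ≤ _
      exact (hbound c).trans (pow_le_pow_right₀ hK1 (Finset.card_filter_le _ _))
  set Θ : Fm Λ B →+ Fm Λ B := AddMonoidHom.mk' (E3_op ρ T) (E3_op_add ρ hρ T C hTC) with hΘ
  have hΘa : ∀ u, Θ u = E3_op ρ T u := fun u => rfl
  have hΘsmul : ∀ (b : B) (u : Fm Λ B), Θ (b • u) = ρ b • Θ u := by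
    intro b u
    rw [hΘa, hΘa]
    exact E3_op_smul ρ hρ T C hTC b u
  have hΘgen : ∀ a, Θ (gen a) = th a := by
    intro a
    rw [hΘa]
    exact E3_op_single ρ T (Sum.inr a)
  refine ⟨Θ, ?_, hΘsmul, ?_, ?_, ?_⟩
  · exact AddMonoidHomClass.continuous_of_bound Θ C (fun u => E3_op_bound ρ hρ T C hTC u)
  · rw [hΘa]
    refine E3_op_fix ρ T M.m ?_
    rintro (n | a)
    · have h1 : M.m (Sum.inl n) = ((1 / 2 : ℂ) ^ n) • M.z n := rfl
      rw [h1, map_smul, hz n]
      show _ • (gw n : Fm Λ B) = _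
      unfold gw
      rw [E3_smul_single, mul_one]
    · have h1 : M.m (Sum.inr a) = 0 := rfl
      rw [h1, map_zero, zero_smul, lp.single_zero]
  · intro a hag
    have hsfix : Θ (M.s a) = M.s a := by
      rw [hΘa]
      refine E3_op_fix ρ T (M.s a) ?_
      intro i
      have h1 : ρ (M.s a i) = M.s a i := hBl _ (M.Bl_mono a g hag.le (M.s_Bl a i))
      rw [h1]
      rcases i with n | b
      · show _ • (gw n : Fm Λ B) = _
        unfold gw
        rw [E3_smul_single, mul_one]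
      · by_cases hab : a ≤ b
        · rw [M.s_low a b hab, zero_smul, lp.single_zero]
        · have hbg : b < g := lt_trans (not_le.mp hab) hag
          show _ • th b = _
          rw [hth_eq b, if_pos hbg]
          unfold gen
          rw [E3_smul_single, mul_one]
    rw [map_sub, hΘsmul, hΘgen, hsfix, hy a hag, hth_eq a, if_pos hag]
  · intro a haA
    have hga : g ≤ a := hAg a haA
    have h1 : Θ (M.s a) = E3_op ρ (E3_Tb a (fun c _ => th c)) (M.s a) := by
      rw [hΘa]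
      unfold E3_op
      refine tsum_congr fun i => ?_
      rcases i with n | c
      · rfl
      · by_cases hc : c < a
        · have : E3_Tb (B := B) a (fun c _ => th c) (Sum.inr c) = th c := by
            show (if h : c < a then th c else 0 : Fm Λ B) = th c
            rw [dif_pos hc]
          rw [this]
          rfl
        · rw [M.s_low a c (not_lt.mp hc), map_zero, zero_smul, zero_smul]
    rw [map_sub, hΘsmul, hΘgen, h1, hyg a hga, hth_eq a, if_neg (not_lt.mpr hga), if_pos haA,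
      smul_smul, ← map_mul, mul_inv_cancel₀ (hA0 a haA), map_one, one_smul, sub_self]

end Pool.Agent.H5

end

section

open Topology Filter Set
open scoped ENNReal ComplexConjugate

set_option autoImplicit false
set_option linter.unusedSectionVars false

namespace Pool.Agent.H5

section
variable {Λ B : Type} [LinearOrder Λ] [NormedCommRing B] [NormOneClass B]
  [NormedAlgebra ℂ B] [CompleteSpace B]

/-- elements of `R F` are finite sums of products -/
theorem E4_RF (M : MD Λ B) (u : Fm Λ B) (hu : u ∈ M.RF) :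
    ∃ (N : ℕ) (r : Fin N → B) (w : Fin N → Fm Λ B), (∀ k, M.ε (r k) = 0) ∧
      u = ∑ k, r k • w k := by
  unfold MD.RF at hu
  induction hu using Submodule.smul_induction_on' with
  | smul r hr n hn =>
    refine ⟨1, fun _ => r, fun _ => n, fun _ => hr, ?_⟩
    rw [Fin.sum_univ_one]
  | add x hx y hy ihx ihy =>
    obtain ⟨N1, r1, w1, h1, e1⟩ := ihx
    obtain ⟨N2, r2, w2, h2, e2⟩ := ihy
    refine ⟨N1 + N2, Fin.append r1 r2, Fin.append w1 w2, ?_, ?_⟩
    · intro k
      refine Fin.addCases (fun i => ?_) (fun i => ?_) k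
      · rw [Fin.append_left]; exact h1 i
      · rw [Fin.append_right]; exact h2 i
    · rw [Fin.sum_univ_add]
      simp only [Fin.append_left, Fin.append_right]
      rw [e1, e2]

theorem E4_smul_mem (M : MD Λ B) (r : B) (hr : M.ε r = 0) (w : Fm Λ B) : r • w ∈ M.RF :=
  Submodule.smul_mem_smul hr Submodule.mem_top

theorem E4_K_closed (M : MD Λ B) (D : Set Λ) : IsClosed ((M.K D : Submodule B (Fm Λ B)) :
    Set (Fm Λ B)) := Submodule.isClosed_topologicalClosure _

theorem E4_K_mem (M : MD Λ B) (D : Set Λ) (a : Λ) (ha : a ∈ D) :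
    M.y a • (gen a : Fm Λ B) - M.s a ∈ M.K D :=
  Submodule.le_topologicalClosure _ (Submodule.subset_span ⟨a, ha, rfl⟩)

end

theorem prf_E4 (h0 : S_E0) (h3 : S_E3) : S_E4 := by
  classical
  intro Λ B _ _ _ _ _ _ M hRN lam hne hlim D hD hm
  obtain ⟨u1, hu1, u2, hu2, hsum⟩ := Submodule.mem_sup.mp hm
  obtain ⟨N, r, w, hr, hu1e⟩ := E4_RF M u1 hu1
  obtain ⟨t, htD, hts⟩ := (h0 Λ B M D u2).mp hu2
  set L₀ : Set Λ := {a | t a ≠ 0} with hL₀
  have hsumm : Summable fun a => ‖t a‖ := by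
    have := (lp.memℓp t).summable (by norm_num)
    simp only [ENNReal.toReal_one, Real.rpow_one] at this
    exact this
  have hLc : L₀.Countable := by
    have := hsumm.countable_support
    refine this.mono ?_
    intro a ha
    rw [Function.mem_support]
    exact norm_ne_zero_iff.mpr ha
  obtain ⟨g, hg, ρ, x, hρ, hBl, hz, hy, hyg, hx, hx0, hfin, hε⟩ :=
    hRN lam hne hlim L₀ hLc N r hr
  have hL₀D : ∀ a ∈ L₀, a ∈ D := by
    intro a ha
    by_contra hcon
    exact ha (htD a hcon)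
  set A : Set Λ := {a | a ∈ L₀ ∧ g ≤ a} with hA
  obtain ⟨Θ, hΘc, hΘs, hΘm, hΘlt, hΘA⟩ := h3 Λ B M g ρ x A hρ hBl hz hy hyg hx
    (fun a ha => ha.2) (fun a ha => hx0 a ha.1 ha.2 (hD a (hL₀D a ha.1)))
    (hfin.subset (fun a ha => ⟨ha.1.2, hD a (hL₀D a ha.1.1), ha.2⟩))
  refine ⟨g, hg, ?_⟩
  have hm2 : M.m = Θ u1 + Θ u2 := by
    rw [← map_add, hsum, hΘm]
  rw [hm2]
  refine Submodule.add_mem_sup ?_ ?_
  · rw [hu1e, map_sum]
    refine Submodule.sum_mem _ fun k _ => ?_
    rw [hΘs]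
    exact E4_smul_mem M _ (hε k) _
  · have h1 : HasSum (fun a => Θ (t a • (M.y a • (gen a : Fm Λ B) - M.s a))) (Θ u2) :=
      hts.map Θ hΘc
    refine (E4_K_closed M (D ∩ {a | a < g})).mem_of_tendsto h1 (Eventually.of_forall fun S => ?_)
    refine Submodule.sum_mem _ fun a _ => ?_
    rw [hΘs]
    by_cases hta : t a = 0
    · rw [hta, map_zero, zero_smul]
      exact Submodule.zero_mem _
    · by_cases hag : a < g
      · rw [hΘlt a hag]
        exact Submodule.smul_mem _ _ (E4_K_mem M _ a ⟨hL₀D a hta, hag⟩)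
      · rw [hΘA a ⟨hta, not_lt.mp hag⟩, smul_zero]
        exact Submodule.zero_mem _

end Pool.Agent.H5

end
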