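import Mathlib

/-! Bundle of small proof modules (one section per former module). -/

section

/-!
# The infinite chain lemma

Perturbation of finite chains along an open map, and completeness.
-/

namespace Pool.Agent.Work.MP_10b086_an

namespace Chain

section

variable {P Z : Type*} [MetricSpace P] [NormedAddCommGroup Z] [NormedSpace ℝ Z]

/-- A chain of length `K`. -/
def Ch (Q : Set P) (Θ Ψ : P → Z) (K : ℕ) (c : ℕ → ℝ) (v : ℕ → Z) (s : ℕ → P) : Prop :=
  (∀ j ≤ K, s j ∈ Q) ∧ (∀ j < K, Θ (s j) = v j + c j • Ψ (s (j + 1))) ∧ Θ (s K) = v K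

theorem perturb (Q : Set P) (Θ Ψ : P → Z) (hΨ : Continuous Ψ)
    (hopen : ∀ q ∈ Q, ∀ ε > 0, ∃ ρ > 0, ∀ z, ‖z - Θ q‖ < ρ → ∃ q' ∈ Q, dist q' q < ε ∧ Θ q' = z)
    (K : ℕ) : ∀ (c : ℕ → ℝ) (v : ℕ → Z) (s : ℕ → P), Ch Q Θ Ψ K c v s → ∀ ε > 0,
      ∃ δ > 0, ∀ w, ‖w - v K‖ < δ → ∃ s', Ch Q Θ Ψ K c (Function.update v K w) s' ∧
        ∀ j ≤ K, dist (s' j) (s j) < ε := by
  induction K with
  | zero =>
    intro c v s h ε hε
    obtain ⟨ρ, hρ, h1⟩ := hopen (s 0) (h.1 0 le_rfl) ε hε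
    refine ⟨ρ, hρ, fun w hw => ?_⟩
    rw [← h.2.2] at hw
    obtain ⟨q', hq', hd, hw'⟩ := h1 w hw
    refine ⟨fun _ => q', ⟨fun _ _ => hq', fun j hj => absurd hj (Nat.not_lt_zero j), ?_⟩, ?_⟩
    · simp [hw']
    · intro j hj
      obtain rfl := Nat.le_zero.1 hj
      exact hd
  | succ K ih =>
    intro c v s h ε hε
    obtain ⟨ρ, hρ, h1⟩ := hopen (s 0) (h.1 0 (Nat.zero_le _)) ε hε
    have hcont : Continuous fun p => c 0 • Ψ p := hΨ.const_smul (c 0)
    obtain ⟨ε₁, hε₁, h2⟩ := Metric.continuous_iff.1 hcont (s 1) ρ hρ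
    have hsh : Ch Q Θ Ψ K (fun j => c (j + 1)) (fun j => v (j + 1)) (fun j => s (j + 1)) :=
      ⟨fun j hj => h.1 (j + 1) (by omega), fun j hj => h.2.1 (j + 1) (by omega), h.2.2⟩
    obtain ⟨δ, hδ, h3⟩ := ih _ _ _ hsh (min ε ε₁) (lt_min hε hε₁)
    refine ⟨δ, hδ, fun w hw => ?_⟩
    obtain ⟨s'', hs'', hd⟩ := h3 w hw
    have h4 : ‖(v 0 + c 0 • Ψ (s'' 0)) - Θ (s 0)‖ < ρ := by
      rw [h.2.1 0 (Nat.succ_pos K), add_sub_add_left_eq_sub, ← dist_eq_norm]
      exact h2 _ ((hd 0 (Nat.zero_le _)).trans_le (min_le_right _ _))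
    obtain ⟨q', hq', hdq, hΘ⟩ := h1 _ h4
    refine ⟨fun j => Nat.casesOn j q' s'', ⟨?_, ?_, ?_⟩, ?_⟩
    · intro j hj
      cases j with
      | zero => exact hq'
      | succ j => exact hs''.1 j (by omega)
    · intro j hj
      cases j with
      | zero =>
        show Θ q' = _ + c 0 • Ψ (s'' 0)
        rw [Function.update_of_ne (by omega), hΘ]
      | succ j =>
        have h5 := hs''.2.1 j (by omega)
        show Θ (s'' j) = _ + c (j + 1) • Ψ (s'' (j + 1))
        rw [h5, Function.update_of_ne (by omega), Function.update_of_ne (by omega)]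
    · have h5 := hs''.2.2
      show Θ (s'' K) = _
      rw [h5, Function.update_self, Function.update_self]
    · intro j hj
      cases j with
      | zero => exact hdq
      | succ j => exact (hd j (by omega)).trans_le (min_le_left _ _)

theorem seq_of_step {X : Type*} (Inv : ℕ → X → Prop) (R : ℕ → X → X → Prop)
    (h0 : ∃ x, Inv 0 x) (hs : ∀ K x, Inv K x → ∃ y, Inv (K + 1) y ∧ R K x y) :
    ∃ f : ℕ → X, ∀ K, Inv K (f K) ∧ R K (f K) (f (K + 1)) := by
  obtain ⟨x0, hx0⟩ := h0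
  choose! g hg1 hg2 using hs
  let f : ℕ → X := fun n => Nat.rec x0 (fun K x => g K x) n
  have hf : ∀ K, Inv K (f K) := by
    intro K
    induction K with
    | zero => exact hx0
    | succ K ih => exact hg1 K (f K) ih
  exact ⟨f, fun K => ⟨hf K, hg2 K (f K) (hf K)⟩⟩

end

end Chain

open Chain in
theorem chain_false {P Z : Type*} [MetricSpace P] [CompleteSpace P] [NormedAddCommGroup Z] [NormedSpace ℝ Z]
    (Q : Set P) (Θ Ψ : P → Z) (hΘ : Continuous Θ) (hΨ : Continuous Ψ) (F : Z →ₗ[ℝ] ℝ)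
    (hpos : ∀ p, 0 ≤ F (Ψ p)) (hle : ∀ p, F (Θ p) ≤ F (Ψ p))
    (hopen : ∀ q ∈ Q, ∀ ε > 0, ∃ ρ > 0, ∀ z, ‖z - Θ q‖ < ρ → ∃ q' ∈ Q, dist q' q < ε ∧ Θ q' = z)
    (V : Set Z) (M : ℝ) (hV : ∀ v ∈ V, 0 ≤ F v ∧ ∃ q ∈ Q, Θ q = v ∧ ‖Ψ q‖ ≤ M)
    (hunb : ∀ K : ℝ, ∃ v ∈ V, K ≤ F v) : False := by
  classical
  let Inv : ℕ → (ℕ → ℝ) × (ℕ → Z) × (ℕ → P) → Prop := fun K x =>
    Ch Q Θ Ψ K x.1 x.2.1 x.2.2 ∧ (∀ j < K, 0 < x.1 j) ∧ 0 ≤ F (x.2.1 K) ∧
      (K : ℝ) ≤ (∏ j ∈ Finset.range K, x.1 j) * F (x.2.1 K)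
  let R : ℕ → (ℕ → ℝ) × (ℕ → Z) × (ℕ → P) → (ℕ → ℝ) × (ℕ → Z) × (ℕ → P) → Prop :=
    fun K x y => (∀ j < K, y.1 j = x.1 j) ∧ (∀ j ≤ K, y.2.1 j = x.2.1 j) ∧
      (∀ j ≤ K, dist (x.2.2 j) (y.2.2 j) ≤ (1 / 2 : ℝ) ^ K)
  have h0 : ∃ x, Inv 0 x := by
    obtain ⟨v, hv, -⟩ := hunb 0
    obtain ⟨hv0, q, hq, hqv, -⟩ := hV v hv
    refine ⟨(fun _ => 1, fun _ => v, fun _ => q), ⟨fun _ _ => hq,
      fun j hj => absurd hj (Nat.not_lt_zero j), hqv⟩, fun j hj => absurd hj (Nat.not_lt_zero j),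
      hv0, ?_⟩
    simpa using hv0
  have hs : ∀ K x, Inv K x → ∃ y, Inv (K + 1) y ∧ R K x y := by
    rintro K ⟨c, v, s⟩ ⟨hch, hc, hv0, hgr⟩
    obtain ⟨δ, hδ, h1⟩ := perturb Q Θ Ψ hΨ hopen K c v s hch ((1 / 2 : ℝ) ^ K) (by positivity)
    set γ : ℝ := δ / (|M| + 1) / 2 with hγ
    have hγ0 : 0 < γ := by positivity
    have hprod : 0 < ∏ j ∈ Finset.range K, c j := Finset.prod_pos fun j hj =>
      hc j (Finset.mem_range.1 hj)
    obtain ⟨v', hv', hv'F⟩ := hunb (((K : ℝ) + 1) / ((∏ j ∈ Finset.range K, c j) * γ))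
    obtain ⟨hv'0, q, hq, hqv, hqM⟩ := hV v' hv'
    have hw : ‖(v K + γ • Ψ q) - v K‖ < δ := by
      rw [add_sub_cancel_left, norm_smul, Real.norm_eq_abs, abs_of_pos hγ0]
      have h2 : ‖Ψ q‖ ≤ |M| + 1 := hqM.trans ((le_abs_self M).trans (by linarith))
      calc γ * ‖Ψ q‖ ≤ γ * (|M| + 1) := mul_le_mul_of_nonneg_left h2 hγ0.le
        _ = δ / 2 := by rw [hγ]; field_simp
        _ < δ := by linarith
    obtain ⟨s', hs', hd⟩ := h1 _ hw
    refine ⟨(Function.update c K γ, Function.update v (K + 1) v', Function.update s' (K + 1) q),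
      ⟨⟨?_, ?_, ?_⟩, ?_, ?_, ?_⟩, ?_, ?_, ?_⟩
    · intro j hj
      rcases Nat.lt_or_ge K j with h | h
      · obtain rfl : j = K + 1 := by omega
        simpa using hq
      · simp only [Function.update_of_ne (show j ≠ K + 1 by omega)]
        exact hs'.1 j h
    · intro j hj
      rcases Nat.lt_or_ge j K with h | h
      · have h3 := hs'.2.1 j h
        simp only [Function.update_of_ne (show j ≠ K by omega),
          Function.update_of_ne (show j ≠ K + 1 by omega),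
          Function.update_of_ne (show j + 1 ≠ K + 1 by omega)] at h3 ⊢
        exact h3
      · obtain rfl : j = K := by omega
        have h3 := hs'.2.2
        simp only [Function.update_self,
          Function.update_of_ne (show j ≠ j + 1 by omega)] at h3 ⊢
        exact h3
    · simpa using hqv
    · intro j hj
      rcases Nat.lt_or_ge j K with h | h
      · simp only [Function.update_of_ne (show j ≠ K by omega)]
        exact hc j h
      · obtain rfl : j = K := by omega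
        simpa using hγ0
    · simpa using hv'0
    · rw [Finset.prod_range_succ]
      have h4 : ∏ j ∈ Finset.range K, Function.update c K γ j = ∏ j ∈ Finset.range K, c j :=
        Finset.prod_congr rfl fun j hj => Function.update_of_ne (Finset.mem_range.1 hj).ne _ _
      simp only [h4, Function.update_self]
      rw [div_le_iff₀ (by positivity)] at hv'F
      push_cast
      linarith
    · intro j hj
      simp only [Function.update_of_ne (show j ≠ K by omega)]
    · intro j hj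
      simp only [Function.update_of_ne (show j ≠ K + 1 by omega)]
    · intro j hj
      simp only [Function.update_of_ne (show j ≠ K + 1 by omega)]
      rw [dist_comm]
      exact (hd j hj).le
  obtain ⟨f, hf⟩ := seq_of_step Inv R h0 hs
  set c : ℕ → ℝ := fun j => (f (j + 1)).1 j with hcdef
  set v : ℕ → Z := fun j => (f j).2.1 j with hvdef
  have hcst : ∀ j K, j < K → (f K).1 j = c j := by
    intro j K hK
    induction K, hK using Nat.le_induction with
    | base => rfl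
    | succ K hK ih => rw [(hf K).2.1 j (by omega), ih]
  have hvst : ∀ j K, j ≤ K → (f K).2.1 j = v j := by
    intro j K hK
    induction K, hK using Nat.le_induction with
    | base => rfl
    | succ K hK ih => rw [(hf K).2.2.1 j (by omega), ih]
  have hlim : ∀ j, ∃ p, Filter.Tendsto (fun K => (f K).2.2 j) Filter.atTop (nhds p) := by
    intro j
    have hcs : CauchySeq fun n => (f (n + j)).2.2 j := by
      refine cauchySeq_of_le_geometric (1 / 2) 1 (by norm_num) fun n => ?_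
      have h5 := (hf (n + j)).2.2.2 j (by omega)
      rw [show n + 1 + j = n + j + 1 by ring]
      refine h5.trans ?_
      rw [one_mul]
      exact pow_le_pow_of_le_one (by norm_num) (by norm_num) (by omega)
    obtain ⟨p, hp⟩ := cauchySeq_tendsto_of_complete hcs
    exact ⟨p, (Filter.tendsto_add_atTop_iff_nat j).1 hp⟩
  choose s hs using hlim
  have hrel : ∀ j, Θ (s j) = v j + c j • Ψ (s (j + 1)) := by
    intro j
    have h6 : Filter.Tendsto (fun K => Θ ((f K).2.2 j)) Filter.atTop (nhds (Θ (s j))) :=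
      (hΘ.tendsto _).comp (hs j)
    have h7 : Filter.Tendsto (fun K => v j + c j • Ψ ((f K).2.2 (j + 1))) Filter.atTop
        (nhds (v j + c j • Ψ (s (j + 1)))) :=
      (((hΨ.tendsto _).comp (hs (j + 1))).const_smul (c j)).const_add (v j)
    refine tendsto_nhds_unique (h6.congr' ?_) h7
    filter_upwards [Filter.eventually_gt_atTop j] with K hK
    rw [(hf K).1.1.2.1 j hK, hvst j K hK.le, hcst j K hK]
  have hcpos : ∀ j, 0 < c j := fun j => (hf (j + 1)).1.2.1 j (Nat.lt_succ_self j)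
  have hvpos : ∀ j, 0 ≤ F (v j) := fun j => (hf j).1.2.2.1
  have hgr : ∀ K : ℕ, (K : ℝ) ≤ (∏ j ∈ Finset.range K, c j) * F (v K) := by
    intro K
    have h8 := (hf K).1.2.2.2
    have h9 : ∏ j ∈ Finset.range K, (f K).1 j = ∏ j ∈ Finset.range K, c j :=
      Finset.prod_congr rfl fun j hj => hcst j K (Finset.mem_range.1 hj)
    rwa [h9] at h8
  have hstep : ∀ j, F (v j) + c j * F (Ψ (s (j + 1))) ≤ F (Ψ (s j)) := by
    intro j
    have h10 := hle (s j)
    rwa [hrel j, map_add, map_smul, smul_eq_mul] at h10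
  have hprodle : ∀ K : ℕ, (∏ j ∈ Finset.range K, c j) * F (Ψ (s K)) ≤ F (Ψ (s 0)) := by
    intro K
    induction K with
    | zero => simp
    | succ K ih =>
      have hp : 0 < ∏ j ∈ Finset.range K, c j := Finset.prod_pos fun j _ => hcpos j
      rw [Finset.prod_range_succ, mul_assoc]
      have h11 : c K * F (Ψ (s (K + 1))) ≤ F (Ψ (s K)) := by
        have := hstep K
        have := hvpos K
        linarith
      exact (mul_le_mul_of_nonneg_left h11 hp.le).trans ih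
  obtain ⟨K, hK⟩ := exists_nat_gt (F (Ψ (s 0)))
  have hp : 0 < ∏ j ∈ Finset.range K, c j := Finset.prod_pos fun j _ => hcpos j
  have h12 : F (v K) ≤ F (Ψ (s K)) := by
    have h13 := hstep K
    have h14 := mul_nonneg (hcpos K).le (hpos (s (K + 1)))
    linarith
  have h15 := mul_le_mul_of_nonneg_left h12 hp.le
  have := hgr K
  have := hprodle K
  linarith

end Pool.Agent.Work.MP_10b086_an

end

section

/-!
Good points of an analytic surjection (Baire category).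
-/

open Set Topology Filter

namespace Pool.Agent.Work.MP_10b086_an

namespace GoodAux

section Dset

variable {Z : Type*} [TopologicalSpace Z]

/-- the points at which `A` is locally non-meagre -/
def Dset (A : Set Z) : Set Z := {z | ∀ U ∈ 𝓝 z, ¬ IsMeagre (U ∩ A)}

lemma Dset_mono {A B : Set Z} (h : A ⊆ B) : Dset A ⊆ Dset B := by
  intro z hz U hU hm
  exact hz U hU (hm.mono (inter_subset_inter_right U h))

lemma isClosed_Dset (A : Set Z) : IsClosed (Dset A) := by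
  rw [← isOpen_compl_iff, isOpen_iff_mem_nhds]
  intro z hz
  simp only [Dset, mem_compl_iff, Set.mem_ofPred_eq, not_forall, not_not] at hz
  obtain ⟨U, hU, hm⟩ := hz
  obtain ⟨V, hVU, hVo, hzV⟩ := mem_nhds_iff.1 hU
  filter_upwards [hVo.mem_nhds hzV] with w hw hwD
  exact hwD V (hVo.mem_nhds hw) (hm.mono (inter_subset_inter_left A hVU))

lemma Dset_subset_closure (A : Set Z) : Dset A ⊆ closure A := by
  intro z hz
  rw [mem_closure_iff_nhds]
  intro U hU
  exact nonempty_of_not_isMeagre (hz U hU)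

lemma meagre_diff [SecondCountableTopology Z] (A : Set Z) : IsMeagre (A \ Dset A) := by
  have hc : (TopologicalSpace.countableBasis Z).Countable :=
    TopologicalSpace.countable_countableBasis Z
  have : IsMeagre (⋃ b ∈ {b ∈ TopologicalSpace.countableBasis Z | IsMeagre (b ∩ A)}, b ∩ A) := by
    refine isMeagre_biUnion (hc.mono (sep_subset _ _)) ?_
    intro b hb
    exact hb.2
  refine this.mono ?_
  rintro z ⟨hzA, hzD⟩
  simp only [Dset, Set.mem_ofPred_eq, not_forall, not_not] at hzD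
  obtain ⟨U, hU, hm⟩ := hzD
  obtain ⟨b, hb, hzb, hbU⟩ :=
    (TopologicalSpace.isBasis_countableBasis Z).mem_nhds_iff.1 hU
  simp only [Set.mem_ofPred_eq, mem_iUnion]
  exact ⟨b, ⟨hb, hm.mono (inter_subset_inter_left A hbU)⟩, hzb, hzA⟩

lemma meagre_closure_diff {W : Set Z} (hW : IsOpen W) : IsMeagre (closure W \ W) := by
  have h1 : closure W \ W = frontier W := by rw [hW.frontier_eq]
  rw [h1]
  apply IsNowhereDense.isMeagre
  rw [isClosed_frontier.isNowhereDense_iff]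
  rw [← frontier_compl]
  exact interior_frontier hW.isClosed_compl

lemma Dset_iUnion [SecondCountableTopology Z] {ι : Type*} [Countable ι] (A : Set Z)
    (B : ι → Set Z) (hAB : A ⊆ ⋃ i, B i) : Dset A ⊆ closure (⋃ i, interior (Dset (B i))) := by
  intro z hz
  rw [mem_closure_iff]
  intro U hU hzU
  have h1 : ¬ IsMeagre (U ∩ A) := hz U (hU.mem_nhds hzU)
  have h2 : ∃ i, ¬ IsMeagre (U ∩ B i) := by
    by_contra hcon
    push Not at hcon
    apply h1
    refine (isMeagre_iUnion hcon).mono ?_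
    rintro w ⟨hwU, hwA⟩
    obtain ⟨i, hi⟩ := mem_iUnion.1 (hAB hwA)
    exact mem_iUnion.2 ⟨i, hwU, hi⟩
  obtain ⟨i, hi⟩ := h2
  have h3 : (U ∩ interior (Dset (B i))).Nonempty := by
    by_contra hne
    rw [not_nonempty_iff_eq_empty] at hne
    apply hi
    have h4 : IsMeagre (frontier (Dset (B i))) := by
      apply IsNowhereDense.isMeagre
      rw [isClosed_frontier.isNowhereDense_iff]
      exact interior_frontier (isClosed_Dset _)
    refine ((meagre_diff (B i)).union h4).mono ?_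
    rintro w ⟨hwU, hwB⟩
    by_cases hwD : w ∈ Dset (B i)
    · right
      rw [(isClosed_Dset (B i)).frontier_eq]
      refine ⟨hwD, fun hint => ?_⟩
      have : w ∈ U ∩ interior (Dset (B i)) := ⟨hwU, hint⟩
      rw [hne] at this
      exact this
    · exact Or.inl ⟨hwB, hwD⟩
  obtain ⟨w, hwU, hwi⟩ := h3
  exact ⟨w, hwU, mem_iUnion.2 ⟨i, hwi⟩⟩

end Dset

/-- cylinder -/
def Cyl (x : ℕ → ℕ) (n : ℕ) : Set (ℕ → ℕ) := {y | ∀ i < n, y i = x i}

lemma Cyl_congr {x x' : ℕ → ℕ} {n : ℕ} (h : ∀ i < n, x i = x' i) : Cyl x n = Cyl x' n := by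
  ext y
  constructor
  · intro hy i hi
    rw [hy i hi, h i hi]
  · intro hy i hi
    rw [hy i hi, h i hi]

lemma Cyl_anti (x : ℕ → ℕ) {m n : ℕ} (h : m ≤ n) : Cyl x n ⊆ Cyl x m :=
  fun _ hy i hi => hy i (lt_of_lt_of_le hi h)

lemma Cyl_succ (x : ℕ → ℕ) (n : ℕ) :
    Cyl x n ⊆ ⋃ a : ℕ, Cyl (Function.update x n a) (n + 1) := by
  intro y hy
  refine mem_iUnion.2 ⟨y n, ?_⟩
  intro i hi
  rcases Nat.lt_succ_iff_lt_or_eq.1 hi with h | h
  · rw [Function.update_of_ne (ne_of_lt h)]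
    exact hy i h
  · subst h
    simp

section main

variable {Z : Type*} [TopologicalSpace Z] (θ : (ℕ → ℕ) → Z)

/-- the open core of a cylinder image -/
def Oset (x : ℕ → ℕ) (n : ℕ) : Set Z := interior (Dset (θ '' Cyl x n))

/-- union of the open cores of the successors -/
def Wset (x : ℕ → ℕ) (n : ℕ) : Set Z := ⋃ a : ℕ, Oset θ (Function.update x n a) (n + 1)

lemma Oset_congr {x x' : ℕ → ℕ} {n : ℕ} (h : ∀ i < n, x i = x' i) :
    Oset θ x n = Oset θ x' n := by
  unfold Oset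
  rw [Cyl_congr h]

lemma Oset_anti (x : ℕ → ℕ) {m n : ℕ} (h : m ≤ n) : Oset θ x n ⊆ Oset θ x m :=
  interior_mono (Dset_mono (image_mono (Cyl_anti x h)))

lemma isOpen_Oset (x : ℕ → ℕ) (n : ℕ) : IsOpen (Oset θ x n) := isOpen_interior

lemma isOpen_Wset (x : ℕ → ℕ) (n : ℕ) : IsOpen (Wset θ x n) :=
  isOpen_iUnion fun _ => isOpen_Oset θ _ _

lemma Wset_congr {x x' : ℕ → ℕ} {n : ℕ} (h : ∀ i < n, x i = x' i) :
    Wset θ x n = Wset θ x' n := by
  unfold Wset
  refine iUnion_congr fun a => Oset_congr θ ?_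
  intro i hi
  rcases Nat.lt_succ_iff_lt_or_eq.1 hi with h' | h'
  · rw [Function.update_of_ne (ne_of_lt h'), Function.update_of_ne (ne_of_lt h'), h i h']
  · subst h'
    simp

/-- the exceptional meagre set -/
def Mset : Set Z := ⋃ p : List ℕ × ℕ,
  closure (Wset θ (fun i => p.1.getD i 0) p.2) \ Wset θ (fun i => p.1.getD i 0) p.2

lemma isMeagre_Mset : IsMeagre (Mset θ) :=
  isMeagre_iUnion fun _ => meagre_closure_diff (isOpen_Wset θ _ _)

lemma mem_Mset_of (x : ℕ → ℕ) (n : ℕ) : closure (Wset θ x n) \ Wset θ x n ⊆ Mset θ := by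
  have h : ∀ i < n, x i = (fun i => ((List.range n).map x).getD i 0) i := by
    intro i hi
    simp [List.getD_eq_getElem?_getD, hi]
  rw [Wset_congr θ h]
  intro z hz
  exact mem_iUnion.2 ⟨((List.range n).map x, n), hz⟩

lemma step [SecondCountableTopology Z] {z : Z} (hz : z ∉ Mset θ) (x : ℕ → ℕ) (n : ℕ)
    (h : z ∈ Oset θ x n) : ∃ a, z ∈ Oset θ (Function.update x n a) (n + 1) := by
  have h1 : z ∈ closure (Wset θ x n) := by
    have h2 : z ∈ Dset (θ '' Cyl x n) := interior_subset h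
    refine Dset_iUnion (θ '' Cyl x n)
      (fun a : ℕ => θ '' Cyl (Function.update x n a) (n + 1)) ?_ h2
    rw [← image_iUnion]
    exact image_mono (Cyl_succ x n)
  by_contra hcon
  push Not at hcon
  apply hz
  apply mem_Mset_of θ x n
  refine ⟨h1, ?_⟩
  intro hW
  obtain ⟨a, ha⟩ := mem_iUnion.1 hW
  exact hcon a ha

lemma branch [SecondCountableTopology Z] {z : Z} (hz : z ∉ Mset θ) (x : ℕ → ℕ) (n : ℕ)
    (h : z ∈ Oset θ x n) : ∃ x' : ℕ → ℕ, (∀ i < n, x' i = x i) ∧ ∀ m, z ∈ Oset θ x' m := by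
  classical
  have hstep : ∀ (y : ℕ → ℕ) (m : ℕ), ∃ a, z ∈ Oset θ y m →
      z ∈ Oset θ (Function.update y m a) (m + 1) := by
    intro y m
    by_cases hy : z ∈ Oset θ y m
    · obtain ⟨a, ha⟩ := step θ hz y m hy
      exact ⟨a, fun _ => ha⟩
    · exact ⟨0, fun h' => absurd h' hy⟩
  choose f hf using hstep
  let s : ℕ → (ℕ → ℕ) := fun m =>
    Nat.rec x (fun k y => Function.update y (n + k) (f y (n + k))) m
  have hs0 : s 0 = x := rfl
  have hss : ∀ k, s (k + 1) = Function.update (s k) (n + k) (f (s k) (n + k)) := fun k => rfl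
  have hmem : ∀ k, z ∈ Oset θ (s k) (n + k) := by
    intro k
    induction k with
    | zero => simpa [hs0] using h
    | succ k ih =>
      rw [hss]
      exact hf (s k) (n + k) ih
  have hstab : ∀ k i, i < n + k → ∀ d, s (k + d) i = s k i := by
    intro k i hi d
    induction d with
    | zero => rfl
    | succ d ih =>
      rw [← add_assoc, hss, Function.update_of_ne (by omega)]
      exact ih
  have hstab2 : ∀ k l i, i < n + k → i < n + l → s k i = s l i := by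
    intro k l i hk hl
    rcases le_total k l with hkl | hkl
    · obtain ⟨d, rfl⟩ := Nat.exists_eq_add_of_le hkl
      exact (hstab k i hk d).symm
    · obtain ⟨d, rfl⟩ := Nat.exists_eq_add_of_le hkl
      exact hstab l i hl d
  refine ⟨fun i => s (i + 1) i, ?_, ?_⟩
  · intro i hi
    have := hstab2 (i + 1) 0 i (by omega) (by omega)
    show s (i + 1) i = x i
    rw [this, hs0]
  · intro m
    have h1 : Oset θ (fun i => s (i + 1) i) (n + m) = Oset θ (s m) (n + m) := by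
      apply Oset_congr
      intro i hi
      exact hstab2 (i + 1) m i (by omega) hi
    have h2 : z ∈ Oset θ (fun i => s (i + 1) i) (n + m) := by
      rw [h1]; exact hmem m
    exact Oset_anti θ _ (by omega) h2

end main

lemma eq_of_branch {Z : Type*} [MetricSpace Z] (θ : (ℕ → ℕ) → Z) (hθ : Continuous θ)
    {z : Z} {x : ℕ → ℕ} (h : ∀ m, z ∈ Oset θ x m) : θ x = z := by
  have h1 : ∀ m : ℕ, ∃ y ∈ Cyl x m, dist (θ y) z < 1 / ((m : ℝ) + 1) := by
    intro m
    have h2 : z ∈ closure (θ '' Cyl x m) := Dset_subset_closure _ (interior_subset (h m))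
    rw [Metric.mem_closure_iff] at h2
    obtain ⟨b, ⟨y, hy, rfl⟩, hb⟩ := h2 (1 / ((m : ℝ) + 1)) (by positivity)
    exact ⟨y, hy, by rwa [dist_comm]⟩
  choose y hy hd using h1
  have h3 : Tendsto y atTop (𝓝 x) := by
    rw [tendsto_pi_nhds]
    intro i
    apply tendsto_const_nhds.congr'
    filter_upwards [eventually_gt_atTop i] with m hm
    exact (hy m i hm).symm
  have h4 : Tendsto (fun m => θ (y m)) atTop (𝓝 (θ x)) := (hθ.tendsto x).comp h3
  have h5 : Tendsto (fun m => θ (y m)) atTop (𝓝 z) := by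
    rw [tendsto_iff_dist_tendsto_zero]
    refine squeeze_zero (fun _ => dist_nonneg) (fun m => (hd m).le) ?_
    exact tendsto_one_div_add_atTop_nhds_zero_nat
  exact tendsto_nhds_unique h4 h5

end GoodAux

open GoodAux

theorem exists_good {Z : Type*} [NormedAddCommGroup Z] [CompleteSpace Z]
    (θ : (ℕ → ℕ) → Z) (hθ : Continuous θ) (hs : Function.Surjective θ) :
    ∃ G : Set (ℕ → ℕ),
      (∀ z : Z, ∃ x ∈ G, ∃ y ∈ G, θ x + θ y = z) ∧
      (∀ x ∈ G, ∀ y ∈ G, ∀ k : ℕ, ∃ ρ > 0, ∀ z : Z, ‖z - (θ x + θ y)‖ < ρ →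
        ∃ x' ∈ G, ∃ y' ∈ G, (∀ i < k, x' i = x i) ∧ (∀ i < k, y' i = y i) ∧ θ x' + θ y' = z) := by
  have hsep : TopologicalSpace.SeparableSpace Z := hs.denseRange.separableSpace hθ
  have hsc : SecondCountableTopology Z := UniformSpace.secondCountable_of_separable Z
  have hM : IsMeagre (Mset θ) := isMeagre_Mset θ
  have hM2 : ∀ z : Z, IsMeagre {h : Z | z - h ∈ Mset θ} := by
    intro z
    have := hM.preimage_of_isOpenMap (f := fun h : Z => z - h) (by fun_prop)
      (Homeomorph.subLeft z).isOpenMap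
    exact this
  have hgood : ∀ (x : ℕ → ℕ) (n : ℕ) (z : Z), z ∈ Oset θ x n → z ∉ Mset θ →
      ∃ x' ∈ {x : ℕ → ℕ | ∀ m, θ x ∈ Oset θ x m}, (∀ i < n, x' i = x i) ∧ θ x' = z := by
    intro x n z hz hzM
    obtain ⟨x', hx', hm⟩ := branch θ hzM x n hz
    have he := eq_of_branch θ hθ hm
    refine ⟨x', ?_, hx', he⟩
    intro m
    rw [he]
    exact hm m
  have hO0 : ∀ (x : ℕ → ℕ), Oset θ x 0 = univ := by
    intro x
    have h1 : Dset (θ '' Cyl x 0) = univ := by
      rw [eq_univ_iff_forall]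
      intro z U hU hm
      have h2 : θ '' Cyl x 0 = univ := by
        have h3 : Cyl x 0 = univ := by
          rw [eq_univ_iff_forall]
          intro y i hi
          exact absurd hi (Nat.not_lt_zero i)
        rw [h3, image_univ, hs.range_eq]
      rw [h2, inter_univ] at hm
      obtain ⟨V, hVU, hVo, hzV⟩ := mem_nhds_iff.1 hU
      exact not_isMeagre_of_isOpen hVo ⟨z, hzV⟩ (hm.mono hVU)
    unfold Oset
    rw [h1, interior_univ]
  refine ⟨{x : ℕ → ℕ | ∀ m, θ x ∈ Oset θ x m}, ?_, ?_⟩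
  · intro z
    have h1 : ¬ IsMeagre (univ : Set Z) := not_isMeagre_of_isOpen isOpen_univ ⟨z, mem_univ z⟩
    have h2 : ∃ h : Z, h ∉ Mset θ ∧ z - h ∉ Mset θ := by
      by_contra hcon
      push Not at hcon
      apply h1
      refine (hM.union (hM2 z)).mono ?_
      intro h _
      by_cases hh : h ∈ Mset θ
      · exact Or.inl hh
      · exact Or.inr (hcon h hh)
    obtain ⟨h, hh1, hh2⟩ := h2
    obtain ⟨x, hx, -, hxe⟩ := hgood 0 0 h (by rw [hO0]; trivial) hh1
    obtain ⟨y, hy, -, hye⟩ := hgood 0 0 (z - h) (by rw [hO0]; trivial) hh2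
    exact ⟨x, hx, y, hy, by rw [hxe, hye]; abel⟩
  · intro x hx y hy k
    obtain ⟨r1, hr1, hb1⟩ := Metric.isOpen_iff.1 (isOpen_Oset θ x k) (θ x) (hx k)
    obtain ⟨r2, hr2, hb2⟩ := Metric.isOpen_iff.1 (isOpen_Oset θ y k) (θ y) (hy k)
    refine ⟨min r1 r2 / 2, by positivity, ?_⟩
    intro z hz
    have hr : 0 < min r1 r2 := lt_min hr1 hr2
    have h1 : ¬ IsMeagre (Metric.ball (θ x) (min r1 r2 / 2)) :=
      not_isMeagre_of_isOpen Metric.isOpen_ball ⟨θ x, Metric.mem_ball_self (by positivity)⟩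
    have h2 : ∃ h ∈ Metric.ball (θ x) (min r1 r2 / 2), h ∉ Mset θ ∧ z - h ∉ Mset θ := by
      by_contra hcon
      push Not at hcon
      apply h1
      refine (hM.union (hM2 z)).mono ?_
      intro h hb
      by_cases hh : h ∈ Mset θ
      · exact Or.inl hh
      · exact Or.inr (hcon h hb hh)
    obtain ⟨h, hb, hh1, hh2⟩ := h2
    rw [Metric.mem_ball, dist_eq_norm] at hb
    have hO1 : h ∈ Oset θ x k := by
      apply hb1
      rw [Metric.mem_ball, dist_eq_norm]
      calc ‖h - θ x‖ < min r1 r2 / 2 := hb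
        _ ≤ min r1 r2 := by linarith
        _ ≤ r1 := min_le_left _ _
    have hO2 : z - h ∈ Oset θ y k := by
      apply hb2
      rw [Metric.mem_ball, dist_eq_norm]
      have : z - h - θ y = (z - (θ x + θ y)) - (h - θ x) := by abel
      rw [this]
      calc ‖(z - (θ x + θ y)) - (h - θ x)‖ ≤ ‖z - (θ x + θ y)‖ + ‖h - θ x‖ := norm_sub_le _ _
        _ < min r1 r2 / 2 + min r1 r2 / 2 := add_lt_add hz hb
        _ = min r1 r2 := by ring
        _ ≤ r2 := min_le_right _ _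
    obtain ⟨x', hx', hxa, hxe⟩ := hgood x k h hO1 hh1
    obtain ⟨y', hy', hya, hye⟩ := hgood y k (z - h) hO2 hh2
    exact ⟨x', hx', y', hy', hxa, hya, by rw [hxe, hye]; abel⟩

end Pool.Agent.Work.MP_10b086_an

end

section

/-!
# Functionals that are positive on an analytic generating set are continuous
-/

open Topology Filter Set
open scoped ComplexConjugate NNReal ENNReal

namespace Pool.Agent.Work.MP_10b086_an

theorem nhds_cyl (x : ℕ → ℕ) {U : Set (ℕ → ℕ)} (hU : U ∈ 𝓝 x) :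
    ∃ k : ℕ, ∀ y : ℕ → ℕ, (∀ i < k, y i = x i) → y ∈ U := by
  obtain ⟨V, hV, hxV, hVU⟩ := (PiNat.isTopologicalBasis_cylinders (fun _ : ℕ => ℕ)).mem_nhds_iff.1 hU
  obtain ⟨z, k, rfl⟩ := hV
  refine ⟨k, fun y hy => hVU ?_⟩
  rw [PiNat.mem_cylinder_iff] at hxV ⊢
  intro i hi
  rw [hy i hi, hxV i hi]

theorem continuous_of_re_le {Z : Type*} [NormedAddCommGroup Z] [NormedSpace ℂ Z]
    (f : Z →ₗ[ℂ] ℂ) {ρ K : ℝ} (hρ : 0 < ρ) (hK : ∀ z, ‖z‖ < ρ → (f z).re ≤ K) :
    Continuous f := by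
  have hre : ∀ z, ‖z‖ < ρ → ‖f z‖ ≤ K := by
    intro z hz
    by_cases h0 : f z = 0
    · rw [h0, norm_zero]
      have := hK 0 (by simpa using hρ)
      simpa using this
    · set u : ℂ := conj (f z) / ‖f z‖ with hu
      have hn : ‖f z‖ ≠ 0 := norm_ne_zero_iff.2 h0
      have hun : ‖u‖ = 1 := by
        rw [hu, norm_div, RCLike.norm_conj]
        simp [hn]
      have h1 := hK (u • z) (by rw [norm_smul, hun, one_mul]; exact hz)
      rw [map_smul, smul_eq_mul] at h1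
      have h2 : u * f z = (‖f z‖ : ℂ) := by
        rw [hu, div_mul_eq_mul_div, Complex.conj_mul', sq]
        have : (‖f z‖ : ℂ) ≠ 0 := by exact_mod_cast hn
        field_simp
      rw [h2, Complex.ofReal_re] at h1
      exact h1
  have h3 := LinearMap.bound_of_ball_bound' (r := ρ / 2) (by positivity) K f (fun z hz => hre z (by
    rw [mem_closedBall_zero_iff] at hz
    linarith))
  exact AddMonoidHomClass.continuous_of_bound f (K / (ρ / 2)) h3

theorem continuous_of_analytic_pos {Z : Type*} [NormedAddCommGroup Z] [NormedSpace ℂ Z]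
    [CompleteSpace Z] (C : Set Z) (hC : MeasureTheory.AnalyticSet C) (f : Z →ₗ[ℂ] ℂ)
    (hf : ∀ c ∈ C, 0 ≤ (f c).re ∧ (f c).im = 0)
    (hgen : ∀ z, ∃ c₁ ∈ C, ∃ c₂ ∈ C, ∃ c₃ ∈ C, ∃ c₄ ∈ C,
      z = (c₁ - c₂) + Complex.I • (c₃ - c₄)) : Continuous f := by
  -- parametrise `C`
  obtain ⟨π, hπc, hπr⟩ : ∃ π : (ℕ → ℕ) → Z, Continuous π ∧ range π = C := by
    rw [MeasureTheory.AnalyticSet] at hC
    rcases hC with h | h
    · obtain ⟨c, hc, _⟩ := hgen 0
      rw [h] at hc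
      exact absurd hc (Set.notMem_empty _)
    · exact h
  have hπC : ∀ x, π x ∈ C := fun x => hπr ▸ mem_range_self x
  let e : ℕ → (ℕ → ℕ) → (ℕ → ℕ) := fun k x n => x (4 * n + k)
  have hec : ∀ k, Continuous (e k) := fun k => continuous_pi fun n => continuous_apply _
  let θ : (ℕ → ℕ) → Z := fun x => (π (e 0 x) - π (e 1 x)) + Complex.I • (π (e 2 x) - π (e 3 x))
  let ψ : (ℕ → ℕ) → Z := fun x => π (e 0 x)
  have hθ : Continuous θ :=
    ((hπc.comp (hec 0)).sub (hπc.comp (hec 1))).add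
      (((hπc.comp (hec 2)).sub (hπc.comp (hec 3))).const_smul Complex.I)
  have hψ : Continuous ψ := hπc.comp (hec 0)
  have hθs : Function.Surjective θ := by
    intro z
    obtain ⟨c₁, h₁, c₂, h₂, c₃, h₃, c₄, h₄, hz⟩ := hgen z
    rw [← hπr] at h₁ h₂ h₃ h₄
    obtain ⟨x₁, rfl⟩ := h₁
    obtain ⟨x₂, rfl⟩ := h₂
    obtain ⟨x₃, rfl⟩ := h₃
    obtain ⟨x₄, rfl⟩ := h₄
    obtain ⟨X, hX⟩ : ∃ X : ℕ → ℕ, X = fun m => if m % 4 = 0 then x₁ (m / 4) else
      if m % 4 = 1 then x₂ (m / 4) else if m % 4 = 2 then x₃ (m / 4) else x₄ (m / 4) := ⟨_, rfl⟩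
    refine ⟨X, ?_⟩
    have a0 : e 0 X = x₁ := by
      funext n
      simp only [e, hX]
      rw [if_pos (by omega)]
      congr 1; omega
    have a1 : e 1 X = x₂ := by
      funext n
      simp only [e, hX]
      rw [if_neg (by omega), if_pos (by omega)]
      congr 1; omega
    have a2 : e 2 X = x₃ := by
      funext n
      simp only [e, hX]
      rw [if_neg (by omega), if_neg (by omega), if_pos (by omega)]
      congr 1; omega
    have a3 : e 3 X = x₄ := by
      funext n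
      simp only [e, hX]
      rw [if_neg (by omega), if_neg (by omega), if_neg (by omega)]
      congr 1; omega
    change (π (e 0 X) - π (e 1 X)) + Complex.I • (π (e 2 X) - π (e 3 X)) = z
    rw [a0, a1, a2, a3, hz]
  -- the real part of `f`
  let F : Z →ₗ[ℝ] ℝ :=
    { toFun := fun z => (f z).re
      map_add' := fun x y => by rw [map_add, Complex.add_re]
      map_smul' := fun c x => by
        change (f ((c : ℂ) • x)).re = c * (f x).re
        rw [map_smul, smul_eq_mul, Complex.re_ofReal_mul] }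
  have hFψ : ∀ x, 0 ≤ F (ψ x) := fun x => (hf _ (hπC _)).1
  have hFθ : ∀ x, F (θ x) ≤ F (ψ x) := by
    intro x
    change (f ((π (e 0 x) - π (e 1 x)) + Complex.I • (π (e 2 x) - π (e 3 x)))).re ≤
      (f (π (e 0 x))).re
    have i2 := (hf _ (hπC (e 2 x))).2
    have i3 := (hf _ (hπC (e 3 x))).2
    have r1 := (hf _ (hπC (e 1 x))).1
    rw [map_add, map_sub, map_smul, map_sub, smul_eq_mul, Complex.add_re, Complex.sub_re,
      Complex.I_mul_re, Complex.sub_im, i2, i3]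
    linarith
  obtain ⟨G, hGs, hGo⟩ := exists_good θ hθ hθs
  -- the space of pairs
  let _ := TopologicalSpace.upgradeIsCompletelyMetrizable ((ℕ → ℕ) × (ℕ → ℕ))
  let Q : Set ((ℕ → ℕ) × (ℕ → ℕ)) := {q | q.1 ∈ G ∧ q.2 ∈ G}
  let Θ : (ℕ → ℕ) × (ℕ → ℕ) → Z := fun q => θ q.1 + θ q.2
  let Ψ : (ℕ → ℕ) × (ℕ → ℕ) → Z := fun q => ψ q.1 + ψ q.2
  have hΘ : Continuous Θ := (hθ.comp continuous_fst).add (hθ.comp continuous_snd)
  have hΨ : Continuous Ψ := (hψ.comp continuous_fst).add (hψ.comp continuous_snd)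
  have hopen' : ∀ q ∈ Q, ∀ U ∈ 𝓝 q, ∃ ρ > 0, ∀ z, ‖z - Θ q‖ < ρ → ∃ q' ∈ Q, q' ∈ U ∧ Θ q' = z := by
    rintro ⟨x, y⟩ ⟨hx, hy⟩ U hU
    rw [nhds_prod_eq, Filter.mem_prod_iff] at hU
    obtain ⟨U₁, hU₁, U₂, hU₂, hUU⟩ := hU
    obtain ⟨k₁, hk₁⟩ := nhds_cyl x hU₁
    obtain ⟨k₂, hk₂⟩ := nhds_cyl y hU₂
    obtain ⟨ρ, hρ, h⟩ := hGo x hx y hy (max k₁ k₂)
    refine ⟨ρ, hρ, fun z hz => ?_⟩
    obtain ⟨x', hx', y', hy', e1, e2, e3⟩ := h z hz
    refine ⟨(x', y'), ⟨hx', hy'⟩, hUU ⟨?_, ?_⟩, e3⟩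
    · exact hk₁ x' fun i hi => e1 i (lt_max_of_lt_left hi)
    · exact hk₂ y' fun i hi => e2 i (lt_max_of_lt_right hi)
  have hopen : ∀ q ∈ Q, ∀ ε > 0, ∃ ρ > 0, ∀ z, ‖z - Θ q‖ < ρ →
      ∃ q' ∈ Q, dist q' q < ε ∧ Θ q' = z := by
    intro q hq ε hε
    exact hopen' q hq (Metric.ball q ε) (Metric.ball_mem_nhds q hε)
  -- local boundedness of `Ψ` at a point over `0`
  obtain ⟨x₀, hx₀, y₀, hy₀, h00⟩ := hGs 0
  obtain ⟨ρ, hρ, hρ'⟩ := hopen' (x₀, y₀) ⟨hx₀, hy₀⟩ {q | ‖Ψ q‖ < ‖Ψ (x₀, y₀)‖ + 1}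
    (hΨ.norm.continuousAt.eventually_lt_const (lt_add_one _))
  have hΘ0 : Θ (x₀, y₀) = 0 := h00
  by_contra hcont
  refine chain_false Q Θ Ψ hΘ hΨ F ?_ ?_ hopen {v | ‖v‖ < ρ ∧ 0 ≤ F v} (‖Ψ (x₀, y₀)‖ + 1) ?_ ?_
  · intro q
    change 0 ≤ F (ψ q.1 + ψ q.2)
    rw [map_add]
    exact add_nonneg (hFψ _) (hFψ _)
  · intro q
    have h1 := hFθ q.1
    have h2 := hFθ q.2
    have h3 : F (θ q.1 + θ q.2) = F (θ q.1) + F (θ q.2) := map_add F _ _
    have h4 : F (ψ q.1 + ψ q.2) = F (ψ q.1) + F (ψ q.2) := map_add F _ _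
    change F (θ q.1 + θ q.2) ≤ F (ψ q.1 + ψ q.2)
    rw [h3, h4]
    exact add_le_add h1 h2
  · rintro v ⟨hv, hv'⟩
    refine ⟨hv', ?_⟩
    obtain ⟨q, hq, hqU, hqv⟩ := hρ' v (by rw [hΘ0, sub_zero]; exact hv)
    exact ⟨q, hq, hqv, le_of_lt hqU⟩
  · intro K
    by_contra hcon
    push Not at hcon
    apply hcont
    refine continuous_of_re_le f hρ (K := max K 0) fun z hz => ?_
    by_cases h : 0 ≤ F z
    · exact (hcon z ⟨hz, h⟩).le.trans (le_max_left _ _)
    · exact (not_le.1 h).le.trans (le_max_right _ _)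

end Pool.Agent.Work.MP_10b086_an

end
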