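import Pool.Agent.Work.MP_10b086_an.H5.Defs

/-! Bundle of small proof modules (one section per former module). -/

section

/-!
# Part A: the maximum principle for few polynomials (finitely many variables)
-/

open Topology Filter Set MvPolynomial

set_option autoImplicit false

namespace Pool.Agent.H5

/-- `G i = s X_i ^ k + (terms of degree < k)` -/
def Lead (T : Type) [Fintype T] (k : ℕ) (G : T → MvPolynomial T ℂ) : Prop :=
  1 ≤ k ∧ ∃ s : ℂ, s ≠ 0 ∧ ∀ i, (G i - C s * X i ^ k).totalDegree < k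

/-- A1: the polynomial ring is integral over `ℂ[G]` -/
def S_A1 : Prop := ∀ (T : Type) [Fintype T] (k : ℕ) (G : T → MvPolynomial T ℂ), Lead T k G →
  (aeval G : MvPolynomial T ℂ →ₐ[ℂ] MvPolynomial T ℂ).toRingHom.IsIntegral

/-- A2: the `G i` are algebraically independent -/
def S_A2 : Prop := ∀ (T : Type) [Fintype T] (G : T → MvPolynomial T ℂ),
  (aeval G : MvPolynomial T ℂ →ₐ[ℂ] MvPolynomial T ℂ).toRingHom.IsIntegral →
  Function.Injective (aeval G : MvPolynomial T ℂ →ₐ[ℂ] MvPolynomial T ℂ)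

/-- A3: the values of `g` on the fibres are the roots of a monic polynomial -/
def S_A3 : Prop := ∀ (T : Type) [Fintype T] (G : T → MvPolynomial T ℂ),
  (aeval G : MvPolynomial T ℂ →ₐ[ℂ] MvPolynomial T ℂ).toRingHom.IsIntegral →
  Function.Injective (aeval G : MvPolynomial T ℂ →ₐ[ℂ] MvPolynomial T ℂ) →
  ∀ g : MvPolynomial T ℂ, ∃ m : Polynomial (MvPolynomial T ℂ), m.Monic ∧
    (∀ x : T → ℂ, (m.map (eval fun i => eval x (G i))).eval (eval x g) = 0) ∧
    ∀ (w : T → ℂ) (t : ℂ), (m.map (eval w)).eval t = 0 →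
      ∃ x : T → ℂ, (∀ i, eval x (G i) = w i) ∧ eval x g = t

/-- A4: properness -/
def S_A4 : Prop := ∀ (T : Type) [Fintype T] (k : ℕ) (G : T → MvPolynomial T ℂ), Lead T k G →
  ∀ R : ℝ, ∃ R' : ℝ, ∀ x : T → ℂ, (∀ i, ‖eval x (G i)‖ ≤ R) → ∀ i, ‖x i‖ ≤ R'

/-- A5: the map `G` is open -/
def S_A5 : Prop := ∀ (T : Type) [Fintype T] (k : ℕ) (G : T → MvPolynomial T ℂ), Lead T k G →
  IsOpenMap fun (x : T → ℂ) (i : T) => eval x (G i)

/-- A6: `r < m` polynomial equations: no strict local maximum of `Re Φ` -/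
def S_A6 : Prop := ∀ (T : Type) [Fintype T] (r : ℕ), r < Fintype.card T →
  ∀ (F : Fin r → MvPolynomial T ℂ) (Φ : MvPolynomial T ℂ) (p : T → ℂ), (∀ k, eval p (F k) = 0) →
  ∀ U ∈ 𝓝 p, ∃ p' ∈ U, p' ≠ p ∧ (∀ k, eval p' (F k) = 0) ∧ (eval p Φ).re ≤ (eval p' Φ).re

/-- A7: the maximum principle for `r < m` polynomial equations -/
def S_A7 : Prop := ∀ (T : Type) [Fintype T] (r : ℕ), r < Fintype.card T →
  ∀ (F : Fin r → MvPolynomial T ℂ) (h : MvPolynomial T ℂ) (U : Set (T → ℂ)), IsOpen U →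
  Bornology.IsBounded U → ∀ p ∈ U, (∀ k, eval p (F k) = 0) →
  ∃ p' ∈ closure ({x | ∀ k, eval x (F k) = 0} ∩ U), p' ∉ U ∧ ‖eval p h‖ ≤ ‖eval p' h‖

/-- A8: the local maximum principle for finite towers -/
def S_A8 : Prop := ∀ (T : Type) [Fintype T] (Ω : Type) [LinearOrder Ω] [WellFoundedLT Ω]
  (lev : T → Ω) (rt : T → Prop) (v : T → MvPolynomial T ℂ),
  (∀ j, rt j → ∀ y : T → ℂ, (∀ i, lev i < lev j → ‖y i‖ ≤ 1) → ‖eval y (v j)‖ ≤ 1) →
  ∀ (q : ℕ) (f : Fin q → MvPolynomial T ℂ) (h : MvPolynomial T ℂ) (x : T → ℂ),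
  (∀ i, ‖x i‖ ≤ 1) → (∀ j, rt j → x j ^ 2 = eval x (v j)) →
  ∀ O : Set (T → ℂ), IsOpen O → x ∈ O →
  ∃ x' : T → ℂ, (∀ i, ‖x' i‖ ≤ 1) ∧ (∀ j, rt j → x' j ^ 2 = eval x' (v j)) ∧
    x' ∈ closure (O ∩ {y | ∀ i, ‖y i‖ ≤ 1}) ∧ (∀ k, eval x' (f k) = eval x (f k)) ∧
    ‖eval x h‖ ≤ ‖eval x' h‖ ∧
    (x' ∉ O ∨ {a | ¬ rt a ∧ ‖x' a‖ < 1}.encard < ((1 + q : ℕ) : ℕ∞))

/-- A9: the same with finitely many active variables -/
def S_A9 : Prop := ∀ (V : Type) (Ω : Type) [LinearOrder Ω] [WellFoundedLT Ω]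
  (lev : V → Ω) (rt : V → Prop) (v : V → MvPolynomial V ℂ) (T : Finset V),
  (∀ j ∈ T, rt j → ∀ y : V → ℂ, (∀ i, lev i < lev j → ‖y i‖ ≤ 1) → ‖eval y (v j)‖ ≤ 1) →
  ∀ (q : ℕ) (f : Fin q → MvPolynomial V ℂ) (h : MvPolynomial V ℂ) (x : V → ℂ),
  (∀ i, ‖x i‖ ≤ 1) → (∀ j ∈ T, rt j → x j ^ 2 = eval x (v j)) →
  ∀ O : Set (V → ℂ), IsOpen O → x ∈ O →
  ∃ x' : V → ℂ, (∀ i, ‖x' i‖ ≤ 1) ∧ (∀ i, i ∉ T → x' i = x i) ∧
    (∀ j ∈ T, rt j → x' j ^ 2 = eval x' (v j)) ∧
    x' ∈ closure (O ∩ {y | ∀ i, ‖y i‖ ≤ 1}) ∧ (∀ k, eval x' (f k) = eval x (f k)) ∧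
    ‖eval x h‖ ≤ ‖eval x' h‖ ∧
    (x' ∉ O ∨ {a | a ∈ T ∧ ¬ rt a ∧ ‖x' a‖ < 1}.encard < ((1 + q : ℕ) : ℕ∞))

/-! ## Part B: infinite towers -/

/-- the truncation of a power series to finitely many monomials -/
noncomputable def trp {V : Type} (f : L1 V) (S : Finset (V →₀ ℕ)) : MvPolynomial V ℂ :=
  ∑ μ ∈ S, monomial μ (f.cf μ)

/-- B0: values of truncations -/
def S_B0 : Prop := ∀ (V : Type) (f : L1 V) (S : Finset (V →₀ ℕ)) (x : V → ℂ),
  eval x (trp f S) = ∑ μ ∈ S, f.cf μ * monVal x μ ∧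
  ((∀ j, ‖x j‖ ≤ 1) → ‖eval x (trp f S) - evl x f‖ ≤
    ∑' μ, Set.indicator ((S : Set (V →₀ ℕ))ᶜ) (fun μ => ‖f.cf μ‖) μ) ∧
  (∀ (Ω : Type) [LinearOrder Ω] (lev : V → Ω) (g : Ω), Low lev g f → ‖f‖ ≤ 1 →
    (∀ i, lev i < g → ‖x i‖ ≤ 1) → ‖eval x (trp f S)‖ ≤ 1)

/-- B1: points of the truncated towers converging to a given point -/
def S_B1 : Prop := ∀ (Ω V : Type) [LinearOrder Ω] [WellFoundedLT Ω] (T : Twr Ω V) (x : Dk V),
  x ∈ T.pts → ∃ w : Finset (V →₀ ℕ) → Dk V,
    (∀ S j, T.rt j → (w S).1 j ^ 2 = eval (w S).1 (trp (T.v j) S)) ∧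
    Tendsto w atTop (𝓝 x)

/-- B2: the local maximum principle of order one for the points of a tower -/
def S_F1 : Prop := ∀ (Ω V : Type) [LinearOrder Ω] [WellFoundedLT Ω] (T : Twr Ω V),
  LG (PP V) zc 1 T.pts T.letters

end Pool.Agent.H5

end

section

/-!
# Part C: topology of sets with a local maximum principle
-/

open Topology Filter Set

set_option autoImplicit false

namespace Pool.Agent.H5

/-- C1: one letter is put equal to zero -/
def S_C1 : Prop := ∀ (E L : Type) [TopologicalSpace E] (P : Set C(E, ℂ)) (z : L → C(E, ℂ))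
  (b : ℕ) (M : Set E) (L' : Set L) (a : L), z a ∈ P → a ∈ L' → LG P z b M L' →
  LG P z b (M ∩ {x | z a x = 0}) (L' \ {a})

/-- C2: directed intersections -/
def S_C2 : Prop := ∀ (E L : Type) [TopologicalSpace E] [CompactSpace E] (P : Set C(E, ℂ))
  (z : L → C(E, ℂ)) (b : ℕ) (ι : Type) [Nonempty ι] (M : ι → Set E) (L₁ : ι → Set L) (L' : Set L),
  Directed (· ⊇ ·) M → (∀ i, IsClosed (M i)) → (∀ i, L' ⊆ L₁ i) →
  (∀ i, LG P z b (M i) (L₁ i)) → LG P z b (⋂ i, M i) L'

/-- C3: clopen pieces -/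
def S_C3 : Prop := ∀ (E L : Type) [TopologicalSpace E] [CompactSpace E] [T2Space E]
  (P : Set C(E, ℂ)) (z : L → C(E, ℂ)) (b : ℕ) (M M₁ : Set E) (L' : Set L), IsClosed M₁ →
  IsClosed (M \ M₁) → M₁ ⊆ M → LG P z b M L' → LG P z b M₁ L'

/-- C4: removing the zero set of a function -/
def S_C4 : Prop := ∀ (E L : Type) [TopologicalSpace E] [CompactSpace E] (P : Set C(E, ℂ))
  (z : L → C(E, ℂ)) (b : ℕ) (M : Set E) (L' : Set L) (u : C(E, ℂ)), MulClosed P → u ∈ P →
  IsClosed M → LG P z b M L' → LG P z b (closure (M ∩ {x | u x ≠ 0})) L'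

/-- C5: common zeros of `N` functions -/
def S_C5 : Prop := ∀ (E L : Type) [TopologicalSpace E] (P : Set C(E, ℂ)) (z : L → C(E, ℂ))
  (b : ℕ) (M : Set E) (L' : Set L) (N : ℕ) (f : Fin N → C(E, ℂ)), (∀ k, f k ∈ P) →
  LG P z b M L' → LG P z (b + N) (M ∩ {x | ∀ k, f k x = 0}) L'

/-- C6: a set of letters is put equal to zero -/
def S_C6 : Prop := ∀ (E L : Type) [TopologicalSpace E] [CompactSpace E] (P : Set C(E, ℂ))
  (z : L → C(E, ℂ)) (b : ℕ) (M : Set E) (L' A : Set L), (∀ a, z a ∈ P) → A ⊆ L' → IsClosed M →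
  LG P z b M L' → LG P z b (M ∩ {x | ∀ a ∈ A, z a x = 0}) (L' \ A)

/-- C7: minimal sets -/
def S_C7 : Prop := ∀ (E L : Type) [TopologicalSpace E] [CompactSpace E] (P : Set C(E, ℂ))
  (z : L → C(E, ℂ)) (b : ℕ) (M : Set E) (L' : Set L) (e : E), MulClosed P → (∀ a, z a ∈ P) →
  IsClosed M → e ∈ M → LG P z b M L' →
  ∃ M₀ ⊆ M, IsClosed M₀ ∧ e ∈ M₀ ∧ LG P z b M₀ L' ∧
    ∀ a, closure (M₀ ∩ {x | z a x ≠ 0}) = M₀ ∨ e ∉ closure (M₀ ∩ {x | z a x ≠ 0})

/-- C8: case A -/
def S_C8 : Prop := ∀ (E L : Type) [TopologicalSpace E] [CompactSpace E] [T2Space E]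
  (P : Set C(E, ℂ)) (z : L → C(E, ℂ)) (b : ℕ) (M : Set E) (L' L₀ : Set L) (e : E),
  MulClosed P → (∀ a, z a ∈ P) → (∀ a x, ‖z a x‖ ≤ 1) → IsClosed M → e ∈ M → LG P z b M L' →
  L₀.Countable → (∀ a ∈ L₀, closure (M ∩ {x | z a x ≠ 0}) = M) →
  ∃ x ∈ M, (∀ a ∈ L₀, z a x ≠ 0) ∧ {a | a ∈ L' ∧ ‖z a x‖ < 1}.encard < (b : ℕ∞)

/-- C9: a stuck letter lowers the order -/
def S_C9 : Prop := ∀ (E L : Type) [TopologicalSpace E] (P : Set C(E, ℂ))
  (z : L → C(E, ℂ)) (b : ℕ) (M : Set E) (L' : Set L) (a : L), a ∉ L' → (∀ x ∈ M, z a x = 0) →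
  LG P z (b + 1) M (insert a L') → LG P z b M L'

/-- T1: connected sets of points with vanishing letters have constant coordinates -/
def S_T1 : Prop := ∀ (Ω V : Type) [LinearOrder Ω] [WellFoundedLT Ω] (T : Twr Ω V) (g : Ω)
  (Z : Set (Dk V)), Z ⊆ T.pts → (∀ x ∈ Z, ∀ j, ¬ T.rt j → T.lev j < g → x.1 j = 0) →
  ∀ K : Set ({j : V // T.lev j < g} → ℂ), K ⊆ (fun (x : Dk V) (i : {j : V // T.lev j < g}) =>
    x.1 i.1) '' Z → IsPreconnected K → K.Subsingleton

/-- T2: restriction to the points which agree with `e` below `g` -/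
def S_T2 : Prop := ∀ (Ω V : Type) [LinearOrder Ω] [WellFoundedLT Ω] (T : Twr Ω V) (g : Ω)
  (e : Dk V) (b : ℕ) (M : Set (Dk V)) (L' : Set V), IsClosed M → M ⊆ T.pts → e ∈ T.pts →
  (∀ j, ¬ T.rt j → e.1 j = 0) → (∀ x ∈ M, ∀ j, ¬ T.rt j → T.lev j < g → x.1 j = 0) →
  LG (PP V) zc b M L' → LG (PP V) zc b (M ∩ T.Y e g) L'

/-- T3: neighbourhoods whose boundary avoids the points without letters -/
def S_T3 : Prop := ∀ (Ω V : Type) [LinearOrder Ω] [WellFoundedLT Ω] (T : Twr Ω V)
  (e : Dk V) (O : Set (Dk V)), IsOpen O → e ∈ O → e ∈ T.pts → (∀ j, ¬ T.rt j → e.1 j = 0) →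
  ∃ U : Set (Dk V), IsOpen U ∧ e ∈ U ∧ closure U ⊆ O ∧
    ∀ x ∈ closure U, x ∈ T.pts → (∀ j, ¬ T.rt j → x.1 j = 0) → x ∈ U

/-- T4: the claim (case B and induction on `b`) -/
def S_T4 : Prop := ∀ (Ω V : Type) [LinearOrder Ω] [WellFoundedLT Ω] (T : Twr Ω V) (lam : Ω)
  (_ : ∀ g < lam, ∃ g' < lam, g < g') (e : Dk V) (_ : e ∈ T.pts) (_ : ∀ j, ¬ T.rt j → e.1 j = 0)
  (L₀ : Set V) (_ : L₀.Countable) (b : ℕ) (g : Ω) (_ : g < lam) (M : Set (Dk V))
  (_ : IsClosed M) (_ : e ∈ M) (_ : M ⊆ T.Q g lam) (_ : M ⊆ T.Y e g)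
  (_ : LG (PP V) zc b M (T.Lt g lam)),
  ∃ g' < lam, g ≤ g' ∧ ∃ x ∈ M, x ∈ T.Y e g' ∧ (∀ j ∈ L₀, j ∈ T.Lt g' lam → x.1 j ≠ 0) ∧
    {j | j ∈ T.Lt g' lam ∧ ‖x.1 j‖ < 1}.Finite

/-- RN: the theorem of section 3 -/
def S_RN : Prop := ∀ (Ω V : Type) [LinearOrder Ω] [WellFoundedLT Ω] (T : Twr Ω V) (lam g₀ : Ω)
  (_ : g₀ < lam) (_ : ∀ g < lam, ∃ g' < lam, g < g') (e : Dk V) (_ : e ∈ T.pts)
  (_ : ∀ j, ¬ T.rt j → e.1 j = 0) (L₀ : Set V) (_ : L₀.Countable) (N : ℕ) (r : Fin N → L1 V)
  (_ : ∀ k, ev (r k) e = 0),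
  ∃ g < lam, g₀ ≤ g ∧ ∃ x ∈ T.pts, x ∈ T.Y e g ∧ (∀ k, ev (r k) x = 0) ∧
    (∀ j ∈ L₀, j ∈ T.Lt g lam → x.1 j ≠ 0) ∧ {j | j ∈ T.Lt g lam ∧ ‖x.1 j‖ < 1}.Finite

end Pool.Agent.H5

end

section

/-!
# Item A1: the polynomial ring is integral over `ℂ[G]`
-/

set_option autoImplicit false

namespace Pool.Agent.H5

open MvPolynomial

theorem A1_span (T : Type) [Fintype T] (k : ℕ) (G : T → MvPolynomial T ℂ) (h : Lead T k G) :
    ∀ (n : ℕ) (p : MvPolynomial T ℂ), p.totalDegree ≤ n →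
      p ∈ Submodule.span (aeval G : MvPolynomial T ℂ →ₐ[ℂ] MvPolynomial T ℂ).range
        ((fun a : T →₀ ℕ => (monomial a (1 : ℂ) : MvPolynomial T ℂ)) '' {a | ∀ i, a i < k}) := by
  classical
  obtain ⟨hk, s, hs, hG⟩ := h
  set S := (aeval G : MvPolynomial T ℂ →ₐ[ℂ] MvPolynomial T ℂ).range with hS
  set N := Submodule.span S
    ((fun a : T →₀ ℕ => (monomial a (1 : ℂ) : MvPolynomial T ℂ)) '' {a | ∀ i, a i < k}) with hN
  have hGS : ∀ i, G i ∈ S := fun i => ⟨X i, aeval_X _ _⟩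
  have hCS : ∀ c : ℂ, C c ∈ S := fun c => S.algebraMap_mem c
  have hmul : ∀ g ∈ S, ∀ q ∈ N, g * q ∈ N := fun g hg q hq => N.smul_mem (⟨g, hg⟩ : S) hq
  intro n
  induction n using Nat.strong_induction_on with
  | _ n ih =>
    -- monomials
    have mono : ∀ a : T →₀ ℕ, a.degree ≤ n → (monomial a (1 : ℂ) : MvPolynomial T ℂ) ∈ N := by
      intro a ha
      by_cases hak : ∀ i, a i < k
      · exact Submodule.subset_span ⟨a, hak, rfl⟩
      · push Not at hak
        obtain ⟨i, hi⟩ := hak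
        obtain ⟨b, hb⟩ : ∃ b : T →₀ ℕ, a = b + Finsupp.single i k := by
          refine ⟨a - Finsupp.single i k, ?_⟩
          rw [tsub_add_cancel_of_le]
          rw [Finsupp.single_le_iff]
          exact hi
        have hdeg : a.degree = b.degree + k := by
          rw [hb, map_add, Finsupp.degree_single]
        have e1 : (monomial a (1 : ℂ) : MvPolynomial T ℂ) = monomial b 1 * X i ^ k := by
          rw [hb, X_pow_eq_monomial, monomial_mul, one_mul]
        have e2 : (X i ^ k : MvPolynomial T ℂ) =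
            C s⁻¹ * G i - C s⁻¹ * (G i - C s * X i ^ k) := by
          have : (C s⁻¹ * C s : MvPolynomial T ℂ) = 1 := by
            rw [← C_mul, inv_mul_cancel₀ hs, C_1]
          calc (X i ^ k : MvPolynomial T ℂ) = (C s⁻¹ * C s) * X i ^ k := by rw [this, one_mul]
            _ = _ := by ring
        have e3 : (monomial a (1 : ℂ) : MvPolynomial T ℂ) =
            (C s⁻¹ * G i) * monomial b 1 -
              C s⁻¹ * ((G i - C s * X i ^ k) * monomial b 1) := by
          calc (monomial a (1 : ℂ) : MvPolynomial T ℂ) = monomial b 1 * X i ^ k := e1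
            _ = monomial b 1 * (C s⁻¹ * G i - C s⁻¹ * (G i - C s * X i ^ k)) :=
                congrArg (fun t => monomial b 1 * t) e2
            _ = _ := by ring
        rw [e3]
        have hbn : b.degree < n := by omega
        have hb1 : (monomial b (1 : ℂ) : MvPolynomial T ℂ).totalDegree ≤ b.degree := by
          refine (totalDegree_monomial_le _ _).trans ?_
          rw [Finsupp.degree_eq_sum, Finsupp.sum_fintype _ _ (fun _ => rfl)]
          exact le_rfl
        refine N.sub_mem ?_ ?_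
        · exact hmul _ (S.mul_mem (hCS _) (hGS i)) _ (ih b.degree hbn _ hb1)
        · refine hmul _ (hCS _) _ ?_
          have h1 := hG i
          have h2 : ((G i - C s * X i ^ k) * monomial b 1).totalDegree ≤ n - 1 := by
            refine (totalDegree_mul _ _).trans ?_
            omega
          exact ih (n - 1) (by omega) _ h2
    intro p hp
    rw [p.as_sum]
    refine N.sum_mem fun a ha => ?_
    have e : (monomial a (coeff a p) : MvPolynomial T ℂ) = C (coeff a p) * monomial a 1 := by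
      rw [C_mul_monomial, mul_one]
    rw [e]
    refine hmul _ (hCS _) _ (mono a ?_)
    refine le_trans ?_ hp
    have := le_totalDegree ha
    rwa [Finsupp.degree_eq_sum, ← Finsupp.sum_fintype a (fun _ e => e) (fun _ => rfl)]

theorem prf_A1 : S_A1 := by
  classical
  intro T _ k G h
  set φ := (aeval G : MvPolynomial T ℂ →ₐ[ℂ] MvPolynomial T ℂ) with hφ
  have hfin : ((fun a : T →₀ ℕ => (monomial a (1 : ℂ) : MvPolynomial T ℂ)) ''
      {a | ∀ i, a i < k}).Finite := by
    apply Set.Finite.image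
    apply Set.Finite.subset (Set.finite_Iic (Finsupp.equivFunOnFinite.symm fun _ : T => k))
    intro a ha i
    exact le_of_lt (ha i)
  have hM : Module.Finite φ.range (MvPolynomial T ℂ) := by
    refine ⟨⟨hfin.toFinset, ?_⟩⟩
    rw [Set.Finite.coe_toFinset, eq_top_iff]
    intro p _
    exact A1_span T k G h p.totalDegree p le_rfl
  have hI : Algebra.IsIntegral φ.range (MvPolynomial T ℂ) := Algebra.IsIntegral.of_finite _ _
  have h1 : (algebraMap φ.range (MvPolynomial T ℂ)).IsIntegral := fun x => hI.isIntegral x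
  have h2 : (φ.rangeRestrict.toRingHom).IsIntegral :=
    RingHom.isIntegral_of_surjective _ φ.rangeRestrict_surjective
  exact RingHom.IsIntegral.trans _ _ h2 h1

end Pool.Agent.H5

end

section

set_option autoImplicit false

namespace Pool.Agent.H5

open MvPolynomial

theorem prf_A2 : S_A2 := by
  intro T _ G hG
  classical
  have hr : Algebra.adjoin ℂ (Set.range G) =
      (aeval G : MvPolynomial T ℂ →ₐ[ℂ] MvPolynomial T ℂ).range :=
    Algebra.adjoin_range_eq_range_aeval ℂ G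
  have hint : Algebra.IsAlgebraic (Algebra.adjoin ℂ (Set.range G)) (MvPolynomial T ℂ) := by
    constructor
    intro x
    apply IsIntegral.isAlgebraic
    obtain ⟨P, hP, hPx⟩ := hG x
    let φ : MvPolynomial T ℂ →+* Algebra.adjoin ℂ (Set.range G) :=
      (aeval G : MvPolynomial T ℂ →ₐ[ℂ] MvPolynomial T ℂ).toRingHom.codRestrict _ (by
        intro y
        rw [hr]
        exact ⟨y, rfl⟩)
    refine ⟨P.map φ, hP.map φ, ?_⟩
    rw [Polynomial.eval₂_map]
    exact hPx
  obtain ⟨t, ht, hb⟩ := exists_isTranscendenceBasis_subset (R := ℂ) (Set.range G)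
  have hc : Cardinal.mk t = Cardinal.mk T := by
    rw [hb.cardinalMk_eq_trdeg, MvPolynomial.trdeg_of_isDomain, Cardinal.lift_id]
  have hfin : (Set.range G).Finite := Set.finite_range G
  have htf : t.Finite := hfin.subset ht
  have h1 : t.ncard = Fintype.card T := by
    rw [← Nat.card_coe_set_eq, ← Nat.card_eq_fintype_card]
    unfold Nat.card
    rw [hc]
  have h2 : (Set.range G).ncard ≤ Fintype.card T := by
    rw [← Set.image_univ]
    refine (Set.ncard_image_le (Set.toFinite _)).trans ?_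
    rw [Set.ncard_univ, Nat.card_eq_fintype_card]
  have h3 : t = Set.range G := Set.eq_of_subset_of_ncard_le ht (h2.trans h1.ge) hfin
  have h4 : Function.Injective G := by
    have h5 : (G '' Set.univ).ncard = (Set.univ : Set T).ncard := by
      rw [Set.image_univ, ← h3, h1, Set.ncard_univ, Nat.card_eq_fintype_card]
    have h6 := Set.injOn_of_ncard_image_eq h5 (Set.toFinite _)
    exact Set.injOn_univ.1 h6
  have h7 : ∀ i, G i ∈ t := fun i => by rw [h3]; exact ⟨i, rfl⟩
  have h8 := hb.1.comp (fun i => (⟨G i, h7 i⟩ : t)) (fun i j hij => h4 (congrArg Subtype.val hij))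
  exact h8

end Pool.Agent.H5

end

section

/-!
# Item A3: values of `g` on the fibres of `G`
-/

open Topology Filter Set MvPolynomial

set_option autoImplicit false

namespace Pool.Agent.H5

theorem A3_minpoly {R S : Type} [CommRing R] [IsDomain R] [IsIntegrallyClosed R] [CommRing S]
    [IsDomain S] (φ : R →+* S) (hint : φ.IsIntegral) (hinj : Function.Injective φ) (g : S) :
    ∃ m : Polynomial R, m.Monic ∧ m.eval₂ φ g = 0 ∧
      ∀ p : Polynomial R, p.eval₂ φ g = 0 → m ∣ p := by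
  let _ := φ.toAlgebra
  have : FaithfulSMul R S := (faithfulSMul_iff_algebraMap_injective R S).2 hinj
  have : Module.IsTorsionFree R S := inferInstance
  have hg : IsIntegral R g := hint g
  refine ⟨minpoly R g, minpoly.monic hg, ?_, ?_⟩
  · have h := minpoly.aeval R g
    rw [Polynomial.aeval_def] at h
    exact h
  · intro p hp
    apply minpoly.isIntegrallyClosed_dvd hg
    rw [Polynomial.aeval_def]
    exact hp

theorem A3_lie {R S : Type} [CommRing R] [CommRing S] (φ : R →+* S) (hint : φ.IsIntegral) (g : S)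
    (m : Polynomial R) (hm : ∀ p : Polynomial R, p.eval₂ φ g = 0 → m ∣ p)
    (θ : R →+* ℂ) (hθ : Function.Surjective θ) (t : ℂ) (ht : m.eval₂ θ t = 0) :
    ∃ Q : Ideal S, Q.IsMaximal ∧ (∀ r, θ r = 0 → φ r ∈ Q) ∧ ∀ r, θ r = t → g - φ r ∈ Q := by
  have hψ : (Polynomial.eval₂RingHom φ g).IsIntegral := by
    apply RingHom.IsIntegral.tower_top (Polynomial.C : R →+* Polynomial R)
    have : (Polynomial.eval₂RingHom φ g).comp (Polynomial.C : R →+* Polynomial R) = φ := by
      ext r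
      simp
    rw [this]
    exact hint
  let _ := (Polynomial.eval₂RingHom φ g).toAlgebra
  have : Algebra.IsIntegral (Polynomial R) S := ⟨fun s => hψ s⟩
  have hsurj : Function.Surjective (Polynomial.eval₂RingHom θ t) := by
    intro c
    obtain ⟨r, hr⟩ := hθ c
    exact ⟨Polynomial.C r, by simp [hr]⟩
  have hmax : (RingHom.ker (Polynomial.eval₂RingHom θ t)).IsMaximal :=
    RingHom.ker_isMaximal_of_surjective _ hsurj
  obtain ⟨Q, hQ, hQP⟩ := Ideal.exists_ideal_over_maximal_of_isIntegral (S := S)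
    (RingHom.ker (Polynomial.eval₂RingHom θ t)) (by
      intro p hp
      have hp' : p.eval₂ φ g = 0 := hp
      obtain ⟨q, rfl⟩ := hm p hp'
      rw [RingHom.mem_ker, map_mul]
      have : (Polynomial.eval₂RingHom θ t) m = 0 := ht
      rw [this, zero_mul])
  have key : ∀ p : Polynomial R, p.eval₂ θ t = 0 → p.eval₂ φ g ∈ Q := by
    intro p hp
    have h1 : p ∈ RingHom.ker (Polynomial.eval₂RingHom θ t) := hp
    rw [← hQP] at h1
    exact h1
  refine ⟨Q, hQ, ?_, ?_⟩
  · intro r hr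
    have := key (Polynomial.C r) (by simp [hr])
    simpa using this
  · intro r hr
    have := key (Polynomial.X - Polynomial.C r) (by simp [hr])
    simpa using this

theorem prf_A3 : S_A3 := by
  intro T _ G hint hinj g
  obtain ⟨m, hm1, hm2, hm3⟩ := A3_minpoly
    (aeval G : MvPolynomial T ℂ →ₐ[ℂ] MvPolynomial T ℂ).toRingHom hint hinj g
  refine ⟨m, hm1, ?_, ?_⟩
  · intro x
    have h := congrArg (eval x) hm2
    rw [map_zero, Polynomial.hom_eval₂] at h
    rw [Polynomial.eval_map]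
    have h2 : (eval x).comp (aeval G : MvPolynomial T ℂ →ₐ[ℂ] MvPolynomial T ℂ).toRingHom =
        eval fun i => eval x (G i) := by
      apply MvPolynomial.ringHom_ext
      · intro r
        simp
      · intro i
        simp
    rw [h2] at h
    exact h
  · intro w t ht
    rw [Polynomial.eval_map] at ht
    obtain ⟨Q, hQ, h1, h2⟩ := A3_lie _ hint g m hm3 (eval w)
      (fun c => ⟨C c, by simp⟩) t ht
    obtain ⟨x, rfl⟩ := MvPolynomial.isMaximal_iff_eq_vanishingIdeal_singleton.1 hQ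
    refine ⟨x, ?_, ?_⟩
    · intro i
      have h3 := h1 (X i - C (w i)) (by simp)
      rw [MvPolynomial.mem_vanishingIdeal_singleton_iff] at h3
      have h4 : eval x (G i) - w i = 0 := by simpa using h3
      exact sub_eq_zero.1 h4
    · have h3 := h2 (C t) (by simp)
      rw [MvPolynomial.mem_vanishingIdeal_singleton_iff] at h3
      have h4 : eval x g - t = 0 := by simpa using h3
      exact sub_eq_zero.1 h4

end Pool.Agent.H5

end

section

/-!
# Item A4: properness of a polynomial map with leading part `s X_i ^ k`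
-/

open Topology Filter Set MvPolynomial

set_option autoImplicit false

namespace Pool.Agent.H5

/-- values of polynomials of total degree `< k` grow at most like the power `k - 1` -/
theorem A4_bound {T : Type} [Fintype T] (k : ℕ) (hk : 1 ≤ k) (p : MvPolynomial T ℂ)
    (hp : p.totalDegree < k) : ∃ C : ℝ, 0 ≤ C ∧ ∀ (x : T → ℂ) (r : ℝ), 1 ≤ r →
      (∀ i, ‖x i‖ ≤ r) → ‖eval x p‖ ≤ C * r ^ (k - 1) := by
  classical
  refine ⟨∑ m ∈ p.support, ‖p.coeff m‖, Finset.sum_nonneg fun _ _ => norm_nonneg _, ?_⟩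
  intro x r hr hx
  rw [eval_eq, Finset.sum_mul]
  refine (norm_sum_le _ _).trans (Finset.sum_le_sum ?_)
  intro m hm
  rw [norm_mul]
  refine mul_le_mul_of_nonneg_left ?_ (norm_nonneg _)
  rw [norm_prod]
  have h1 : ∏ i ∈ m.support, ‖x i ^ m i‖ ≤ ∏ i ∈ m.support, r ^ m i := by
    refine Finset.prod_le_prod (fun _ _ => norm_nonneg _) ?_
    intro i _
    rw [norm_pow]
    exact pow_le_pow_left₀ (norm_nonneg _) (hx i) _
  refine h1.trans ?_
  rw [Finset.prod_pow_eq_pow_sum]
  refine pow_le_pow_right₀ hr ?_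
  have h2 : (∑ i ∈ m.support, m i) ≤ p.totalDegree := le_totalDegree hm
  omega

/-- A4 -/
theorem prf_A4 : S_A4 := by
  intro T _ k G hG R
  obtain ⟨hk, s, hs, hdeg⟩ := hG
  have hs0 : 0 < ‖s‖ := norm_pos_iff.mpr hs
  choose C hC0 hC using fun i => A4_bound k hk (G i - MvPolynomial.C s * X i ^ k) (hdeg i)
  refine ⟨max 1 ((max R 0 + ∑ i, C i) / ‖s‖), ?_⟩
  intro x hx i
  -- a coordinate of largest norm
  obtain ⟨i₀, -, hi₀⟩ := Finset.exists_max_image Finset.univ (fun j => ‖x j‖) ⟨i, Finset.mem_univ i⟩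
  refine (hi₀ i (Finset.mem_univ i)).trans ?_
  by_cases h1 : ‖x i₀‖ ≤ 1
  · exact h1.trans (le_max_left _ _)
  refine le_trans ?_ (le_max_right _ _)
  rw [le_div_iff₀ hs0]
  have hr : 1 ≤ ‖x i₀‖ := (not_le.mp h1).le
  have hr0 : 0 < ‖x i₀‖ := lt_of_lt_of_le one_pos hr
  have h2 := hC i₀ x ‖x i₀‖ hr fun j => hi₀ j (Finset.mem_univ j)
  have h3 : eval x (G i₀ - MvPolynomial.C s * X i₀ ^ k) = eval x (G i₀) - s * x i₀ ^ k := by
    simp
  rw [h3] at h2
  have h4 : ‖s * x i₀ ^ k‖ ≤ ‖eval x (G i₀)‖ + ‖eval x (G i₀) - s * x i₀ ^ k‖ := by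
    have := norm_sub_le (eval x (G i₀)) (eval x (G i₀) - s * x i₀ ^ k)
    simpa using this
  rw [norm_mul, norm_pow] at h4
  have hpow : (1 : ℝ) ≤ ‖x i₀‖ ^ (k - 1) := one_le_pow₀ hr
  have hpow0 : (0 : ℝ) < ‖x i₀‖ ^ (k - 1) := pow_pos hr0 _
  have hk1 : ‖x i₀‖ ^ k = ‖x i₀‖ ^ (k - 1) * ‖x i₀‖ := by
    rw [← pow_succ]
    congr 1
    omega
  have h5 : C i₀ ≤ ∑ j, C j := Finset.single_le_sum (fun j _ => hC0 j) (Finset.mem_univ i₀)
  have h6 : ‖eval x (G i₀)‖ ≤ max R 0 := (hx i₀).trans (le_max_left _ _)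
  have h7 : max R 0 ≤ max R 0 * ‖x i₀‖ ^ (k - 1) :=
    le_mul_of_one_le_right (le_max_right _ _) hpow
  have h8 : ‖s‖ * ‖x i₀‖ * ‖x i₀‖ ^ (k - 1) ≤ (max R 0 + ∑ j, C j) * ‖x i₀‖ ^ (k - 1) := by
    have h9 : C i₀ * ‖x i₀‖ ^ (k - 1) ≤ (∑ j, C j) * ‖x i₀‖ ^ (k - 1) :=
      mul_le_mul_of_nonneg_right h5 hpow0.le
    calc ‖s‖ * ‖x i₀‖ * ‖x i₀‖ ^ (k - 1) = ‖s‖ * ‖x i₀‖ ^ k := by rw [hk1]; ring
      _ ≤ max R 0 * ‖x i₀‖ ^ (k - 1) + (∑ j, C j) * ‖x i₀‖ ^ (k - 1) := by
          linarith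
      _ = (max R 0 + ∑ j, C j) * ‖x i₀‖ ^ (k - 1) := by ring
  have h10 := le_of_mul_le_mul_right h8 hpow0
  linarith

end Pool.Agent.H5

end

section

/-!
# A5: the map `G` is open
-/

open Topology Filter Set MvPolynomial

set_option autoImplicit false

namespace Pool.Agent.H5

theorem A5_prod (s : Multiset ℂ) (c : ℝ) (hc : 0 ≤ c) (h : ∀ r ∈ s, c ≤ ‖r‖) :
    c ^ Multiset.card s ≤ ‖(s.map fun r => (0 : ℂ) - r).prod‖ := by
  induction s using Multiset.induction with
  | empty => simp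
  | cons a s ih =>
    rw [Multiset.map_cons, Multiset.prod_cons, norm_mul, Multiset.card_cons, pow_succ, mul_comm]
    have h1 := ih fun r hr => h r (Multiset.mem_cons_of_mem hr)
    have h2 : c ≤ ‖(0 : ℂ) - a‖ := by
      rw [zero_sub, norm_neg]
      exact h a (Multiset.mem_cons_self a s)
    exact mul_le_mul h2 h1 (pow_nonneg hc _) (norm_nonneg _)

theorem A5_root (q : Polynomial ℂ) (hq : q.Monic) (hd : q.natDegree ≠ 0) :
    ∃ t : ℂ, q.eval t = 0 ∧ ‖t‖ ^ q.natDegree ≤ ‖q.eval 0‖ := by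
  have hs : q.Splits := IsAlgClosed.splits q
  have hcard := hs.natDegree_eq_card_roots
  have hne : q.roots.toFinset.Nonempty := by
    rw [Finset.nonempty_iff_ne_empty]
    intro h
    rw [Multiset.toFinset_eq_empty] at h
    rw [h] at hcard
    exact hd hcard
  obtain ⟨t, ht, hmin⟩ := Finset.exists_min_image q.roots.toFinset (fun r => ‖r‖) hne
  rw [Multiset.mem_toFinset] at ht
  refine ⟨t, (Polynomial.mem_roots'.1 ht).2, ?_⟩
  rw [hs.eval_eq_prod_roots_of_monic hq, hcard]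
  exact A5_prod _ _ (norm_nonneg _) fun r hr => hmin r (Multiset.mem_toFinset.2 hr)

theorem A5_sep (T : Type) [Fintype T] (x0 z : T → ℂ) (h : z ≠ x0) :
    ∃ l : MvPolynomial T ℂ, eval x0 l = 1 ∧ eval z l = 0 := by
  obtain ⟨i, hi⟩ := Function.ne_iff.1 h
  refine ⟨(X i - C (z i)) * C ((x0 i - z i)⁻¹), ?_, ?_⟩
  · simp only [map_mul, map_sub, eval_X, eval_C]
    exact mul_inv_cancel₀ (sub_ne_zero.2 (Ne.symm hi))
  · simp

theorem A5_cont (T : Type) [Fintype T] (p : MvPolynomial T ℂ) :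
    Continuous fun x : T → ℂ => eval x p := MvPolynomial.continuous_eval p

theorem prf_A5 (h1 : S_A1) (h2 : S_A2) (h3 : S_A3) (h4 : S_A4) : S_A5 := by
  intro T _ k G hG
  have hi := h1 T k G hG
  have hj := h2 T G hi
  have hm := h3 T G hi hj
  set F : (T → ℂ) → T → ℂ := fun x i => eval x (G i) with hF
  have hFc : Continuous F := continuous_pi fun i => A5_cont T (G i)
  rw [isOpenMap_iff_nhds_le]
  intro x0 S hS
  rw [Filter.mem_map] at hS
  by_contra hcon
  -- the fibre is finite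
  have hfib : {x | F x = F x0}.Finite := by
    choose m hm1 hm2 hm3 using fun i : T => hm (X i)
    refine Set.Finite.subset (Set.Finite.pi' (t := fun i =>
      {t : ℂ | ((m i).map (eval (F x0))).IsRoot t}) fun i => ?_) ?_
    · exact Polynomial.finite_setOfPred_isRoot ((hm1 i).map _).ne_zero
    · intro x hx i
      have h5 := hm2 i x
      rw [eval_X] at h5
      have h6 : (fun i => eval x (G i)) = F x0 := hx
      rw [h6] at h5
      exact h5
  -- the separating polynomial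
  obtain ⟨g, hg0, hg1⟩ : ∃ g : MvPolynomial T ℂ, eval x0 g = 0 ∧
      ∀ z, F z = F x0 → eval z g = 0 → z = x0 := by
    choose! l hl1 hl2 using A5_sep T x0
    refine ⟨1 - ∏ z ∈ hfib.toFinset.filter (fun z => z ≠ x0), l z, ?_, ?_⟩
    · rw [map_sub, map_one, map_prod, Finset.prod_eq_one, sub_self]
      intro z hz
      exact hl1 z (Finset.mem_filter.1 hz).2
    · intro z hz h0
      by_contra hzx
      rw [map_sub, map_one, map_prod, Finset.prod_eq_zero (i := z), sub_zero] at h0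
      · exact one_ne_zero h0
      · rw [Finset.mem_filter, Set.Finite.mem_toFinset]
        exact ⟨hz, hzx⟩
      · exact hl2 z hzx
  obtain ⟨m, hm1, hm2, hm3⟩ := hm g
  -- the sequence
  have hcl : F x0 ∈ closure Sᶜ := by
    rw [closure_compl, Set.mem_compl_iff, mem_interior_iff_mem_nhds]
    exact hcon
  obtain ⟨w, hwS, hw⟩ := mem_closure_iff_seq_limit.1 hcl
  have hdeg : ∀ v : T → ℂ, (m.map (eval v)).natDegree = m.natDegree := fun v =>
    hm1.natDegree_map _
  have hd : m.natDegree ≠ 0 := by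
    intro h
    have h5 : m = 1 := Polynomial.eq_one_of_monic_natDegree_zero hm1 h
    have h6 := hm2 x0
    rw [h5] at h6
    simp at h6
  have hx : ∀ n, ∃ x : T → ℂ, F x = w n ∧
      ‖eval x g‖ ^ m.natDegree ≤ ‖(m.map (eval (w n))).eval 0‖ := by
    intro n
    obtain ⟨t, ht, htn⟩ := A5_root (m.map (eval (w n))) (hm1.map _) (by rw [hdeg]; exact hd)
    obtain ⟨x, hx1, hx2⟩ := hm3 (w n) t ht
    refine ⟨x, funext hx1, ?_⟩
    rw [hx2, ← hdeg (w n)]
    exact htn
  choose x hxF hxg using hx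
  have hval : Tendsto (fun n => ‖(m.map (eval (w n))).eval 0‖) atTop (𝓝 0) := by
    have h5 : ∀ v : T → ℂ, (m.map (eval v)).eval 0 = eval v (m.coeff 0) := by
      intro v
      rw [← Polynomial.coeff_zero_eq_eval_zero, Polynomial.coeff_map]
    have h6 : (m.map (eval (F x0))).eval 0 = 0 := by
      have h7 := hm2 x0
      rw [hg0] at h7
      exact h7
    rw [h5] at h6
    simp only [h5]
    have h8 : Tendsto (fun n => eval (w n) (m.coeff 0)) atTop (𝓝 (eval (F x0) (m.coeff 0))) :=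
      ((A5_cont T (m.coeff 0)).tendsto (F x0)).comp hw
    rw [h6] at h8
    have h9 := h8.norm
    rwa [norm_zero] at h9
  -- boundedness
  obtain ⟨R, hR⟩ : ∃ R : ℝ, ∀ n i, ‖w n i‖ ≤ R := by
    obtain ⟨R, hR⟩ := (Metric.isBounded_range_of_tendsto w hw).exists_norm_le
    exact ⟨R, fun n i => (norm_le_pi_norm (w n) i).trans (hR _ ⟨n, rfl⟩)⟩
  obtain ⟨R', hR'⟩ := h4 T k G hG R
  have hxb : ∀ n, x n ∈ Set.pi Set.univ fun _ : T => Metric.closedBall (0 : ℂ) R' := by
    intro n i _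
    rw [mem_closedBall_zero_iff]
    refine hR' (x n) (fun j => ?_) i
    have h5 := congrFun (hxF n) j
    have h6 : eval (x n) (G j) = w n j := h5
    rw [h6]
    exact hR n j
  have hK : IsCompact (Set.pi Set.univ fun _ : T => Metric.closedBall (0 : ℂ) R') :=
    isCompact_univ_pi fun _ => isCompact_closedBall _ _
  obtain ⟨y, _, φ, hφ, hy⟩ := hK.tendsto_subseq hxb
  have hFy : F y = F x0 := by
    have h5 : Tendsto (fun n => F (x (φ n))) atTop (𝓝 (F y)) := (hFc.tendsto y).comp hy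
    have h6 : Tendsto (fun n => F (x (φ n))) atTop (𝓝 (F x0)) := by
      simp only [hxF]
      exact hw.comp hφ.tendsto_atTop
    exact tendsto_nhds_unique h5 h6
  have hgy : eval y g = 0 := by
    have h5 : Tendsto (fun n => ‖eval (x (φ n)) g‖ ^ m.natDegree) atTop
        (𝓝 (‖eval y g‖ ^ m.natDegree)) :=
      ((((A5_cont T g).tendsto y).comp hy).norm).pow _
    have h6 : Tendsto (fun n => ‖eval (x (φ n)) g‖ ^ m.natDegree) atTop (𝓝 0) :=
      squeeze_zero (fun n => pow_nonneg (norm_nonneg _) _) (fun n => hxg (φ n))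
        (hval.comp hφ.tendsto_atTop)
    have h7 := tendsto_nhds_unique h5 h6
    have h8 := (pow_eq_zero_iff hd).1 h7
    exact norm_eq_zero.1 h8
  have hyx := hg1 y hFy hgy
  rw [hyx] at hy
  have h5 : ∀ᶠ n in atTop, x (φ n) ∈ F ⁻¹' S := hy hS
  obtain ⟨n, hn⟩ := h5.exists
  rw [Set.mem_preimage, hxF] at hn
  exact hwS (φ n) hn

end Pool.Agent.H5

end

section

/-!
# A6: no strict local maximum of `Re Φ` on few equations
-/

open Topology Filter Set MvPolynomial

set_option autoImplicit false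

namespace Pool.Agent.H5

theorem A6_ball {T : Type} [Fintype T] (f : (T → ℂ) → (T → ℂ)) (hf : Continuous f)
    (ho : IsOpenMap f) (p : T → ℂ) (ρ δ : ℝ) (hρ : 0 < ρ) (hδ : 0 < δ) (hp : f p = 0)
    (hS : ∀ x, dist x p = ρ → δ ≤ ‖f x‖) (w : T → ℂ) (hw : ‖w‖ < δ) :
    ∃ x ∈ Metric.closedBall p ρ, f x = w := by
  by_contra hne
  push Not at hne
  have hpre : IsPreconnected (Metric.ball (0 : T → ℂ) δ) := (convex_ball 0 δ).isPreconnected
  have hu : IsOpen (f '' Metric.ball p ρ) := ho _ Metric.isOpen_ball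
  have hv : IsOpen (f '' Metric.closedBall p ρ)ᶜ :=
    ((isCompact_closedBall p ρ).image hf).isClosed.isOpen_compl
  have hcov : Metric.ball (0 : T → ℂ) δ ⊆ f '' Metric.ball p ρ ∪ (f '' Metric.closedBall p ρ)ᶜ := by
    intro y hy
    by_cases h : y ∈ f '' Metric.closedBall p ρ
    · left
      obtain ⟨x, hx, rfl⟩ := h
      refine ⟨x, ?_, rfl⟩
      rw [Metric.mem_ball]
      rcases lt_or_eq_of_le (Metric.mem_closedBall.1 hx) with h1 | h1
      · exact h1
      · exfalso
        have h2 := hS x h1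
        rw [mem_ball_zero_iff] at hy
        linarith
    · right; exact h
  obtain ⟨y, _, ⟨x, hx, hxy⟩, hy2⟩ := hpre _ _ hu hv hcov
    ⟨0, by rw [mem_ball_zero_iff, norm_zero]; exact hδ, p, Metric.mem_ball_self hρ, hp⟩
    ⟨w, by rwa [mem_ball_zero_iff], by
      rintro ⟨x, hx, hxw⟩
      exact hne x hx hxw⟩
  exact hy2 ⟨x, Metric.ball_subset_closedBall hx, hxy⟩

theorem prf_A6 (_h4 : S_A4) (h5 : S_A5) : S_A6 := by
  intro T _ r hr F Φ p hFp U hU
  by_contra hcon
  push Not at hcon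
  classical
  -- the map G
  set m := Fintype.card T with hm
  let e : T ≃ Fin m := Fintype.equivFin T
  let G : T → MvPolynomial T ℂ := fun i =>
    if h : (e i).val < r then F ⟨(e i).val, h⟩ else
      if (e i).val + 1 = m then Φ - C (eval p Φ) else 0
  let j0 : T := e.symm ⟨m - 1, by omega⟩
  have hj0 : (e j0).val = m - 1 := by simp [j0]
  have hGF : ∀ k : Fin r, G (e.symm ⟨k.val, by omega⟩) = F k := by
    intro k
    simp [G]
  have hGΦ : G j0 = Φ - C (eval p Φ) := by
    have h1 : ¬ ((e j0).val < r) := by omega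
    have h2 : (e j0).val + 1 = m := by omega
    simp only [G]
    rw [dif_neg h1, if_pos h2]
  let Gf : (T → ℂ) → (T → ℂ) := fun x i => eval x (G i)
  have hGc : Continuous Gf := by
    refine continuous_pi fun i => ?_
    exact MvPolynomial.continuous_eval (G i)
  have hGp : Gf p = 0 := by
    funext i
    show eval p (G i) = 0
    simp only [G]
    split_ifs with h1 h2
    · exact hFp _
    · simp
    · simp
  obtain ⟨ρ, hρ, hball⟩ := Metric.nhds_basis_closedBall.mem_iff.1 hU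
  have hzero : ∀ x ∈ Metric.closedBall p ρ, Gf x = 0 → x = p := by
    intro x hx h0
    by_contra hne
    have hF : ∀ k, eval x (F k) = 0 := by
      intro k
      rw [← hGF k]
      exact congrFun h0 _
    have hΦ : eval x Φ = eval p Φ := by
      have h1 : eval x (G j0) = 0 := congrFun h0 j0
      rw [hGΦ] at h1
      simp only [map_sub, eval_C] at h1
      exact sub_eq_zero.1 h1
    have h2 := hcon x (hball hx) hne hF
    rw [hΦ] at h2
    exact lt_irrefl _ h2
  -- the lower bound on the sphere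
  obtain ⟨δ, hδ, hS⟩ : ∃ δ : ℝ, 0 < δ ∧ ∀ x, dist x p = ρ → 2 * δ ≤ ‖Gf x‖ := by
    by_cases hne : (Metric.sphere p ρ).Nonempty
    · obtain ⟨x0, hx0, hmin⟩ := (isCompact_sphere p ρ).exists_isMinOn hne
        (hGc.norm.continuousOn)
      have hpos : 0 < ‖Gf x0‖ := by
        rw [norm_pos_iff]
        intro h
        have h1 := hzero x0 (Metric.sphere_subset_closedBall hx0) h
        rw [h1, mem_sphere_iff_norm, sub_self, norm_zero] at hx0
        linarith
      refine ⟨‖Gf x0‖ / 2, by linarith, ?_⟩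
      intro x hx
      have h2 : ‖Gf x0‖ ≤ ‖Gf x‖ := hmin (Metric.mem_sphere.2 hx)
      linarith
    · refine ⟨1, one_pos, ?_⟩
      intro x hx
      exact absurd ⟨x, Metric.mem_sphere.2 hx⟩ hne
  -- the perturbation
  let k : ℕ := 1 + Finset.univ.sup fun i => (G i).totalDegree
  have hk : ∀ i, (G i).totalDegree < k := by
    intro i
    have h1 : (G i).totalDegree ≤ Finset.univ.sup fun i => (G i).totalDegree :=
      Finset.le_sup (f := fun i => (G i).totalDegree) (Finset.mem_univ i)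
    show (G i).totalDegree < 1 + Finset.univ.sup fun i => (G i).totalDegree
    omega
  let Gs : ℝ → T → MvPolynomial T ℂ := fun s i =>
    G i + C (s : ℂ) * (X i ^ k - C (p i ^ k))
  have hLead : ∀ s : ℝ, 0 < s → Lead T k (Gs s) := by
    intro s hs
    refine ⟨by show 1 ≤ 1 + _; omega, (s : ℂ), by exact_mod_cast hs.ne', ?_⟩
    intro i
    have h1 : Gs s i - C (s : ℂ) * X i ^ k = G i - C ((s : ℂ) * p i ^ k) := by
      show G i + C (s : ℂ) * (X i ^ k - C (p i ^ k)) - C (s : ℂ) * X i ^ k = _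
      rw [C_mul]
      ring
    rw [h1]
    refine lt_of_le_of_lt (totalDegree_sub _ _) ?_
    rw [totalDegree_C, max_eq_left (Nat.zero_le _)]
    exact hk i
  let Bd : ℝ := (‖p‖ + ρ) ^ k + ‖p‖ ^ k + 1
  have hBd : 0 < Bd := by positivity
  have hclose : ∀ s : ℝ, 0 < s → ∀ x ∈ Metric.closedBall p ρ,
      ‖(fun i => eval x (Gs s i)) - Gf x‖ ≤ s * Bd := by
    intro s hs x hx
    rw [pi_norm_le_iff_of_nonneg (by positivity)]
    intro i
    have h1 : (fun i => eval x (Gs s i)) i - Gf x i = (s : ℂ) * (x i ^ k - p i ^ k) := by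
      show eval x (G i + C (s : ℂ) * (X i ^ k - C (p i ^ k))) - eval x (G i) = _
      simp
    rw [Pi.sub_apply, h1, norm_mul]
    have h2 : ‖(s : ℂ)‖ = s := by
      rw [Complex.norm_real, Real.norm_eq_abs, abs_of_pos hs]
    rw [h2]
    refine mul_le_mul_of_nonneg_left ?_ hs.le
    refine (norm_sub_le _ _).trans ?_
    rw [norm_pow, norm_pow]
    have h3 : ‖x i‖ ≤ ‖p‖ + ρ := by
      have h4 : ‖x i‖ ≤ ‖x‖ := norm_le_pi_norm x i
      have h5 : ‖x‖ ≤ ‖p‖ + ρ := by
        have h6 : ‖x - p‖ ≤ ρ := by rw [← dist_eq_norm]; exact Metric.mem_closedBall.1 hx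
        have h7 : x = p + (x - p) := by abel
        calc ‖x‖ = ‖p + (x - p)‖ := by rw [← h7]
          _ ≤ ‖p‖ + ‖x - p‖ := norm_add_le _ _
          _ ≤ ‖p‖ + ρ := by linarith
      exact h4.trans h5
    have h8 : ‖p i‖ ≤ ‖p‖ := norm_le_pi_norm p i
    have h9 : ‖x i‖ ^ k ≤ (‖p‖ + ρ) ^ k := pow_le_pow_left₀ (norm_nonneg _) h3 k
    have h10 : ‖p i‖ ^ k ≤ ‖p‖ ^ k := pow_le_pow_left₀ (norm_nonneg _) h8 k
    show ‖x i‖ ^ k + ‖p i‖ ^ k ≤ (‖p‖ + ρ) ^ k + ‖p‖ ^ k + 1
    linarith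
  -- the target
  let w : T → ℂ := fun i => if i = j0 then ((δ / 2 : ℝ) : ℂ) else 0
  have hw : ‖w‖ ≤ δ / 2 := by
    rw [pi_norm_le_iff_of_nonneg (by positivity)]
    intro i
    show ‖(if i = j0 then ((δ / 2 : ℝ) : ℂ) else 0)‖ ≤ δ / 2
    split_ifs
    · rw [Complex.norm_real, Real.norm_eq_abs, abs_of_pos (by positivity)]
    · rw [norm_zero]; positivity
  have hmem : w ∈ closure (Gf '' Metric.closedBall p ρ) := by
    rw [Metric.mem_closure_iff]
    intro ε hε
    let s : ℝ := min δ (ε / 2) / Bd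
    have hs : 0 < s := by positivity
    have hsB : s * Bd = min δ (ε / 2) := by
      show min δ (ε / 2) / Bd * Bd = _
      field_simp
    let f : (T → ℂ) → (T → ℂ) := fun x i => eval x (Gs s i)
    have hfc : Continuous f := continuous_pi fun i => MvPolynomial.continuous_eval (Gs s i)
    have hfo : IsOpenMap f := h5 T k (Gs s) (hLead s hs)
    have hfp : f p = 0 := by
      funext i
      show eval p (G i + C (s : ℂ) * (X i ^ k - C (p i ^ k))) = 0
      have h1 : eval p (G i) = 0 := congrFun hGp i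
      simp [h1]
    have hfS : ∀ x, dist x p = ρ → δ ≤ ‖f x‖ := by
      intro x hx
      have h1 := hclose s hs x (Metric.mem_closedBall.2 hx.le)
      have h2 := hS x hx
      have h3 : ‖Gf x‖ ≤ ‖f x‖ + ‖f x - Gf x‖ := by
        have h4 : Gf x = f x - (f x - Gf x) := by abel
        calc ‖Gf x‖ = ‖f x - (f x - Gf x)‖ := by rw [← h4]
          _ ≤ _ := norm_sub_le _ _
      have h5 : ‖f x - Gf x‖ ≤ δ := by
        refine h1.trans ?_
        rw [hsB]
        exact min_le_left _ _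
      linarith
    obtain ⟨x, hx, hxw⟩ := A6_ball f hfc hfo p ρ δ hρ hδ hfp hfS w (by linarith)
    refine ⟨Gf x, ⟨x, hx, rfl⟩, ?_⟩
    have h1 := hclose s hs x hx
    rw [hsB] at h1
    have h2 : ‖w - Gf x‖ ≤ ε / 2 := by
      rw [← hxw]
      exact h1.trans (min_le_right _ _)
    rw [dist_eq_norm]
    linarith
  have hcl : IsClosed (Gf '' Metric.closedBall p ρ) :=
    ((isCompact_closedBall p ρ).image hGc).isClosed
  rw [hcl.closure_eq] at hmem
  obtain ⟨x, hx, hxw⟩ := hmem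
  have hΦx : eval x Φ - eval p Φ = ((δ / 2 : ℝ) : ℂ) := by
    have h1 : eval x (G j0) = w j0 := congrFun hxw j0
    rw [hGΦ] at h1
    simp only [map_sub, eval_C] at h1
    rw [h1]
    show (if j0 = j0 then ((δ / 2 : ℝ) : ℂ) else 0) = _
    rw [if_pos rfl]
  have hFx : ∀ k, eval x (F k) = 0 := by
    intro k
    rw [← hGF k]
    have h1 : eval x (G (e.symm ⟨k.val, by omega⟩)) = w (e.symm ⟨k.val, by omega⟩) :=
      congrFun hxw _
    rw [h1]
    show (if e.symm ⟨k.val, by omega⟩ = j0 then ((δ / 2 : ℝ) : ℂ) else 0) = 0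
    rw [if_neg]
    intro h2
    have h3 := congrArg (fun t => (e t).val) h2
    simp only [Equiv.apply_symm_apply] at h3
    have := k.isLt
    omega
  have hre : (eval x Φ).re = (eval p Φ).re + δ / 2 := by
    have h1 := congrArg Complex.re hΦx
    rw [Complex.sub_re, Complex.ofReal_re] at h1
    linarith
  have hxp : x ≠ p := by
    rintro rfl
    linarith
  have h := hcon x (hball hx) hxp hFx
  linarith

end Pool.Agent.H5

end

section

/-!
# A7: the maximum principle from A6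
-/

open Topology Filter Set MvPolynomial

set_option autoImplicit false

namespace Pool.Agent.H5

theorem A7_re (a b : ℂ) :
    2 * ((starRingEnd ℂ) a * b).re = ‖a‖ ^ 2 + ‖b‖ ^ 2 - ‖b - a‖ ^ 2 := by
  rw [Complex.sq_norm, Complex.sq_norm, Complex.sq_norm, Complex.normSq_apply,
    Complex.normSq_apply, Complex.normSq_apply]
  simp only [Complex.mul_re, Complex.conj_re, Complex.conj_im, Complex.sub_re, Complex.sub_im]
  ring

theorem prf_A7 (h6 : S_A6) : S_A7 := by
  classical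
  intro T _ r hr F h U hU hUb p hpU hpF
  by_contra hcon
  push Not at hcon
  set Z : Set (T → ℂ) := {x | ∀ k, eval x (F k) = 0} with hZ
  set K : Set (T → ℂ) := closure (Z ∩ U) with hK
  have hcont : ∀ g : MvPolynomial T ℂ, Continuous fun x : T → ℂ => eval x g := fun g =>
    MvPolynomial.continuous_eval g
  have hZc : IsClosed Z := by
    rw [hZ, Set.ofPred_forall]
    exact isClosed_iInter fun k => isClosed_eq (hcont (F k)) continuous_const
  have hKZ : K ⊆ Z := closure_minimal inter_subset_left hZc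
  have hKc : IsCompact K :=
    Metric.isCompact_of_isClosed_isBounded isClosed_closure (hUb.subset inter_subset_right).closure
  have hpK : p ∈ K := subset_closure ⟨hpF, hpU⟩
  have hBc : IsCompact (K ∩ Uᶜ) := hKc.inter_right hU.isClosed_compl
  let N : (T → ℂ) → ℝ := fun x => ∑ i, ‖x i‖ ^ 2
  have hNc : Continuous N := continuous_finsetSum _ fun i _ =>
    ((continuous_apply i).norm).pow 2
  have hN0 : ∀ x, 0 ≤ N x := fun x => Finset.sum_nonneg fun i _ => sq_nonneg _
  have hhc : Continuous fun x : T → ℂ => ‖eval x h‖ ^ 2 := (hcont h).norm.pow 2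
  -- the constant η
  obtain ⟨η, hη, hηlt⟩ : ∃ η : ℝ, 0 < η ∧
      ∀ x ∈ K ∩ Uᶜ, ‖eval x h‖ ^ 2 + η * N x < ‖eval p h‖ ^ 2 := by
    by_cases hne : (K ∩ Uᶜ).Nonempty
    · obtain ⟨x0, hx0, hmax⟩ := hBc.exists_isMaxOn hne hhc.continuousOn
      obtain ⟨x1, hx1, hmax1⟩ := hBc.exists_isMaxOn hne hNc.continuousOn
      have h0 : ‖eval x0 h‖ ^ 2 < ‖eval p h‖ ^ 2 := by
        have := hcon x0 hx0.1 hx0.2
        have h3 := norm_nonneg (eval x0 h)
        nlinarith
      set δ := ‖eval p h‖ ^ 2 - ‖eval x0 h‖ ^ 2 with hδ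
      have hδ0 : 0 < δ := by rw [hδ]; linarith
      have hR : 0 ≤ N x1 := hN0 x1
      refine ⟨δ / (N x1 + 1), by positivity, ?_⟩
      intro x hx
      have h1 : ‖eval x h‖ ^ 2 ≤ ‖eval x0 h‖ ^ 2 := hmax hx
      have h2 : N x ≤ N x1 := hmax1 hx
      have h3 : δ / (N x1 + 1) * N x < δ := by
        rw [div_mul_eq_mul_div, div_lt_iff₀ (by linarith)]
        nlinarith
      rw [hδ] at h3 ⊢
      linarith
    · refine ⟨1, one_pos, fun x hx => absurd ⟨x, hx⟩ hne⟩
  let φ : (T → ℂ) → ℝ := fun x => ‖eval x h‖ ^ 2 + η * N x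
  have hφc : Continuous φ := hhc.add (continuous_const.mul hNc)
  obtain ⟨q, hqK, hqmax⟩ := hKc.exists_isMaxOn ⟨p, hpK⟩ hφc.continuousOn
  have hφp : ‖eval p h‖ ^ 2 ≤ φ q := by
    have h1 : φ p ≤ φ q := hqmax hpK
    have h2 : 0 ≤ η * N p := mul_nonneg hη.le (hN0 p)
    have h3 : φ p = ‖eval p h‖ ^ 2 + η * N p := rfl
    linarith
  have hqU : q ∈ U := by
    by_contra hqU
    have := hηlt q ⟨hqK, hqU⟩
    have h3 : φ q = ‖eval q h‖ ^ 2 + η * N q := rfl
    linarith
  let Φ : MvPolynomial T ℂ :=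
    C ((starRingEnd ℂ) (eval q h)) * h + ∑ i, C ((η : ℂ) * (starRingEnd ℂ) (q i)) * X i
  obtain ⟨x, hxU, hxq, hxF, hle⟩ := h6 T r hr F Φ q (hKZ hqK) U (hU.mem_nhds hqU)
  have hxK : x ∈ K := subset_closure ⟨hxF, hxU⟩
  have hφx : φ x ≤ φ q := hqmax hxK
  have hval : ∀ y : T → ℂ, 2 * (eval y Φ).re =
      φ y + φ q - ‖eval y h - eval q h‖ ^ 2 - η * ∑ i, ‖y i - q i‖ ^ 2 := by
    intro y
    have e1 : eval y Φ = (starRingEnd ℂ) (eval q h) * eval y h +
        ∑ i, ((η : ℂ) * ((starRingEnd ℂ) (q i) * y i)) := by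
      simp only [Φ, map_add, map_mul, map_sum, eval_C, eval_X]
      congr 1
      exact Finset.sum_congr rfl fun i _ => by ring
    rw [e1, Complex.add_re, mul_add, A7_re, Complex.re_sum, Finset.mul_sum]
    have e2 : ∀ i ∈ Finset.univ, 2 * ((η : ℂ) * ((starRingEnd ℂ) (q i) * y i)).re =
        η * (‖q i‖ ^ 2) + η * (‖y i‖ ^ 2) - η * (‖y i - q i‖ ^ 2) := by
      intro i _
      rw [Complex.re_ofReal_mul]
      have := A7_re (q i) (y i)
      linear_combination η * this
    rw [Finset.sum_congr rfl e2, Finset.sum_sub_distrib, Finset.sum_add_distrib,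
      ← Finset.mul_sum, ← Finset.mul_sum, ← Finset.mul_sum]
    simp only [φ, N]
    ring
  have hq2 := hval q
  have hx2 := hval x
  simp only [sub_self, norm_zero, ne_eq, OfNat.ofNat_ne_zero, not_false_eq_true, zero_pow,
    Finset.sum_const_zero, mul_zero, sub_zero] at hq2
  have hpos : 0 < ∑ i, ‖x i - q i‖ ^ 2 := by
    obtain ⟨i, hi⟩ := Function.ne_iff.mp hxq
    refine Finset.sum_pos' (fun j _ => sq_nonneg _) ⟨i, Finset.mem_univ _, ?_⟩
    have : 0 < ‖x i - q i‖ := norm_pos_iff.mpr (sub_ne_zero.mpr hi)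
    positivity
  have hpos2 : 0 < η * ∑ i, ‖x i - q i‖ ^ 2 := mul_pos hη hpos
  have hsq : 0 ≤ ‖eval x h - eval q h‖ ^ 2 := sq_nonneg _
  linarith

end Pool.Agent.H5

end

section

/-!
# A8: the local maximum principle for finite towers
-/

open Topology Filter Set MvPolynomial

set_option autoImplicit false

namespace Pool.Agent.H5

theorem A8_eval_cont {T : Type} (p : MvPolynomial T ℂ) :
    Continuous fun y : T → ℂ => eval y p := MvPolynomial.continuous_eval p

theorem A8_aux (h7 : S_A7) (T : Type) [Fintype T] (Ω : Type) [LinearOrder Ω] [WellFoundedLT Ω]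
    (lev : T → Ω) (rt : T → Prop) (v : T → MvPolynomial T ℂ)
    (hv : ∀ j, rt j → ∀ y : T → ℂ, (∀ i, lev i < lev j → ‖y i‖ ≤ 1) → ‖eval y (v j)‖ ≤ 1)
    (q : ℕ) (f : Fin q → MvPolynomial T ℂ) (h : MvPolynomial T ℂ)
    (O : Set (T → ℂ)) (hO : IsOpen O) (n : ℕ) :
    ∀ x : T → ℂ, {a | ¬ rt a ∧ ‖x a‖ < 1}.ncard ≤ n →
      (∀ i, ‖x i‖ ≤ 1) → (∀ j, rt j → x j ^ 2 = eval x (v j)) → x ∈ O →
      ∃ x' : T → ℂ, (∀ i, ‖x' i‖ ≤ 1) ∧ (∀ j, rt j → x' j ^ 2 = eval x' (v j)) ∧
        x' ∈ closure (O ∩ {y | ∀ i, ‖y i‖ ≤ 1}) ∧ (∀ k, eval x' (f k) = eval x (f k)) ∧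
        ‖eval x h‖ ≤ ‖eval x' h‖ ∧
        (x' ∉ O ∨ {a | ¬ rt a ∧ ‖x' a‖ < 1}.encard < ((1 + q : ℕ) : ℕ∞)) := by
  classical
  induction n with
  | zero =>
    intro x hn hx hr hxO
    refine ⟨x, hx, hr, subset_closure ⟨hxO, hx⟩, fun _ => rfl, le_rfl, Or.inr ?_⟩
    rw [← Set.Finite.cast_ncard_eq (Set.toFinite _)]
    exact_mod_cast (by omega : {a | ¬ rt a ∧ ‖x a‖ < 1}.ncard < 1 + q)
  | succ n ih =>
    intro x hn hx hr hxO
    by_cases hq : {a | ¬ rt a ∧ ‖x a‖ < 1}.ncard ≤ q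
    · refine ⟨x, hx, hr, subset_closure ⟨hxO, hx⟩, fun _ => rfl, le_rfl, Or.inr ?_⟩
      rw [← Set.Finite.cast_ncard_eq (Set.toFinite _)]
      exact_mod_cast (by omega : {a | ¬ rt a ∧ ‖x a‖ < 1}.ncard < 1 + q)
    · push Not at hq
      let ι : Type := {j // rt j} ⊕ Fin q ⊕ {a // ¬ rt a ∧ ‖x a‖ = 1}
      let G : ι → MvPolynomial T ℂ := Sum.elim (fun j => X j.1 ^ 2 - v j.1)
        (Sum.elim (fun k => f k - C (eval x (f k))) (fun a => X a.1 - C (x a.1)))
      have hcard : Fintype.card ι < Fintype.card T := by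
        have e1 : Fintype.card ι = Fintype.card {j // rt j} +
            (q + Fintype.card {a // ¬ rt a ∧ ‖x a‖ = 1}) := by
          simp [ι]
        have e2 : {a | ¬ rt a ∧ ‖x a‖ < 1}.ncard = Fintype.card {a // ¬ rt a ∧ ‖x a‖ < 1} := by
          rw [Set.ncard_eq_toFinset_card', Set.toFinset_card]
          rfl
        have e3 : Fintype.card {j // rt j} + (Fintype.card {a // ¬ rt a ∧ ‖x a‖ < 1} +
            Fintype.card {a // ¬ rt a ∧ ‖x a‖ = 1}) = Fintype.card T := by
          rw [Fintype.card_subtype, Fintype.card_subtype, Fintype.card_subtype,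
            ← Finset.card_union_of_disjoint, ← Finset.card_union_of_disjoint, Finset.card_eq_iff_eq_univ]
          · ext a
            simp only [Finset.mem_union, Finset.mem_filter, Finset.mem_univ, true_and, iff_true]
            by_cases ha : rt a
            · exact Or.inl ha
            · rcases lt_or_eq_of_le (hx a) with h1 | h1
              · exact Or.inr (Or.inl ⟨ha, h1⟩)
              · exact Or.inr (Or.inr ⟨ha, h1⟩)
          · rw [Finset.disjoint_left]
            intro a ha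
            simp only [Finset.mem_union, Finset.mem_filter, Finset.mem_univ, true_and] at ha ⊢
            tauto
          · rw [Finset.disjoint_left]
            intro a ha
            simp only [Finset.mem_filter, Finset.mem_univ, true_and] at ha ⊢
            intro h2
            linarith [ha.2, h2.2]
        omega
      let eqv := (Fintype.equivFin ι).symm
      have hGx : ∀ i, eval x (G i) = 0 := by
        rintro (j | k | a)
        · simp [G, hr j.1 j.2]
        · simp [G]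
        · simp [G]
      let U : Set (T → ℂ) := {y | y ∈ O ∧ (∀ a, ¬ rt a ∧ ‖x a‖ < 1 → ‖y a‖ < 1) ∧ ∀ i, ‖y i‖ < 2}
      have hUo : IsOpen U := by
        have h1 : IsOpen {y : T → ℂ | ∀ a, ¬ rt a ∧ ‖x a‖ < 1 → ‖y a‖ < 1} := by
          have : {y : T → ℂ | ∀ a, ¬ rt a ∧ ‖x a‖ < 1 → ‖y a‖ < 1} =
              ⋂ a : T, ⋂ _ : ¬ rt a ∧ ‖x a‖ < 1, {y : T → ℂ | ‖y a‖ < 1} := by
            ext y; simp only [Set.mem_iInter, Set.mem_setOf_eq]
          rw [this]
          exact isOpen_iInter_of_finite fun a => isOpen_iInter_of_finite fun _ =>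
            isOpen_lt ((continuous_apply a).norm) continuous_const
        have h2 : IsOpen {y : T → ℂ | ∀ i, ‖y i‖ < 2} := by
          have : {y : T → ℂ | ∀ i, ‖y i‖ < 2} = ⋂ i : T, {y : T → ℂ | ‖y i‖ < 2} := by
            ext y; simp only [Set.mem_iInter, Set.mem_setOf_eq]
          rw [this]
          exact isOpen_iInter_of_finite fun a =>
            isOpen_lt ((continuous_apply a).norm) continuous_const
        exact hO.inter (h1.inter h2)
      have hUb : Bornology.IsBounded U := by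
        refine (Metric.isBounded_closedBall (x := (0 : T → ℂ)) (r := 2)).subset ?_
        intro y hy
        rw [mem_closedBall_zero_iff]
        exact (pi_norm_le_iff_of_nonneg (by norm_num)).mpr fun i => (hy.2.2 i).le
      have hxU : x ∈ U := ⟨hxO, fun a ha => ha.2, fun i => lt_of_le_of_lt (hx i) (by norm_num)⟩
      obtain ⟨p', hp1, hp2, hp3⟩ := h7 T (Fintype.card ι) hcard (fun i => G (eqv i)) h U hUo hUb x hxU
        (fun k => hGx _)
      -- points of the variety in `U`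
      have hVU : ({y | ∀ k, eval y (G (eqv k)) = 0} ∩ U) ⊆
          {y | ∀ i, eval y (G i) = 0} ∩ (O ∩ {y | ∀ i, ‖y i‖ ≤ 1}) := by
        rintro y ⟨hy1, hy2⟩
        have hy1' : ∀ i, eval y (G i) = 0 := by
          intro i
          have := hy1 (eqv.symm i)
          simpa using this
        refine ⟨hy1', hy2.1, ?_⟩
        have key : ∀ g : Ω, ∀ i, lev i = g → ‖y i‖ ≤ 1 := by
          intro g
          induction g using WellFoundedLT.induction with
          | ind g ihg =>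
            intro i hi
            by_cases hri : rt i
            · have e1 : y i ^ 2 = eval y (v i) := by
                have := hy1' (Sum.inl ⟨i, hri⟩)
                simp only [G, Sum.elim_inl, map_sub, map_pow, eval_X] at this
                exact sub_eq_zero.mp this
              have e2 : ‖eval y (v i)‖ ≤ 1 := hv i hri y fun k hk => ihg (lev k) (hi ▸ hk) k rfl
              rw [← e1, norm_pow] at e2
              exact (sq_le_one_iff₀ (norm_nonneg _)).mp e2
            · rcases lt_or_eq_of_le (hx i) with h1 | h1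
              · exact (hy2.2.1 i ⟨hri, h1⟩).le
              · have := hy1' (Sum.inr (Sum.inr ⟨i, hri, h1⟩))
                simp only [G, Sum.elim_inr, map_sub, eval_X, eval_C] at this
                rw [sub_eq_zero.mp this]
                exact h1.le
        exact fun i => key (lev i) i rfl
      have hcl1 : IsClosed {y : T → ℂ | ∀ i, eval y (G i) = 0} := by
        have : {y : T → ℂ | ∀ i, eval y (G i) = 0} = ⋂ i : ι, {y : T → ℂ | eval y (G i) = 0} := by
          ext y; simp only [Set.mem_iInter, Set.mem_setOf_eq]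
        rw [this]
        exact isClosed_iInter fun i => isClosed_eq (A8_eval_cont _) continuous_const
      have hcl2 : IsClosed {y : T → ℂ | ∀ i, ‖y i‖ ≤ 1} := by
        have : {y : T → ℂ | ∀ i, ‖y i‖ ≤ 1} = ⋂ i : T, {y : T → ℂ | ‖y i‖ ≤ 1} := by
          ext y; simp only [Set.mem_iInter, Set.mem_setOf_eq]
        rw [this]
        exact isClosed_iInter fun i => isClosed_le ((continuous_apply i).norm) continuous_const
      have hpcl := closure_mono hVU hp1
      have hpG : ∀ i, eval p' (G i) = 0 := by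
        have : p' ∈ closure {y : T → ℂ | ∀ i, eval y (G i) = 0} :=
          closure_mono Set.inter_subset_left hpcl
        rw [hcl1.closure_eq] at this
        exact this
      have hpO : p' ∈ closure (O ∩ {y | ∀ i, ‖y i‖ ≤ 1}) :=
        closure_mono Set.inter_subset_right hpcl
      have hpD : ∀ i, ‖p' i‖ ≤ 1 := by
        have : p' ∈ closure {y : T → ℂ | ∀ i, ‖y i‖ ≤ 1} :=
          closure_mono Set.inter_subset_right hpO
        rw [hcl2.closure_eq] at this
        exact this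
      have hpr : ∀ j, rt j → p' j ^ 2 = eval p' (v j) := by
        intro j hj
        have := hpG (Sum.inl ⟨j, hj⟩)
        simp only [G, Sum.elim_inl, map_sub, map_pow, eval_X] at this
        exact sub_eq_zero.mp this
      have hpf : ∀ k, eval p' (f k) = eval x (f k) := by
        intro k
        have := hpG (Sum.inr (Sum.inl k))
        simp only [G, Sum.elim_inr, Sum.elim_inl, map_sub, eval_C] at this
        exact sub_eq_zero.mp this
      have hpa : ∀ a, ¬ rt a → ‖x a‖ = 1 → p' a = x a := by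
        intro a ha h1
        have := hpG (Sum.inr (Sum.inr ⟨a, ha, h1⟩))
        simp only [G, Sum.elim_inr, map_sub, eval_X, eval_C] at this
        exact sub_eq_zero.mp this
      by_cases hpO' : p' ∈ O
      · have hex : ∃ a, (¬ rt a ∧ ‖x a‖ < 1) ∧ ‖p' a‖ = 1 := by
          by_contra hcon
          push Not at hcon
          apply hp2
          refine ⟨hpO', fun a ha => lt_of_le_of_ne (hpD a) (hcon a ha), fun i =>
            lt_of_le_of_lt (hpD i) (by norm_num)⟩
        obtain ⟨a, ha, ha1⟩ := hex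
        have hss : {a | ¬ rt a ∧ ‖p' a‖ < 1} ⊂ {a | ¬ rt a ∧ ‖x a‖ < 1} := by
          refine ⟨?_, ?_⟩
          · rintro b ⟨hb1, hb2⟩
            refine ⟨hb1, lt_of_le_of_ne (hx b) fun h1 => ?_⟩
            rw [hpa b hb1 h1] at hb2
            linarith
          · intro hsub
            have := (hsub ha).2
            linarith
        have hlt := Set.ncard_lt_ncard hss (Set.toFinite _)
        obtain ⟨x', h1, h2, h3, h4, h5, h6⟩ := ih p' (by omega) hpD hpr hpO'
        exact ⟨x', h1, h2, h3, fun k => (h4 k).trans (hpf k), hp3.trans h5, h6⟩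
      · exact ⟨p', hpD, hpr, hpO, hpf, hp3, Or.inl hpO'⟩

theorem prf_A8 (h7 : S_A7) : S_A8 := by
  intro T _ Ω _ _ lev rt v hv q f h x hx hr O hO hxO
  exact A8_aux h7 T Ω lev rt v hv q f h O hO _ x le_rfl hx hr hxO

end Pool.Agent.H5

end

section

/-!
# A9: the local maximum principle with finitely many active variables
-/

open Topology Filter Set MvPolynomial

set_option autoImplicit false

namespace Pool.Agent.H5

/-- extension of a point by constants -/
noncomputable def A9_ext {V : Type} (T : Finset V) (x : V → ℂ) (y : {i // i ∈ T} → ℂ) : V → ℂ := by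
  classical
  exact fun i => if h : i ∈ T then y ⟨i, h⟩ else x i

theorem A9_ext_mem {V : Type} (T : Finset V) (x : V → ℂ) (y : {i // i ∈ T} → ℂ) (i : {i // i ∈ T}) :
    A9_ext T x y i.1 = y i := by
  unfold A9_ext
  simp

theorem A9_ext_not {V : Type} (T : Finset V) (x : V → ℂ) (y : {i // i ∈ T} → ℂ) {i : V}
    (hi : i ∉ T) : A9_ext T x y i = x i := by
  unfold A9_ext
  simp [hi]

theorem A9_ext_self {V : Type} (T : Finset V) (x : V → ℂ) :
    A9_ext T x (fun i => x i.1) = x := by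
  funext i
  by_cases hi : i ∈ T
  · exact A9_ext_mem T x _ ⟨i, hi⟩
  · exact A9_ext_not T x _ hi

theorem A9_ext_cont {V : Type} (T : Finset V) (x : V → ℂ) : Continuous (A9_ext T x) := by
  refine continuous_pi fun i => ?_
  by_cases hi : i ∈ T
  · have : (fun y => A9_ext T x y i) = fun y => y ⟨i, hi⟩ := by
      funext y
      exact A9_ext_mem T x y ⟨i, hi⟩
    rw [this]
    exact continuous_apply _
  · have : (fun y => A9_ext T x y i) = fun _ => x i := by
      funext y
      exact A9_ext_not T x y hi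
    rw [this]
    exact continuous_const

/-- freezing the inactive variables -/
noncomputable def A9_fr {V : Type} (T : Finset V) (x : V → ℂ) (p : MvPolynomial V ℂ) :
    MvPolynomial {i // i ∈ T} ℂ := by
  classical
  exact aeval (fun i : V => if h : i ∈ T then X (⟨i, h⟩ : {i // i ∈ T}) else C (x i)) p

theorem A9_eval_fr {V : Type} (T : Finset V) (x : V → ℂ) (p : MvPolynomial V ℂ)
    (y : {i // i ∈ T} → ℂ) : eval y (A9_fr T x p) = eval (A9_ext T x y) p := by
  classical
  unfold A9_fr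
  induction p using MvPolynomial.induction_on with
  | C a => simp
  | add p q hp hq => rw [map_add, map_add, map_add, hp, hq]
  | mul_X p i hp =>
    rw [map_mul, map_mul, map_mul, hp, aeval_X, eval_X]
    congr 1
    by_cases hi : i ∈ T
    · rw [dif_pos hi, eval_X]
      exact (A9_ext_mem T x y ⟨i, hi⟩).symm
    · rw [dif_neg hi, eval_C]
      exact (A9_ext_not T x y hi).symm

theorem prf_A9 (h8 : S_A8) : S_A9 := by
  intro V Ω _ _ lev rt v T hv q f h x hx hroot O hO hxO
  classical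
  have key := h8 {i // i ∈ T} Ω (fun i => lev i.1) (fun i => rt i.1) (fun i => A9_fr T x (v i.1))
    (by
      intro j hj y hy
      rw [A9_eval_fr]
      refine hv j.1 j.2 hj _ fun i hi => ?_
      by_cases hiT : i ∈ T
      · rw [A9_ext_mem T x y ⟨i, hiT⟩]
        exact hy ⟨i, hiT⟩ hi
      · rw [A9_ext_not T x y hiT]
        exact hx i)
    q (fun k => A9_fr T x (f k)) (A9_fr T x h) (fun i => x i.1) (fun i => hx i.1)
    (by
      intro j hj
      rw [A9_eval_fr, A9_ext_self]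
      exact hroot j.1 j.2 hj)
    (A9_ext T x ⁻¹' O) (hO.preimage (A9_ext_cont T x))
    (by
      show A9_ext T x (fun i => x i.1) ∈ O
      rw [A9_ext_self]
      exact hxO)
  obtain ⟨y, hy1, hy2, hy3, hy4, hy5, hy6⟩ := key
  refine ⟨A9_ext T x y, ?_, ?_, ?_, ?_, ?_, ?_, ?_⟩
  · intro i
    by_cases hi : i ∈ T
    · rw [A9_ext_mem T x y ⟨i, hi⟩]
      exact hy1 _
    · rw [A9_ext_not T x y hi]
      exact hx i
  · intro i hi
    exact A9_ext_not T x y hi
  · intro j hj hr
    have h1 := hy2 ⟨j, hj⟩ hr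
    rw [A9_eval_fr] at h1
    rw [A9_ext_mem T x y ⟨j, hj⟩]
    exact h1
  · have h1 : MapsTo (A9_ext T x) (A9_ext T x ⁻¹' O ∩ {y | ∀ i, ‖y i‖ ≤ 1})
        (O ∩ {y | ∀ i, ‖y i‖ ≤ 1}) := by
      rintro w ⟨hw1, hw2⟩
      refine ⟨hw1, fun i => ?_⟩
      by_cases hi : i ∈ T
      · rw [A9_ext_mem T x w ⟨i, hi⟩]
        exact hw2 _
      · rw [A9_ext_not T x w hi]
        exact hx i
    exact map_mem_closure (A9_ext_cont T x) hy3 h1
  · intro k
    have h1 := hy4 k
    rw [A9_eval_fr, A9_eval_fr, A9_ext_self] at h1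
    exact h1
  · have h1 := hy5
    rw [A9_eval_fr, A9_eval_fr, A9_ext_self] at h1
    exact h1
  · rcases hy6 with h6 | h6
    · left
      exact h6
    · right
      refine lt_of_le_of_lt ?_ h6
      have h7 : {a | a ∈ T ∧ ¬ rt a ∧ ‖A9_ext T x y a‖ < 1} =
          (fun a : {i // i ∈ T} => a.1) '' {a | ¬ rt a.1 ∧ ‖y a‖ < 1} := by
        ext a
        constructor
        · rintro ⟨ha1, ha2, ha3⟩
          refine ⟨⟨a, ha1⟩, ⟨ha2, ?_⟩, rfl⟩
          rw [← A9_ext_mem T x y ⟨a, ha1⟩]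
          exact ha3
        · rintro ⟨b, ⟨hb1, hb2⟩, rfl⟩
          refine ⟨b.2, hb1, ?_⟩
          rw [A9_ext_mem T x y b]
          exact hb2
      rw [h7]
      exact (Subtype.val_injective.encard_image _).le

end Pool.Agent.H5

end

section

/-!
# B0: truncations of `ℓ¹` power series
-/

open Topology Filter Set MvPolynomial

set_option autoImplicit false

namespace Pool.Agent.H5

theorem B0_eval {V : Type} (f : L1 V) (S : Finset (V →₀ ℕ)) (x : V → ℂ) :
    eval x (trp f S) = ∑ μ ∈ S, f.cf μ * monVal x μ := by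
  unfold trp
  rw [map_sum]
  refine Finset.sum_congr rfl fun μ _ => ?_
  rw [eval_monomial]
  rfl

theorem prf_B0 : S_B0 := by
  intro V f S x
  refine ⟨B0_eval f S x, ?_, ?_⟩
  · intro hx
    have hs : Summable fun μ => ‖f.cf μ • monVal x μ‖ := summable_lift hx f
    have hs1 : Summable fun μ => f.cf μ • monVal x μ := hs.of_norm
    have h1 : ∑ μ ∈ S, f.cf μ • monVal x μ + ∑' μ : ↥((S : Set (V →₀ ℕ))ᶜ), f.cf μ • monVal x μ
        = evl x f := by
      unfold evl
      exact hs1.sum_add_tsum_compl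
    have h2 : eval x (trp f S) - evl x f = - ∑' μ : ↥((S : Set (V →₀ ℕ))ᶜ),
        f.cf μ • monVal x μ := by
      rw [← h1, B0_eval]
      simp only [smul_eq_mul]
      ring
    rw [h2, norm_neg]
    have hs2 : Summable fun μ : ↥((S : Set (V →₀ ℕ))ᶜ) => ‖f.cf μ • monVal x (μ : V →₀ ℕ)‖ :=
      hs.comp_injective Subtype.val_injective
    have hs3 : Summable fun μ : ↥((S : Set (V →₀ ℕ))ᶜ) => ‖f.cf (μ : V →₀ ℕ)‖ :=
      f.summable.comp_injective Subtype.val_injective
    calc ‖∑' μ : ↥((S : Set (V →₀ ℕ))ᶜ), f.cf μ • monVal x (μ : V →₀ ℕ)‖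
        ≤ ∑' μ : ↥((S : Set (V →₀ ℕ))ᶜ), ‖f.cf μ • monVal x (μ : V →₀ ℕ)‖ :=
          norm_tsum_le_tsum_norm hs2
      _ ≤ ∑' μ : ↥((S : Set (V →₀ ℕ))ᶜ), ‖f.cf (μ : V →₀ ℕ)‖ := by
          refine Summable.tsum_le_tsum (fun μ => ?_) hs2 hs3
          rw [norm_smul]
          exact mul_le_of_le_one_right (norm_nonneg _) (norm_monVal_le hx _)
      _ = ∑' μ, Set.indicator ((S : Set (V →₀ ℕ))ᶜ) (fun μ => ‖f.cf μ‖) μ :=
          tsum_subtype ((S : Set (V →₀ ℕ))ᶜ) (fun μ => ‖f.cf μ‖)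
  · intro Ω _ lev g hlow hf hx
    rw [B0_eval]
    refine (norm_sum_le _ _).trans ?_
    have h1 : ∀ μ ∈ S, ‖f.cf μ * monVal x μ‖ ≤ ‖f.cf μ‖ := by
      intro μ _
      by_cases h0 : f.cf μ = 0
      · simp [h0]
      · rw [norm_mul]
        refine mul_le_of_le_one_right (norm_nonneg _) ?_
        unfold monVal Finsupp.prod
        rw [norm_prod]
        refine Finset.prod_le_one (fun _ _ => norm_nonneg _) (fun j hj => ?_)
        rw [norm_pow]
        exact pow_le_one₀ (norm_nonneg _) (hx j (hlow μ h0 j hj))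
    refine (Finset.sum_le_sum h1).trans ?_
    refine le_trans ?_ hf
    rw [L1.norm_def]
    exact f.summable.sum_le_tsum S (fun _ _ => norm_nonneg _)

end Pool.Agent.H5

end

section

open Topology Filter Set MvPolynomial

set_option autoImplicit false

namespace Pool.Agent.H5

/-- a square root of `c` near to `a` -/
theorem B1_root (a c : ℂ) : ∃ r : ℂ, r ^ 2 = c ∧ ‖r - a‖ ≤ ‖r + a‖ := by
  obtain ⟨r, hr⟩ := IsAlgClosed.exists_pow_nat_eq c (n := 2) (by norm_num)
  rcases le_total ‖r - a‖ ‖r + a‖ with h | h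
  · exact ⟨r, hr, h⟩
  · refine ⟨-r, by rw [neg_sq, hr], ?_⟩
    have h1 : -r - a = -(r + a) := by ring
    have h2 : -r + a = -(r - a) := by ring
    rw [h1, h2, norm_neg, norm_neg]
    exact h

theorem B1_root' (a r : ℂ) (h : ‖r - a‖ ≤ ‖r + a‖) : ‖r - a‖ ^ 2 ≤ ‖r ^ 2 - a ^ 2‖ := by
  have h1 : r ^ 2 - a ^ 2 = (r - a) * (r + a) := by ring
  rw [h1, norm_mul, sq]
  exact mul_le_mul_of_nonneg_left h (norm_nonneg _)

/-- monomials depend only on the variables which occur -/
theorem B1_mon {V : Type} (y y' : V → ℂ) (μ : V →₀ ℕ) (h : ∀ i ∈ μ.support, y i = y' i) :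
    monVal y μ = monVal y' μ := by
  unfold monVal
  exact Finsupp.prod_congr fun i hi => by rw [h i hi]

theorem B1_term {Ω V : Type} [LinearOrder Ω] (lev : V → Ω) (g : Ω) (f : L1 V) (hf : Low lev g f)
    (y y' : V → ℂ) (h : ∀ i, lev i < g → y i = y' i) (μ : V →₀ ℕ) :
    f.cf μ * monVal y μ = f.cf μ * monVal y' μ := by
  by_cases h0 : f.cf μ = 0
  · rw [h0, zero_mul, zero_mul]
  · rw [B1_mon y y' μ fun i hi => h i (hf μ h0 i hi)]

theorem B1_eval (h0 : S_B0) {Ω V : Type} [LinearOrder Ω] (lev : V → Ω) (g : Ω) (f : L1 V)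
    (hf : Low lev g f) (y y' : V → ℂ) (h : ∀ i, lev i < g → y i = y' i) (S : Finset (V →₀ ℕ)) :
    eval y (trp f S) = eval y' (trp f S) := by
  rw [(h0 V f S y).1, (h0 V f S y').1]
  exact Finset.sum_congr rfl fun μ _ => B1_term lev g f hf y y' h μ

theorem B1_evl {Ω V : Type} [LinearOrder Ω] (lev : V → Ω) (g : Ω) (f : L1 V)
    (hf : Low lev g f) (y y' : V → ℂ) (h : ∀ i, lev i < g → y i = y' i) :
    evl y f = evl y' f := by
  unfold evl
  refine tsum_congr fun μ => ?_
  rw [smul_eq_mul, smul_eq_mul]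
  exact B1_term lev g f hf y y' h μ

theorem B1_tail {V : Type} (f : L1 V) : Tendsto (fun S : Finset (V →₀ ℕ) =>
    ∑' μ, Set.indicator ((S : Set (V →₀ ℕ))ᶜ) (fun μ => ‖f.cf μ‖) μ) atTop (𝓝 0) := by
  have h := tendsto_tsum_compl_atTop_zero (fun μ : V →₀ ℕ => ‖f.cf μ‖)
  refine h.congr fun S => ?_
  rw [← tsum_subtype]
  rfl

theorem B1_exists (h0 : S_B0) (Ω V : Type) [LinearOrder Ω] [WellFoundedLT Ω] (T : Twr Ω V)
    (x : Dk V) (S : Finset (V →₀ ℕ)) : ∃ y : V → ℂ, (∀ j, ¬ T.rt j → y j = x.1 j) ∧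
    (∀ j, T.rt j → y j ^ 2 = eval y (trp (T.v j) S)) ∧
    (∀ j, T.rt j → ‖y j - x.1 j‖ ^ 2 ≤ ‖y j ^ 2 - x.1 j ^ 2‖) ∧ ∀ j, ‖y j‖ ≤ 1 := by
  classical
  have hwf : WellFounded (fun i j : V => T.lev i < T.lev j) := InvImage.wf T.lev wellFounded_lt
  set F : ∀ j : V, (∀ i, T.lev i < T.lev j → ℂ) → ℂ := fun j y =>
    if T.rt j then (B1_root (x.1 j) (eval (fun i => if h : T.lev i < T.lev j then y i h else 0)
      (trp (T.v j) S))).choose else x.1 j with hF
  set y : V → ℂ := hwf.fix F with hy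
  have hy1 : ∀ j, y j = F j (fun i _ => y i) := fun j => hwf.fix_eq F j
  have hl : ∀ j, ¬ T.rt j → y j = x.1 j := by
    intro j hj
    rw [hy1, hF]
    simp only [if_neg hj]
  have hr : ∀ j, T.rt j → y j ^ 2 = eval y (trp (T.v j) S) ∧ ‖y j - x.1 j‖ ≤ ‖y j + x.1 j‖ := by
    intro j hj
    have h1 : y j = (B1_root (x.1 j) (eval (fun i => if T.lev i < T.lev j then y i else 0)
      (trp (T.v j) S))).choose := by
      rw [hy1, hF]
      simp only [if_pos hj, dite_eq_ite]
    have h2 := (B1_root (x.1 j) (eval (fun i => if T.lev i < T.lev j then y i else 0)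
      (trp (T.v j) S))).choose_spec
    rw [← h1] at h2
    refine ⟨h2.1.trans ?_, h2.2⟩
    exact B1_eval h0 T.lev (T.lev j) (T.v j) (T.low_v j hj) _ _ (fun i hi => if_pos hi) S
  refine ⟨y, hl, fun j hj => (hr j hj).1, fun j hj => B1_root' _ _ (hr j hj).2, ?_⟩
  intro j
  induction j using hwf.induction with
  | _ j ih =>
    by_cases hj : T.rt j
    · have h1 := (h0 V (T.v j) S y).2.2 Ω T.lev (T.lev j) (T.low_v j hj) (T.norm_v j) ih
      rw [← (hr j hj).1, norm_pow] at h1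
      by_contra h2
      push Not at h2
      have := one_lt_pow₀ h2 (n := 2) (by norm_num)
      linarith
    · rw [hl j hj]
      exact x.2 j

theorem prf_B1 (h0 : S_B0) : S_B1 := by
  intro Ω V _ _ T x hx
  classical
  have hwf : WellFounded (fun i j : V => T.lev i < T.lev j) := InvImage.wf T.lev wellFounded_lt
  choose y hl hr hn hb using B1_exists h0 Ω V T x
  refine ⟨fun S => ⟨y S, hb S⟩, fun S j hj => hr S j hj, ?_⟩
  have key : ∀ j, Tendsto (fun S => y S j) atTop (𝓝 (x.1 j)) := by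
    intro j
    induction j using hwf.induction with
    | _ j ih =>
      by_cases hj : T.rt j
      · set u : Finset (V →₀ ℕ) → Dk V := fun S =>
          ⟨fun i => if T.lev i < T.lev j then y S i else x.1 i, fun i => by
            by_cases h : T.lev i < T.lev j
            · simp only [if_pos h]
              exact hb S i
            · simp only [if_neg h]
              exact x.2 i⟩ with hu
        have hux : Tendsto u atTop (𝓝 x) := by
          have h1 : Tendsto (fun S => (u S).1) atTop (𝓝 x.1) := by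
            rw [tendsto_pi_nhds]
            intro i
            by_cases h : T.lev i < T.lev j
            · simp only [hu, if_pos h]
              exact ih i h
            · simp only [hu, if_neg h]
              exact tendsto_const_nhds
          exact tendsto_subtype_rng.2 h1
        have h2 : Tendsto (fun S => ev (T.v j) (u S)) atTop (𝓝 (x.1 j ^ 2)) := by
          rw [hx j hj]
          exact ((ev (T.v j)).continuous.tendsto x).comp hux
        have h3 : ∀ S, ev (T.v j) (u S) = evl (y S) (T.v j) := by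
          intro S
          rw [ev_apply]
          exact B1_evl T.lev (T.lev j) (T.v j) (T.low_v j hj) _ _ (fun i hi => if_pos hi)
        have h4 : Tendsto (fun S => eval (y S) (trp (T.v j) S) - evl (y S) (T.v j)) atTop
            (𝓝 0) := by
          refine squeeze_zero_norm (fun S => ?_) (B1_tail (T.v j))
          exact (h0 V (T.v j) S (y S)).2.1 (hb S)
        have h5 : Tendsto (fun S => y S j ^ 2) atTop (𝓝 (x.1 j ^ 2)) := by
          have h6 := h4.add h2
          rw [zero_add] at h6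
          refine h6.congr fun S => ?_
          rw [h3, sub_add_cancel, hr S j hj]
        have h7 : Tendsto (fun S => ‖y S j ^ 2 - x.1 j ^ 2‖) atTop (𝓝 0) := by
          have h8 := (h5.sub_const (x.1 j ^ 2)).norm
          rw [sub_self, norm_zero] at h8
          exact h8
        have h9 : Tendsto (fun S => ‖y S j - x.1 j‖ ^ 2) atTop (𝓝 0) :=
          squeeze_zero (fun S => by positivity) (fun S => hn S j hj) h7
        have h10 : Tendsto (fun S => ‖y S j - x.1 j‖) atTop (𝓝 0) := by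
          have h11 := h9.sqrt
          rw [Real.sqrt_zero] at h11
          refine h11.congr fun S => ?_
          exact Real.sqrt_sq (norm_nonneg _)
        rw [tendsto_iff_norm_sub_tendsto_zero]
        exact h10
      · have h1 : (fun S => y S j) = fun _ => x.1 j := funext fun S => hl S j hj
        rw [h1]
        exact tendsto_const_nhds
  exact tendsto_subtype_rng.2 (tendsto_pi_nhds.2 key)

end Pool.Agent.H5

end

section

open Topology Filter Set

set_option autoImplicit false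

namespace Pool.Agent.H5

theorem prf_C1 : S_C1 := by
  intro E L _ P z b M L' a haP haL hLG x hx O hO hxO q f hf h hh
  obtain ⟨hxM, hxa⟩ := hx
  have hf' : ∀ k, (Fin.cons (z a) f : Fin (q + 1) → C(E, ℂ)) k ∈ P := by
    intro k
    refine Fin.cases ?_ ?_ k
    · exact haP
    · intro i
      exact hf i
  obtain ⟨x', hx'M, hx'O, hval, hle, hor⟩ := hLG x hxM O hO hxO (q + 1)
    (Fin.cons (z a) f) hf' h hh
  have h0 : z a x' = 0 := by
    have := hval 0
    rw [Fin.cons_zero] at this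
    rw [this]
    exact hxa
  refine ⟨x', ⟨hx'M, h0⟩, hx'O, ?_, hle, ?_⟩
  · intro k
    have := hval k.succ
    rw [Fin.cons_succ] at this
    exact this
  · rcases hor with hor | hor
    · exact Or.inl hor
    · right
      have hset : {a' | a' ∈ L' ∧ ‖z a' x'‖ < 1} =
          insert a {a' | a' ∈ L' \ {a} ∧ ‖z a' x'‖ < 1} := by
        ext a'
        simp only [mem_ofPred_eq, mem_insert_iff, Set.mem_sdiff, mem_singleton_iff]
        constructor
        · rintro ⟨h1, h2⟩
          by_cases h3 : a' = a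
          · exact Or.inl h3
          · exact Or.inr ⟨⟨h1, h3⟩, h2⟩
        · rintro (rfl | ⟨⟨h1, _⟩, h2⟩)
          · refine ⟨haL, ?_⟩
            rw [h0]
            simp
          · exact ⟨h1, h2⟩
      rw [hset, encard_insert_of_notMem (by simp)] at hor
      have h1 : (((b + (q + 1) : ℕ)) : ℕ∞) = ((b + q : ℕ) : ℕ∞) + 1 := by
        push_cast
        ring
      rw [h1] at hor
      exact lt_of_add_lt_add_right hor

end Pool.Agent.H5

end

section

/-!
# C2: directed intersections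
-/

open Topology Filter Set

set_option autoImplicit false

namespace Pool.Agent.H5

theorem C2_closed {E L : Type} [TopologicalSpace E] (z : L → C(E, ℂ)) (L' : Set L) (n : ℕ) :
    IsClosed {x : E | {a | a ∈ L' ∧ ‖z a x‖ < 1}.encard < (n : ℕ∞)} := by
  rw [← isOpen_compl_iff, isOpen_iff_mem_nhds]
  intro x hx
  have hx' : (n : ℕ∞) ≤ {a | a ∈ L' ∧ ‖z a x‖ < 1}.encard := not_lt.1 hx
  obtain ⟨S, hS, hSn⟩ := Set.exists_subset_encard_eq hx'
  have hfin : S.Finite := Set.finite_of_encard_eq_coe hSn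
  have hev : ∀ᶠ y in 𝓝 x, ∀ a ∈ S, ‖z a y‖ < 1 := by
    rw [Filter.eventually_all_finite hfin]
    intro a ha
    have hc : Continuous fun y => ‖z a y‖ := continuous_norm.comp (z a).continuous
    exact hc.continuousAt.eventually (gt_mem_nhds (hS ha).2)
  filter_upwards [hev] with y hy
  have hle : (n : ℕ∞) ≤ {a | a ∈ L' ∧ ‖z a y‖ < 1}.encard := by
    rw [← hSn]
    exact Set.encard_le_encard (fun a ha => ⟨(hS ha).1, hy a ha⟩)
  exact not_lt.2 hle

theorem prf_C2 : S_C2 := by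
  intro E L _ _ P z b ι _ M L₁ L' hdir hcl hL hLG x hx O hO hxO q f hf h hh
  rw [Set.mem_iInter] at hx
  let T : ι → Set E := fun i => {x' | x' ∈ M i ∧ x' ∈ closure O ∧ (∀ k, f k x' = f k x) ∧
    ‖h x‖ ≤ ‖h x'‖ ∧ (x' ∉ O ∨ {a | a ∈ L' ∧ ‖z a x'‖ < 1}.encard < ((b + q : ℕ) : ℕ∞))}
  have hTcl : ∀ i, IsClosed (T i) := by
    intro i
    have h1 : IsClosed {x' : E | ∀ k, f k x' = f k x} := by
      have : {x' : E | ∀ k, f k x' = f k x} = ⋂ k, {x' : E | f k x' = f k x} := by
        ext y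
        simp
      rw [this]
      exact isClosed_iInter fun k => isClosed_eq (f k).continuous continuous_const
    have h2 : IsClosed {x' : E | ‖h x‖ ≤ ‖h x'‖} :=
      isClosed_le continuous_const (continuous_norm.comp h.continuous)
    have h3 : IsClosed {x' : E | x' ∉ O ∨
        {a | a ∈ L' ∧ ‖z a x'‖ < 1}.encard < ((b + q : ℕ) : ℕ∞)} :=
      hO.isClosed_compl.union (C2_closed z L' (b + q))
    exact (hcl i).inter (isClosed_closure.inter (h1.inter (h2.inter h3)))
  have hTne : ∀ i, (T i).Nonempty := by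
    intro i
    obtain ⟨x', hx1, hx2, hx3, hx4, hx5⟩ := hLG i x (hx i) O hO hxO q f hf h hh
    refine ⟨x', hx1, hx2, hx3, hx4, hx5.imp id fun h5 => lt_of_le_of_lt ?_ h5⟩
    exact Set.encard_le_encard (fun a ha => ⟨hL i ha.1, ha.2⟩)
  have hTdir : Directed (· ⊇ ·) T := by
    intro i j
    obtain ⟨k, hi, hj⟩ := hdir i j
    exact ⟨k, fun y hy => ⟨hi hy.1, hy.2⟩, fun y hy => ⟨hj hy.1, hy.2⟩⟩
  obtain ⟨y, hy⟩ := IsCompact.nonempty_iInter_of_directed_nonempty_isCompact_isClosed T hTdir hTne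
    (fun i => (hTcl i).isCompact) hTcl
  rw [Set.mem_iInter] at hy
  have i0 : ι := Classical.arbitrary ι
  exact ⟨y, Set.mem_iInter.2 fun i => (hy i).1, (hy i0).2⟩

end Pool.Agent.H5

end

section

open Topology Filter Set

set_option autoImplicit false

namespace Pool.Agent.H5

theorem prf_C3 : S_C3 := by
  intro E L _ _ _ P z b M M₁ L' hM₁ hM₂ hsub hLG x hx O hO hxO q f hf h hh
  have hopen : IsOpen ((M \ M₁)ᶜ) := hM₂.isOpen_compl
  have hin : M₁ ⊆ (M \ M₁)ᶜ := by
    intro y hy hy2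
    exact hy2.2 hy
  obtain ⟨U, hU, hMU, hUc⟩ := normal_exists_closure_subset hM₁ hopen hin
  obtain ⟨x', hx'M, hx'O, hval, hle, hor⟩ := hLG x (hsub hx) (O ∩ U) (hO.inter hU)
    ⟨hxO, hMU hx⟩ q f hf h hh
  have h1 : x' ∈ closure O := closure_mono inter_subset_left hx'O
  have h2 : x' ∈ closure U := closure_mono inter_subset_right hx'O
  have h3 : x' ∈ M₁ := by
    by_contra hcon
    exact hUc h2 ⟨hx'M, hcon⟩
  refine ⟨x', h3, h1, hval, hle, ?_⟩
  rcases hor with hor | hor
  · left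
    intro hxO'
    exact hor ⟨hxO', hMU h3⟩
  · exact Or.inr hor

end Pool.Agent.H5

end
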