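import Pool.Agent.Work.MP_10b086_an.Bd.B03
import Pool.Agent.Work.MP_10b086_an.Wild.Stmts

/-! Bundle of small proof modules (one section per former module). -/

section

/-! C5: common zeros of `N` functions -/

open Topology Filter Set

set_option autoImplicit false

namespace Pool.Agent.H5

theorem prf_C5 : S_C5 := by
  intro E L _ P z b M L' N f hf hM x hx O hO hxO q f' hf' h hh
  obtain ⟨x', h1, h2, h3, h4, h5⟩ := hM x hx.1 O hO hxO (q + N) (Fin.append f' f) (by
    intro k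
    refine Fin.addCases (fun i => ?_) (fun i => ?_) k
    · rw [Fin.append_left]; exact hf' i
    · rw [Fin.append_right]; exact hf i) h hh
  refine ⟨x', ⟨h1, ?_⟩, h2, ?_, h4, ?_⟩
  · intro k
    have := h3 (Fin.natAdd q k)
    rw [Fin.append_right] at this
    rw [this]; exact hx.2 k
  · intro k
    have := h3 (Fin.castAdd N k)
    rw [Fin.append_left] at this
    exact this
  · rcases h5 with h5 | h5
    · exact Or.inl h5
    · right
      have : b + N + q = b + (q + N) := by omega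
      rw [this]; exact h5

end Pool.Agent.H5

end

section

/-!
# C6: a set of letters is put equal to zero
-/

open Topology Filter Set

set_option autoImplicit false

namespace Pool.Agent.H5

theorem C6_fin (h1 : S_C1) {E L : Type} [TopologicalSpace E] (P : Set C(E, ℂ))
    (z : L → C(E, ℂ)) (b : ℕ) (M : Set E) (L' : Set L) (hz : ∀ a, z a ∈ P)
    (hLG : LG P z b M L') (F : Finset L) (hF : (F : Set L) ⊆ L') :
    LG P z b (M ∩ {x | ∀ a ∈ F, z a x = 0}) (L' \ (F : Set L)) := by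
  classical
  induction F using Finset.induction_on with
  | empty =>
    have e1 : M ∩ {x | ∀ a ∈ (∅ : Finset L), z a x = 0} = M := by
      ext x
      simp
    rw [e1, Finset.coe_empty, Set.sdiff_empty]
    exact hLG
  | insert a F ha ih =>
    rw [Finset.coe_insert, Set.insert_subset_iff] at hF
    have hmem : a ∈ L' \ (F : Set L) := ⟨hF.1, fun h => ha (Finset.mem_coe.1 h)⟩
    have h := h1 E L P z b _ _ a (hz a) hmem (ih hF.2)
    have e1 : M ∩ {x | ∀ a' ∈ insert a F, z a' x = 0} =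
        M ∩ {x | ∀ a ∈ F, z a x = 0} ∩ {x | z a x = 0} := by
      ext x
      simp only [Set.mem_inter_iff, Set.mem_ofPred_eq, Finset.mem_insert, forall_eq_or_imp]
      tauto
    have e2 : L' \ ((insert a F : Finset L) : Set L) = (L' \ (F : Set L)) \ {a} := by
      ext x
      simp only [Set.mem_sdiff, Finset.coe_insert, Set.mem_insert_iff, Finset.mem_coe,
        Set.mem_singleton_iff]
      tauto
    rw [e1, e2]
    exact h

theorem prf_C6 (h1 : S_C1) (h2 : S_C2) : S_C6 := by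
  intro E L _ _ P z b M L' A hz hA hcl hLG
  have hne : Nonempty {F : Finset L // (F : Set L) ⊆ A} := ⟨⟨∅, by simp⟩⟩
  have key := h2 E L P z b {F : Finset L // (F : Set L) ⊆ A}
    (fun F => M ∩ {x | ∀ a ∈ F.1, z a x = 0}) (fun F => L' \ (F.1 : Set L)) (L' \ A)
    ?_ ?_ ?_ ?_
  · have e : (⋂ F : {F : Finset L // (F : Set L) ⊆ A}, (M ∩ {x | ∀ a ∈ F.1, z a x = 0})) =
        M ∩ {x | ∀ a ∈ A, z a x = 0} := by
      ext x
      rw [Set.mem_iInter]
      constructor
      · intro h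
        refine ⟨(h ⟨∅, by simp⟩).1, fun a ha => ?_⟩
        exact (h ⟨{a}, by simpa using ha⟩).2 a (by simp)
      · rintro ⟨h, h'⟩ F
        exact ⟨h, fun a ha => h' a (F.2 ha)⟩
    rw [← e]
    exact key
  · intro F G
    classical
    refine ⟨⟨F.1 ∪ G.1, ?_⟩, ?_, ?_⟩
    · rw [Finset.coe_union]
      exact Set.union_subset F.2 G.2
    · rintro x ⟨hx, hx'⟩
      exact ⟨hx, fun a ha => hx' a (Finset.mem_union_left _ ha)⟩
    · rintro x ⟨hx, hx'⟩
      exact ⟨hx, fun a ha => hx' a (Finset.mem_union_right _ ha)⟩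
  · intro F
    refine hcl.inter ?_
    have : {x : E | ∀ a ∈ F.1, z a x = 0} = ⋂ a ∈ F.1, {x : E | z a x = 0} := by
      ext y
      simp
    rw [this]
    exact isClosed_biInter fun a _ => isClosed_eq (z a).continuous continuous_const
  · intro F
    exact Set.sdiff_subset_sdiff_right F.2
  · intro F
    exact C6_fin h1 P z b M L' hz hLG F.1 (F.2.trans hA)

end Pool.Agent.H5

end

section

/-! C7: minimal sets -/

open Topology Filter Set

set_option autoImplicit false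

namespace Pool.Agent.H5

theorem prf_C7 (h2 : S_C2) (h4 : S_C4) : S_C7 := by
  intro E L _ _ P z b M L' e hP hz hMc heM hM
  let S : Set (Set E) := {A | A ⊆ M ∧ IsClosed A ∧ e ∈ A ∧ LG P z b A L'}
  have hMS : M ∈ S := ⟨subset_rfl, hMc, heM, hM⟩
  obtain ⟨M₀, hM₀, hmin⟩ := zorn_superset_nonempty S (by
    intro c hcS hc hne
    have : Nonempty c := hne.to_subtype
    refine ⟨⋂ i : c, i.1, ⟨?_, ?_, ?_, ?_⟩, ?_⟩
    · obtain ⟨A, hA⟩ := hne
      exact (iInter_subset (fun i : c => i.1) ⟨A, hA⟩).trans (hcS hA).1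
    · exact isClosed_iInter fun i => (hcS i.2).2.1
    · exact mem_iInter.mpr fun i => (hcS i.2).2.2.1
    · refine h2 E L P z b c (fun i => i.1) (fun _ => L') L' ?_ (fun i => (hcS i.2).2.1)
        (fun _ => subset_rfl) (fun i => (hcS i.2).2.2.2)
      intro i j
      rcases hc.total i.2 j.2 with h | h
      · exact ⟨i, subset_rfl, h⟩
      · exact ⟨j, h, subset_rfl⟩
    · intro s hs
      exact iInter_subset (fun i : c => i.1) ⟨s, hs⟩) M hMS
  refine ⟨M₀, hM₀, hmin.1.2.1, hmin.1.2.2.1, hmin.1.2.2.2, ?_⟩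
  intro a
  by_cases he : e ∈ closure (M₀ ∩ {x | z a x ≠ 0})
  · left
    have hsub : closure (M₀ ∩ {x | z a x ≠ 0}) ⊆ M₀ :=
      closure_minimal inter_subset_left hmin.1.2.1
    refine subset_antisymm hsub ?_
    exact hmin.2 ⟨hsub.trans hM₀, isClosed_closure, he,
      h4 E L P z b M₀ L' (z a) hP (hz a) hmin.1.2.1 hmin.1.2.2.2⟩ hsub
  · exact Or.inr he

end Pool.Agent.H5

end

section

/-!
# C8: case A (helper19)
-/

open Topology Filter Set

set_option autoImplicit false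

namespace Pool.Agent.H5

theorem C8_closed {E L : Type} [TopologicalSpace E] (z : L → C(E, ℂ)) (b : ℕ) (L' : Set L) :
    IsClosed {x : E | {a | a ∈ L' ∧ ‖z a x‖ < 1}.encard < (b : ℕ∞)} := by
  rw [← isOpen_compl_iff, isOpen_iff_forall_mem_open]
  intro x hx
  have hx' : (b : ℕ∞) ≤ {a | a ∈ L' ∧ ‖z a x‖ < 1}.encard := not_lt.1 hx
  obtain ⟨t, ht, htb⟩ := exists_subset_encard_eq hx'
  have htf : t.Finite := by
    rw [← encard_lt_top_iff, htb]
    exact ENat.natCast_lt_top b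
  refine ⟨⋂ a ∈ t, {y | ‖z a y‖ < 1}, ?_, ?_, ?_⟩
  · intro y hy
    have hsub : t ⊆ {a | a ∈ L' ∧ ‖z a y‖ < 1} := fun a ha => ⟨(ht ha).1, by
      have := mem_iInter₂.1 hy a ha
      exact this⟩
    have h1 := encard_le_encard hsub
    rw [htb] at h1
    exact not_lt.2 h1
  · exact htf.isOpen_biInter fun a _ => isOpen_lt (z a).continuous.norm continuous_const
  · exact mem_iInter₂.2 fun a ha => (ht ha).2

theorem C8_prod_mem {E L : Type} [TopologicalSpace E] {P : Set C(E, ℂ)} {z : L → C(E, ℂ)}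
    (hP : MulClosed P) (hz : ∀ a, z a ∈ P) (A : Finset L) (n : L → ℕ) :
    ∏ a ∈ A, z a ^ n a ∈ P := by
  classical
  induction A using Finset.induction_on with
  | empty => rw [Finset.prod_empty]; exact hP.1
  | insert a A ha ih =>
    rw [Finset.prod_insert ha]
    refine hP.2 _ ?_ _ ih
    generalize n a = m
    induction m with
    | zero => rw [pow_zero]; exact hP.1
    | succ m ihm => rw [pow_succ]; exact hP.2 _ ihm _ (hz a)

theorem prf_C8 : S_C8 := by
  intro E L _ _ _ P z b M L' L₀ e hP hz hz1 hM heM hLG hL₀ hcl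
  classical
  -- Baire
  have hbaire : ∃ x₀ ∈ M, ∀ a ∈ L₀, z a x₀ ≠ 0 := by
    have hMc : CompactSpace M := isCompact_iff_compactSpace.1 hM.isCompact
    have hne : Nonempty M := ⟨⟨e, heM⟩⟩
    have hd : Dense (⋂ a ∈ L₀, {x : M | z a x ≠ 0}) := by
      refine dense_biInter_of_isOpen (fun a _ => ?_) hL₀ fun a ha => ?_
      · exact isOpen_ne_fun ((z a).continuous.comp continuous_subtype_val) continuous_const
      · rw [Subtype.dense_iff]
        have himg : ((↑) '' {x : M | z a x ≠ 0} : Set E) = M ∩ {x | z a x ≠ 0} := by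
          ext x
          constructor
          · rintro ⟨y, hy, rfl⟩
            exact ⟨y.2, hy⟩
          · rintro ⟨hx, hx'⟩
            exact ⟨⟨x, hx⟩, hx', rfl⟩
        rw [himg, hcl a ha]
    obtain ⟨x, hx⟩ := hd.nonempty
    exact ⟨x, x.2, fun a ha => mem_iInter₂.1 hx a ha⟩
  obtain ⟨x₀, hx₀M, hx₀⟩ := hbaire
  -- weights
  obtain ⟨w, hw, hwsum⟩ := hL₀.exists_pos_forall_sum_le (ε := 1) zero_lt_one
  set c : L → ℝ := fun a => -Real.log ‖z a x₀‖ with hc
  have hc0 : ∀ a, 0 ≤ c a := fun a => by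
    rw [hc]
    exact neg_nonneg.2 (Real.log_nonpos (norm_nonneg _) (hz1 a x₀))
  set d : L → ℕ := fun a => ⌈c a / w a⌉₊ + 1 with hd
  have hd1 : ∀ a, 0 < d a := fun a => Nat.succ_pos _
  have hdc : ∀ a, c a ≤ w a * d a := fun a => by
    have h1 : c a / w a ≤ d a := by
      rw [hd]
      push_cast
      exact (Nat.le_ceil _).trans (by linarith)
    rw [div_le_iff₀ (hw a)] at h1
    linarith
  -- the compact sets
  let K : {A : Finset L // (A : Set L) ⊆ L₀} → Set E := fun A =>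
    (M ∩ {x | {a | a ∈ L' ∧ ‖z a x‖ < 1}.encard < (b : ℕ∞)}) ∩
      ⋂ a ∈ A.1, {x | Real.exp (-(d a : ℝ)) ≤ ‖z a x‖}
  have hKc : ∀ A, IsClosed (K A) := fun A => by
    refine (hM.inter (C8_closed z b L')).inter ?_
    exact isClosed_biInter fun a _ => isClosed_le continuous_const (z a).continuous.norm
  have hKn : ∀ A, (K A).Nonempty := by
    rintro ⟨A, hA⟩
    set D : ℕ := ∏ a ∈ A, d a with hD
    have hDpos : 0 < D := Finset.prod_pos fun a _ => hd1 a
    have hdvd : ∀ a ∈ A, D / d a * d a = D := fun a ha =>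
      Nat.div_mul_cancel (Finset.dvd_prod_of_mem d ha)
    obtain ⟨x', hx'M, -, -, hle, hor⟩ := hLG x₀ hx₀M univ isOpen_univ (mem_univ _) 0
      (fun k => k.elim0) (fun k => k.elim0) (∏ a ∈ A, z a ^ (D / d a))
      (C8_prod_mem hP hz A fun a => D / d a)
    have hcard : {a | a ∈ L' ∧ ‖z a x'‖ < 1}.encard < (b : ℕ∞) := by
      rcases hor with h | h
      · exact absurd (mem_univ _) h
      · simpa using h
    refine ⟨x', ⟨hx'M, hcard⟩, mem_iInter₂.2 fun a ha => ?_⟩
    have happ : ∀ x, ‖(∏ a ∈ A, z a ^ (D / d a) : C(E, ℂ)) x‖ = ∏ a ∈ A, ‖z a x‖ ^ (D / d a) := by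
      intro x
      rw [ContinuousMap.prod_apply, norm_prod]
      refine Finset.prod_congr rfl fun a _ => ?_
      rw [ContinuousMap.pow_apply, norm_pow]
    rw [happ, happ] at hle
    -- lower bound at `x₀`
    have hlow : Real.exp (-(D : ℝ)) ≤ ∏ a ∈ A, ‖z a x₀‖ ^ (D / d a) := by
      have h1 : ∏ a ∈ A, ‖z a x₀‖ ^ (D / d a) =
          Real.exp (-∑ a ∈ A, ((D / d a : ℕ) : ℝ) * c a) := by
        rw [← Finset.sum_neg_distrib, Real.exp_sum]
        refine Finset.prod_congr rfl fun a haA => ?_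
        have hpos : 0 < ‖z a x₀‖ := norm_pos_iff.2 (hx₀ a (hA haA))
        rw [hc]
        simp only [mul_neg, neg_neg]
        rw [Real.exp_nat_mul, Real.exp_log hpos]
      rw [h1]
      refine Real.exp_le_exp.2 (neg_le_neg ?_)
      calc ∑ a ∈ A, ((D / d a : ℕ) : ℝ) * c a ≤ ∑ a ∈ A, (D : ℝ) * w a := by
            refine Finset.sum_le_sum fun a haA => ?_
            have h2 : ((D / d a : ℕ) : ℝ) * d a = D := by exact_mod_cast hdvd a haA
            calc ((D / d a : ℕ) : ℝ) * c a ≤ ((D / d a : ℕ) : ℝ) * (w a * d a) :=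
                  mul_le_mul_of_nonneg_left (hdc a) (Nat.cast_nonneg _)
              _ = (((D / d a : ℕ) : ℝ) * d a) * w a := by ring
              _ = _ := by rw [h2]
        _ = (D : ℝ) * ∑ a ∈ A, w a := by rw [Finset.mul_sum]
        _ ≤ (D : ℝ) * 1 := mul_le_mul_of_nonneg_left (hwsum A hA) (Nat.cast_nonneg _)
        _ = D := mul_one _
    have hupp : ∏ a ∈ A, ‖z a x'‖ ^ (D / d a) ≤ ‖z a x'‖ ^ (D / d a) := by
      rw [← Finset.mul_prod_erase A (fun a => ‖z a x'‖ ^ (D / d a)) ha]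
      refine mul_le_of_le_one_right (by positivity) ?_
      exact Finset.prod_le_one (fun _ _ => by positivity) fun i _ =>
        pow_le_one₀ (norm_nonneg _) (hz1 i x')
    have hfin : Real.exp (-(d a : ℝ)) ^ (D / d a) ≤ ‖z a x'‖ ^ (D / d a) := by
      have h2 : ((D / d a : ℕ) : ℝ) * d a = D := by exact_mod_cast hdvd a ha
      rw [← Real.exp_nat_mul, mul_neg, h2]
      exact hlow.trans (hle.trans hupp)
    have hne : D / d a ≠ 0 := by
      intro h0
      have := hdvd a ha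
      rw [h0, zero_mul] at this
      omega
    exact le_of_pow_le_pow_left₀ hne (norm_nonneg _) hfin
  have hKd : Directed (· ⊇ ·) K := by
    rintro ⟨A, hA⟩ ⟨B, hB⟩
    refine ⟨⟨A ∪ B, by rw [Finset.coe_union]; exact union_subset hA hB⟩, ?_, ?_⟩
    · rintro x ⟨hx, hx'⟩
      exact ⟨hx, mem_iInter₂.2 fun a ha => mem_iInter₂.1 hx' a (Finset.mem_union_left _ ha)⟩
    · rintro x ⟨hx, hx'⟩
      exact ⟨hx, mem_iInter₂.2 fun a ha => mem_iInter₂.1 hx' a (Finset.mem_union_right _ ha)⟩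
  have hne : Nonempty {A : Finset L // (A : Set L) ⊆ L₀} := ⟨⟨∅, by simp⟩⟩
  obtain ⟨x, hx⟩ := IsCompact.nonempty_iInter_of_directed_nonempty_isCompact_isClosed K hKd hKn
    (fun A => (hKc A).isCompact) hKc
  rw [mem_iInter] at hx
  have h0 := hx ⟨∅, by simp⟩
  refine ⟨x, h0.1.1, fun a ha hza => ?_, h0.1.2⟩
  have h1 := mem_iInter₂.1 (hx ⟨{a}, by simpa using ha⟩).2 a (Finset.mem_singleton_self a)
  have h2 : Real.exp (-(d a : ℝ)) ≤ ‖z a x‖ := h1
  rw [hza, norm_zero] at h2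
  exact absurd h2 (not_le.2 (Real.exp_pos _))

end Pool.Agent.H5

end

section

open Topology Filter Set

set_option autoImplicit false

namespace Pool.Agent.H5

theorem prf_C9 : S_C9 := by
  intro E L _ P z b M L' a haL haM hLG x hx O hO hxO q f hf h hh
  obtain ⟨x', hx'M, hx'O, hval, hle, hor⟩ := hLG x hx O hO hxO q f hf h hh
  refine ⟨x', hx'M, hx'O, hval, hle, ?_⟩
  rcases hor with hor | hor
  · exact Or.inl hor
  · right
    have h0 : z a x' = 0 := haM x' hx'M
    have hset : {a' | a' ∈ insert a L' ∧ ‖z a' x'‖ < 1} =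
        insert a {a' | a' ∈ L' ∧ ‖z a' x'‖ < 1} := by
      ext a'
      simp only [mem_ofPred_eq, mem_insert_iff]
      constructor
      · rintro ⟨h1 | h1, h2⟩
        · exact Or.inl h1
        · exact Or.inr ⟨h1, h2⟩
      · rintro (rfl | ⟨h1, h2⟩)
        · refine ⟨Or.inl rfl, ?_⟩
          rw [h0]
          simp
        · exact ⟨Or.inr h1, h2⟩
    rw [hset, encard_insert_of_notMem (by
      intro hmem
      exact haL hmem.1)] at hor
    have h1 : (((b + 1 + q : ℕ)) : ℕ∞) = ((b + q : ℕ) : ℕ∞) + 1 := by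
      push_cast
      ring
    rw [h1] at hor
    exact lt_of_add_lt_add_right hor

end Pool.Agent.H5

end

section

open Topology Filter Set MvPolynomial

set_option autoImplicit false

namespace Pool.Agent.H5

/-- tails of a summable family over finite sets tend to zero -/
theorem F1_tail {V : Type} (f : L1 V) :
    Tendsto (fun S : Finset (V →₀ ℕ) =>
      ∑' μ, Set.indicator ((S : Set (V →₀ ℕ))ᶜ) (fun μ => ‖f.cf μ‖) μ) atTop (𝓝 0) := by
  have h := tendsto_tsum_compl_atTop_zero (fun μ => ‖f.cf μ‖)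
  refine h.congr fun S => ?_
  rw [← tsum_subtype]
  rfl

/-- convergence of the truncated evaluations along a filter -/
theorem F1_lim {V : Type} (h0 : S_B0) (f : L1 V) (𝒰 : Filter (Finset (V →₀ ℕ)))
    (h𝒰 : 𝒰 ≤ atTop) (X : Finset (V →₀ ℕ) → Dk V) (x : Dk V) (hX : Tendsto X 𝒰 (𝓝 x)) :
    Tendsto (fun S => eval (X S).1 (trp f S)) 𝒰 (𝓝 (ev f x)) := by
  have h1 : Tendsto (fun S => ev f (X S)) 𝒰 (𝓝 (ev f x)) :=
    ((ev f).continuous.tendsto x).comp hX
  have h2 : Tendsto (fun S => eval (X S).1 (trp f S) - ev f (X S)) 𝒰 (𝓝 0) := by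
    refine squeeze_zero_norm (fun S => ?_) ((F1_tail f).mono_left h𝒰)
    exact (h0 V f S (X S).1).2.1 (X S).2
  have h3 := h2.add h1
  simpa using h3

/-- points of the polydisc -/
def F1_mk {V : Type} (y : V → ℂ) (hy : ∀ j, ‖y j‖ ≤ 1) : Dk V := ⟨y, hy⟩

theorem F1_mk_val {V : Type} (y : V → ℂ) (hy : ∀ j, ‖y j‖ ≤ 1) : (F1_mk y hy).1 = y := rfl

theorem F1_closure {V : Type} (O : Set (Dk V)) (O1 : Set (V → ℂ))
    (hO : Subtype.val ⁻¹' O1 = O) (y : Dk V)
    (h : y.1 ∈ closure (O1 ∩ {y | ∀ i, ‖y i‖ ≤ 1})) : y ∈ closure O := by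
  have hind : IsInducing (Subtype.val : Dk V → V → ℂ) := ⟨rfl⟩
  have himg : (Subtype.val '' O : Set (V → ℂ)) = O1 ∩ {y | ∀ i, ‖y i‖ ≤ 1} := by
    ext u
    constructor
    · rintro ⟨v, hv, rfl⟩
      rw [← hO] at hv
      exact ⟨hv, v.2⟩
    · rintro ⟨hu1, hu2⟩
      refine ⟨F1_mk u hu2, ?_, rfl⟩
      rw [← hO]
      exact hu1
  have h2 := hind.closure_eq_preimage_closure_image O
  have h3 : y ∈ Subtype.val ⁻¹' closure (Subtype.val '' O : Set (V → ℂ)) := by
    show y.1 ∈ closure (Subtype.val '' O : Set (V → ℂ))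
    rw [himg]; exact h
  exact h2 ▸ h3

theorem prf_F1 (h9 : S_A9) (h0 : S_B0) (h1 : S_B1) : S_F1 := by
  classical
  intro Ω V _ _ T x hx O hO hxO q f hf h hh
  choose F hF using hf
  obtain ⟨H, hH⟩ := hh
  obtain ⟨O1, hO1, hO1O⟩ := isOpen_induced_iff.mp hO
  obtain ⟨w, hw, hwx⟩ := h1 Ω V T x hx
  have hstep : ∀ S : Finset (V →₀ ℕ), ∃ x' : Dk V, w S ∈ O →
      ((∀ j ∈ S.biUnion (fun μ => μ.support), T.rt j → x'.1 j ^ 2 = eval x'.1 (trp (T.v j) S)) ∧
      x' ∈ closure O ∧ (∀ k, eval x'.1 (trp (F k) S) = eval (w S).1 (trp (F k) S)) ∧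
      ‖eval (w S).1 (trp H S)‖ ≤ ‖eval x'.1 (trp H S)‖ ∧
      (x' ∉ O ∨ {a | a ∈ S.biUnion (fun μ => μ.support) ∧ ¬ T.rt a ∧ ‖x'.1 a‖ < 1}.encard
        < ((1 + q : ℕ) : ℕ∞))) := by
    intro S
    by_cases hwS : w S ∈ O
    swap
    · exact ⟨x, fun h => absurd h hwS⟩
    obtain ⟨y, hy1, hy2, hy3, hy4, hy5, hy6, hy7⟩ := h9 V Ω T.lev T.rt (fun j => trp (T.v j) S)
      (S.biUnion (fun μ => μ.support))
      (fun j _ hrt y hy => (h0 V (T.v j) S y).2.2 Ω T.lev (T.lev j) (T.low_v j hrt)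
        (T.norm_v j) hy) q (fun k => trp (F k) S) (trp H S) (w S).1 (w S).2
      (fun j _ hrt => hw S j hrt) O1 hO1 (by rw [← hO1O] at hwS; exact hwS)
    refine ⟨F1_mk y hy1, fun _ => ⟨hy3, ?_, hy5, hy6, ?_⟩⟩
    · exact F1_closure O O1 hO1O _ hy4
    · rcases hy7 with h | h
      · left
        intro h'
        rw [← hO1O] at h'
        exact h h'
      · right
        exact h
  choose X hX using hstep
  set 𝒰 : Ultrafilter (Finset (V →₀ ℕ)) := Ultrafilter.of atTop with h𝒰def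
  have h𝒰 : (𝒰 : Filter (Finset (V →₀ ℕ))) ≤ atTop := Ultrafilter.of_le atTop
  set x' : Dk V := (𝒰.map X).lim with hx'
  have hlim : Tendsto X 𝒰 (𝓝 x') := (𝒰.map X).le_nhds_lim
  have hwlim : Tendsto w 𝒰 (𝓝 x) := hwx.mono_left h𝒰
  have hevO : ∀ᶠ S in (𝒰 : Filter (Finset (V →₀ ℕ))), w S ∈ O :=
    hwlim.eventually (hO.mem_nhds hxO)
  have hact : ∀ j : V, ∀ᶠ S in (𝒰 : Filter (Finset (V →₀ ℕ))),
      j ∈ S.biUnion (fun μ => μ.support) := by
    intro j
    have : ∀ᶠ S in (atTop : Filter (Finset (V →₀ ℕ))), {Finsupp.single j 1} ≤ S :=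
      eventually_ge_atTop _
    filter_upwards [h𝒰 this] with S hS
    rw [Finset.mem_biUnion]
    refine ⟨Finsupp.single j 1, hS (Finset.mem_singleton_self _), ?_⟩
    rw [Finsupp.mem_support_iff, Finsupp.single_eq_same]
    exact one_ne_zero
  refine ⟨x', ?_, ?_, ?_, ?_, ?_⟩
  · intro j hrt
    have hl1 : Tendsto (fun S => (X S).1 j ^ 2) 𝒰 (𝓝 (x'.1 j ^ 2)) :=
      (((Dk.continuous_coord j).pow 2).tendsto x').comp hlim
    have hl2 := F1_lim h0 (T.v j) 𝒰 h𝒰 X x' hlim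
    refine tendsto_nhds_unique (hl1.congr' ?_) hl2
    filter_upwards [hevO, hact j] with S hS1 hS2
    exact (hX S hS1).1 j hS2 hrt
  · refine isClosed_closure.mem_of_tendsto hlim ?_
    filter_upwards [hevO] with S hS
    exact (hX S hS).2.1
  · intro k
    rw [← hF k]
    have hl1 := F1_lim h0 (F k) 𝒰 h𝒰 X x' hlim
    have hl2 := F1_lim h0 (F k) 𝒰 h𝒰 w x hwlim
    refine tendsto_nhds_unique (hl1.congr' ?_) hl2
    filter_upwards [hevO] with S hS
    exact (hX S hS).2.2.1 k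
  · rw [← hH]
    have hl1 := (F1_lim h0 H 𝒰 h𝒰 X x' hlim).norm
    have hl2 := (F1_lim h0 H 𝒰 h𝒰 w x hwlim).norm
    refine le_of_tendsto_of_tendsto hl2 hl1 ?_
    filter_upwards [hevO] with S hS
    exact (hX S hS).2.2.2.1
  · have hor : ∀ᶠ S in (𝒰 : Filter (Finset (V →₀ ℕ))), X S ∉ O ∨
        {a | a ∈ S.biUnion (fun μ => μ.support) ∧ ¬ T.rt a ∧ ‖(X S).1 a‖ < 1}.encard
        < ((1 + q : ℕ) : ℕ∞) := by
      filter_upwards [hevO] with S hS
      exact (hX S hS).2.2.2.2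
    rcases Ultrafilter.eventually_or.mp hor with h2 | h2
    · left
      exact hO.isClosed_compl.mem_of_tendsto hlim h2
    · right
      by_contra hcon
      rw [not_lt] at hcon
      obtain ⟨t, ht, htc⟩ := Set.exists_subset_encard_eq hcon
      have htf : t.Finite := by
        rw [← Set.encard_ne_top_iff, htc]
        exact ENat.coe_ne_top _
      have hall : ∀ᶠ S in (𝒰 : Filter (Finset (V →₀ ℕ))), ∀ a ∈ t,
          a ∈ S.biUnion (fun μ => μ.support) ∧ ¬ T.rt a ∧ ‖(X S).1 a‖ < 1 := by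
        rw [Filter.eventually_all_finite htf]
        intro a ha
        have hlt : ‖x'.1 a‖ < 1 := by
          have := (ht ha).2
          rwa [zc_apply] at this
        have hev : ∀ᶠ S in (𝒰 : Filter (Finset (V →₀ ℕ))), ‖(X S).1 a‖ < 1 := by
          have hc : Tendsto (fun S => ‖(X S).1 a‖) 𝒰 (𝓝 ‖x'.1 a‖) :=
            ((Dk.continuous_coord a).norm.tendsto x').comp hlim
          exact hc.eventually (gt_mem_nhds hlt)
        filter_upwards [hact a, hev] with S hS1 hS2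
        exact ⟨hS1, (ht ha).1, hS2⟩
      obtain ⟨S, hS1, hS2⟩ := (hall.and h2).exists
      have := Set.encard_le_encard (show t ⊆ {a | a ∈ S.biUnion (fun μ => μ.support) ∧
        ¬ T.rt a ∧ ‖(X S).1 a‖ < 1} from fun a ha => hS1 a ha)
      rw [htc] at this
      exact absurd hS2 (not_lt.mpr this)

end Pool.Agent.H5

end

section

open Topology Filter Set

set_option autoImplicit false

namespace Pool.Agent.H5

theorem RN_isClosed_pts {Ω V : Type} [LinearOrder Ω] (T : Twr Ω V) : IsClosed T.pts := by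
  have h : T.pts = ⋂ j, ⋂ (_ : T.rt j), {x : Dk V | x.1 j ^ 2 = ev (T.v j) x} := by
    ext x; simp only [Twr.pts, mem_setOf_eq, mem_iInter]
  rw [h]
  refine isClosed_iInter fun j => isClosed_iInter fun _ => ?_
  exact isClosed_eq ((Dk.continuous_coord j).pow 2) (ev (T.v j)).continuous

theorem RN_isClosed_Y {Ω V : Type} [LinearOrder Ω] (T : Twr Ω V) (e : Dk V) (g : Ω) :
    IsClosed (T.Y e g) := by
  have h : T.Y e g = ⋂ j, ⋂ (_ : T.lev j < g), {x : Dk V | x.1 j = e.1 j} := by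
    ext x; simp only [Twr.Y, mem_setOf_eq, mem_iInter]
  rw [h]
  refine isClosed_iInter fun j => isClosed_iInter fun _ => ?_
  exact isClosed_eq (Dk.continuous_coord j) continuous_const

theorem prf_RN (hF : S_F1) (h5 : S_C5) (h6 : S_C6) (h2 : S_T2) (h4 : S_T4) : S_RN := by
  intro Ω V _ _ T lam g₀ hg₀ hlim e he hel L₀ hL₀ N r hr
  -- M0
  have hP : ∀ j, zc j ∈ PP V := fun j => ⟨L1.X j, rfl⟩
  set M0 : Set (Dk V) := T.pts ∩ {x | ∀ k, ev (r k) x = 0} with hM0
  have hLG0 : LG (PP V) zc (1 + N) M0 T.letters :=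
    h5 (Dk V) V (PP V) zc 1 T.pts T.letters N (fun k => ev (r k)) (fun k => ⟨r k, rfl⟩)
      (hF Ω V T)
  have hc0 : IsClosed M0 := by
    refine (RN_isClosed_pts T).inter ?_
    have : {x : Dk V | ∀ k, ev (r k) x = 0} = ⋂ k, {x : Dk V | ev (r k) x = 0} := by
      ext x; simp only [mem_setOf_eq, mem_iInter]
    rw [this]
    exact isClosed_iInter fun k => isClosed_eq (ev (r k)).continuous continuous_const
  set A : Set V := {j | ¬ T.rt j ∧ (T.lev j < g₀ ∨ lam ≤ T.lev j)} with hA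
  have hAsub : A ⊆ T.letters := fun j hj => hj.1
  set M1 : Set (Dk V) := M0 ∩ {x | ∀ a ∈ A, zc a x = 0} with hM1
  have hLG1 : LG (PP V) zc (1 + N) M1 (T.letters \ A) :=
    h6 (Dk V) V (PP V) zc (1 + N) M0 T.letters A hP hAsub hc0 hLG0
  have hLt : T.letters \ A = T.Lt g₀ lam := by
    ext j
    simp only [Twr.letters, hA, Twr.Lt, mem_diff, mem_setOf_eq, not_and, not_or, not_lt, not_le]
    constructor
    · rintro ⟨h1, h2⟩
      exact ⟨h1, h2 h1⟩
    · rintro ⟨h1, h2⟩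
      exact ⟨h1, fun _ => h2⟩
  rw [hLt] at hLG1
  have hc1 : IsClosed M1 := by
    refine hc0.inter ?_
    have : {x : Dk V | ∀ a ∈ A, zc a x = 0} = ⋂ a, ⋂ (_ : a ∈ A), {x : Dk V | zc a x = 0} := by
      ext x; simp only [mem_setOf_eq, mem_iInter]
    rw [this]
    exact isClosed_iInter fun a => isClosed_iInter fun _ =>
      isClosed_eq (zc a).continuous continuous_const
  have hM1pts : M1 ⊆ T.pts := fun x hx => hx.1.1
  have hM1let : ∀ x ∈ M1, ∀ j, ¬ T.rt j → (T.lev j < g₀ ∨ lam ≤ T.lev j) → x.1 j = 0 := by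
    intro x hx j hj hlev
    have := hx.2 j ⟨hj, hlev⟩
    rwa [zc_apply] at this
  set M2 : Set (Dk V) := M1 ∩ T.Y e g₀ with hM2
  have hLG2 : LG (PP V) zc (1 + N) M2 (T.Lt g₀ lam) :=
    h2 Ω V T g₀ e (1 + N) M1 (T.Lt g₀ lam) hc1 hM1pts he hel
      (fun x hx j hj hlev => hM1let x hx j hj (Or.inl hlev)) hLG1
  have hc2 : IsClosed M2 := hc1.inter (RN_isClosed_Y T e g₀)
  have heM2 : e ∈ M2 := by
    refine ⟨⟨⟨he, hr⟩, fun a ha => ?_⟩, fun j _ => rfl⟩
    rw [zc_apply]; exact hel a ha.1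
  obtain ⟨g', hg', hgg', x, hx, hxY, hxL, hfin⟩ := h4 Ω V T lam hlim e he hel L₀ hL₀ (1 + N) g₀ hg₀
    M2 hc2 heM2 (fun x hx => ⟨hM1pts hx.1, fun j hj hlev => hM1let x hx.1 j hj hlev⟩)
    (fun x hx => hx.2) hLG2
  exact ⟨g', hg', hgg', x, hM1pts hx.1, hxY, hx.1.1.2, hxL, hfin⟩

end Pool.Agent.H5

end

section

open Topology Filter Set

set_option autoImplicit false

namespace Pool.Agent.H5

/-- a power series in variables of level less than `g` only depends on the coordinates of level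
less than `g` -/
theorem T1_evl_congr {Ω V : Type} [LinearOrder Ω] {lev : V → Ω} {g : Ω} {f : L1 V}
    (hf : Low lev g f) (x y : Dk V) (h : ∀ j, lev j < g → x.1 j = y.1 j) :
    ev f x = ev f y := by
  rw [ev_apply, ev_apply]
  unfold evl
  refine tsum_congr fun μ => ?_
  by_cases h0 : f.cf μ = 0
  · rw [h0, zero_smul, zero_smul]
  · congr 1
    unfold monVal Finsupp.prod
    refine Finset.prod_congr rfl fun j hj => ?_
    exact congrArg (fun c : ℂ => c ^ μ j) (h j (hf μ h0 j hj))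

theorem prf_T1 : S_T1 := by
  intro Ω V _ _ T g Z hZ hZ0 K hK hKc
  have key : ∀ w : Ω, ∀ j : V, T.lev j = w → ∀ hj : T.lev j < g, ∀ y ∈ K, ∀ y' ∈ K,
      y ⟨j, hj⟩ = y' ⟨j, hj⟩ := by
    intro w
    induction w using WellFoundedLT.induction with
    | ind w ih =>
      intro j hjw hj
      by_cases hr : T.rt j
      · -- a root
        intro y hy y' hy'
        have hsq : ∀ u ∈ K, u ⟨j, hj⟩ ^ 2 = y ⟨j, hj⟩ ^ 2 := by
          intro u hu
          obtain ⟨x, hx, rfl⟩ := hK hy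
          obtain ⟨x', hx', rfl⟩ := hK hu
          show x'.1 j ^ 2 = x.1 j ^ 2
          rw [hZ hx' j hr, hZ hx j hr]
          apply T1_evl_congr (T.low_v j hr)
          intro i hi
          exact ih (T.lev i) (hjw ▸ hi) i rfl (hi.trans hj) _ hu _ hy
        have himg : (fun u : {j : V // T.lev j < g} → ℂ => u ⟨j, hj⟩) '' K ⊆
            {y ⟨j, hj⟩, -y ⟨j, hj⟩} := by
          rintro _ ⟨u, hu, rfl⟩
          have := hsq u hu
          rw [sq_eq_sq_iff_eq_or_eq_neg] at this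
          exact this
        have hc : IsPreconnected ((fun u : {j : V // T.lev j < g} → ℂ => u ⟨j, hj⟩) '' K) :=
          hKc.image _ (continuous_apply _).continuousOn
        have hcount : ({y ⟨j, hj⟩, -y ⟨j, hj⟩} : Set ℂ).Countable :=
          (Set.toFinite _).countable
        have hsub := hcount.isTotallyDisconnected _ himg hc
        exact hsub ⟨y, hy, rfl⟩ ⟨y', hy', rfl⟩
      · intro y hy y' hy'
        obtain ⟨x, hx, rfl⟩ := hK hy
        obtain ⟨x', hx', rfl⟩ := hK hy'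
        show x.1 j = x'.1 j
        rw [hZ0 x hx j hr hj, hZ0 x' hx' j hr hj]
  intro y hy y' hy'
  funext ⟨j, hj⟩
  exact key (T.lev j) j rfl hj y hy y' hy'

end Pool.Agent.H5

end

section

open Topology Filter Set

set_option autoImplicit false

namespace Pool.Agent.H5

theorem prf_T2 (h1 : S_T1) (h2 : S_C2) (h3 : S_C3) : S_T2 := by
  intro Ω V _ _ T g e b M L' hM hMT heT he0 hM0 hLG
  let r : Dk V → ({j : V // T.lev j < g} → ℂ) := fun x i => x.1 i.1
  have hr : Continuous r := continuous_pi fun i => Dk.continuous_coord i.1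
  let K0 : Set ({j : V // T.lev j < g} → ℂ) := r '' (M ∪ {e})
  have hK0 : IsCompact K0 := ((hM.union isClosed_singleton).isCompact).image hr
  have hKe : r e ∈ K0 := ⟨e, Or.inr rfl, rfl⟩
  have hKM : ∀ x ∈ M, r x ∈ K0 := fun x hx => ⟨x, Or.inl hx, rfl⟩
  have hcomp : CompactSpace K0 := isCompact_iff_compactSpace.mp hK0
  have htd : TotallyDisconnectedSpace K0 := by
    rw [totallyDisconnectedSpace_subtype_iff]
    intro K hKsub hKc
    refine h1 Ω V T g (M ∪ {e}) ?_ ?_ K hKsub hKc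
    · rintro x (hx | hx)
      · exact hMT hx
      · rw [mem_singleton_iff] at hx
        rw [hx]
        exact heT
    · rintro x (hx | hx) j hj hjg
      · exact hM0 x hx j hj hjg
      · rw [mem_singleton_iff] at hx
        rw [hx]
        exact he0 j hj
  have hts : TotallySeparatedSpace K0 := loc_compact_t2_tot_disc_iff_tot_sep.mp htd
  let ι : Type := {A : Set K0 // IsClopen A ∧ (⟨r e, hKe⟩ : K0) ∈ A}
  have hne : Nonempty ι := ⟨⟨univ, isClopen_univ, mem_univ _⟩⟩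
  let MA : ι → Set (Dk V) := fun A => M ∩ r ⁻¹' (Subtype.val '' A.1)
  have hclosed : ∀ B : Set K0, IsClosed B → IsClosed (M ∩ r ⁻¹' (Subtype.val '' B)) := by
    intro B hB
    apply hM.inter
    apply IsClosed.preimage hr
    exact (hB.isCompact.image continuous_subtype_val).isClosed
  have hMA : ∀ A : ι, IsClosed (MA A) := fun A => hclosed A.1 A.2.1.1
  have hMA2 : ∀ A : ι, IsClosed (M \ MA A) := by
    intro A
    have heq : M \ MA A = M ∩ r ⁻¹' (Subtype.val '' (A.1)ᶜ) := by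
      ext x
      constructor
      · rintro ⟨hx, hx2⟩
        refine ⟨hx, ⟨r x, hKM x hx⟩, ?_, rfl⟩
        intro hA
        exact hx2 ⟨hx, ⟨⟨r x, hKM x hx⟩, hA, rfl⟩⟩
      · rintro ⟨hx, ⟨y, hy, hyx⟩⟩
        refine ⟨hx, ?_⟩
        rintro ⟨_, ⟨y', hy', hy'x⟩⟩
        apply hy
        have : y' = y := Subtype.ext (hy'x.trans hyx.symm)
        rw [← this]
        exact hy'
    rw [heq]
    exact hclosed _ A.2.1.compl.1
  have hLGA : ∀ A : ι, LG (PP V) zc b (MA A) L' := fun A =>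
    h3 (Dk V) V (PP V) zc b M (MA A) L' (hMA A) (hMA2 A) inter_subset_left hLG
  have hdir : Directed (· ⊇ ·) MA := by
    intro A B
    refine ⟨⟨A.1 ∩ B.1, A.2.1.inter B.2.1, A.2.2, B.2.2⟩, ?_, ?_⟩
    · exact inter_subset_inter_right _ (preimage_mono (image_mono inter_subset_left))
    · exact inter_subset_inter_right _ (preimage_mono (image_mono inter_subset_right))
  have hinter : (⋂ A, MA A) = M ∩ T.Y e g := by
    ext x
    constructor
    · intro hx
      rw [mem_iInter] at hx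
      have hxM : x ∈ M := (hx hne.some).1
      refine ⟨hxM, ?_⟩
      have hreq : r x = r e := by
        by_contra hcon
        have hcon' : (⟨r e, hKe⟩ : K0) ≠ ⟨r x, hKM x hxM⟩ := by
          intro h
          exact hcon (congrArg Subtype.val h).symm
        obtain ⟨U, hU, hUe, hUx⟩ := exists_isClopen_of_totally_separated hcon'
        obtain ⟨_, ⟨y, hy, hyx⟩⟩ := hx ⟨U, hU, hUe⟩
        apply hUx
        have : (⟨r x, hKM x hxM⟩ : K0) = y := Subtype.ext hyx.symm
        rw [this]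
        exact hy
      intro j hj
      exact congrFun hreq ⟨j, hj⟩
    · rintro ⟨hxM, hxY⟩
      rw [mem_iInter]
      intro A
      refine ⟨hxM, ⟨⟨r e, hKe⟩, A.2.2, ?_⟩⟩
      funext i
      exact (hxY i.1 i.2).symm
  rw [← hinter]
  exact h2 (Dk V) V (PP V) zc b ι MA (fun _ => L') L' hdir hMA (fun _ => le_rfl) hLGA

end Pool.Agent.H5

end

section

open Topology Filter Set

set_option autoImplicit false

namespace Pool.Agent.H5

theorem T3_isClosed_pts {Ω V : Type} [LinearOrder Ω] (T : Twr Ω V) : IsClosed T.pts := by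
  have h : T.pts = ⋂ j, ⋂ (_ : T.rt j), {x : Dk V | x.1 j ^ 2 = ev (T.v j) x} := by
    ext x; simp only [Twr.pts, mem_setOf_eq, mem_iInter]
  rw [h]
  refine isClosed_iInter fun j => isClosed_iInter fun _ => ?_
  exact isClosed_eq ((Dk.continuous_coord j).pow 2) (ev (T.v j)).continuous

/-- values of a low series agree at points that agree at the low coordinates -/
theorem T3_low_eq {Ω V : Type} [LinearOrder Ω] (lev : V → Ω) (g : Ω) (f : L1 V)
    (hf : Low lev g f) (x y : Dk V) (h : ∀ i, lev i < g → x.1 i = y.1 i) : ev f x = ev f y := by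
  rw [ev_apply, ev_apply, evl, evl]
  refine tsum_congr fun μ => ?_
  by_cases hμ : f.cf μ = 0
  · rw [hμ, zero_smul, zero_smul]
  · congr 1
    unfold monVal
    exact Finsupp.prod_congr fun i hi => by rw [h i (hf μ hμ i hi)]

/-- preconnected sets of points of a tower with vanishing letters are subsingletons -/
theorem T3_subsingleton {Ω V : Type} [LinearOrder Ω] [WellFoundedLT Ω] (T : Twr Ω V)
    (K : Set (Dk V)) (hK : K ⊆ T.pts) (hl : ∀ x ∈ K, ∀ j, ¬ T.rt j → x.1 j = 0)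
    (hc : IsPreconnected K) : K.Subsingleton := by
  have key : ∀ g : Ω, ∀ j, T.lev j = g → ∀ x ∈ K, ∀ y ∈ K, x.1 j = y.1 j := by
    intro g
    induction g using WellFoundedLT.induction with
    | _ g ih =>
      intro j hj x hx y hy
      by_cases hrt : T.rt j
      · have hval : ∀ z ∈ K, ev (T.v j) z = ev (T.v j) x := by
          intro z hz
          refine T3_low_eq T.lev (T.lev j) (T.v j) (T.low_v j hrt) z x ?_
          intro i hi
          exact ih (T.lev i) (hj ▸ hi) i rfl z hz x hx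
        -- image under the coordinate is preconnected and contained in {x j, - x j}
        have himg : IsPreconnected ((fun z : Dk V => z.1 j) '' K) :=
          hc.image _ (Dk.continuous_coord j).continuousOn
        have hfin : ((fun z : Dk V => z.1 j) '' K).Finite := by
          refine Set.Finite.subset (s := {x.1 j, - x.1 j}) (Set.toFinite _) ?_
          rintro _ ⟨z, hz, rfl⟩
          have h1 : z.1 j ^ 2 = x.1 j ^ 2 := by
            rw [hK hz j hrt, hval z hz, ← hK hx j hrt]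
          rcases sq_eq_sq_iff_eq_or_eq_neg.mp h1 with h | h
          · left; exact h
          · right; exact h
        have hsub : ((fun z : Dk V => z.1 j) '' K).Subsingleton := by
          by_contra hns
          rw [Set.not_subsingleton_iff] at hns
          exact (himg.infinite_of_nontrivial hns) hfin
        exact hsub ⟨x, hx, rfl⟩ ⟨y, hy, rfl⟩
      · rw [hl x hx j hrt, hl y hy j hrt]
  intro x hx y hy
  apply Subtype.ext
  funext j
  exact key (T.lev j) j rfl x hx y hy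

theorem prf_T3 (_h1 : S_T1) : S_T3 := by
  intro Ω V _ _ T e O hO heO he hel
  set Q : Set (Dk V) := {x | x ∈ T.pts ∧ ∀ j, ¬ T.rt j → x.1 j = 0} with hQ
  have hQc : IsClosed Q := by
    have : Q = T.pts ∩ ⋂ j, ⋂ (_ : ¬ T.rt j), {x : Dk V | x.1 j = 0} := by
      ext x; simp only [hQ, mem_setOf_eq, mem_inter_iff, mem_iInter]
    rw [this]
    refine (T3_isClosed_pts T).inter ?_
    exact isClosed_iInter fun j => isClosed_iInter fun _ =>
      isClosed_eq (Dk.continuous_coord j) continuous_const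
  haveI : CompactSpace Q := isCompact_iff_compactSpace.mp hQc.isCompact
  haveI : TotallyDisconnectedSpace Q := by
    refine ⟨?_⟩
    intro K _ hK
    have h2 : IsPreconnected (Subtype.val '' K : Set (Dk V)) :=
      hK.image _ continuous_subtype_val.continuousOn
    have h3 := T3_subsingleton T (Subtype.val '' K) (by rintro _ ⟨x, _, rfl⟩; exact x.2.1)
      (by rintro _ ⟨x, _, rfl⟩; exact x.2.2) h2
    intro x hx y hy
    exact Subtype.ext (h3 ⟨x, hx, rfl⟩ ⟨y, hy, rfl⟩)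
  have heQ : e ∈ Q := ⟨he, hel⟩
  obtain ⟨C, hC, heC, hCO⟩ := compact_exists_isClopen_in_isOpen
    (X := Q) (x := ⟨e, heQ⟩) (U := Subtype.val ⁻¹' O) (hO.preimage continuous_subtype_val) heO
  -- images in Dk V
  have hemb : IsClosedEmbedding (Subtype.val : Q → Dk V) := hQc.isClosedEmbedding_subtypeVal
  have hC1 : IsClosed (Subtype.val '' C : Set (Dk V)) := hemb.isClosedMap C hC.isClosed
  have hC2 : IsClosed (Subtype.val '' Cᶜ : Set (Dk V)) := hemb.isClosedMap _ hC.compl.isClosed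
  obtain ⟨U, hU, hCU, hUcl⟩ := normal_exists_closure_subset (s := (Subtype.val '' C : Set (Dk V)))
    (t := O ∩ (Subtype.val '' Cᶜ : Set (Dk V))ᶜ) hC1 (hO.inter hC2.isOpen_compl) (by
      rintro _ ⟨x, hx, rfl⟩
      refine ⟨hCO hx, ?_⟩
      rintro ⟨y, hy, hyx⟩
      have : y = x := Subtype.ext hyx
      rw [this] at hy
      exact hy hx)
  refine ⟨U, hU, hCU ⟨⟨e, heQ⟩, heC, rfl⟩, fun x hx => (hUcl hx).1, ?_⟩
  intro x hx hxp hxl
  have hxQ : x ∈ Q := ⟨hxp, hxl⟩
  apply hCU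
  by_cases hxC : (⟨x, hxQ⟩ : Q) ∈ C
  · exact ⟨⟨x, hxQ⟩, hxC, rfl⟩
  · exact absurd ⟨⟨x, hxQ⟩, hxC, rfl⟩ (hUcl hx).2

end Pool.Agent.H5

end

section

/-!
# T4: case B and the induction on `b`
-/

open Topology Filter Set

set_option autoImplicit false

namespace Pool.Agent.H5

theorem T4_mulClosed (V : Type) : MulClosed (PP V) := by
  refine ⟨⟨1, ?_⟩, ?_⟩
  · ext x
    rw [ev_apply, evl_one]
    · rfl
  · rintro _ ⟨f, rfl⟩ _ ⟨g, rfl⟩
    refine ⟨f * g, ?_⟩
    ext x
    rw [ev_apply, evl_mul x.2]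
    rfl

section
variable {Ω V : Type} [LinearOrder Ω]

theorem T4_pts_closed (T : Twr Ω V) : IsClosed T.pts := by
  have : T.pts = ⋂ j, ⋂ (_ : T.rt j), {x : Dk V | x.1 j ^ 2 = ev (T.v j) x} := by
    ext x
    simp [Twr.pts]
  rw [this]
  refine isClosed_iInter fun j => isClosed_iInter fun _ => ?_
  exact isClosed_eq ((Dk.continuous_coord j).pow 2) (ev (T.v j)).continuous

theorem T4_Q_closed (T : Twr Ω V) (g lam : Ω) : IsClosed (T.Q g lam) := by
  have : T.Q g lam = T.pts ∩ ⋂ j, ⋂ (_ : ¬ T.rt j), ⋂ (_ : T.lev j < g ∨ lam ≤ T.lev j),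
      {x : Dk V | x.1 j = 0} := by
    ext x
    simp only [Twr.Q, mem_setOf_eq, mem_inter_iff, mem_iInter]
  rw [this]
  refine (T4_pts_closed T).inter (isClosed_iInter fun j => isClosed_iInter fun _ =>
    isClosed_iInter fun _ => ?_)
  exact isClosed_eq (Dk.continuous_coord j) continuous_const

theorem T4_Y_closed (T : Twr Ω V) (e : Dk V) (g : Ω) : IsClosed (T.Y e g) := by
  have : T.Y e g = ⋂ j, ⋂ (_ : T.lev j < g), {x : Dk V | x.1 j = e.1 j} := by
    ext x
    simp only [Twr.Y, mem_setOf_eq, mem_iInter]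
  rw [this]
  refine isClosed_iInter fun j => isClosed_iInter fun _ => ?_
  exact isClosed_eq (Dk.continuous_coord j) continuous_const

theorem T4_Q_anti (T : Twr Ω V) {g g' : Ω} (lam : Ω) (h : g ≤ g') : T.Q g' lam ⊆ T.Q g lam := by
  rintro x ⟨hx, hx'⟩
  refine ⟨hx, fun j hj hj' => hx' j hj ?_⟩
  rcases hj' with hj' | hj'
  · exact Or.inl (lt_of_lt_of_le hj' h)
  · exact Or.inr hj'

/-- the compactness step -/
theorem T4_compact (T : Twr Ω V) (lam : Ω) (hlim : ∀ g < lam, ∃ g' < lam, g < g')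
    (U : Set (Dk V)) (hU : IsOpen U)
    (hUb : ∀ x ∈ closure U, x ∈ T.pts → (∀ j, ¬ T.rt j → x.1 j = 0) → x ∈ U)
    (g₁ : Ω) (hg₁ : g₁ < lam) :
    ∃ g' < lam, g₁ < g' ∧ closure U ∩ T.Q g' lam ⊆ U := by
  by_contra hcon
  push Not at hcon
  have hne : ∀ i : {g' : Ω // g' < lam ∧ g₁ < g'},
      ((closure U \ U) ∩ T.Q i.1 lam).Nonempty := by
    rintro ⟨g', h1, h2⟩
    obtain ⟨x, hx, hxU⟩ := Set.not_subset.1 (hcon g' h1 h2)
    exact ⟨x, ⟨hx.1, hxU⟩, hx.2⟩
  haveI : Nonempty {g' : Ω // g' < lam ∧ g₁ < g'} := by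
    obtain ⟨g', h1, h2⟩ := hlim g₁ hg₁
    exact ⟨⟨g', h1, h2⟩⟩
  have hcl : ∀ i : {g' : Ω // g' < lam ∧ g₁ < g'}, IsClosed ((closure U \ U) ∩ T.Q i.1 lam) := by
    intro i
    exact (isClosed_closure.sdiff hU).inter (T4_Q_closed T _ _)
  have hdir : Directed (· ⊇ ·) fun i : {g' : Ω // g' < lam ∧ g₁ < g'} =>
      (closure U \ U) ∩ T.Q i.1 lam := by
    intro i j
    rcases le_total i.1 j.1 with h | h
    · exact ⟨j, inter_subset_inter_right _ (T4_Q_anti T lam h), subset_rfl⟩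
    · exact ⟨i, subset_rfl, inter_subset_inter_right _ (T4_Q_anti T lam h)⟩
  obtain ⟨x, hx⟩ := IsCompact.nonempty_iInter_of_directed_nonempty_isCompact_isClosed _ hdir hne
    (fun i => (hcl i).isCompact) hcl
  rw [mem_iInter] at hx
  obtain ⟨i₀⟩ := (inferInstance : Nonempty {g' : Ω // g' < lam ∧ g₁ < g'})
  have hx0 := hx i₀
  refine hx0.1.2 (hUb x hx0.1.1 hx0.2.1 ?_)
  intro j hj
  rcases lt_or_ge (T.lev j) lam with h | h
  · obtain ⟨g', h1, h2⟩ := hlim (max (T.lev j) g₁) (max_lt h hg₁)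
    have := hx ⟨g', h1, lt_of_le_of_lt (le_max_right _ _) h2⟩
    exact this.2.2 j hj (Or.inl (lt_of_le_of_lt (le_max_left _ _) h2))
  · exact hx0.2.2 j hj (Or.inr h)

end

theorem prf_T4 (h3 : S_C3) (h6 : S_C6) (h7 : S_C7) (h8 : S_C8) (h9 : S_C9) (h2 : S_T2)
    (ht3 : S_T3) : S_T4 := by
  intro Ω V _ _ T lam hlim e he he0 L₀ hL₀ b
  have hP : MulClosed (PP V) := T4_mulClosed V
  have hz : ∀ a : V, zc a ∈ PP V := fun a => ⟨_, rfl⟩
  have hz1 : ∀ (a : V) (x : Dk V), ‖zc a x‖ ≤ 1 := fun a x => by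
    rw [zc_apply]; exact x.2 a
  induction b with
  | zero =>
    intro g hg M hM heM hQ hY hLG
    exfalso
    obtain ⟨x', _, _, _, _, h⟩ := hLG e heM univ isOpen_univ trivial 0 Fin.elim0
      (fun k => k.elim0) 1 hP.1
    simp at h
  | succ b ih =>
    intro g hg M hM heM hQ hY hLG
    obtain ⟨M₀, hM₀M, hM₀c, heM₀, hLG₀, hmin⟩ :=
      h7 _ _ (PP V) zc (b + 1) M (T.Lt g lam) e hP hz hM heM hLG
    by_cases hA : ∀ a ∈ L₀ ∩ T.Lt g lam, closure (M₀ ∩ {x | zc a x ≠ 0}) = M₀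
    · -- case A
      obtain ⟨x, hx, hx1, hx2⟩ := h8 _ _ (PP V) zc (b + 1) M₀ (T.Lt g lam) (L₀ ∩ T.Lt g lam) e
        hP hz hz1 hM₀c heM₀ hLG₀ (hL₀.mono inter_subset_left) hA
      refine ⟨g, hg, le_rfl, x, hM₀M hx, hY (hM₀M hx), ?_, ?_⟩
      · intro j hj hj'
        have := hx1 j ⟨hj, hj'⟩
        rwa [zc_apply] at this
      · have h1 : {j | j ∈ T.Lt g lam ∧ ‖zc j x‖ < 1}.Finite := by
          rw [← Set.encard_lt_top_iff]
          exact lt_of_lt_of_le hx2 le_top
        simpa only [zc_apply] using h1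
    · -- case B
      push Not at hA
      obtain ⟨a, haL, ha⟩ := hA
      have heO : e ∉ closure (M₀ ∩ {x | zc a x ≠ 0}) := (hmin a).resolve_left ha
      obtain ⟨U, hU, heU, hUO, hUb⟩ := ht3 Ω V T e (closure (M₀ ∩ {x | zc a x ≠ 0}))ᶜ
        isClosed_closure.isOpen_compl heO he he0
      have haLt : a ∈ T.Lt g lam := haL.2
      obtain ⟨g', hg', hg'2, hg'U⟩ := T4_compact T lam hlim U hU hUb (max (T.lev a) g)
        (max_lt haLt.2.2 hg)
      have hag' : T.lev a < g' := lt_of_le_of_lt (le_max_left _ _) hg'2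
      have hgg' : g < g' := lt_of_le_of_lt (le_max_right _ _) hg'2
      -- cut
      let A : Set V := {j | j ∈ T.Lt g g' ∧ j ≠ a}
      have hAsub : A ⊆ T.Lt g lam := by
        rintro j ⟨hj, -⟩
        exact ⟨hj.1, hj.2.1, lt_trans hj.2.2 hg'⟩
      have hLG₁ := h6 _ _ (PP V) zc (b + 1) M₀ (T.Lt g lam) A hz hAsub hM₀c hLG₀
      have hset : T.Lt g lam \ A = insert a (T.Lt g' lam) := by
        ext j
        constructor
        · rintro ⟨hj, hjA⟩
          by_cases hja : j = a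
          · exact Or.inl hja
          · right
            refine ⟨hj.1, ?_, hj.2.2⟩
            by_contra hlt
            exact hjA ⟨⟨hj.1, hj.2.1, not_le.1 hlt⟩, hja⟩
        · rintro (rfl | hj)
          · exact ⟨haLt, fun h => h.2 rfl⟩
          · refine ⟨⟨hj.1, hgg'.le.trans hj.2.1, hj.2.2⟩, fun h => ?_⟩
            exact absurd h.1.2.2 (not_lt.2 hj.2.1)
      rw [hset] at hLG₁
      set M₁ : Set (Dk V) := M₀ ∩ {x | ∀ j ∈ A, zc j x = 0} with hM₁
      have hM₁c : IsClosed M₁ := by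
        refine hM₀c.inter ?_
        have : {x : Dk V | ∀ j ∈ A, zc j x = 0} = ⋂ j, ⋂ (_ : j ∈ A), {x | zc j x = 0} := by
          ext x
          simp
        rw [this]
        refine isClosed_iInter fun j => isClosed_iInter fun _ => ?_
        exact isClosed_eq (zc j).continuous continuous_const
      set M₂ : Set (Dk V) := M₁ ∩ closure U with hM₂
      have hM₂a : ∀ x ∈ M₂, zc a x = 0 := by
        intro x hx
        by_contra hne
        exact hUO hx.2 (subset_closure ⟨hx.1.1, hne⟩)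
      have hM₂Q : M₂ ⊆ T.Q g' lam := by
        intro x hx
        have hxQ := hQ (hM₀M hx.1.1)
        refine ⟨hxQ.1, fun j hj hj' => ?_⟩
        rcases hj' with hj' | hj'
        · rcases lt_or_ge (T.lev j) g with h | h
          · exact hxQ.2 j hj (Or.inl h)
          · by_cases hja : j = a
            · rw [hja, ← zc_apply]
              exact hM₂a x hx
            · rw [← zc_apply]
              exact hx.1.2 j ⟨⟨hj, h, hj'⟩, hja⟩
        · exact hxQ.2 j hj (Or.inr hj')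
      have hM₂U : M₂ ⊆ U := fun x hx => hg'U ⟨hx.2, hM₂Q hx⟩
      have hM₂c : IsClosed M₂ := hM₁c.inter isClosed_closure
      have hdiff : M₁ \ M₂ = M₁ ∩ Uᶜ := by
        ext x
        constructor
        · rintro ⟨h1, h2⟩
          refine ⟨h1, fun hxU => h2 ⟨h1, subset_closure hxU⟩⟩
        · rintro ⟨h1, h2⟩
          exact ⟨h1, fun h => h2 (hM₂U h)⟩
      have hLG₂ := h3 _ _ (PP V) zc (b + 1) M₁ M₂ (insert a (T.Lt g' lam)) hM₂c
        (by rw [hdiff]; exact hM₁c.inter hU.isClosed_compl) inter_subset_left hLG₁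
      have haN : a ∉ T.Lt g' lam := fun h => absurd hag' (not_lt.2 h.2.1)
      have hLG₃ := h9 _ _ (PP V) zc b M₂ (T.Lt g' lam) a haN hM₂a hLG₂
      have hM₂p : M₂ ⊆ T.pts := fun x hx => (hM₂Q hx).1
      have hLG₄ := h2 Ω V T g' e b M₂ (T.Lt g' lam) hM₂c hM₂p he he0
        (fun x hx j hj hj' => (hM₂Q hx).2 j hj (Or.inl hj')) hLG₃
      have heM₂ : e ∈ M₂ := by
        refine ⟨⟨heM₀, fun j hj => ?_⟩, subset_closure heU⟩
        rw [zc_apply]
        exact he0 j hj.1.1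
      obtain ⟨g'', hg'', hle, x, hx, hxY, hx1, hx2⟩ := ih g' hg' (M₂ ∩ T.Y e g')
        (hM₂c.inter (T4_Y_closed T e g')) ⟨heM₂, fun j _ => rfl⟩
        (inter_subset_left.trans hM₂Q) inter_subset_right hLG₄
      exact ⟨g'', hg'', hgg'.le.trans hle, x, hM₀M hx.1.1.1, hxY, hx1, hx2⟩

end Pool.Agent.H5

end

section

/-!
# C4: removing the zero set of a function
-/

open Topology Filter Set

set_option autoImplicit false

namespace Pool.Agent.H5

theorem C4_pow {E : Type} [TopologicalSpace E] {P : Set C(E, ℂ)} (hP : MulClosed P)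
    {h : C(E, ℂ)} (hh : h ∈ P) (n : ℕ) : h ^ n ∈ P := by
  induction n with
  | zero => rw [pow_zero]; exact hP.1
  | succ n ih => rw [pow_succ]; exact hP.2 _ ih _ hh

/-- the closed set of the possible `x'` -/
theorem C4_T_closed {E L : Type} [TopologicalSpace E] (z : L → C(E, ℂ)) (L' : Set L) (n : ℕ)
    {O M' : Set E} (hO : IsOpen O) (hM' : IsClosed M') {q : ℕ} (f : Fin q → C(E, ℂ)) (y : E)
    (h : C(E, ℂ)) (c : ℝ) :
    IsClosed {x' | x' ∈ M' ∧ x' ∈ closure O ∧ (∀ k, f k x' = f k y) ∧ c ≤ ‖h x'‖ ∧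
      (x' ∉ O ∨ {a | a ∈ L' ∧ ‖z a x'‖ < 1}.encard < (n : ℕ∞))} := by
  have h1 : IsClosed {x' : E | ∀ k, f k x' = f k y} := by
    have : {x' : E | ∀ k, f k x' = f k y} = ⋂ k, {x' : E | f k x' = f k y} := by
      ext y
      simp
    rw [this]
    exact isClosed_iInter fun k => isClosed_eq (f k).continuous continuous_const
  have h2 : IsClosed {x' : E | c ≤ ‖h x'‖} :=
    isClosed_le continuous_const (continuous_norm.comp h.continuous)
  have h3 : IsClosed {x' : E | x' ∉ O ∨ {a | a ∈ L' ∧ ‖z a x'‖ < 1}.encard < (n : ℕ∞)} :=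
    hO.isClosed_compl.union (C2_closed z L' n)
  exact hM'.inter (isClosed_closure.inter (h1.inter (h2.inter h3)))

theorem C4_step1 {E L : Type} [TopologicalSpace E] [CompactSpace E] (P : Set C(E, ℂ))
    (z : L → C(E, ℂ)) (b : ℕ) (M : Set E) (L' : Set L) (u : C(E, ℂ)) (hP : MulClosed P)
    (hu : u ∈ P) (hLG : LG P z b M L') (y : E) (hy : y ∈ M)
    (huy : u y ≠ 0) (O : Set E) (hO : IsOpen O) (hyO : y ∈ O) (q : ℕ) (f : Fin q → C(E, ℂ))
    (hf : ∀ k, f k ∈ P) (h : C(E, ℂ)) (hh : h ∈ P) :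
    ∃ x' ∈ closure (M ∩ {x | u x ≠ 0}), x' ∈ closure O ∧ (∀ k, f k x' = f k y) ∧
      ‖h y‖ ≤ ‖h x'‖ ∧
      (x' ∉ O ∨ {a | a ∈ L' ∧ ‖z a x'‖ < 1}.encard < ((b + q : ℕ) : ℕ∞)) := by
  by_cases hhy : h y = 0
  · obtain ⟨x', h1, h2, h3, h4, h5⟩ := hLG y hy O hO hyO q f hf u hu
    refine ⟨x', subset_closure ⟨h1, ?_⟩, h2, h3, ?_, h5⟩
    · intro h0
      rw [h0, norm_zero] at h4
      exact huy (norm_le_zero_iff.1 h4)
    · rw [hhy, norm_zero]; exact norm_nonneg _
  · have hpos : 0 < ‖h y‖ := norm_pos_iff.2 hhy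
    have hupos : 0 < ‖u y‖ := norm_pos_iff.2 huy
    obtain ⟨C, hC0, hC⟩ : ∃ C : ℝ, 0 < C ∧ ∀ x, ‖u x‖ ≤ C :=
      ⟨‖u‖ + 1, by positivity, fun x => (u.norm_coe_le_norm x).trans (by linarith)⟩
    let ι : Type := {c : ℝ // 0 ≤ c ∧ c < ‖h y‖}
    have hne : Nonempty ι := ⟨⟨0, le_rfl, hpos⟩⟩
    let T : ι → Set E := fun c => {x' | x' ∈ closure (M ∩ {x | u x ≠ 0}) ∧ x' ∈ closure O ∧
      (∀ k, f k x' = f k y) ∧ c.1 ≤ ‖h x'‖ ∧
      (x' ∉ O ∨ {a | a ∈ L' ∧ ‖z a x'‖ < 1}.encard < ((b + q : ℕ) : ℕ∞))}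
    have hTcl : ∀ i, IsClosed (T i) := fun i =>
      C4_T_closed z L' (b + q) hO isClosed_closure f y h i.1
    have hTne : ∀ i, (T i).Nonempty := by
      rintro ⟨c, hc0, hc⟩
      have hlt : c / ‖h y‖ < 1 := by rw [div_lt_one hpos]; exact hc
      obtain ⟨n, hn⟩ := exists_pow_lt_of_lt_one (div_pos hupos hC0) hlt
      have hn' : c ^ n * C < ‖h y‖ ^ n * ‖u y‖ := by
        rw [div_pow, div_lt_div_iff₀ (pow_pos hpos n) hC0] at hn
        linarith
      obtain ⟨x', h1, h2, h3, h4, h5⟩ := hLG y hy O hO hyO q f hf (h ^ n * u)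
        (hP.2 _ (C4_pow hP hh n) _ hu)
      have h4' : ‖h y‖ ^ n * ‖u y‖ ≤ ‖h x'‖ ^ n * ‖u x'‖ := by
        simpa [norm_mul, norm_pow] using h4
      refine ⟨x', subset_closure ⟨h1, ?_⟩, h2, h3, ?_, h5⟩
      · intro h0
        rw [h0, norm_zero, mul_zero] at h4'
        have : 0 < ‖h y‖ ^ n * ‖u y‖ := by positivity
        linarith
      · by_contra hlt'
        push Not at hlt'
        have h6 : ‖h x'‖ ^ n * ‖u x'‖ ≤ c ^ n * C :=
          mul_le_mul (pow_le_pow_left₀ (norm_nonneg _) hlt'.le n) (hC x') (norm_nonneg _)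
            (by positivity)
        linarith
    have hTdir : Directed (· ⊇ ·) T := by
      intro i j
      rcases le_total i.1 j.1 with hij | hij
      · exact ⟨j, fun x hx => ⟨hx.1, hx.2.1, hx.2.2.1, hij.trans hx.2.2.2.1, hx.2.2.2.2⟩,
          fun x hx => hx⟩
      · exact ⟨i, fun x hx => hx,
          fun x hx => ⟨hx.1, hx.2.1, hx.2.2.1, hij.trans hx.2.2.2.1, hx.2.2.2.2⟩⟩
    obtain ⟨x', hx'⟩ := IsCompact.nonempty_iInter_of_directed_nonempty_isCompact_isClosed T hTdir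
      hTne (fun i => (hTcl i).isCompact) hTcl
    rw [Set.mem_iInter] at hx'
    obtain ⟨h1, h2, h3, -, h5⟩ := hx' ⟨0, le_rfl, hpos⟩
    refine ⟨x', h1, h2, h3, ?_, h5⟩
    by_contra hlt
    push Not at hlt
    have h6 := (hx' ⟨(‖h x'‖ + ‖h y‖) / 2, by positivity, by linarith⟩).2.2.2.1
    simp only at h6
    linarith

theorem prf_C4 : S_C4 := by
  intro E L _ _ P z b M L' u hP hu hM hLG x hx O hO hxO q f hf h hh
  let D : Set (E × E) := {w | w.2 ∈ closure (M ∩ {x | u x ≠ 0}) ∧ w.2 ∈ closure O ∧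
    (∀ k, f k w.2 = f k w.1) ∧ ‖h w.1‖ ≤ ‖h w.2‖ ∧
    (w.2 ∉ O ∨ {a | a ∈ L' ∧ ‖z a w.2‖ < 1}.encard < ((b + q : ℕ) : ℕ∞))}
  have hD : IsClosed D := by
    have h1 : IsClosed {w : E × E | ∀ k, f k w.2 = f k w.1} := by
      have : {w : E × E | ∀ k, f k w.2 = f k w.1} = ⋂ k, {w : E × E | f k w.2 = f k w.1} := by
        ext y
        simp
      rw [this]
      exact isClosed_iInter fun k => isClosed_eq ((f k).continuous.comp continuous_snd)
        ((f k).continuous.comp continuous_fst)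
    have h2 : IsClosed {w : E × E | ‖h w.1‖ ≤ ‖h w.2‖} :=
      isClosed_le (continuous_norm.comp (h.continuous.comp continuous_fst))
        (continuous_norm.comp (h.continuous.comp continuous_snd))
    have h3 : IsClosed {x' : E | x' ∉ O ∨
        {a | a ∈ L' ∧ ‖z a x'‖ < 1}.encard < ((b + q : ℕ) : ℕ∞)} :=
      hO.isClosed_compl.union (C2_closed z L' (b + q))
    exact (isClosed_closure.preimage continuous_snd).inter
      ((isClosed_closure.preimage continuous_snd).inter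
        (h1.inter (h2.inter (h3.preimage continuous_snd))))
  have hS : IsClosed (Prod.fst '' D) := isClosedMap_fst_of_compactSpace D hD
  have hsub : O ∩ (M ∩ {x | u x ≠ 0}) ⊆ Prod.fst '' D := by
    rintro y ⟨hyO, hyM, hyu⟩
    obtain ⟨x', h1, h2, h3, h4, h5⟩ := C4_step1 P z b M L' u hP hu hLG y hyM hyu O hO hyO q f hf h hh
    exact ⟨(y, x'), ⟨h1, h2, h3, h4, h5⟩, rfl⟩
  have hxS : x ∈ Prod.fst '' D :=
    (hS.closure_subset_iff.2 hsub) (hO.inter_closure ⟨hxO, hx⟩)
  obtain ⟨⟨y, x'⟩, ⟨h1, h2, h3, h4, h5⟩, rfl⟩ := hxS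
  exact ⟨x', h1, h2, h3, h4, h5⟩

end Pool.Agent.H5

end

section

/-!
# The first two parts put together
-/

set_option autoImplicit false

namespace Pool.Agent.H5

theorem full_A5 : S_A5 := prf_A5 prf_A1 prf_A2 prf_A3 prf_A4

theorem full_F1 : S_F1 :=
  prf_F1 (prf_A9 (prf_A8 (prf_A7 (prf_A6 prf_A4 full_A5)))) prf_B0 (prf_B1 prf_B0)

theorem full_C6 : S_C6 := prf_C6 prf_C1 prf_C2

theorem full_T2 : S_T2 := prf_T2 prf_T1 prf_C2 prf_C3

theorem full_T4 : S_T4 := prf_T4 prf_C3 full_C6 (prf_C7 prf_C2 prf_C4) prf_C8 prf_C9 full_T2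
  (prf_T3 prf_T1)

theorem full_RN : S_RN := prf_RN full_F1 prf_C5 full_C6 full_T2 full_T4

end Pool.Agent.H5

end

section

open Cardinal Submodule Finset Filter Topology
open scoped ComplexConjugate

namespace Pool.Agent.Work.MP_10b086_an.Wild

theorem claimA3 (h9 : ClaimC9) (h8 : ClaimC8) (h6 : ClaimP6) (h2 : ClaimA2) : ClaimA3 := by
  obtain ⟨F⟩ := h9
  haveI := h8.1
  haveI := h8.2
  obtain ⟨P, hP, g, hg, ht⟩ := h6 UU ZZ F
  exact h2 UU ZZ F P hP g hg ht

end Pool.Agent.Work.MP_10b086_an.Wild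

end

section

/-!
# C1: the concrete operators exist
-/

open Cardinal Submodule Finset Filter Topology
open scoped ComplexConjugate

namespace Pool.Agent.Work.MP_10b086_an.Wild

private lemma c1_mem {ι : Type} {f : ι → ℂ} (hf : Summable fun i => ‖f i‖) :
    Memℓp (E := fun _ : ι => ℂ) f 1 := by
  rw [memℓp_gen_iff (by norm_num)]
  simpa using hf

private lemma c1_sum {ι : Type} (u : lp (fun _ : ι => ℂ) 1) : Summable fun i => ‖u i‖ := by
  have := (memℓp_gen_iff (p := 1) (by norm_num)).1 u.2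
  simpa using this

private lemma c1_norm {ι : Type} (u : lp (fun _ : ι => ℂ) 1) : ‖u‖ = ∑' i, ‖u i‖ := by
  rw [lp.norm_eq_tsum_rpow (by norm_num)]
  simp

private lemma c1_idx_inj : Function.Injective fun q : (ℕ × ℕ) × ℕ => idx q.1.1 q.1.2 q.2 := by
  rintro ⟨⟨a, c⟩, t⟩ ⟨⟨a', c'⟩, t'⟩ h
  simp only [idx, Nat.add_right_cancel_iff, Nat.pair_eq_pair] at h
  obtain ⟨⟨h1, h2⟩, h3⟩ := h
  simp [h1, h2, h3]

/-- sum along the fibres of an injective map -/
private noncomputable def c1_map (J : (ℕ × ℕ) × ℕ → ℕ) (hJ : Function.Injective J) :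
    UU →ₗ[ℂ] ZZ where
  toFun u := ⟨fun p => ∑' t, u (J (p, t)), by
    have h1 : Summable fun q : (ℕ × ℕ) × ℕ => ‖u (J q)‖ := (c1_sum u).comp_injective hJ
    refine c1_mem (Summable.of_nonneg_of_le (fun _ => norm_nonneg _) (fun p => ?_) h1.prod)
    exact norm_tsum_le_tsum_norm (h1.prod_factor p)⟩
  map_add' u v := by
    ext p
    have h1 : Summable fun q : (ℕ × ℕ) × ℕ => ‖u (J q)‖ := (c1_sum u).comp_injective hJ
    have h2 : Summable fun q : (ℕ × ℕ) × ℕ => ‖v (J q)‖ := (c1_sum v).comp_injective hJ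
    change ∑' t, (u (J (p, t)) + v (J (p, t))) = (∑' t, u (J (p, t))) + ∑' t, v (J (p, t))
    exact ((h1.prod_factor p).of_norm).tsum_add ((h2.prod_factor p).of_norm)
  map_smul' c u := by
    ext p
    change ∑' t, c * u (J (p, t)) = c * ∑' t, u (J (p, t))
    exact tsum_mul_left

private lemma c1_map_le (J : (ℕ × ℕ) × ℕ → ℕ) (hJ : Function.Injective J) (u : UU) :
    ‖c1_map J hJ u‖ ≤ ‖u‖ := by
  have h1 : Summable fun q : (ℕ × ℕ) × ℕ => ‖u (J q)‖ := (c1_sum u).comp_injective hJ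
  rw [c1_norm, c1_norm]
  calc ∑' p, ‖(c1_map J hJ u) p‖ ≤ ∑' p, ∑' t, ‖u (J (p, t))‖ :=
        Summable.tsum_le_tsum (fun p => norm_tsum_le_tsum_norm (h1.prod_factor p))
          (c1_sum _) h1.prod
    _ = ∑' q, ‖u (J q)‖ := (h1.tsum_prod).symm
    _ ≤ ∑' n, ‖u n‖ := tsum_comp_le_tsum_of_inj (c1_sum u) (fun _ => norm_nonneg _) hJ

private lemma c1_dl (n : ℕ) : 0 ≤ dl n ∧ dl n ≤ 1 := by
  unfold dl
  constructor
  · positivity
  · rw [div_le_one (by positivity)]
    have : (0 : ℝ) ≤ (((Nat.unpair (n - 1)).2 / 2 : ℕ) : ℝ) := by positivity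
    linarith

private lemma c1_b_le (u w : UU) (p : ℕ × ℕ) :
    ‖(dl p.1 : ℂ) * (dl p.2 : ℂ) * (u p.1 * w p.2)‖ ≤ ‖u p.1‖ * ‖w p.2‖ := by
  obtain ⟨h1, h2⟩ := c1_dl p.1
  obtain ⟨h3, h4⟩ := c1_dl p.2
  rw [norm_mul, norm_mul, norm_mul, Complex.norm_real, Complex.norm_real, Real.norm_of_nonneg h1,
    Real.norm_of_nonneg h3]
  have h5 : dl p.1 * dl p.2 ≤ 1 := by nlinarith
  have h6 : 0 ≤ ‖u p.1‖ * ‖w p.2‖ := by positivity
  nlinarith

private lemma c1_prod_sum (u w : UU) : Summable fun p : ℕ × ℕ => ‖u p.1‖ * ‖w p.2‖ :=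
  (c1_sum u).mul_of_nonneg (c1_sum w) (fun _ => norm_nonneg _) (fun _ => norm_nonneg _)

private noncomputable def c1_b : UU →ₗ[ℂ] UU →ₗ[ℂ] ZZ :=
  LinearMap.mk₂ ℂ
    (fun u w => ⟨fun p => (dl p.1 : ℂ) * (dl p.2 : ℂ) * (u p.1 * w p.2),
      c1_mem (Summable.of_nonneg_of_le (fun _ => norm_nonneg _) (c1_b_le u w)
        (c1_prod_sum u w))⟩)
    (fun u u' w => by
      ext p
      change (dl p.1 : ℂ) * (dl p.2 : ℂ) * ((u p.1 + u' p.1) * w p.2) =
        (dl p.1 : ℂ) * (dl p.2 : ℂ) * (u p.1 * w p.2) +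
        (dl p.1 : ℂ) * (dl p.2 : ℂ) * (u' p.1 * w p.2)
      ring)
    (fun c u w => by
      ext p
      change (dl p.1 : ℂ) * (dl p.2 : ℂ) * ((c * u p.1) * w p.2) =
        c * ((dl p.1 : ℂ) * (dl p.2 : ℂ) * (u p.1 * w p.2))
      ring)
    (fun u w w' => by
      ext p
      change (dl p.1 : ℂ) * (dl p.2 : ℂ) * (u p.1 * (w p.2 + w' p.2)) =
        (dl p.1 : ℂ) * (dl p.2 : ℂ) * (u p.1 * w p.2) +
        (dl p.1 : ℂ) * (dl p.2 : ℂ) * (u p.1 * w' p.2)
      ring)
    (fun c u w => by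
      ext p
      change (dl p.1 : ℂ) * (dl p.2 : ℂ) * (u p.1 * (c * w p.2)) =
        c * ((dl p.1 : ℂ) * (dl p.2 : ℂ) * (u p.1 * w p.2))
      ring)

theorem claimC1 : ClaimC1 := by
  have hJ2 : Function.Injective fun q : (ℕ × ℕ) × ℕ => idx q.1.1 q.1.2 (2 * q.2 + 1) := by
    rintro ⟨⟨a, c⟩, t⟩ ⟨⟨a', c'⟩, t'⟩ h
    simp only [idx, Nat.add_right_cancel_iff, Nat.pair_eq_pair] at h
    obtain ⟨⟨h1, h2⟩, h3⟩ := h
    have h4 : t = t' := by omega
    simp [h1, h2, h4]
  refine ⟨c1_map _ c1_idx_inj, c1_map _ hJ2, c1_b, ?_⟩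
  refine ⟨fun u a c => rfl, fun u a c => rfl, fun u w n k => rfl, c1_map_le _ _, ?_⟩
  intro u w
  rw [c1_norm, c1_norm, c1_norm, (c1_sum u).tsum_mul_tsum (c1_sum w) (c1_prod_sum u w)]
  exact Summable.tsum_le_tsum (c1_b_le u w) (c1_sum _) (c1_prod_sum u w)

end Pool.Agent.Work.MP_10b086_an.Wild

end

section

open Cardinal Submodule Finset Filter Topology
open scoped ComplexConjugate

namespace Pool.Agent.Work.MP_10b086_an.Wild

theorem c2_lp_sum (n : ℕ) {I : Type} (f : Fin n → lp (fun _ : I => ℂ) 1) (j : I) :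
    (∑ i, f i : lp (fun _ : I => ℂ) 1) j = ∑ i, f i j := by
  induction n with
  | zero => simp
  | succ n ih => rw [Fin.sum_univ_succ, Fin.sum_univ_succ, ← ih]; rfl

theorem c2_dl_ne (n : ℕ) : (dl n : ℂ) ≠ 0 := by
  unfold dl
  norm_cast
  positivity

theorem claimC2 : ClaimC2 := by
  intro π ρ b h n x y hx h0 i
  have key : ∀ k : ℕ, ∀ i, y i k = 0 := by
    intro k
    have h1 : ∑ i, (y i k) • x i = 0 := by
      apply lp.ext
      funext m
      rw [c2_lp_sum]
      have h2 := congrArg (fun z : ZZ => z (m, k)) h0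
      simp only [c2_lp_sum, h.b_apply] at h2
      rw [← Finset.mul_sum] at h2
      have h3 : ∑ i, x i m * y i k = 0 := by
        rcases mul_eq_zero.mp h2 with h4 | h4
        · exact absurd h4 (mul_ne_zero (c2_dl_ne m) (c2_dl_ne k))
        · exact h4
      calc ∑ i, ((y i k) • x i : UU) m = ∑ i, x i m * y i k := by
            refine Finset.sum_congr rfl fun i _ => ?_
            rw [lp.coeFn_smul, Pi.smul_apply, smul_eq_mul, mul_comm]
        _ = 0 := h3
    exact Fintype.linearIndependent_iff.mp hx _ h1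
  apply lp.ext
  funext k
  exact key k i

end Pool.Agent.Work.MP_10b086_an.Wild

end
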