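import Mathlib
import Pool.Agent.Work.MP_10b086_an.H5.StmtsD
import Pool.Agent.Work.MP_10b086_an.Bd.B03

/-! Bundle of small proof modules (one section per former module). -/

section

open Topology Filter Set

set_option autoImplicit false

namespace Pool.Agent.H5

theorem E5_smul {Λ B : Type} [NormedCommRing B] [NormedAlgebra ℂ B] (c : ℂ) (u : Fm Λ B) :
    c • u = (algebraMap ℂ B c) • u := by
  apply lp.ext
  funext i
  show c • u i = algebraMap ℂ B c * u i
  rw [Algebra.smul_def]

theorem E5_smul_mem {Λ B : Type} [NormedCommRing B] [NormedAlgebra ℂ B]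
    (S : Submodule B (Fm Λ B)) (c : ℂ) {u : Fm Λ B} (hu : u ∈ S) : c • u ∈ S := by
  rw [E5_smul]
  exact S.smul_mem _ hu

theorem E5_mono {Λ B : Type} [LinearOrder Λ] [NormedCommRing B] [NormedAlgebra ℂ B]
    (M : MD Λ B) {D D' : Set Λ} (h : D ⊆ D') : M.RFK D ≤ M.RFK D' := by
  unfold MD.RFK MD.K
  refine sup_le_sup_left (Submodule.topologicalClosure_mono (Submodule.span_mono ?_)) _
  rintro u ⟨a, ha, hu⟩
  exact ⟨a, h ha, hu⟩

theorem prf_E5 (h1 : S_E1) (h2 : S_E2) (h4 : S_E4) : S_E5 := by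
  intro Λ B _ _ _ _ _ _ M hRN0 hRN1
  have hwf : WellFounded ((· < ·) : Λ → Λ → Prop) := wellFounded_lt
  let F : (a : Λ) → ((b : Λ) → b < a → Prop) → Prop := fun a ih =>
    ∀ c : ℂ, M.m - c • M.s a ∉ M.RFK {b | ∃ h : b < a, ih b h}
  let P : Λ → Prop := hwf.fix F
  have hP : ∀ a, P a ↔ ∀ c : ℂ, M.m - c • M.s a ∉ M.RFK ({b | P b} ∩ {b | b < a}) := by
    intro a
    have e1 : P a = F a (fun b _ => P b) := hwf.fix_eq F a
    have e2 : {b | ∃ _ : b < a, P b} = {b | P b} ∩ {b | b < a} := by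
      ext b
      constructor
      · rintro ⟨hb, hPb⟩
        exact ⟨hPb, hb⟩
      · rintro ⟨hPb, hb⟩
        exact ⟨hb, hPb⟩
    rw [e1]
    show (∀ c : ℂ, M.m - c • M.s a ∉ M.RFK {b | ∃ _ : b < a, P b}) ↔ _
    rw [e2]
  set D : Set Λ := {b | P b} with hD
  have claim : ∀ lam : WithTop Λ, M.m ∉ M.RFK (D ∩ {a | (a : WithTop Λ) < lam}) := by
    intro lam
    induction lam using WellFoundedLT.induction with
    | ind lam ih =>
      by_cases hne : ∃ g : Λ, (g : WithTop Λ) < lam
      · by_cases hlim : ∀ g : Λ, (g : WithTop Λ) < lam → ∃ g' : Λ, g < g' ∧ (g' : WithTop Λ) < lam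
        · intro hcon
          obtain ⟨g, hg, hmem⟩ := h4 Λ B M hRN1 lam hne hlim
            (D ∩ {a | (a : WithTop Λ) < lam}) (fun a ha => ha.2) hcon
          apply ih (g : WithTop Λ) hg
          refine E5_mono M ?_ hmem
          rintro a ⟨⟨haD, _⟩, hag⟩
          exact ⟨haD, WithTop.coe_lt_coe.mpr hag⟩
        · push Not at hlim
          obtain ⟨g, hg, hmax⟩ := hlim
          have hset : D ∩ {a | (a : WithTop Λ) < lam} ⊆ insert g (D ∩ {b | b < g}) := by
            rintro a ⟨haD, hal⟩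
            rcases lt_trichotomy a g with h | h | h
            · exact Or.inr ⟨haD, h⟩
            · exact Or.inl h
            · exact absurd hal (not_lt.mpr (hmax a h))
          by_cases hgD : g ∈ D
          · have h5 : M.m ∉ M.RFK (insert g (D ∩ {b | b < g})) :=
              h2 Λ B M (D ∩ {b | b < g}) g ((hP g).mp hgD)
            intro hcon
            exact h5 (E5_mono M hset hcon)
          · intro hcon
            apply ih (g : WithTop Λ) hg
            refine E5_mono M ?_ hcon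
            rintro a ha
            rcases hset ha with h | h
            · rw [h] at ha
              exact absurd ha.1 hgD
            · exact ⟨h.1, WithTop.coe_lt_coe.mpr h.2⟩
      · have hemp : D ∩ {a | (a : WithTop Λ) < lam} ⊆ ∅ := by
          rintro a ⟨_, ha⟩
          exact hne ⟨a, ha⟩
        intro hcon
        exact h1 Λ B M hRN0 (E5_mono M hemp hcon)
  have hmD : M.m ∉ M.RFK D := by
    intro hcon
    apply claim ⊤
    refine E5_mono M ?_ hcon
    intro a ha
    exact ⟨ha, WithTop.coe_lt_top a⟩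
  refine ⟨D, hmD, ?_⟩
  intro a
  by_cases ha : a ∈ D
  · refine ⟨0, ?_⟩
    rw [zero_smul, sub_zero]
    have h5 : M.s a = M.y a • (gen a : Fm Λ B) - (M.y a • (gen a : Fm Λ B) - M.s a) := by
      rw [sub_sub_cancel]
    rw [h5]
    apply sub_mem
    · apply Submodule.mem_sup_left
      exact Submodule.smul_mem_smul (show M.y a ∈ RingHom.ker M.ε from M.y_ε a) trivial
    · apply Submodule.mem_sup_right
      exact Submodule.le_topologicalClosure _ (Submodule.subset_span ⟨a, ha, rfl⟩)
  · have h5 := (not_congr (hP a)).mp ha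
    push Not at h5
    obtain ⟨c, hc⟩ := h5
    have h6 : M.m - c • M.s a ∈ M.RFK D := E5_mono M inter_subset_left hc
    have hc0 : c ≠ 0 := by
      rintro rfl
      rw [zero_smul, sub_zero] at h6
      exact hmD h6
    refine ⟨c⁻¹, ?_⟩
    have h7 : M.s a - c⁻¹ • M.m = (-c⁻¹) • (M.m - c • M.s a) := by
      rw [smul_sub, smul_smul, neg_smul, neg_mul, inv_mul_cancel₀ hc0, neg_smul, one_smul]
      abel
    rw [h7]
    exact E5_smul_mem _ _ h6

end Pool.Agent.H5

end

section

open Topology Filter Set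
open scoped ENNReal

set_option autoImplicit false

namespace Pool.Agent.H5

noncomputable section

theorem E6_term {Λ B : Type} [LinearOrder Λ] [NormedCommRing B] [NormOneClass B]
    [NormedAlgebra ℂ B] (M : MD Λ B) (i : ℕ ⊕ Λ) :
    lp.single (E := fun _ : ℕ ⊕ Λ => B) 1 i (M.m i) ∈ M.RF := by
  have h0 : M.ε (M.m i) = 0 := by
    rcases i with n | a
    · show M.ε (((1 / 2 : ℂ) ^ n) • M.z n) = 0
      rw [map_smul, M.z_ε, smul_zero]
    · show M.ε 0 = 0
      exact map_zero _
  have h1 : lp.single (E := fun _ : ℕ ⊕ Λ => B) 1 i (M.m i) =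
      (M.m i) • (lp.single (E := fun _ : ℕ ⊕ Λ => B) 1 i (1 : B)) := by
    rw [← lp.single_smul, smul_eq_mul, mul_one]
  rw [h1]
  exact Submodule.smul_mem_smul (RingHom.mem_ker.2 h0) Submodule.mem_top

theorem prf_E6 : S_E6 := by
  intro Λ B _ _ _ _ _ M
  have hs := lp.hasSum_single (E := fun _ : ℕ ⊕ Λ => B) (p := 1) (by norm_num) M.m
  refine mem_closure_of_tendsto hs ?_
  refine Eventually.of_forall fun s => ?_
  exact Submodule.sum_mem _ fun i _ => E6_term M i

end

end Pool.Agent.H5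

end

section

open Topology Filter Set
open scoped ENNReal ComplexConjugate

set_option autoImplicit false
set_option linter.unusedSectionVars false

namespace Pool.Agent.H5

noncomputable section

section

variable {B W : Type} [NormedCommRing B] [NormedAlgebra ℂ B]
  [NormedAddCommGroup W] [NormedSpace ℂ W] [Module B W]
  [IsBoundedSMul B W] [IsScalarTower ℂ B W] [Module Bᵐᵒᵖ W] [IsCentralScalar B W]
  [IsScalarTower ℂ Bᵐᵒᵖ W]

/-- the algebra `ker ε × W` -/
def G2_N (W : Type) [NormedAddCommGroup W] [NormedSpace ℂ W] [Module B W]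
    [IsBoundedSMul B W] [IsScalarTower ℂ B W] [Module Bᵐᵒᵖ W] [IsCentralScalar B W]
    [IsScalarTower ℂ Bᵐᵒᵖ W] (ε : B →ₐ[ℂ] ℂ) : NonUnitalSubalgebra ℂ (TrivSqZeroExt B W) where
  carrier := {x | ε x.fst = 0}
  add_mem' := by
    intro x y hx hy
    show ε (x + y).fst = 0
    rw [TrivSqZeroExt.fst_add, map_add, show ε x.fst = 0 from hx, show ε y.fst = 0 from hy,
      add_zero]
  zero_mem' := by
    show ε (0 : TrivSqZeroExt B W).fst = 0
    rw [TrivSqZeroExt.fst_zero, map_zero]
  mul_mem' := by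
    intro x y hx hy
    show ε (x * y).fst = 0
    rw [TrivSqZeroExt.fst_mul, map_mul, show ε x.fst = 0 from hx, zero_mul]
  smul_mem' := by
    intro c x hx
    show ε (c • x).fst = 0
    rw [TrivSqZeroExt.fst_smul, map_smul, show ε x.fst = 0 from hx, smul_zero]

instance (ε : B →ₐ[ℂ] ℂ) : NormedSpace ℂ (G2_N W ε) where
  norm_smul_le := by
    intro c x
    exact norm_smul_le c (x : TrivSqZeroExt B W)


omit [NormedSpace ℂ W] [IsScalarTower ℂ B W] [IsScalarTower ℂ Bᵐᵒᵖ W] [IsBoundedSMul B W]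
  [Module B W] [Module Bᵐᵒᵖ W] [IsCentralScalar B W] in
theorem G2_cont (ε : B →ₐ[ℂ] ℂ) (hε : ∀ t, ‖ε t‖ ≤ ‖t‖) : Continuous ε :=
  AddMonoidHomClass.continuous_of_bound ε 1 (fun t => by rw [one_mul]; exact hε t)

theorem G2_complete [CompleteSpace B] [CompleteSpace W] (ε : B →ₐ[ℂ] ℂ)
    (hε : ∀ t, ‖ε t‖ ≤ ‖t‖) : CompleteSpace (G2_N W ε) := by
  have hcl : IsClosed ((G2_N W ε : Set (TrivSqZeroExt B W))) := by
    have : (G2_N W ε : Set (TrivSqZeroExt B W)) = {x | ε x.fst = 0} := rfl
    rw [this]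
    exact isClosed_eq ((G2_cont ε hε).comp TrivSqZeroExt.continuous_fst) continuous_const
  exact hcl.completeSpace_coe

/-- the element `(0, w)` -/
def G2_inr (ε : B →ₐ[ℂ] ℂ) (w : W) : G2_N W ε :=
  ⟨TrivSqZeroExt.inr w, by
    show ε (TrivSqZeroExt.inr w : TrivSqZeroExt B W).fst = 0
    rw [TrivSqZeroExt.fst_inr, map_zero]⟩

/-- the element `(r, 0)` -/
def G2_inl (ε : B →ₐ[ℂ] ℂ) (r : B) (hr : ε r = 0) : G2_N W ε :=
  ⟨TrivSqZeroExt.inl r, by
    show ε (TrivSqZeroExt.inl r : TrivSqZeroExt B W).fst = 0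
    rw [TrivSqZeroExt.fst_inl, hr]⟩

theorem G2_inr_mem (ε : B →ₐ[ℂ] ℂ) {w : W}
    (hw : w ∈ (RingHom.ker ε) • (⊤ : Submodule B W)) :
    G2_inr ε w ∈ Pool.Agent.Work.MP_10b086_an.Sq (G2_N W ε) := by
  refine Submodule.smul_induction_on hw ?_ ?_
  · intro r hr n _
    have h1 : G2_inr ε (r • n) = G2_inl ε r hr * G2_inr ε n := by
      apply Subtype.ext
      show (TrivSqZeroExt.inr (r • n) : TrivSqZeroExt B W) =
        TrivSqZeroExt.inl r * TrivSqZeroExt.inr n
      rw [TrivSqZeroExt.inl_mul_inr]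
    rw [h1]
    exact Pool.Agent.Work.MP_10b086_an.mul_mem_Sq _ _
  · intro x y hx hy
    have h1 : G2_inr ε (x + y) = G2_inr ε x + G2_inr ε y := by
      apply Subtype.ext
      show (TrivSqZeroExt.inr (x + y) : TrivSqZeroExt B W) =
        TrivSqZeroExt.inr x + TrivSqZeroExt.inr y
      rw [TrivSqZeroExt.inr_add]
    rw [h1]
    exact add_mem hx hy

omit [IsBoundedSMul B W] [Module Bᵐᵒᵖ W] [IsCentralScalar B W] [IsScalarTower ℂ Bᵐᵒᵖ W] in
theorem G2_smul_mem (ε : B →ₐ[ℂ] ℂ) (c : ℂ) {w : W}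
    (hw : w ∈ (RingHom.ker ε) • (⊤ : Submodule B W)) :
    c • w ∈ (RingHom.ker ε) • (⊤ : Submodule B W) := by
  rw [← algebraMap_smul B c w]
  exact Submodule.smul_mem _ _ hw

theorem G2_snd_mem (ε : B →ₐ[ℂ] ℂ) {x : G2_N W ε}
    (hx : x ∈ Pool.Agent.Work.MP_10b086_an.Sq (G2_N W ε)) :
    (x : TrivSqZeroExt B W).snd ∈ (RingHom.ker ε) • (⊤ : Submodule B W) := by
  refine Submodule.span_induction (p := fun (x : G2_N W ε) _ =>
    (x : TrivSqZeroExt B W).snd ∈ (RingHom.ker ε) • (⊤ : Submodule B W)) ?_ ?_ ?_ ?_ hx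
  · rintro _ ⟨a, b, rfl⟩
    show ((a : TrivSqZeroExt B W) * (b : TrivSqZeroExt B W)).snd ∈ _
    rw [TrivSqZeroExt.snd_mul, op_smul_eq_smul]
    apply add_mem
    · exact Submodule.smul_mem_smul a.2 trivial
    · exact Submodule.smul_mem_smul b.2 trivial
  · show (0 : TrivSqZeroExt B W).snd ∈ _
    rw [TrivSqZeroExt.snd_zero]
    exact zero_mem _
  · intro x y _ _ hx hy
    show ((x : TrivSqZeroExt B W) + (y : TrivSqZeroExt B W)).snd ∈ _
    rw [TrivSqZeroExt.snd_add]
    exact add_mem hx hy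
  · intro c x _ hx
    show (c • (x : TrivSqZeroExt B W)).snd ∈ _
    rw [TrivSqZeroExt.snd_smul]
    exact G2_smul_mem ε c hx

theorem G2_main [CompleteSpace B] [CompleteSpace W] (h1 : S_G1) (ε : B →ₐ[ℂ] ℂ)
    (hε : ∀ t, ‖ε t‖ ≤ ‖t‖)
    (σ : B → B) (hσadd : ∀ s t, σ (s + t) = σ s + σ t) (hσmul : ∀ s t, σ (s * t) = σ s * σ t)
    (hσsmul : ∀ (c : ℂ) t, σ (c • t) = conj c • σ t) (hσσ : ∀ t, σ (σ t) = t)
    (hσn : ∀ t, ‖σ t‖ = ‖t‖) (hσε : ∀ t, ε (σ t) = conj (ε t))
    (τ : W → W) (hτadd : ∀ s t, τ (s + t) = τ s + τ t)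
    (hτsmul : ∀ (b : B) w, τ (b • w) = σ b • τ w)
    (hττ : ∀ w, τ (τ w) = w) (hτn : ∀ w, ‖τ w‖ ≤ ‖w‖) (m : W) (hm : τ m = m)
    (hsq : ∀ t, ε t = 0 → ∃ u, ε u = 0 ∧ u * u = t)
    (hm1 : m ∉ (RingHom.ker ε) • (⊤ : Submodule B W))
    (hm2 : ∀ w : W, ∃ c : ℂ, w - c • m ∈ (RingHom.ker ε) • (⊤ : Submodule B W))
    (hm3 : m ∈ closure (((RingHom.ker ε) • (⊤ : Submodule B W) : Submodule B W) : Set W)) :
    Final := by
  have hσ1 : σ 1 = 1 := by
    calc σ 1 = σ 1 * σ (σ 1) := by rw [hσσ, mul_one]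
      _ = σ (1 * σ 1) := by rw [hσmul]
      _ = 1 := by rw [one_mul, hσσ]
  have hτc : ∀ (c : ℂ) w, τ (c • w) = conj c • τ w := by
    intro c w
    rw [← algebraMap_smul B c w, hτsmul, Algebra.algebraMap_eq_smul_one, hσsmul, hσ1,
      smul_assoc, one_smul]
  have hσcont : Continuous σ := by
    let f : B →+ B := ⟨⟨σ, by
      have := hσadd 0 0
      rw [add_zero] at this
      exact left_eq_add.mp this⟩, hσadd⟩
    exact AddMonoidHomClass.continuous_of_bound f 1 (fun t => by rw [one_mul]; exact (hσn t).le)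
  have hτcont : Continuous τ := by
    let f : W →+ W := ⟨⟨τ, by
      have := hτadd 0 0
      rw [add_zero] at this
      exact left_eq_add.mp this⟩, hτadd⟩
    exact AddMonoidHomClass.continuous_of_bound f 1 (fun t => by rw [one_mul]; exact hτn t)
  have hcomp : CompleteSpace (G2_N W ε) := G2_complete ε hε
  let st : TrivSqZeroExt B W → TrivSqZeroExt B W := fun x =>
    TrivSqZeroExt.inl (σ x.fst) + TrivSqZeroExt.inr (τ x.snd)
  have st_fst : ∀ x, (st x).fst = σ x.fst := by
    intro x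
    show (TrivSqZeroExt.inl (σ x.fst) + TrivSqZeroExt.inr (τ x.snd) :
      TrivSqZeroExt B W).fst = _
    rw [TrivSqZeroExt.fst_add, TrivSqZeroExt.fst_inl, TrivSqZeroExt.fst_inr, add_zero]
  have st_snd : ∀ x, (st x).snd = τ x.snd := by
    intro x
    show (TrivSqZeroExt.inl (σ x.fst) + TrivSqZeroExt.inr (τ x.snd) :
      TrivSqZeroExt B W).snd = _
    rw [TrivSqZeroExt.snd_add, TrivSqZeroExt.snd_inl, TrivSqZeroExt.snd_inr, zero_add]
  let starN : G2_N W ε → G2_N W ε := fun x => ⟨st x, by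
    show ε (st x).fst = 0
    rw [st_fst, hσε, show ε (x : TrivSqZeroExt B W).fst = 0 from x.2, map_zero]⟩
  let iSR : StarRing (G2_N W ε) :=
    { star := starN
      star_involutive := by
        intro x
        apply Subtype.ext
        show st (st x) = x
        apply TrivSqZeroExt.ext
        · rw [st_fst, st_fst, hσσ]
        · rw [st_snd, st_snd, hττ]
      star_mul := by
        intro x y
        apply Subtype.ext
        show st ((x : TrivSqZeroExt B W) * y) = st y * st x
        apply TrivSqZeroExt.ext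
        · rw [st_fst, TrivSqZeroExt.fst_mul, TrivSqZeroExt.fst_mul, st_fst, st_fst, hσmul,
            mul_comm]
        · rw [st_snd, TrivSqZeroExt.snd_mul, TrivSqZeroExt.snd_mul, st_fst, st_fst, st_snd,
            st_snd, op_smul_eq_smul, op_smul_eq_smul, hτadd, hτsmul, hτsmul, add_comm]
      star_add := by
        intro x y
        apply Subtype.ext
        show st ((x : TrivSqZeroExt B W) + y) = st x + st y
        apply TrivSqZeroExt.ext
        · rw [st_fst, TrivSqZeroExt.fst_add, TrivSqZeroExt.fst_add, st_fst, st_fst, hσadd]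
        · rw [st_snd, TrivSqZeroExt.snd_add, TrivSqZeroExt.snd_add, st_snd, st_snd, hτadd] }
  have iSM : StarModule ℂ (G2_N W ε) := ⟨by
    intro c x
    apply Subtype.ext
    show st (c • (x : TrivSqZeroExt B W)) = conj c • st x
    apply TrivSqZeroExt.ext
    · rw [st_fst, TrivSqZeroExt.fst_smul, TrivSqZeroExt.fst_smul, st_fst, hσsmul]
    · rw [st_snd, TrivSqZeroExt.snd_smul, TrivSqZeroExt.snd_smul, st_snd, hτc]⟩
  have iCS : ContinuousStar (G2_N W ε) := ⟨by
    refine Continuous.subtype_mk ?_ _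
    show Continuous fun x : G2_N W ε => st x
    have h2 : Continuous st :=
      (TrivSqZeroExt.continuous_inl.comp (hσcont.comp TrivSqZeroExt.continuous_fst)).add
        (TrivSqZeroExt.continuous_inr.comp (hτcont.comp TrivSqZeroExt.continuous_snd))
    exact h2.comp continuous_subtype_val⟩
  refine h1 (G2_N W ε) (G2_inr ε m) ?_ ?_ ?_ ?_
  · apply Subtype.ext
    show st (TrivSqZeroExt.inr m) = TrivSqZeroExt.inr m
    apply TrivSqZeroExt.ext
    · rw [st_fst, TrivSqZeroExt.fst_inr]
      have := hσadd 0 0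
      rw [add_zero] at this
      exact left_eq_add.mp this
    · rw [st_snd, TrivSqZeroExt.snd_inr, hm]
  · intro hcon
    exact hm1 (by simpa [G2_inr] using G2_snd_mem ε hcon)
  · intro n
    obtain ⟨c, hc⟩ := hm2 (n : TrivSqZeroExt B W).snd
    refine ⟨c, ?_⟩
    obtain ⟨u, hu, huu⟩ := hsq (n : TrivSqZeroExt B W).fst n.2
    have h3 : n - c • G2_inr ε m = G2_inl ε u hu * G2_inl ε u hu +
        G2_inr ε ((n : TrivSqZeroExt B W).snd - c • m) := by
      apply Subtype.ext
      show (n : TrivSqZeroExt B W) - c • TrivSqZeroExt.inr m =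
        TrivSqZeroExt.inl u * TrivSqZeroExt.inl u +
          TrivSqZeroExt.inr ((n : TrivSqZeroExt B W).snd - c • m)
      apply TrivSqZeroExt.ext
      · simp [huu]
      · simp
    rw [h3]
    exact add_mem (Pool.Agent.Work.MP_10b086_an.mul_mem_Sq _ _) (G2_inr_mem ε hc)
  · have hcont : Continuous (G2_inr (W := W) ε) :=
      Continuous.subtype_mk TrivSqZeroExt.continuous_inr _
    exact map_mem_closure hcont hm3 (fun w hw => G2_inr_mem ε hw)

end

theorem prf_G2 (h1 : S_G1) : S_G2 := by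
  intro B W _ _ _ _ _ _ _ _ _ _ ε hε σ hσadd hσmul hσsmul hσσ hσn hσε τ hτadd hτsmul hττ hτn
    m hm hsq hm1 hm2 hm3
  let i1 : Module Bᵐᵒᵖ W := Module.compHom W ((RingHom.id B).fromOpposite mul_comm)
  have i2 : IsCentralScalar B W := ⟨fun _ _ => rfl⟩
  have i3 : IsScalarTower ℂ Bᵐᵒᵖ W := ⟨by
    intro c b w
    show (MulOpposite.unop (c • b)) • w = c • (MulOpposite.unop b • w)
    rw [MulOpposite.unop_smul, smul_assoc]⟩
  exact G2_main h1 ε hε σ hσadd hσmul hσsmul hσσ hσn hσε τ hτadd hτsmul hττ hτn m hm hsq hm1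
    hm2 hm3

end

end Pool.Agent.H5

end

section

open Topology Filter Set
open scoped ENNReal ComplexConjugate

set_option autoImplicit false
set_option linter.unusedSectionVars false

namespace Pool.Agent.H5

section
variable {Λ B : Type} [LinearOrder Λ] [NormedCommRing B] [NormOneClass B]
  [NormedAlgebra ℂ B] [CompleteSpace B]

theorem G3_norm (u : Fm Λ B) : ‖u‖ = ∑' i, ‖u i‖ := by
  have := lp.norm_eq_tsum_rpow (p := 1) (by norm_num) u
  simp only [ENNReal.toReal_one, Real.rpow_one, div_one] at this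
  exact this

theorem G3_sum (u : Fm Λ B) : Summable fun i => ‖u i‖ := by
  have := (lp.memℓp u).summable (by norm_num)
  simp only [ENNReal.toReal_one, Real.rpow_one] at this
  exact this

/-- the coordinatewise involution -/
noncomputable def G3_tau (σ : B → B) (hσ : ∀ t, ‖σ t‖ = ‖t‖) (u : Fm Λ B) : Fm Λ B :=
  ⟨fun i => σ (u i), by
    show Memℓp _ 1
    rw [memℓp_gen_iff (by norm_num)]
    simp only [ENNReal.toReal_one, Real.rpow_one, hσ]
    exact G3_sum u⟩

theorem G3_tau_apply (σ : B → B) (hσ : ∀ t, ‖σ t‖ = ‖t‖) (u : Fm Λ B) (i : ℕ ⊕ Λ) :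
    G3_tau σ hσ u i = σ (u i) := rfl

theorem G3_ext {u v : Fm Λ B} (h : ∀ i, u i = v i) : u = v := Subtype.ext (funext h)

end

theorem prf_G3 (h2 : S_G2) (h6 : S_E6) : S_G3 := by
  classical
  intro Λ B _ _ _ _ _ M σ hadd hmul hsmul hinv hnorm hε hz hy hs henum hsq D hmD hsD
  have hclosed : IsClosed ((M.K D : Submodule B (Fm Λ B)) : Set (Fm Λ B)) :=
    Submodule.isClosed_topologicalClosure _
  -- basic facts on σ
  have hσ0 : σ 0 = 0 := by
    have := hadd 0 0
    rw [add_zero] at this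
    exact left_eq_add.mp this
  have hσ1 : σ 1 = 1 := by
    have h := hmul 1 (σ 1)
    rw [one_mul, hinv, mul_one] at h
    exact h.symm
  set τ : Fm Λ B → Fm Λ B := G3_tau σ hnorm with hτ
  have τi : ∀ u i, τ u i = σ (u i) := fun u i => rfl
  have τadd : ∀ u v, τ (u + v) = τ u + τ v := fun u v => G3_ext fun i => by
    rw [τi, lp.coeFn_add, Pi.add_apply, hadd, lp.coeFn_add, Pi.add_apply, τi, τi]
  have τsmul : ∀ (b : B) u, τ (b • u) = σ b • τ u := fun b u => G3_ext fun i => by
    rw [τi, lp.coeFn_smul, Pi.smul_apply, smul_eq_mul, hmul, lp.coeFn_smul, Pi.smul_apply,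
      smul_eq_mul, τi]
  have τsmulC : ∀ (c : ℂ) u, τ (c • u) = conj c • τ u := fun c u => G3_ext fun i => by
    rw [τi, lp.coeFn_smul, Pi.smul_apply, hsmul, lp.coeFn_smul, Pi.smul_apply, τi]
  have τinv : ∀ u, τ (τ u) = u := fun u => G3_ext fun i => by rw [τi, τi, hinv]
  have τnorm : ∀ u, ‖τ u‖ = ‖u‖ := fun u => by
    rw [G3_norm, G3_norm]
    exact tsum_congr fun i => by rw [τi, hnorm]
  have τneg : ∀ u, τ (-u) = - τ u := fun u => by
    have h := τsmulC (-1) u
    rw [map_neg, map_one, neg_smul, one_smul, neg_smul, one_smul] at h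
    exact h
  have τsub : ∀ u v, τ (u - v) = τ u - τ v := fun u v => by
    rw [sub_eq_add_neg, τadd, τneg, ← sub_eq_add_neg]
  have τzero : τ 0 = 0 := G3_ext fun i => by
    rw [τi]; exact hσ0
  have τcont : Continuous τ := by
    have : Isometry τ := Isometry.of_dist_eq fun u v => by
      rw [dist_eq_norm, dist_eq_norm, ← τsub, τnorm]
    exact this.continuous
  have τgen : ∀ a, τ (gen a) = gen a := fun a => G3_ext fun i => by
    rw [τi]
    unfold gen
    rw [lp.single_apply]
    by_cases h : i = Sum.inr a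
    · subst h
      rw [Pi.single_eq_same, hσ1]
    · rw [Pi.single_eq_of_ne h, hσ0]
  have τs : ∀ a, τ (M.s a) = M.s a := fun a => G3_ext fun i => by rw [τi, hs]
  have τm : τ M.m = M.m := G3_ext fun i => by
    rw [τi]
    rcases i with n | a
    · show σ (((1 / 2 : ℂ) ^ n) • M.z n) = ((1 / 2 : ℂ) ^ n) • M.z n
      rw [hsmul, hz]
      congr 1
      rw [map_pow, map_div₀, map_one]
      congr 2
      exact Complex.conj_ofNat 2
    · show σ 0 = 0
      exact hσ0
  have τK : ∀ u ∈ M.K D, τ u ∈ M.K D := by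
    have h1 : ∀ u ∈ (Submodule.span B {u | ∃ a ∈ D, u = M.y a • (gen a : Fm Λ B) - M.s a}),
        τ u ∈ M.K D := by
      intro u hu
      induction hu using Submodule.span_induction with
      | mem u hu =>
        obtain ⟨a, ha, rfl⟩ := hu
        rw [τsub, τsmul, hy, τgen, τs]
        exact Submodule.le_topologicalClosure _ (Submodule.subset_span ⟨a, ha, rfl⟩)
      | zero => rw [τzero]; exact Submodule.zero_mem _
      | add u v _ _ hu hv => rw [τadd]; exact Submodule.add_mem _ hu hv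
      | smul b u _ hu => rw [τsmul]; exact Submodule.smul_mem _ _ hu
    intro u hu
    have h2 : (M.K D : Set (Fm Λ B)) ⊆ τ ⁻¹' (M.K D : Set (Fm Λ B)) := by
      have h3 : ((M.K D : Submodule B (Fm Λ B)) : Set (Fm Λ B)) = closure
          ((Submodule.span B {u | ∃ a ∈ D, u = M.y a • (gen a : Fm Λ B) - M.s a} :
            Submodule B (Fm Λ B)) : Set (Fm Λ B)) := Submodule.topologicalClosure_coe _
      rw [h3]
      refine closure_minimal (fun u hu => ?_) ?_
      · show τ u ∈ closure _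
        rw [← h3]
        exact h1 u hu
      · exact isClosed_closure.preimage τcont
    exact h2 hu
  -- the quotient
  set π : Fm Λ B →ₗ[B] (Fm Λ B ⧸ M.K D) := (M.K D).mkQ with hπ
  have hπsurj : Function.Surjective π := Submodule.mkQ_surjective _
  have hπker : ∀ u, π u = 0 ↔ u ∈ M.K D := fun u => Submodule.Quotient.mk_eq_zero _
  have hπeq : ∀ u v, u - v ∈ M.K D → π u = π v := fun u v h => by
    rw [← sub_eq_zero, ← map_sub]; exact (hπker _).mpr h
  set sc : (Fm Λ B ⧸ M.K D) → Fm Λ B := Function.surjInv hπsurj with hsc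
  have hsc' : ∀ w, π (sc w) = w := fun w => Function.surjInv_eq hπsurj w
  set τW : (Fm Λ B ⧸ M.K D) → (Fm Λ B ⧸ M.K D) := fun w => π (τ (sc w)) with hτW
  have τWπ : ∀ u, τW (π u) = π (τ u) := by
    intro u
    refine hπeq _ _ ?_
    rw [← τsub]
    refine τK _ ?_
    rw [← hπker, map_sub, hsc', sub_self]
  have hπnorm : ∀ u, ‖π u‖ ≤ ‖u‖ := fun u => Submodule.Quotient.norm_mk_le _ u
  have hπcont : Continuous π := by
    refine AddMonoidHomClass.continuous_of_bound π 1 (fun u => ?_)
    rw [one_mul]; exact hπnorm u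
  have hπC : ∀ (c : ℂ) (u : Fm Λ B), π (c • u) = c • π u := fun c u =>
    LinearMap.map_smul_of_tower π c u
  have hmapRF : Submodule.map π M.RF =
      (RingHom.ker M.ε) • (⊤ : Submodule B (Fm Λ B ⧸ M.K D)) := by
    unfold MD.RF
    rw [Submodule.map_smul'', Submodule.map_top, hπ, Submodule.range_mkQ]
  have hmapRFK : ∀ u ∈ M.RFK D, π u ∈
      (RingHom.ker M.ε) • (⊤ : Submodule B (Fm Λ B ⧸ M.K D)) := by
    intro u hu
    obtain ⟨u1, h1, u2, h2, rfl⟩ := Submodule.mem_sup.mp hu
    rw [map_add, (hπker u2).mpr h2, add_zero, ← hmapRF]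
    exact Submodule.mem_map_of_mem h1
  -- every element is a multiple of m up to RFK
  set P : Set (Fm Λ B) := {u | ∃ c : ℂ, u - c • M.m ∈ M.RFK D} with hP
  have Psmul : ∀ (k : ℂ) u, u ∈ P → k • u ∈ P := by
    rintro k u ⟨c, hc⟩
    refine ⟨k * c, ?_⟩
    have : k • u - (k * c) • M.m = k • (u - c • M.m) := by rw [smul_sub, smul_smul]
    rw [this]
    exact Submodule.smul_of_tower_mem _ k hc
  have Padd : ∀ u v, u ∈ P → v ∈ P → u + v ∈ P := by
    rintro u v ⟨c, hc⟩ ⟨d, hd⟩
    refine ⟨c + d, ?_⟩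
    have : u + v - (c + d) • M.m = (u - c • M.m) + (v - d • M.m) := by
      rw [add_smul]; abel
    rw [this]
    exact Submodule.add_mem _ hc hd
  have Preal : ∀ u, τ u = u → u ∈ P := by
    intro u hu
    set l : ℝ := 1 / (2 * (‖u‖ + 1)) with hl
    have hn : 0 < ‖u‖ + 1 := by positivity
    have hl0 : 0 < l := by rw [hl]; positivity
    have hfix : τ ((l : ℂ) • u) = (l : ℂ) • u := by
      rw [τsmulC, Complex.conj_ofReal, hu]
    have hle : ‖(l : ℂ) • u‖ ≤ 1 / 2 := by
      rw [norm_smul, Complex.norm_real, Real.norm_of_nonneg hl0.le, hl, div_mul_eq_mul_div,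
        one_mul, div_le_div_iff₀ (by positivity) (by norm_num)]
      linarith [norm_nonneg u]
    obtain ⟨a, ha⟩ := henum ((l : ℂ) • u) (fun i => by
      have := congrArg (fun v : Fm Λ B => v i) hfix
      exact this) hle
    have h1 : (l : ℂ) • u ∈ P := by rw [← ha]; exact hsD a
    have h2 := Psmul ((l : ℂ)⁻¹) _ h1
    rwa [smul_smul, inv_mul_cancel₀ (by exact_mod_cast hl0.ne'), one_smul] at h2
  have Pall : ∀ u, u ∈ P := by
    intro u
    have h1 : (1 / 2 : ℂ) • (u + τ u) ∈ P := by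
      refine Psmul _ _ (Preal _ ?_)
      rw [τadd, τinv, add_comm]
    have h2 : Complex.I • u - Complex.I • τ u ∈ P := by
      refine Preal _ ?_
      rw [τsub, τsmulC, τsmulC, τinv, Complex.conj_I, neg_smul, neg_smul]
      abel
    have h3 := Padd _ _ h1 (Psmul (-(Complex.I / 2)) _ h2)
    have h4 : (1 / 2 : ℂ) • (u + τ u) + (-(Complex.I / 2)) • (Complex.I • u - Complex.I • τ u)
        = u := by
      rw [smul_sub, smul_smul, smul_smul]
      have h5 : -(Complex.I / 2) * Complex.I = (1 / 2 : ℂ) := by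
        have := Complex.I_mul_I
        linear_combination (-(1 : ℂ) / 2) * this
      rw [h5, smul_add]
      have h6 : (1 / 2 : ℂ) • u + (1 / 2 : ℂ) • τ u + ((1 / 2 : ℂ) • u - (1 / 2 : ℂ) • τ u)
          = (1 / 2 : ℂ) • u + (1 / 2 : ℂ) • u := by abel
      rw [h6, ← add_smul]
      norm_num
    rwa [h4] at h3
  refine h2 B (Fm Λ B ⧸ M.K D) M.ε M.ε_le σ hadd hmul hsmul hinv hnorm hε τW ?_ ?_ ?_ ?_ (π M.m)
    ?_ hsq ?_ ?_ ?_
  · intro s t
    obtain ⟨u, rfl⟩ := hπsurj s
    obtain ⟨v, rfl⟩ := hπsurj t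
    rw [← map_add, τWπ, τWπ, τWπ, τadd, map_add]
  · intro b w
    obtain ⟨u, rfl⟩ := hπsurj w
    rw [← map_smul, τWπ, τWπ, τsmul, map_smul]
  · intro w
    obtain ⟨u, rfl⟩ := hπsurj w
    rw [τWπ u, τWπ (τ u), τinv]
  · intro w
    refine le_of_forall_pos_lt_add (fun δ hδ => ?_)
    obtain ⟨u, hu, hun⟩ := Submodule.Quotient.norm_mk_lt w hδ
    have hu' : π u = w := hu
    rw [← hu', τWπ, hu']
    calc ‖π (τ u)‖ ≤ ‖τ u‖ := hπnorm _
      _ = ‖u‖ := τnorm u
      _ < _ := hun
  · rw [τWπ, τm]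
  · intro hcon
    rw [← hmapRF] at hcon
    obtain ⟨u, hu, hum⟩ := Submodule.mem_map.mp hcon
    apply hmD
    refine Submodule.mem_sup.mpr ⟨u, hu, M.m - u, ?_, by abel⟩
    rw [← hπker, map_sub, hum, sub_self]
  · intro w
    obtain ⟨u, rfl⟩ := hπsurj w
    obtain ⟨c, hc⟩ := Pall u
    refine ⟨c, ?_⟩
    rw [← hπC, ← map_sub]
    exact hmapRFK _ hc
  · refine map_mem_closure hπcont (h6 Λ B M) (fun u hu => ?_)
    show π u ∈ _
    exact hmapRFK u (Submodule.mem_sup_left hu)

end Pool.Agent.H5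

end

section

/-!
# Item H1: bookkeeping on the initial ordinal of the continuum
-/

set_option autoImplicit false

namespace Pool.Agent.H5

open Cardinal Set

theorem H1_mk : #Lam = Cardinal.continuum := by
  rw [Cardinal.mk_toType, Cardinal.card_ord]

theorem H1_cof : Cardinal.aleph0 < Order.cof Lam := by
  rw [Ordinal.cof_toType, ← Cardinal.two_power_aleph0]
  exact Cardinal.lt_cof_ord_power le_rfl (by norm_num)

theorem H1_bdd (C : Set Lam) (hC : C.Countable) : ∃ b : Lam, C ⊆ Iio b := by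
  by_contra h
  push Not at h
  have hc : IsCofinal C := by
    intro b
    obtain ⟨a, ha, hb⟩ := Set.not_subset.mp (h b)
    exact ⟨a, ha, not_lt.mp hb⟩
  have h1 : Order.cof Lam ≤ #C := Order.cof_le hc
  have h2 : #C ≤ Cardinal.aleph0 := Cardinal.le_aleph0_iff_set_countable.mpr hC
  exact absurd (lt_of_lt_of_le H1_cof (h1.trans h2)) (lt_irrefl _)

theorem prf_H1 : S_H1 := by
  classical
  intro Z sup hZ hcount ⟨z0, hz0⟩
  -- a surjection onto `Z × Lam`
  have : Nonempty Z := ⟨z0⟩
  have hne : Nonempty Lam := by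
    rw [← Cardinal.mk_ne_zero_iff, H1_mk]
    exact Cardinal.continuum_ne_zero
  have hprod : #(Z × Lam) ≤ #Lam := by
    rw [Cardinal.mk_prod, Cardinal.lift_id, Cardinal.lift_id, H1_mk]
    calc #Z * Cardinal.continuum ≤ Cardinal.continuum * Cardinal.continuum :=
          mul_le_mul' hZ le_rfl
      _ = Cardinal.continuum := Cardinal.continuum_mul_self
  obtain ⟨j⟩ := (Cardinal.le_def _ _).mp hprod
  set p : Lam → Z × Lam := Function.invFun j with hp
  have hpj : ∀ x, p (j x) = x := Function.leftInverse_invFun j.injective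
  set h : Lam → Z := fun a => (p a).1 with hh
  have hfib : ∀ (z : Z) (b : Lam), ∃ a, b ≤ a ∧ h a = z := by
    intro z b
    by_contra hcon
    push Not at hcon
    have hinj : Function.Injective (fun c : Lam => j (z, c)) := by
      intro c c' hcc
      have := j.injective hcc
      exact (Prod.ext_iff.mp this).2
    have hsub : ∀ c : Lam, j (z, c) ∈ Iio b := by
      intro c
      by_contra hc
      have hbc : b ≤ j (z, c) := not_lt.mp hc
      exact hcon _ hbc (by simp [hh, hpj])
    have h1 : #Lam ≤ #(Iio b) :=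
      Cardinal.mk_le_of_injective (f := fun c : Lam => (⟨j (z, c), hsub c⟩ : Iio b)) (by
        intro c c' hcc
        exact hinj (Subtype.ext_iff.mp hcc))
    have h2 : #(Iio b) < Cardinal.continuum := Cardinal.mk_Iio_toType_ord_lt b
    rw [H1_mk] at h1
    exact absurd (lt_of_le_of_lt h1 h2) (lt_irrefl _)
  refine ⟨fun a => if sup (h a) ⊆ Iio a then h a else z0, ?_, ?_⟩
  · intro a
    by_cases ha : sup (h a) ⊆ Iio a
    · simp only [if_pos ha]; exact ha
    · simp only [if_neg ha, hz0]; exact empty_subset _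
  · intro z
    obtain ⟨b, hb⟩ := H1_bdd (sup z) (hcount z)
    obtain ⟨a, hba, ha⟩ := hfib z b
    refine ⟨a, ?_⟩
    have : sup (h a) ⊆ Iio a := by
      rw [ha]
      exact hb.trans (Iio_subset_Iio hba)
    simp only [if_pos this]
    exact ha

end Pool.Agent.H5

end

section

/-!
# Item H2: cardinality of `ℓ¹` spaces
-/

set_option autoImplicit false

namespace Pool.Agent.H5

open Cardinal Set

/-- the support of an element of an `ℓ¹` space is countable -/
theorem H2_supp (ι B : Type) [NormedAddCommGroup B] (u : lp (fun _ : ι => B) 1) :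
    {i | u i ≠ 0}.Countable := by
  have h : Summable fun i => ‖u i‖ := by
    have := u.2.summable (by norm_num)
    simpa using this
  have h1 := h.countable_support
  refine h1.mono ?_
  intro i hi
  simpa [Function.mem_support] using hi

theorem H2_enum (ι B : Type) [NormedAddCommGroup B] (u : lp (fun _ : ι => B) 1) :
    ∃ s : ℕ → Option (ι × B), ∀ i b, (some (i, b) ∈ Set.range s ↔ u i = b ∧ b ≠ 0) := by
  classical
  have hc : ((fun i => (some (i, u i) : Option (ι × B))) '' {i | u i ≠ 0} ∪ {none}).Countable :=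
    ((H2_supp ι B u).image _).union (Set.countable_singleton _)
  obtain ⟨s, hs⟩ := hc.exists_eq_range ⟨none, Or.inr rfl⟩
  refine ⟨s, fun i b => ?_⟩
  rw [← hs]
  constructor
  · rintro (⟨j, hj, hjb⟩ | h)
    · simp only [Option.some.injEq, Prod.mk.injEq] at hjb
      obtain ⟨rfl, rfl⟩ := hjb
      exact ⟨rfl, hj⟩
    · simp at h
  · rintro ⟨rfl, hb⟩
    exact Or.inl ⟨i, hb, rfl⟩

theorem prf_H2 : S_H2 := by
  classical
  intro ι B _ hι hB
  choose s hs using H2_enum ι B
  have hinj : Function.Injective s := by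
    intro u v huv
    apply Subtype.ext
    funext i
    show u i = v i
    by_cases hu : u i = 0
    · by_contra hv
      have h1 : some (i, v i) ∈ Set.range (s v) :=
        (hs v i (v i)).mpr ⟨rfl, fun h => hv (by rw [hu, h])⟩
      rw [← huv] at h1
      exact hv ((hs u i (v i)).mp h1).1
    · have h1 : some (i, u i) ∈ Set.range (s u) := (hs u i (u i)).mpr ⟨rfl, hu⟩
      rw [huv] at h1
      exact ((hs v i (u i)).mp h1).1.symm
  calc #(lp (fun _ : ι => B) 1) ≤ #(ℕ → Option (ι × B)) := Cardinal.mk_le_of_injective hinj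
    _ = #(Option (ι × B)) ^ Cardinal.aleph0 := by
        rw [← Cardinal.mk_nat, Cardinal.power_def]
    _ ≤ Cardinal.continuum ^ Cardinal.aleph0 := by
        refine Cardinal.power_le_power_right ?_
        rw [Cardinal.mk_option, Cardinal.mk_prod, Cardinal.lift_id, Cardinal.lift_id]
        calc #ι * #B + 1 ≤ Cardinal.continuum * Cardinal.continuum + 1 :=
              add_le_add (mul_le_mul' hι hB) le_rfl
          _ = Cardinal.continuum := by
              rw [Cardinal.continuum_mul_self]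
              exact Cardinal.add_one_eq Cardinal.aleph0_le_continuum
    _ = Cardinal.continuum := Cardinal.continuum_power_aleph0

end Pool.Agent.H5

end

section

/-!
# Item H3: cardinality of the algebra of power series
-/

set_option autoImplicit false

namespace Pool.Agent.H5

open Cardinal Set

theorem H3_mkLam : #Lam = Cardinal.continuum := by
  rw [Cardinal.mk_toType, Cardinal.card_ord]

theorem H3_mkVr : #(Vr Lam) ≤ Cardinal.continuum := by
  let φ : Vr Lam → (ℕ ⊕ Lam) ⊕ (Lam × Bool) := fun j => match j with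
    | Vr.base n => Sum.inl (Sum.inl n)
    | Vr.lett a => Sum.inl (Sum.inr a)
    | Vr.root a b => Sum.inr (a, b)
  have hφ : Function.Injective φ := by
    intro j j' h
    cases j <;> cases j' <;> simp_all [φ]
  refine (Cardinal.mk_le_of_injective hφ).trans ?_
  rw [Cardinal.mk_sum, Cardinal.mk_sum, Cardinal.mk_prod]
  simp only [Cardinal.lift_id, H3_mkLam, Cardinal.mk_nat, Cardinal.mk_bool]
  have h1 : Cardinal.aleph0 + Cardinal.continuum = Cardinal.continuum :=
    Cardinal.aleph0_add_continuum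
  have h2 : Cardinal.continuum * 2 ≤ Cardinal.continuum * Cardinal.continuum :=
    mul_le_mul' le_rfl ((Cardinal.nat_lt_continuum 2).le)
  rw [Cardinal.continuum_mul_self] at h2
  calc Cardinal.aleph0 + Cardinal.continuum + Cardinal.continuum * 2
      ≤ Cardinal.continuum + Cardinal.continuum := add_le_add h1.le h2
    _ = Cardinal.continuum := Cardinal.continuum_add_self

theorem prf_H3 (h2 : S_H2) : S_H3 := by
  have h1 : #(Vr Lam →₀ ℕ) ≤ Cardinal.continuum := by
    have : Infinite (Vr Lam) := Infinite.of_injective (fun n : ℕ => (Vr.base n : Vr Lam))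
      (fun n m h => by cases h; rfl)
    rw [Cardinal.mk_finsupp_of_infinite, Cardinal.mk_nat]
    exact max_le H3_mkVr Cardinal.aleph0_le_continuum
  exact h2 (Vr Lam →₀ ℕ) ℂ h1 (by rw [Cardinal.mk_complex])

end Pool.Agent.H5

end

section

/-!
# H4: a root closed symmetric tower exists
-/

open Topology Filter Set
open scoped ENNReal ComplexConjugate

set_option autoImplicit false

namespace Pool.Agent.H5

/-- the levels in `Lam` of the variables occurring in `p` -/
def H4_sup (p : L1 (Vr Lam)) : Set Lam :=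
  {a | ∃ mu, p.cf mu ≠ 0 ∧ ∃ i ∈ mu.support, lvl i = ((a : WithTop Lam) : WithBot (WithTop Lam))}

theorem H4_sup_countable (p : L1 (Vr Lam)) : (H4_sup p).Countable := by
  have h1 : {mu | p.cf mu ≠ 0}.Countable := by
    have h := p.summable.countable_support
    refine h.mono ?_
    intro mu hmu
    rw [Function.mem_support]
    exact norm_ne_zero_iff.mpr hmu
  have h2 : (⋃ mu ∈ {mu | p.cf mu ≠ 0}, ((mu.support : Finset (Vr Lam)) : Set (Vr Lam))).Countable :=
    h1.biUnion (fun mu _ => (Finset.finite_toSet _).countable)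
  have h3 : {x : WithBot (WithTop Lam) | ∃ i ∈ (⋃ mu ∈ {mu | p.cf mu ≠ 0},
      ((mu.support : Finset (Vr Lam)) : Set (Vr Lam))), lvl i = x}.Countable :=
    h2.image lvl
  have hinj : Function.Injective (fun a : Lam => ((a : WithTop Lam) : WithBot (WithTop Lam))) := by
    intro a b hab
    exact WithTop.coe_injective (WithBot.coe_injective hab)
  refine (h3.preimage hinj).mono ?_
  rintro a ⟨mu, hmu, i, hi, hl⟩
  refine ⟨i, ?_, hl⟩
  simp only [mem_iUnion]
  exact ⟨mu, hmu, hi⟩

theorem H4_sup_zero : H4_sup 0 = ∅ := by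
  ext a
  simp only [mem_empty_iff_false, iff_false]
  rintro ⟨mu, hmu, _⟩
  exact hmu (L1.cf_zero mu)

theorem H4_low (a : Lam) (p : L1 (Vr Lam)) (h : H4_sup p ⊆ Iio a) :
    Low lvl (lvl (Vr.lett a)) p := by
  intro mu hmu i hi
  have hlow : ∀ b : Lam, lvl i = ((b : WithTop Lam) : WithBot (WithTop Lam)) →
      lvl i < lvl (Vr.lett a) := by
    intro b hb
    have hba : b < a := h ⟨mu, hmu, i, hi, hb⟩
    rw [hb]
    show ((b : WithTop Lam) : WithBot (WithTop Lam)) < ((a : WithTop Lam) : WithBot (WithTop Lam))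
    exact WithBot.coe_lt_coe.mpr (WithTop.coe_lt_coe.mpr hba)
  cases i with
  | base n =>
    show (⊥ : WithBot (WithTop Lam)) < ((a : WithTop Lam) : WithBot (WithTop Lam))
    exact WithBot.bot_lt_coe _
  | lett b => exact hlow b rfl
  | root b c => exact hlow b rfl

theorem prf_H4 (h1 : S_H1) (h3 : S_H3) : S_H4 := by
  obtain ⟨f, hf1, hf2⟩ := h1 {p : L1 (Vr Lam) // ‖p‖ ≤ 1} (fun p => H4_sup p.1)
    ((Cardinal.mk_subtype_le _).trans h3) (fun p => H4_sup_countable p.1)
    ⟨⟨0, by rw [norm_zero]; exact zero_le_one⟩, H4_sup_zero⟩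
  refine ⟨fun a => (f a).1, fun a => (f a).2, fun a => H4_low a _ (hf1 a), ?_⟩
  intro p hp
  obtain ⟨a, ha⟩ := hf2 ⟨p, hp⟩
  refine ⟨Vr.root a false, trivial, ?_⟩
  show (f a).1 = p
  rw [ha]

end Pool.Agent.H5

end

section

open Topology Filter Set

set_option autoImplicit false

namespace Pool.Agent.H5

/-- the levels of the variables which occur in `p` -/
def H5_Lv (p : L1 (Vr Lam)) : Set Lam :=
  {a | ∃ μ, p.cf μ ≠ 0 ∧ ∃ j ∈ μ.support, lvl j = ((a : WithTop Lam) : WithBot (WithTop Lam))}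

theorem H5_Lv_countable (p : L1 (Vr Lam)) : (H5_Lv p).Countable := by
  have h1 : (Function.support fun μ => ‖p.cf μ‖).Countable := p.summable.countable_support
  have h2 : {μ | p.cf μ ≠ 0}.Countable := by
    refine h1.mono ?_
    intro μ hμ
    exact norm_ne_zero_iff.mpr hμ
  have h3 : H5_Lv p ⊆ ⋃ μ ∈ {μ | p.cf μ ≠ 0}, ⋃ j ∈ μ.support,
      {a : Lam | lvl j = ((a : WithTop Lam) : WithBot (WithTop Lam))} := by
    rintro a ⟨μ, hμ, j, hj, hja⟩
    simp only [mem_iUnion]
    exact ⟨μ, hμ, j, hj, hja⟩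
  refine Set.Countable.mono h3 ?_
  refine h2.biUnion fun μ _ => ?_
  refine Set.Countable.biUnion (Finset.countable_toSet _) fun j _ => ?_
  refine Set.Subsingleton.countable ?_
  intro a ha b hb
  have h4 : ((a : WithTop Lam) : WithBot (WithTop Lam)) = ((b : WithTop Lam) :
    WithBot (WithTop Lam)) := (show lvl j = _ from ha).symm.trans hb
  exact WithTop.coe_injective (WithBot.coe_injective h4)

theorem prf_H5 (h1 : S_H1) (h2 : S_H2) (h3 : S_H3) : S_H5 := by
  classical
  intro v0 hv1 hv2 Z hZ0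
  set T := tw v0 hv1 hv2 with hT
  have hsurj : Function.Surjective T.qt := Ideal.Quotient.mkₐ_surjective ℂ T.J
  have hB : Cardinal.mk T.B ≤ Cardinal.continuum :=
    (Cardinal.mk_le_of_surjective hsurj).trans h3
  have hL : Cardinal.mk Lam = Cardinal.continuum := Cardinal.mk_ord_toType _
  have hι : Cardinal.mk (ℕ ⊕ Lam) ≤ Cardinal.continuum := by
    rw [Cardinal.mk_sum, Cardinal.lift_id, Cardinal.lift_id, hL, Cardinal.mk_nat]
    simp
  have hF : Cardinal.mk (Fm Lam T.B) ≤ Cardinal.continuum := h2 (ℕ ⊕ Lam) T.B hι hB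
  have hZ : Cardinal.mk Z ≤ Cardinal.continuum := (Cardinal.mk_set_le Z).trans hF
  choose lf hlf using hsurj
  let sup : Z → Set Lam := fun u =>
    (⋃ i ∈ {i | (u : Fm Lam T.B) i ≠ 0}, H5_Lv (lf ((u : Fm Lam T.B) i))) ∪
      {a | (u : Fm Lam T.B) (Sum.inr a) ≠ 0}
  have hcount : ∀ u : Fm Lam T.B, {i | u i ≠ 0}.Countable := by
    intro u
    have hs := u.2.summable (by norm_num)
    simp only [ENNReal.toReal_one, Real.rpow_one] at hs
    refine hs.countable_support.mono ?_
    intro i hi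
    exact norm_ne_zero_iff.mpr hi
  have hsup : ∀ u, (sup u).Countable := by
    intro u
    refine Set.Countable.union ?_ ?_
    · exact (hcount u).biUnion fun i _ => H5_Lv_countable _
    · have : {a | (u : Fm Lam T.B) (Sum.inr a) ≠ 0} =
        Sum.inr ⁻¹' {i | (u : Fm Lam T.B) i ≠ 0} := rfl
      rw [this]
      exact (hcount u).preimage Sum.inr_injective
  obtain ⟨f, hf1, hf2⟩ := h1 Z sup hZ hsup ⟨⟨0, hZ0⟩, by
    rw [Set.eq_empty_iff_forall_notMem]
    rintro a (ha | ha)
    · simp only [mem_iUnion] at ha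
      obtain ⟨i, hi, _⟩ := ha
      exact hi rfl
    · exact ha rfl⟩
  refine ⟨fun a => (f a : Fm Lam T.B), fun a => (f a).2, ?_, ?_, ?_⟩
  · intro u hu
    obtain ⟨a, ha⟩ := hf2 ⟨u, hu⟩
    exact ⟨a, congrArg Subtype.val ha⟩
  · intro a i
    by_cases h0 : (f a : Fm Lam T.B) i = 0
    · refine ⟨0, ?_, ?_⟩
      · intro μ hμ
        exact absurd rfl hμ
      · rw [map_zero]
        exact h0.symm
    · refine ⟨lf ((f a : Fm Lam T.B) i), ?_, hlf _⟩
      intro μ hμ j hj
      have hkey : ∀ b : Lam, lvl j = ((b : WithTop Lam) : WithBot (WithTop Lam)) → b < a := by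
        intro b hb
        apply hf1 a
        left
        simp only [mem_iUnion]
        exact ⟨i, h0, μ, hμ, j, hj, hb⟩
      show lvl j < ((a : WithTop Lam) : WithBot (WithTop Lam))
      cases j with
      | base n => exact WithBot.bot_lt_coe _
      | lett b => exact WithBot.coe_lt_coe.mpr (WithTop.coe_lt_coe.mpr (hkey b rfl))
      | root b c => exact WithBot.coe_lt_coe.mpr (WithTop.coe_lt_coe.mpr (hkey b rfl))
  · intro a b hab
    by_contra hcon
    have : b < a := hf1 a (Or.inr hcon)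
    exact absurd this (not_lt.mpr hab)

end Pool.Agent.H5

end

section

open Topology Filter Set

set_option autoImplicit false

namespace Pool.Agent.H5

theorem X1_low {Ω V : Type} [LinearOrder Ω] {lev : V → Ω} {g : Ω} {j : V} (h : lev j < g) :
    Low lev g (L1.X j) := by
  classical
  intro μ hμ i hi
  have h1 : (L1.X j : L1 V).cf μ = MvPowerSeries.coeff μ
    (MvPowerSeries.monomial (Finsupp.single j 1) (1 : ℂ) : MvPowerSeries V ℂ) := rfl
  rw [h1, MvPowerSeries.coeff_monomial] at hμ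
  have h2 : μ = Finsupp.single j 1 := by
    by_contra hcon
    exact hμ (if_neg hcon)
  rw [h2] at hi
  have h3 : i = j := by
    have := Finsupp.support_single_subset hi
    exact Finset.mem_singleton.mp this
  rw [h3]
  exact h

theorem X1_chi_X {Ω V : Type} [LinearOrder Ω] (T : Twr Ω V) (x : Dk V) (hx : x ∈ T.pts) (j : V) :
    T.chi x hx (T.qt (L1.X j)) = x.1 j := by
  rw [Twr.chi_qt]
  exact zc_apply j x

theorem prf_X1 (hF : S_F1) (hRN : S_RN) (_h3 : S_D3) (h4 : S_D4) : S_X1 := by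
  intro Λ _ _ v0 h1 h2 hroot e he he0 M hε hz hy hBl
  set T := tw v0 h1 h2 with hT
  have hsurj : ∀ t : T.B, ∃ p, T.qt p = t := fun t => Ideal.Quotient.mkₐ_surjective ℂ T.J t
  constructor
  · -- RN0
    intro N r hr
    choose p hp using fun k => hsurj (r k)
    have hpe : ∀ k, ev (p k) e = 0 := by
      intro k
      rw [← T.chi_qt e he, hp k, ← hε]
      exact hr k
    obtain ⟨x', hx', _, hval, _, hor⟩ := hF (WithBot (WithTop Λ)) (Vr Λ) T e he univ isOpen_univ
      (mem_univ _) N (fun k => ev (p k)) (fun k => ⟨p k, rfl⟩) (ev 1) ⟨1, rfl⟩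
    rcases hor with hor | hor
    · exact absurd (mem_univ _) hor
    have hex : ∃ n : ℕ, ¬ ‖x'.1 (Vr.base n)‖ < 1 := by
      by_contra hcon
      push Not at hcon
      have hsub : Set.range (Vr.base : ℕ → Vr Λ) ⊆ {a | a ∈ T.letters ∧ ‖zc a x'‖ < 1} := by
        rintro _ ⟨n, rfl⟩
        refine ⟨fun h => h, ?_⟩
        rw [zc_apply]
        exact hcon n
      have hinf : (Set.range (Vr.base : ℕ → Vr Λ)).Infinite :=
        Set.infinite_range_of_injective (fun a b h => by injection h)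
      have := (hinf.mono hsub).encard_eq
      rw [this] at hor
      exact absurd hor (not_lt.mpr le_top)
    obtain ⟨n, hn⟩ := hex
    refine ⟨T.chi x' hx', ?_, n, ?_⟩
    · intro k
      rw [← hp k, T.chi_qt]
      exact (hval k).trans (hpe k)
    · rw [hz n, X1_chi_X]
      intro h0
      rw [h0] at hn
      simp at hn
  · -- RN1
    intro lam hne hlim L₀ hL₀ N r hr
    choose p hp using fun k => hsurj (r k)
    have hpe : ∀ k, ev (p k) e = 0 := by
      intro k
      rw [← T.chi_qt e he, hp k, ← hε]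
      exact hr k
    obtain ⟨a0, ha0⟩ := hne
    have hlim' : ∀ g < (lam : WithBot (WithTop Λ)), ∃ g' < (lam : WithBot (WithTop Λ)), g < g' := by
      intro g hg
      induction g using WithBot.recBotCoe with
      | bot => exact ⟨((a0 : WithTop Λ) : WithBot (WithTop Λ)), WithBot.coe_lt_coe.mpr ha0,
          WithBot.bot_lt_coe _⟩
      | coe b =>
        have hb : b < lam := WithBot.coe_lt_coe.mp hg
        induction b using WithTop.recTopCoe with
        | top => exact absurd hb (not_lt.mpr le_top)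
        | coe b' =>
          obtain ⟨g', hg'1, hg'2⟩ := hlim b' hb
          exact ⟨((g' : WithTop Λ) : WithBot (WithTop Λ)), WithBot.coe_lt_coe.mpr hg'2,
            WithBot.coe_lt_coe.mpr (WithTop.coe_lt_coe.mpr hg'1)⟩
    obtain ⟨g, hglam, hg0, x, hx, hxY, hxp, hxL, hfin⟩ :=
      hRN (WithBot (WithTop Λ)) (Vr Λ) T (lam : WithBot (WithTop Λ))
        ((a0 : WithTop Λ) : WithBot (WithTop Λ)) (WithBot.coe_lt_coe.mpr ha0) hlim' e he he0
        (Vr.lett '' L₀) (hL₀.image _) N p hpe
    obtain ⟨γ, rfl⟩ : ∃ γ : Λ, g = ((γ : WithTop Λ) : WithBot (WithTop Λ)) := by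
      induction g using WithBot.recBotCoe with
      | bot => exact absurd hg0 (not_le.mpr (WithBot.bot_lt_coe _))
      | coe b =>
        have hb : b < lam := WithBot.coe_lt_coe.mp hglam
        induction b using WithTop.recTopCoe with
        | top => exact absurd hb (not_lt.mpr le_top)
        | coe b' => exact ⟨b', rfl⟩
    obtain ⟨ρ, hρn, hρBl, hρl, hρε⟩ := h4 (WithBot (WithTop Λ)) (Vr Λ) T hroot e x he hx _ hxY
    refine ⟨γ, WithBot.coe_lt_coe.mp hglam, ρ, fun a => x.1 (Vr.lett a), hρn, ?_, ?_, ?_, ?_, ?_,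
      ?_, ?_, ?_⟩
    · intro t ht
      rw [hBl γ] at ht
      exact hρBl t ht
    · intro n
      rw [hz n]
      exact hρBl _ ⟨L1.X (Vr.base n), X1_low (WithBot.bot_lt_coe _), rfl⟩
    · intro a ha
      rw [hy a]
      exact hρBl _ ⟨L1.X (Vr.lett a),
        X1_low (WithBot.coe_lt_coe.mpr (WithTop.coe_lt_coe.mpr ha)), rfl⟩
    · intro a ha
      rw [hy a]
      exact hρl (Vr.lett a) (fun h => h) (WithBot.coe_le_coe.mpr (WithTop.coe_le_coe.mpr ha))
    · intro a
      exact x.2 _
    · intro a haL hγa halam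
      exact hxL (Vr.lett a) ⟨a, haL, rfl⟩ ⟨fun h => h,
        WithBot.coe_le_coe.mpr (WithTop.coe_le_coe.mpr hγa), WithBot.coe_lt_coe.mpr halam⟩
    · have hinj : Function.Injective (Vr.lett : Λ → Vr Λ) := fun a b h => by injection h
      refine (hfin.preimage hinj.injOn).subset ?_
      rintro a ⟨hγa, halam, hxa⟩
      exact ⟨⟨fun h => h, WithBot.coe_le_coe.mpr (WithTop.coe_le_coe.mpr hγa),
        WithBot.coe_lt_coe.mpr halam⟩, hxa⟩
    · intro k
      rw [hε, hρε, ← hp k, T.chi_qt]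
      exact hxp k

end Pool.Agent.H5

end
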